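import Pool.Agent.Shared.Brouwer.Basic

/-! A finite-dimensional saddle point theorem, and convergence of Euler schemes. -/

set_option autoImplicit false

open scoped Topology NNReal
open Set Metric Filter

namespace Pool.Agent.Lib.MP_55a7f7_gt

theorem no_homotopy {V : Type} [NormedAddCommGroup V] [InnerProductSpace ℝ V]
    [FiniteDimensional ℝ V] {r : ℝ} (hr : 0 < r) (G : ℝ × V → V) (hG : Continuous G)
    (h0 : ∀ u, G (0, u) = u) (h1 : ∀ t ∈ Icc (0 : ℝ) 1, ∀ u, ‖u‖ = r → G (t, u) ≠ 0)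
    (h2 : ∀ u, ‖u‖ ≤ r → G (1, u) ≠ 0) : False := by
  have hm : ∀ u : V, 0 < max r (2 * ‖u‖) := fun u => lt_max_of_lt_left hr
  set g : V → V := fun u => G (min 1 (2 - 2 * ‖u‖ / r), (2 * r / max r (2 * ‖u‖)) • u) with hg
  have gc : Continuous g := hG.comp ((by fun_prop : Continuous fun u : V =>
    min 1 (2 - 2 * ‖u‖ / r)).prodMk ((continuous_const.div (by fun_prop) fun u =>
      (hm u).ne').smul continuous_id))
  have gne : ∀ u, ‖u‖ ≤ r → g u ≠ 0 := fun u hu => by
    have h3 : ‖u‖ / r ≤ 1 := (div_le_one hr).2 hu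
    rcases le_total (2 * ‖u‖) r with h | h
    · have h4 : 2 * ‖u‖ / r ≤ 1 := (div_le_one hr).2 h
      simp only [hg, min_eq_left (by linarith : (1 : ℝ) ≤ 2 - 2 * ‖u‖ / r), max_eq_left h]
      refine h2 _ ?_
      rw [norm_smul, mul_div_assoc, div_self hr.ne', mul_one]
      simpa using h
    · refine h1 _ ⟨le_min zero_le_one (by rw [mul_div_assoc]; linarith), min_le_left _ _⟩ _ ?_
      have h5 : 0 < ‖u‖ := by linarith
      rw [max_eq_right h, norm_smul, Real.norm_of_nonneg (by positivity)]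
      field_simp
  have gs : ∀ u, ‖u‖ = r → g u = u := fun u hu => by
    simp only [hg, hu, max_eq_right (by linarith : r ≤ 2 * r)]
    rw [mul_div_assoc, div_self hr.ne', div_self (by positivity)]
    norm_num [h0]
  have hn : ∀ u, ‖u‖ ≤ r → ‖(-(r / ‖g u‖)) • g u‖ = r := fun u hu => by
    have := norm_pos_iff.2 (gne u hu)
    rw [norm_smul, norm_neg, Real.norm_of_nonneg (by positivity)]
    field_simp
  obtain ⟨u, hu, hf⟩ := Pool.Agent.Shared.Brouwer.brouwer hr (fun u => (-(r / ‖g u‖)) • g u)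
    ((continuousOn_const.div gc.norm.continuousOn fun u hu =>
      norm_ne_zero_iff.2 (gne u (by simpa using hu))).neg.smul gc.continuousOn)
    fun u hu => by simpa using (hn u (by simpa using hu)).le
  have h3 : ‖u‖ = r := by rw [← hf]; exact hn u (by simpa using hu)
  simp only [gs u h3, h3, div_self hr.ne', neg_smul, one_smul] at hf
  have h4 : (2 : ℝ) • u = 0 := by rw [two_smul]; nth_rewrite 1 [← hf]; simp
  rw [(smul_eq_zero.1 h4).resolve_left two_ne_zero, norm_zero] at h3
  exact hr.ne h3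

theorem saddle_aux {E V : Type} [NormedAddCommGroup E] [InnerProductSpace ℝ E]
    [FiniteDimensional ℝ E] [NormedAddCommGroup V] [InnerProductSpace ℝ V]
    [FiniteDimensional ℝ V] (F : E → ℝ) (hF : ContDiff ℝ 1 F) (Ψ : E → V) (hΨ : Continuous Ψ)
    {a r : ℝ} (hr : 0 < r) (hZ : ∀ z, Ψ z = 0 → a ≤ F z) (D : V → E) (hD : Continuous D)
    (h1 : ∀ u, Ψ (D u) = u) (h2 : ∀ u, ‖u‖ = r → F (D u) < a) {δ : ℝ} (hδ : 0 < δ) :
    ∃ z, ‖fderiv ℝ F z‖ < δ := by
  by_contra hne
  push Not at hne
  have : CompleteSpace E := FiniteDimensional.complete ℝ E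
  have hd : Differentiable ℝ F := hF.differentiable one_ne_zero
  have hc : Continuous (fderiv ℝ F) := hF.continuous_fderiv one_ne_zero
  set G : E → E := fun z => (InnerProductSpace.toDual ℝ E).symm (fderiv ℝ F z) with hG
  have Gn : ∀ z, ‖G z‖ = ‖fderiv ℝ F z‖ := fun z => by simp [hG]
  have G0 : ∀ z, 0 < ‖G z‖ := fun z => by rw [Gn]; exact hδ.trans_le (hne z)
  have Gc : Continuous G := (InnerProductSpace.toDual ℝ E).symm.continuous.comp hc
  set W : E → E := fun z => ‖G z‖⁻¹ • G z with hW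
  have Wc : Continuous W := (Gc.norm.inv₀ fun z => (G0 z).ne').smul Gc
  have Wn : ∀ z, ‖W z‖ = 1 := fun z => by
    simp only [hW]; rw [norm_smul, norm_inv, norm_norm, inv_mul_cancel₀ (G0 z).ne']
  have WF : ∀ z, δ ≤ fderiv ℝ F z (W z) := fun z => by
    have : fderiv ℝ F z (W z) = inner ℝ (G z) (W z) := by simp [hG]
    rw [this, hW, inner_smul_right, real_inner_self_eq_norm_sq, sq, ← mul_assoc,
      inv_mul_cancel₀ (G0 z).ne', one_mul, Gn]
    exact hne z
  obtain ⟨R, hR⟩ := (isCompact_closedBall (0 : V) r).exists_bound_of_continuousOn hD.continuousOn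
  obtain ⟨B, hB⟩ := (isCompact_closedBall (0 : V) r).exists_bound_of_continuousOn
    (hF.continuous.comp hD).continuousOn
  set T := 2 * (|B| + |a| + 1) / δ with hT
  have T0 : 0 < T := by positivity
  obtain ⟨h₀, h00, hh⟩ := Metric.uniformContinuousOn_iff.1
    ((isCompact_closedBall (0 : E) (R + 2 * T)).uniformContinuousOn_of_continuous hc.continuousOn)
    (δ / 2) (by positivity)
  obtain ⟨M, hM⟩ := exists_nat_gt (T / h₀ + 1)
  have M1 : (1 : ℝ) < M := by have : 0 < T / h₀ := by positivity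
                              linarith
  have hh1 : T / M < h₀ := by
    rw [div_lt_iff₀ (by linarith)]
    have := (div_lt_iff₀ h00).1 (by linarith : T / h₀ < M)
    linarith
  have hh2 : T / M ≤ T := div_le_self T0.le M1.le
  have step : ∀ z, ‖z‖ ≤ R + T → ∀ τ ∈ Icc 0 (T / M), F (z - τ • W z) ≤ F z - τ * (δ / 2) := by
    intro z hz τ hτ
    have hder : ∀ s : ℝ, HasDerivAt (fun s : ℝ => F (z - s • W z) + s * (δ / 2))
        (fderiv ℝ F (z - s • W z) (-W z) + δ / 2) s := fun s => by
      have h3 : HasDerivAt (fun s : ℝ => z - s • W z) (-W z) s := by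
        simpa using ((hasDerivAt_id s).smul_const (W z)).const_sub z
      have h4 := ((hd _).hasFDerivAt.comp_hasDerivAt s h3).add
        ((hasDerivAt_id s).mul_const (δ / 2))
      rw [one_mul] at h4
      exact h4
    have := antitoneOn_of_deriv_nonpos (convex_Icc 0 (T / M))
      (f := fun s : ℝ => F (z - s • W z) + s * (δ / 2))
      (fun s _ => (hder s).continuousAt.continuousWithinAt)
      (fun s _ => (hder s).differentiableAt.differentiableWithinAt) (fun s hs => by
        have hs := interior_subset hs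
        have h3 : ‖s • W z‖ = s := by rw [norm_smul, Wn, mul_one, Real.norm_of_nonneg hs.1]
        have h4 := hh (z - s • W z) (by
          simpa using (norm_sub_le _ _).trans (by linarith [hs.2])) z (by
          simpa using hz.trans (by linarith)) (by
          rw [dist_eq_norm, sub_sub_cancel_left, norm_neg, h3]; linarith [hs.2])
        have h5 := (fderiv ℝ F (z - s • W z) - fderiv ℝ F z).le_opNorm (W z)
        rw [Wn, mul_one, ← dist_eq_norm, sub_apply] at h5
        rw [(hder s).deriv, map_neg]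
        linarith [WF z, (abs_le.1 h5).1])
      ⟨le_rfl, hτ.1.trans hτ.2⟩ hτ hτ.1
    simp only [zero_smul, sub_zero, zero_mul, add_zero] at this
    linarith
  have iter : ∀ τ ∈ Icc 0 (T / M), ∀ z, ‖z‖ ≤ R → ∀ k : ℕ, k ≤ M →
      ‖(fun z => z - τ • W z)^[k] z‖ ≤ R + k * τ ∧
        F ((fun z => z - τ • W z)^[k] z) ≤ F z - k * τ * (δ / 2) := by
    intro τ hτ z hz k
    induction k with
    | zero => simpa using hz
    | succ k ih =>
      intro hk
      obtain ⟨i1, i2⟩ := ih (by omega)
      have h3 : (k : ℝ) * τ ≤ T := by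
        have h4 : (k : ℝ) ≤ M := by exact_mod_cast (by omega : k ≤ M)
        calc (k : ℝ) * τ ≤ M * (T / M) := mul_le_mul h4 hτ.2 hτ.1 (by linarith)
          _ = T := by field_simp
      rw [Function.iterate_succ_apply']
      refine ⟨(norm_sub_le _ _).trans ?_, (step _ (by linarith) τ hτ).trans ?_⟩
      · rw [norm_smul, Wn, Real.norm_of_nonneg hτ.1]; push_cast; linarith
      · push_cast; linarith
  have cont : ∀ k : ℕ, Continuous fun x : ℝ × V =>
      (fun z => z - (x.1 * (T / M)) • W z)^[k] (D x.2) := by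
    intro k
    induction k with
    | zero => exact hD.comp continuous_snd
    | succ k ih =>
      simp only [Function.iterate_succ_apply']
      exact ih.sub ((continuous_fst.mul continuous_const).smul (Wc.comp ih))
  have hTM : 0 < T / M := by positivity
  refine no_homotopy hr (fun x => Ψ ((fun z => z - (x.1 * (T / M)) • W z)^[M] (D x.2)))
    (hΨ.comp (cont M)) (fun u => ?_) (fun t ht u hu h => ?_) fun u hu h => ?_
  · simp only [zero_mul, zero_smul, sub_zero]
    rw [show (fun z : E => z) = id from rfl, Function.iterate_id, id, h1]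
  · have h3 := (iter (t * (T / M)) ⟨mul_nonneg ht.1 hTM.le, mul_le_of_le_one_left hTM.le ht.2⟩
      (D u) (hR u (by simpa using hu.le)) M le_rfl).2
    have h4 : 0 ≤ M * (t * (T / M)) * (δ / 2) := by have := ht.1; positivity
    linarith [hZ _ h, h2 u hu]
  · have h3 := (iter (1 * (T / M)) ⟨by linarith, by linarith⟩
      (D u) (hR u (by simpa using hu)) M le_rfl).2
    have h4 : M * (1 * (T / M)) * (δ / 2) = |B| + |a| + 1 := by rw [hT]; field_simp
    have h5 : |F (D u)| ≤ B := hB u (by simpa using hu)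
    have h6 : a ≤ F ((fun z => z - (1 * (T / ↑M)) • W z)^[M] (D u)) := hZ _ h
    linarith [le_abs_self B, neg_abs_le a, (abs_le.1 h5).2]

/-- Linking gives almost critical points. -/
theorem saddle {E V : Type} [NormedAddCommGroup E] [NormedSpace ℝ E]
    [FiniteDimensional ℝ E] [NormedAddCommGroup V] [NormedSpace ℝ V]
    [FiniteDimensional ℝ V] (F : E → ℝ) (hF : ContDiff ℝ 1 F) (Ψ : E → V) (hΨ : Continuous Ψ)
    {a : ℝ} (hZ : ∀ z, Ψ z = 0 → a ≤ F z) {U : Set V} (hU : U ∈ 𝓝 0)
    (hD : ∀ S : Set V, IsCompact S → S ⊆ U → 0 ∉ S →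
      ∃ D : V → E, Continuous D ∧ (∀ u, Ψ (D u) = u) ∧ ∀ u ∈ S, F (D u) < a)
    {δ : ℝ} (hδ : 0 < δ) : ∃ z, ‖fderiv ℝ F z‖ ≤ δ := by
  set e := toEuclidean (E := E)
  set f := toEuclidean (E := V)
  obtain ⟨r, r0, hr⟩ := Metric.nhds_basis_closedBall.mem_iff.1
    (f.symm.continuous.continuousAt.preimage_mem_nhds (t := U) (x := 0) (by simpa using hU))
  obtain ⟨D, D1, D2, D3⟩ := hD (f.symm '' sphere 0 r)
    ((isCompact_sphere _ _).image f.symm.continuous)
    (by rintro _ ⟨u, hu, rfl⟩; exact hr (sphere_subset_closedBall hu))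
    (by rintro ⟨u, hu, h⟩
        rw [f.symm.map_eq_zero_iff.1 h] at hu
        simp [r0.ne] at hu)
  set C := ‖e.toContinuousLinearMap‖
  have C0 : 0 ≤ C := norm_nonneg _
  obtain ⟨z, hz⟩ := saddle_aux (F ∘ e.symm) (hF.comp e.symm.contDiff) (f ∘ Ψ ∘ e.symm)
    (by fun_prop) (a := a) r0 (fun z h => hZ _ (f.map_eq_zero_iff.1 h)) (e ∘ D ∘ f.symm)
    (by fun_prop) (fun u => by simp [D2])
    (fun u hu => by simpa using D3 _ ⟨u, by simpa using hu, rfl⟩)
    (δ := δ / (C + 1)) (by positivity)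
  refine ⟨e.symm z, ?_⟩
  have h1 : fderiv ℝ F (e.symm z) = (fderiv ℝ (F ∘ e.symm) z).comp e.toContinuousLinearMap := by
    rw [e.symm.comp_right_fderiv]; ext v; simp
  rw [h1]
  refine (ContinuousLinearMap.opNorm_comp_le _ _).trans ?_
  calc _ ≤ δ / (C + 1) * (C + 1) := by gcongr; linarith
    _ = δ := by field_simp

/-- Convergence of an inexact Euler scheme. -/
theorem euler {V : Type} [NormedAddCommGroup V] [NormedSpace ℝ V] {X : ℝ × V → V} {L : ℝ≥0}
    {M : ℝ} (hL : LipschitzWith L X) (hM : ∀ x, ‖X x‖ ≤ M) {y : ℝ → V}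
    (hy : ∀ t, HasDerivAt y (X (t, y t)) t) {τ η : ℝ} (hτ : 0 < τ) {z : ℕ → V} {N : ℕ}
    (hz : ∀ k < N, ‖z (k + 1) - z k - τ • X (k * τ, z k)‖ ≤ τ * η) (k : ℕ) (hk : k ≤ N) :
    ‖z k - y (k * τ)‖ ≤ Real.exp (L * (k * τ)) *
      (‖z 0 - y 0‖ + k * τ * (|η| + L * (τ * (1 + M)))) := by
  have M0 : 0 ≤ M := (norm_nonneg _).trans (hM (0, 0))
  have hyL : ∀ s t, ‖y s - y t‖ ≤ M * |s - t| := fun s t =>
    convex_univ.norm_image_sub_le_of_norm_hasDerivWithin_le (fun x _ => (hy x).hasDerivWithinAt)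
      (fun x _ => hM _) (mem_univ t) (mem_univ s)
  have loc : ∀ t, ‖y (t + τ) - y t - τ • X (t, y t)‖ ≤ τ * (L * (τ * (1 + M))) := fun t => by
    have := (convex_Icc t (t + τ)).norm_image_sub_le_of_norm_hasDerivWithin_le
      (f := fun s => y s - s • X (t, y t)) (f' := fun s => X (s, y s) - X (t, y t))
      (C := L * (τ * (1 + M)))
      (fun s _ => by
        have h := ((hy s).sub ((hasDerivAt_id s).smul_const (X (t, y t)))).hasDerivWithinAt
          (s := Icc t (t + τ))
        rw [one_smul] at h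
        exact h)
      (fun s hs => by
        refine (hL.norm_sub_le _ _).trans (mul_le_mul_of_nonneg_left ?_ L.2)
        have h1 : |s - t| ≤ τ := abs_le.2 ⟨by linarith [hs.1], by linarith [hs.2]⟩
        have h2 := (hyL s t).trans (mul_le_mul_of_nonneg_left h1 M0)
        rw [Prod.mk_sub_mk, Prod.norm_mk]
        exact max_le (h1.trans (by nlinarith)) (by nlinarith))
      (left_mem_Icc.2 (by linarith)) (right_mem_Icc.2 (by linarith))
    rw [add_sub_cancel_left, Real.norm_of_nonneg hτ.le, mul_comm] at this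
    convert this using 2
    rw [add_smul]; abel
  induction k with
  | zero => simp
  | succ k ih =>
    have h1 := ih (by omega)
    have h2 := hz k (by omega)
    have h3 := loc (k * τ)
    have h4 := hL.norm_sub_le (k * τ, z k) (k * τ, y (k * τ))
    rw [Prod.mk_sub_mk, sub_self, Prod.norm_mk, norm_zero, max_eq_right (norm_nonneg _)] at h4
    set r := |η| + L * (τ * (1 + M)) with hr
    have r0 : 0 ≤ r := by positivity
    have h5 : ‖z (k + 1) - y (k * τ + τ)‖ ≤ (1 + L * τ) * ‖z k - y (k * τ)‖ + τ * r := by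
      have e : z (k + 1) - y (k * τ + τ) = (z (k + 1) - z k - τ • X (k * τ, z k)) +
          (z k - y (k * τ)) + τ • (X (k * τ, z k) - X (k * τ, y (k * τ))) -
          (y (k * τ + τ) - y (k * τ) - τ • X (k * τ, y (k * τ))) := by rw [smul_sub]; abel
      rw [e]
      refine (norm_sub_le _ _).trans ((add_le_add_left norm_add₃_le _).trans ?_)
      rw [norm_smul, Real.norm_of_nonneg hτ.le]
      nlinarith [mul_le_mul_of_nonneg_left h4 hτ.le, mul_le_mul_of_nonneg_left (le_abs_self η) hτ.le]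
    have h6 : 1 + L * τ ≤ Real.exp (L * τ) := by linarith [Real.add_one_le_exp (L * τ)]
    have h7 : 1 ≤ Real.exp (L * (k * τ + τ)) := Real.one_le_exp (by positivity)
    push_cast
    rw [add_mul, one_mul]
    calc _ ≤ Real.exp (L * τ) * (Real.exp (L * (k * τ)) * (‖z 0 - y 0‖ + k * τ * r)) +
          Real.exp (L * (k * τ + τ)) * (τ * r) := by
          refine h5.trans (add_le_add (by gcongr) (le_mul_of_one_le_left (by positivity) h7))
      _ = _ := by rw [← mul_assoc, ← Real.exp_add]; ring_nf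

end Pool.Agent.Lib.MP_55a7f7_gt
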