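import Pool.Agent.Lib.MP_55a7f7_gt.Basic
import Pool.Agent.Lib.MP_55a7f7_gt.Saddle

/-! The discrete action functional and its almost critical points. -/

set_option autoImplicit false

open scoped ContDiff Topology NNReal
open Set Real Filter Finset

namespace Pool.Agent.Lib.MP_55a7f7_gt

/-- The horizontal unit vector with angle `φ`. -/
noncomputable def ec (φ : ℝ) : E3 :=
  cos φ • EuclideanSpace.single 0 (1 : ℝ) + sin φ • EuclideanSpace.single 1 (1 : ℝ)

/-- Its derivative. -/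
noncomputable def ed (φ : ℝ) : E3 :=
  (-sin φ) • EuclideanSpace.single 0 (1 : ℝ) + cos φ • EuclideanSpace.single 1 (1 : ℝ)

@[simp] theorem ec_zero (φ : ℝ) : ec φ 0 = cos φ := by simp [ec]
@[simp] theorem ec_one (φ : ℝ) : ec φ 1 = sin φ := by simp [ec]
@[simp] theorem ec_two (φ : ℝ) : ec φ 2 = 0 := by simp [ec]
@[simp] theorem ed_zero (φ : ℝ) : ed φ 0 = -sin φ := by simp [ed]
@[simp] theorem ed_one (φ : ℝ) : ed φ 1 = cos φ := by simp [ed]
@[simp] theorem ed_two (φ : ℝ) : ed φ 2 = 0 := by simp [ed]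

theorem hasDerivAt_ec (φ : ℝ) : HasDerivAt ec (ed φ) φ :=
  ((hasDerivAt_cos φ).smul_const _).add ((hasDerivAt_sin φ).smul_const _)

@[fun_prop] theorem contDiff_ec {n : WithTop ℕ∞} : ContDiff ℝ n ec := by unfold ec; fun_prop

@[fun_prop] theorem continuous_ec : Continuous ec := by unfold ec; fun_prop

theorem inner_ec (φ ψ : ℝ) : inner ℝ (ec φ) (ec ψ) = cos (φ - ψ) := by
  simp [inner3, cos_sub]

theorem norm_ec (φ : ℝ) : ‖ec φ‖ = 1 := by
  have := inner_ec φ φ
  rw [real_inner_self_eq_norm_sq, sub_self, cos_zero] at this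
  nlinarith [norm_nonneg (ec φ)]

theorem norm_le_of_inner {v : E3} {δ : ℝ} (h0 : 0 ≤ δ) (h : ∀ b, |inner ℝ b v| ≤ δ * ‖b‖) :
    ‖v‖ ≤ δ := by
  have := h v
  rw [real_inner_self_eq_norm_sq, abs_sq] at this
  nlinarith [norm_nonneg v]

theorem abs_coord_le (v : E3) (i : Fin 3) : |v i| ≤ ‖v‖ := by simpa using PiLp.norm_apply_le v i

variable {N : ℕ}

/-- The jumps of a broken path. -/
noncomputable def gap (φ ρ : ℝ) (q : Fin (N + 1) → E3) : Fin (N + 1) → E3 :=
  Fin.cons (q 0 - ρ • ec φ) fun j => q j.succ - q j.castSucc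

/-- The discrete action of one broken path. -/
noncomputable def act (K : ℝ × E3 × E3 → ℝ) (c τ φ ρ : ℝ) (q p : Fin (N + 1) → E3) : ℝ :=
  c * φ + ∑ k, inner ℝ (p k) (gap φ ρ q k) -
    τ * ∑ j : Fin N, K (j * τ, q j.castSucc, p j.succ)

/-- Its differential. -/
noncomputable def dact (X : ℝ × E3 × E3 → E3 × E3) (c τ φ ρ : ℝ) (q p : Fin (N + 1) → E3)
    (dφ dρ : ℝ) (dq dp : Fin (N + 1) → E3) : ℝ :=
  c * dφ - inner ℝ (p 0) (dρ • ec φ + ρ • dφ • ed φ) + inner ℝ (dp 0) (q 0 - ρ • ec φ) +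
    ∑ k, inner ℝ (p k) (dq k) + ∑ j : Fin N, (inner ℝ (dp j.succ)
      (q j.succ - q j.castSucc - τ • (X (j * τ, q j.castSucc, p j.succ)).1) -
      inner ℝ (p j.succ - τ • (X (j * τ, q j.castSucc, p j.succ)).2) (dq j.castSucc))

/-- `X` is the Hamiltonian vector field of `K`. -/
def IsHam (K : ℝ × E3 × E3 → ℝ) (X : ℝ × E3 × E3 → E3 × E3) : Prop :=
  ∀ x a b, fderiv ℝ K x (0, a, b) = inner ℝ (X x).1 b - inner ℝ (X x).2 a

theorem hasDerivAt_act {K : ℝ × E3 × E3 → ℝ} (hK : Differentiable ℝ K)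
    {X : ℝ × E3 × E3 → E3 × E3} (hX : IsHam K X) (c τ : ℝ) {φ ρ : ℝ → ℝ}
    {q p : ℝ → Fin (N + 1) → E3} {dφ dρ : ℝ} {dq dp : Fin (N + 1) → E3}
    (hφ : HasDerivAt φ dφ 0) (hρ : HasDerivAt ρ dρ 0)
    (hq : ∀ k, HasDerivAt (fun t => q t k) (dq k) 0)
    (hp : ∀ k, HasDerivAt (fun t => p t k) (dp k) 0) :
    HasDerivAt (fun t => act K c τ (φ t) (ρ t) (q t) (p t))
      (dact X c τ (φ 0) (ρ 0) (q 0) (p 0) dφ dρ dq dp) 0 := by
  have h1 := (hp 0).inner ℝ ((hq 0).sub (hρ.smul ((hasDerivAt_ec (φ 0)).scomp 0 hφ)))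
  have h2 := HasDerivAt.fun_sum (u := univ) fun (j : Fin N) _ =>
    (hp j.succ).inner ℝ ((hq j.succ).sub (hq j.castSucc))
  have h3 := HasDerivAt.fun_sum (u := univ) fun (j : Fin N) _ =>
    (hK (j * τ, q 0 j.castSucc, p 0 j.succ)).hasFDerivAt.comp_hasDerivAt 0
      ((hasDerivAt_const 0 (j * τ)).prodMk ((hq j.castSucc).prodMk (hp j.succ)))
  have h4 := ((hφ.const_mul c).add (h1.add h2)).sub (h3.const_mul τ)
  refine (h4.congr_deriv ?_).congr_of_eventuallyEq (Eventually.of_forall fun t => ?_)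
  swap
  · simp [act, gap, Fin.sum_univ_succ]
  · have hX' : ∀ x a b, fderiv ℝ K x (0, a, b) = inner ℝ (X x).1 b - inner ℝ (X x).2 a := hX
    simp only [dact, hX', Fin.sum_univ_succ, inner_sub_left, inner_sub_right, inner_add_right,
      inner_smul_left, inner_smul_right, sum_add_distrib, sum_sub_distrib, mul_sub, mul_sum,
      Pi.sub_apply, Function.comp_apply, conj_trivial, Pi.smul_apply', real_inner_comm]
    ring

theorem contDiff_act {K : ℝ × E3 × E3 → ℝ} (hK : ContDiff ℝ 1 K) (c τ : ℝ) {Y : Type}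
    [NormedAddCommGroup Y] [NormedSpace ℝ Y] {φ ρ : Y → ℝ} {q p : Y → Fin (N + 1) → E3}
    (hφ : ContDiff ℝ 1 φ) (hρ : ContDiff ℝ 1 ρ) (hq : ContDiff ℝ 1 q) (hp : ContDiff ℝ 1 p) :
    ContDiff ℝ 1 fun y => act K c τ (φ y) (ρ y) (q y) (p y) := by
  have hq' := contDiff_pi.1 hq
  have hp' := contDiff_pi.1 hp
  simp only [act, gap, Fin.sum_univ_succ, Fin.cons_zero, Fin.cons_succ]
  refine ((contDiff_const.mul hφ).add (((hp' 0).inner ℝ ((hq' 0).sub
    (hρ.smul (contDiff_ec.comp hφ)))).add (ContDiff.sum fun j _ => (hp' _).inner ℝ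
    ((hq' _).sub (hq' _))))).sub (contDiff_const.mul (ContDiff.sum fun j _ =>
      hK.comp (contDiff_const.prodMk ((hq' _).prodMk (hp' _)))))

/-- Approximate discrete orbits starting near the initial Lagrangian. -/
structure Apx (X : ℝ × E3 × E3 → E3 × E3) (c τ δ : ℝ) (N : ℕ) (q p : ℕ → E3) : Prop where
  i1 : |q 0 2| ≤ δ
  i2 : |inner ℝ (q 0) (p 0)| ≤ δ * (‖p 0‖ + ‖q 0‖ + δ)
  i3 : |cr (q 0) (p 0) 2 - c| ≤ δ * (1 + ‖p 0‖)
  sq : ∀ k < N, ‖q (k + 1) - q k - τ • (X (k * τ, q k, p (k + 1))).1‖ ≤ δ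
  sp : ∀ k < N, ‖p (k + 1) - p k - τ • (X (k * τ, q k, p (k + 1))).2‖ ≤ δ

/-- Extension of a finite sequence. -/
def extN (q : Fin (N + 1) → E3) (k : ℕ) : E3 := q ⟨min k N, by omega⟩

theorem extN_castSucc (q : Fin (N + 1) → E3) (j : Fin N) : extN q j = q j.castSucc := by
  unfold extN; congr 1; ext; simp

theorem extN_succ (q : Fin (N + 1) → E3) (j : Fin N) : extN q (j + 1) = q j.succ := by
  unfold extN; congr 1; ext; simp

theorem extN_zero (q : Fin (N + 1) → E3) : extN q 0 = q 0 := by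
  unfold extN; congr 1

theorem extN_last (q : Fin (N + 1) → E3) : extN q N = q (Fin.last N) := by
  unfold extN; congr 1; ext; simp

theorem apx_of {X : ℝ × E3 × E3 → E3 × E3} {c τ δ φ ρ : ℝ} {q p : Fin (N + 1) → E3} (h0 : 0 ≤ δ)
    (h : ∀ dφ dρ dq dp, dq (Fin.last N) = 0 →
      |dact X c τ φ ρ q p dφ dρ dq dp| ≤ δ * ‖(dφ, dρ, dq, dp)‖) :
    Apx X c τ δ N (extN q) (extN p) := by
  have a1 : |c - ρ * inner ℝ (p 0) (ed φ)| ≤ δ := by
    simpa [dact, inner_smul_right, Prod.norm_def] using h 1 0 0 0 rfl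
  have a2 : |inner ℝ (p 0) (ec φ)| ≤ δ := by
    simpa [dact, Prod.norm_def] using h 0 1 0 0 rfl
  have a3 : ‖q 0 - ρ • ec φ‖ ≤ δ := norm_le_of_inner h0 fun b => by
    simpa [dact, Prod.norm_def, Pi.norm_single, Pi.single_eq_of_ne (Fin.succ_ne_zero _)]
      using h 0 0 0 (Pi.single 0 b) rfl
  have a4 : |ρ| ≤ ‖q 0‖ + δ := by
    have := norm_sub_norm_le (ρ • ec φ) (q 0)
    rw [norm_sub_rev, norm_smul, norm_ec, mul_one, Real.norm_eq_abs] at this
    linarith
  obtain ⟨e, he⟩ : ∃ e, q 0 = ρ • ec φ + e := ⟨q 0 - ρ • ec φ, by abel⟩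
  rw [he, add_sub_cancel_left] at a3
  refine ⟨?_, ?_, ?_, fun k hk => ?_, fun k hk => ?_⟩
  · simpa [extN_zero, he] using (abs_coord_le e 2).trans a3
  · rw [extN_zero, extN_zero]
    nth_rewrite 1 [he]
    rw [inner_add_left, inner_smul_left, real_inner_comm, conj_trivial]
    refine (abs_add_le _ _).trans ?_
    rw [abs_mul]
    have := abs_real_inner_le_norm e (p 0)
    nlinarith [mul_le_mul a4 a2 (abs_nonneg _) ((abs_nonneg _).trans a4),
      mul_le_mul_of_nonneg_right a3 (norm_nonneg (p 0))]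
  · rw [extN_zero, extN_zero]
    have e1 : cr (q 0) (p 0) 2 - c = cr e (p 0) 2 - (c - ρ * inner ℝ (p 0) (ed φ)) := by
      simp [he, inner3]; ring
    rw [e1]
    refine (abs_sub _ _).trans ?_
    have := (abs_coord_le _ 2).trans (norm_cr_le e (p 0))
    nlinarith [mul_le_mul_of_nonneg_right a3 (norm_nonneg (p 0))]
  · lift k to Fin N using hk with j
    rw [extN_succ, extN_succ, extN_castSucc]
    refine norm_le_of_inner h0 fun b => ?_
    have := h 0 0 0 (Pi.single j.succ b) rfl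
    rw [dact, sum_eq_single j (fun i _ hi => by
      simp [Pi.single_eq_of_ne (fun e => hi (Fin.succ_injective _ e))]) (by simp)] at this
    simpa [Prod.norm_def, Pi.norm_single, Pi.single_eq_of_ne (Fin.succ_ne_zero _).symm] using this
  · lift k to Fin N using hk with j
    rw [extN_succ, extN_castSucc, extN_castSucc]
    refine norm_le_of_inner h0 fun b => ?_
    have := h 0 0 (Pi.single j.castSucc b) 0 (Pi.single_eq_of_ne (Fin.castSucc_lt_last j).ne' _)
    rw [dact, sum_eq_single j (fun i _ hi => by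
      simp [Pi.single_eq_of_ne (fun e => hi (Fin.castSucc_injective _ e))]) (by simp),
      sum_eq_single j.castSucc (fun i _ hi => by simp [Pi.single_eq_of_ne hi]) (by simp)] at this
    simp only [Prod.norm_def, Pi.norm_single, Pi.single_eq_same, Pi.zero_apply, inner_zero_left,
      mul_zero, zero_smul, smul_zero, add_zero, inner_zero_right, sub_zero, zero_add, zero_sub,
      norm_zero, max_eq_left (norm_nonneg b), max_eq_right (norm_nonneg b)] at this
    rw [← abs_neg]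
    convert this using 2
    simp only [inner_sub_left, inner_sub_right, real_inner_comm]
    ring

theorem dact_last (X : ℝ × E3 × E3 → E3 × E3) (c τ φ ρ : ℝ) (q p : Fin (N + 1) → E3) (v : E3) :
    dact X c τ φ ρ q p 0 0 (Pi.single (Fin.last N) v) 0 = inner ℝ (p (Fin.last N)) v := by
  rw [dact, sum_eq_single (Fin.last N) (fun i _ hi => by simp [Pi.single_eq_of_ne hi]) (by simp)]
  simp

end Pool.Agent.Lib.MP_55a7f7_gt
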