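import Pool.Agent.Lib.MP_55a7f7_gt.Defs

/-! Interfaces between the parts of the proof, and small common tools. -/

set_option autoImplicit false

open scoped ContDiff ComplexConjugate Topology
open Set Real

namespace Pool.Agent.Lib.MP_55a7f7_gt

/-! ### Cross product -/

@[simp] theorem cr_zero (a b : E3) : cr a b 0 = a 1 * b 2 - a 2 * b 1 := rfl
@[simp] theorem cr_one (a b : E3) : cr a b 1 = a 2 * b 0 - a 0 * b 2 := rfl
@[simp] theorem cr_two (a b : E3) : cr a b 2 = a 0 * b 1 - a 1 * b 0 := rfl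

theorem ext3 {a b : E3} (h0 : a 0 = b 0) (h1 : a 1 = b 1) (h2 : a 2 = b 2) : a = b := by
  ext i; fin_cases i <;> assumption

theorem inner3 (a b : E3) : inner ℝ a b = a 0 * b 0 + a 1 * b 1 + a 2 * b 2 := by
  simp [PiLp.inner_apply, Fin.sum_univ_three]; ring

theorem norm_sq3 (a : E3) : ‖a‖ ^ 2 = a 0 ^ 2 + a 1 ^ 2 + a 2 ^ 2 := by
  rw [← real_inner_self_eq_norm_sq, inner3]; ring

theorem norm_cr_sq (a b : E3) : ‖cr a b‖ ^ 2 = ‖a‖ ^ 2 * ‖b‖ ^ 2 - inner ℝ a b ^ 2 := by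
  simp only [norm_sq3, inner3, cr_zero, cr_one, cr_two]; ring

theorem norm_cr_le (a b : E3) : ‖cr a b‖ ≤ ‖a‖ * ‖b‖ := by
  refine (abs_le_of_sq_le_sq' ?_ (by positivity)).2
  rw [norm_cr_sq, mul_pow]; nlinarith [sq_nonneg (inner ℝ a b)]

/-- The cross product as a continuous bilinear map. -/
noncomputable def crL : E3 →L[ℝ] E3 →L[ℝ] E3 :=
  (LinearMap.mk₂ ℝ cr (fun _ _ _ => by apply ext3 <;> simp <;> ring)
    (fun _ _ _ => by apply ext3 <;> simp <;> ring) (fun _ _ _ => by apply ext3 <;> simp <;> ring)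
    (fun _ _ _ => by apply ext3 <;> simp <;> ring)).mkContinuous₂ 1
    fun a b => by simpa using norm_cr_le a b

@[simp] theorem crL_apply (a b : E3) : crL a b = cr a b := rfl

theorem ContDiff.cr {X : Type} [NormedAddCommGroup X] [NormedSpace ℝ X] {n : WithTop ℕ∞}
    {f g : X → E3} (hf : ContDiff ℝ n f) (hg : ContDiff ℝ n g) :
    ContDiff ℝ n fun x => cr (f x) (g x) :=
  (crL.contDiff.comp hf).clm_apply hg

theorem HasDerivAt.cr {f g : ℝ → E3} {f' g' : E3} {t : ℝ} (hf : HasDerivAt f f' t)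
    (hg : HasDerivAt g g' t) :
    HasDerivAt (fun x => cr (f x) (g x)) (cr f' (g t) + cr (f t) g') t := by
  simpa using (crL.hasFDerivAt.comp_hasDerivAt t hf).clm_apply hg

/-! ### Hamiltonian orbits -/

/-- The gradient in the space variable. -/
noncomputable def grad (H : ℝ × E3 → ℝ) (t : ℝ) (p : E3) : E3 := gradient (fun q => H (t, q)) p

/-- `(Q, P)` solves Hamilton's equations of `K` on `[0, 1]`. -/
def IsOrbit (K : ℝ × E3 × E3 → ℝ) (Q P : ℝ → E3) : Prop :=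
  ∀ t ∈ Icc (0 : ℝ) 1, ∃ u w : E3, HasDerivAt Q u t ∧ HasDerivAt P w t ∧
    ∀ a b : E3, fderiv ℝ K (t, Q t, P t) (0, a, b) = inner ℝ u b - inner ℝ w a

/-- The initial Lagrangian. -/
def Init (c : ℝ) (Q P : E3) : Prop := Q 2 = 0 ∧ inner ℝ Q P = 0 ∧ cr Q P 2 = c

/-- Part A: existence of a chord. -/
def ChordStmt : Prop :=
  ∀ K : ℝ × E3 × E3 → ℝ, ContDiff ℝ ∞ K → HasCompactSupport K → ∀ c θ : ℝ, 0 < θ → θ < π →
    ∃ Q P Q' P' : ℝ → E3, IsOrbit K Q P ∧ IsOrbit K Q' P' ∧ Init c (Q 0) (P 0) ∧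
      Init c (Q' 0) (P' 0) ∧ ‖Q 1‖ = 1 ∧ ‖Q' 1‖ = 1 ∧ inner ℝ (Q 1) (Q' 1) = cos θ ∧
      cr (Q 1) (P 1) = cr (Q' 1) (P' 1)

/-- Part G: rectangles on the Hamiltonian image of a circle of latitude. -/
def HamStmt : Prop :=
  ∀ H : ℝ × E3 → ℝ, ContDiff ℝ ∞ H → HasCompactSupport H → ∀ z θ : ℝ, |z| < 1 → 0 < θ → θ < π →
    ∀ Γ : Set E3, (∀ p : ℝ → E3, ‖p 0‖ = 1 → p 0 2 = z →
      (∀ t ∈ Icc (0 : ℝ) 1, HasDerivAt p (cr (grad H t (p t)) (p t)) t) → p 1 ∈ Γ) →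
    ∃ (x y m : E3) (s : ℝ), 0 < s ∧ ‖x‖ = 1 ∧ ‖y‖ = 1 ∧ inner ℝ x y = cos θ ∧ inner ℝ x m = 0 ∧
      inner ℝ y m = 0 ∧ ‖m‖ ^ 2 + s ^ 2 = 1 ∧
      m + s • x ∈ Γ ∧ m - s • x ∈ Γ ∧ m + s • y ∈ Γ ∧ m - s • y ∈ Γ

/-- Part H: extension of one-jets from a moving embedded curve. -/
def JetStmt : Prop :=
  ∀ (c w : ℝ × ℝ → E3) (h : ℝ × ℝ → ℝ), ContDiff ℝ ∞ c → ContDiff ℝ ∞ w → ContDiff ℝ ∞ h →
    (∀ t, Emb fun s => c (t, s)) → (∀ t s, w (t, s + 1) = w (t, s)) →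
    (∀ t s, h (t, s + 1) = h (t, s)) →
    (∀ t s, deriv (fun s => h (t, s)) s = inner ℝ (w (t, s)) (deriv (fun s => c (t, s)) s)) →
    ∃ H : ℝ × E3 → ℝ, ContDiff ℝ ∞ H ∧ HasCompactSupport H ∧
      ∀ t ∈ Icc (0 : ℝ) 1, ∀ s, grad H t (c (t, s)) = w (t, s)

/-! ### Plane curves -/

/-- Smooth isotopy of parametrised curves inside `U`. -/
def Iso (U : Set ℂ) (a b : ℝ → ℂ) : Prop :=
  ∃ ζ : ℝ × ℝ → ℂ, ContDiff ℝ ∞ ζ ∧ (∀ t ∈ Icc (0 : ℝ) 1, Emb (fun s => ζ (t, s)) ∧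
    ∀ s, ζ (t, s) ∈ U) ∧ (∀ s, ζ (0, s) = a s) ∧ ∀ s, ζ (1, s) = b s

/-- Part T: the smooth Schoenflies theorem in isotopy form. -/
def PlanarStmt : Prop :=
  ∀ Γ : ℝ → ℂ, Emb Γ → ∃ (a b : ℂ) (σ : ℝ), a ≠ 0 ∧ (σ = 1 ∨ σ = -1) ∧
    Iso univ (fun s => a * Complex.exp ((2 * π * σ * s : ℝ) * Complex.I) + b) Γ

/-- Part S: the signed area has the sign of the winding number. -/
def SignStmt : Prop :=
  ∀ w : ℝ → ℂ, Emb w → (∀ s, w s ≠ 0) → 0 < ∫ s in (0 : ℝ)..1, (deriv w s / w s).im →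
    0 ≤ ∫ s in (0 : ℝ)..1, (conj (w s) * deriv w s).im

/-- The point with parameter `τ` on the edge `j` of a polygon. -/
noncomputable def edge (v : ℕ → ℂ) (j : ℕ) (τ : ℝ) : ℂ := v j + τ * (v (j + 1) - v j)

/-- Simple closed polygons with vertices `v 0, …, v (n - 1)`. -/
def Simple (n : ℕ) (v : ℕ → ℂ) : Prop :=
  v n = v 0 ∧ ∀ i < n, ∀ j < n, ∀ τ ∈ Ico (0 : ℝ) 1, ∀ τ' ∈ Ico (0 : ℝ) 1,
    edge v i τ = edge v j τ' → i = j ∧ τ = τ'

/-- Deletion of the vertex `i`. -/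
def del (v : ℕ → ℂ) (i : ℕ) : ℕ → ℂ := fun j => if j < i then v j else v (j + 1)

/-- `2 π` times the winding number of a polygon around `z`. -/
noncomputable def wnd (n : ℕ) (v : ℕ → ℂ) (z : ℂ) : ℝ :=
  ∑ j ∈ Finset.range n, Complex.arg ((v (j + 1) - z) / (v j - z))

/-- Twice the signed area of a polygon. -/
noncomputable def area (n : ℕ) (v : ℕ → ℂ) : ℝ :=
  ∑ j ∈ Finset.range n, (conj (v j) * v (j + 1)).im

/-- Part P1: ears of simple polygons. -/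
def EarStmt : Prop :=
  ∀ (n : ℕ) (v : ℕ → ℂ), 4 ≤ n → Simple n v → ∃ i, 0 < i ∧ i + 1 < n ∧ Simple (n - 1) (del v i) ∧
    ∀ t ∈ Icc (0 : ℝ) 1, ∀ l ∈ Ioo (0 : ℝ) 1, Simple n (Function.update v i
      ((1 - t) * v i + t * ((1 - l) * v (i - 1) + l * v (i + 1))))

/-- Part P2: simple triangles are not degenerate. -/
def TriStmt : Prop := ∀ v : ℕ → ℂ, Simple 3 v → (conj (v 1 - v 0) * (v 2 - v 0)).im ≠ 0

/-- Part P3: the signed area of a simple polygon has the sign of its winding numbers. -/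
def AreaStmt : Prop :=
  ∀ (n : ℕ) (v : ℕ → ℂ) (z : ℂ), 3 ≤ n → Simple n v →
    (∀ j < n, ∀ τ ∈ Icc (0 : ℝ) 1, edge v j τ ≠ z) → 0 < wnd n v z → 0 < area n v

section Emb

variable {F : Type} [NormedAddCommGroup F] [NormedSpace ℝ F] {γ : ℝ → F}

theorem Emb.exists_int (h : Emb γ) {s t : ℝ} (e : γ s = γ t) : ∃ n : ℤ, t = s + n := by
  have hp : ∀ x : ℝ, γ (Int.fract x) = γ x := fun x => by
    have := h.per.sub_int_mul_eq (x := x) ⌊x⌋
    rwa [mul_one] at this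
  have := h.inj ⟨Int.fract_nonneg s, Int.fract_lt_one s⟩ ⟨Int.fract_nonneg t, Int.fract_lt_one t⟩
    (by rw [hp, hp, e])
  exact ⟨⌊t⌋ - ⌊s⌋, by simp only [Int.fract] at this; push_cast; linarith⟩

theorem Emb.ne (h : Emb γ) {s t : ℝ} (h1 : s < t) (h2 : t < s + 1) : γ s ≠ γ t := fun e => by
  obtain ⟨n, rfl⟩ := h.exists_int e
  have h3 : (0 : ℤ) < n := by exact_mod_cast (by linarith : (0 : ℝ) < n)
  have h4 : n < (1 : ℤ) := by exact_mod_cast (by linarith : (n : ℝ) < 1)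
  omega

theorem injOn_of_ne {X : Type} {γ : ℝ → X} (h : ∀ s t, s < t → t < s + 1 → γ s ≠ γ t) :
    InjOn γ (Ico 0 1) := fun s hs t ht e => by
  rcases lt_trichotomy s t with h1 | h1 | h1
  · exact absurd e (h s t h1 (by linarith [hs.1, ht.2]))
  · exact h1
  · exact absurd e.symm (h t s h1 (by linarith [ht.1, hs.2]))

theorem Emb.congr (h : Emb γ) {δ : ℝ → F} (e : ∀ s, δ s = γ s) : Emb δ := by
  rwa [show δ = γ from funext e]

end Emb

theorem Iso.mono {U V : Set ℂ} {a b : ℝ → ℂ} (h : Iso U a b) (hUV : U ⊆ V) : Iso V a b := by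
  obtain ⟨ζ, h1, h2, h3, h4⟩ := h
  exact ⟨ζ, h1, fun t ht => ⟨(h2 t ht).1, fun s => hUV ((h2 t ht).2 s)⟩, h3, h4⟩

theorem Iso.symm {U : Set ℂ} {a b : ℝ → ℂ} (h : Iso U a b) : Iso U b a := by
  obtain ⟨ζ, h1, h2, h3, h4⟩ := h
  exact ⟨fun x => ζ (1 - x.1, x.2), h1.comp (by fun_prop),
    fun t ht => h2 (1 - t) ⟨by linarith [ht.2], by linarith [ht.1]⟩, by simpa, by simpa⟩

theorem Iso.trans {U : Set ℂ} {a b c : ℝ → ℂ} (h : Iso U a b) (h' : Iso U b c) : Iso U a c := by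
  obtain ⟨ζ, h1, h2, h3, h4⟩ := h
  obtain ⟨ξ, k1, k2, k3, k4⟩ := h'
  have hs : ContDiff ℝ ∞ smoothTransition := smoothTransition.contDiff
  have hI : ∀ x, smoothTransition x ∈ Icc (0 : ℝ) 1 := fun x =>
    ⟨smoothTransition.nonneg x, smoothTransition.le_one x⟩
  refine ⟨fun x => ζ (smoothTransition (2 * x.1), x.2) +
    ξ (smoothTransition (2 * x.1 - 1), x.2) - ζ (1, x.2), ?_, fun t _ => ?_, fun s => ?_,
    fun s => ?_⟩
  · exact ((h1.comp ((hs.comp (by fun_prop)).prodMk contDiff_snd)).add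
      (k1.comp ((hs.comp (by fun_prop)).prodMk contDiff_snd))).sub (h1.comp (by fun_prop))
  · rcases le_total (2 * t) 1 with ht | ht
    · have e : ∀ s, ζ (smoothTransition (2 * t), s) + ξ (smoothTransition (2 * t - 1), s) -
          ζ (1, s) = ζ (smoothTransition (2 * t), s) := fun s => by
        rw [smoothTransition.zero_of_nonpos (by linarith : 2 * t - 1 ≤ 0), k3, h4]; ring
      exact ⟨(h2 _ (hI _)).1.congr e, fun s => mem_of_eq_of_mem (e s) ((h2 _ (hI _)).2 s)⟩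
    · have e : ∀ s, ζ (smoothTransition (2 * t), s) + ξ (smoothTransition (2 * t - 1), s) -
          ζ (1, s) = ξ (smoothTransition (2 * t - 1), s) := fun s => by
        rw [smoothTransition.one_of_one_le ht]; ring
      exact ⟨(k2 _ (hI _)).1.congr e, fun s => mem_of_eq_of_mem (e s) ((k2 _ (hI _)).2 s)⟩
  · simp only [mul_zero, smoothTransition.zero, zero_sub]
    rw [smoothTransition.zero_of_nonpos (by norm_num), k3, h3, h4]; ring
  · simp only [mul_one]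
    rw [smoothTransition.one_of_one_le (by norm_num), smoothTransition.one_of_one_le (by norm_num),
      k4]; ring

end Pool.Agent.Lib.MP_55a7f7_gt
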