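import Pool.Agent.Lib.MP_55a7f7_gt.Act
import Pool.Agent.Lib.MP_fac2a6_gt.Tools

/-! Existence of chords. -/

set_option autoImplicit false

open scoped ContDiff Topology NNReal
open Set Real Filter Finset

namespace Pool.Agent.Lib.MP_55a7f7_gt

variable {N : ℕ}

/-- Variables of one broken path. -/
abbrev Ch (N : ℕ) : Type := ℝ × ℝ × (Fin (N + 1) → E3) × (Fin (N + 1) → E3)

/-- The functional on pairs of broken paths. -/
noncomputable def tot (K : ℝ × E3 × E3 → ℝ) (c τ θ : ℝ) (z : Ch N × Ch N × ℝ × ℝ × ℝ) : ℝ :=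
  act K c τ z.1.1 z.1.2.1 z.1.2.2.1 z.1.2.2.2 -
    act K c τ z.2.1.1 z.2.1.2.1 z.2.1.2.2.1 z.2.1.2.2.2 +
    z.2.2.1 * (inner ℝ (z.1.2.2.1 (Fin.last N)) (z.1.2.2.1 (Fin.last N)) - 1) +
    z.2.2.2.1 * (inner ℝ (z.2.1.2.2.1 (Fin.last N)) (z.2.1.2.2.1 (Fin.last N)) - 1) +
    z.2.2.2.2 * (inner ℝ (z.1.2.2.1 (Fin.last N)) (z.2.1.2.2.1 (Fin.last N)) - cos θ)

theorem contDiff_tot {K : ℝ × E3 × E3 → ℝ} (hK : ContDiff ℝ 1 K) (c τ θ : ℝ) :
    ContDiff ℝ 1 (tot (N := N) K c τ θ) := by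
  have h1 : ContDiff ℝ 1 fun z : Ch N × Ch N × ℝ × ℝ × ℝ => z.1.2.2.1 (Fin.last N) := by fun_prop
  have h2 : ContDiff ℝ 1 fun z : Ch N × Ch N × ℝ × ℝ × ℝ => z.2.1.2.2.1 (Fin.last N) := by fun_prop
  exact ((((contDiff_act hK c τ (by fun_prop) (by fun_prop) (by fun_prop) (by fun_prop)).sub
    (contDiff_act hK c τ (by fun_prop) (by fun_prop) (by fun_prop) (by fun_prop))).add
    (ContDiff.mul (by fun_prop) ((h1.inner ℝ h1).sub contDiff_const))).add
    (ContDiff.mul (by fun_prop) ((h2.inner ℝ h2).sub contDiff_const))).add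
    (ContDiff.mul (by fun_prop) ((h1.inner ℝ h2).sub contDiff_const))

theorem fderiv_tot {K : ℝ × E3 × E3 → ℝ} (hK : ContDiff ℝ 1 K) {X : ℝ × E3 × E3 → E3 × E3}
    (hX : IsHam K X) (c τ θ φ ρ φ' ρ' n₁ n₂ n₃ dφ dρ dφ' dρ' d₁ d₂ d₃ : ℝ)
    (q p q' p' dq dp dq' dp' : Fin (N + 1) → E3) :
    fderiv ℝ (tot K c τ θ) ((φ, ρ, q, p), (φ', ρ', q', p'), n₁, n₂, n₃)
      ((dφ, dρ, dq, dp), (dφ', dρ', dq', dp'), d₁, d₂, d₃) =
    dact X c τ φ ρ q p dφ dρ dq dp - dact X c τ φ' ρ' q' p' dφ' dρ' dq' dp' +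
      (d₁ * (inner ℝ (q (Fin.last N)) (q (Fin.last N)) - 1) +
        n₁ * (2 * inner ℝ (q (Fin.last N)) (dq (Fin.last N)))) +
      (d₂ * (inner ℝ (q' (Fin.last N)) (q' (Fin.last N)) - 1) +
        n₂ * (2 * inner ℝ (q' (Fin.last N)) (dq' (Fin.last N)))) +
      (d₃ * (inner ℝ (q (Fin.last N)) (q' (Fin.last N)) - cos θ) +
        n₃ * (inner ℝ (q (Fin.last N)) (dq' (Fin.last N)) +
          inner ℝ (dq (Fin.last N)) (q' (Fin.last N)))) := by
  have hd := hK.differentiable one_ne_zero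
  have l1 : ∀ a b : ℝ, HasDerivAt (fun t : ℝ => a + t * b) b 0 := fun a b => by
    simpa using ((hasDerivAt_id (0 : ℝ)).mul_const b).const_add a
  have l2 : ∀ (a b : Fin (N + 1) → E3) k, HasDerivAt (fun t : ℝ => (a + t • b) k) (b k) 0 :=
    fun a b k => by simpa using ((hasDerivAt_id (0 : ℝ)).smul_const (b k)).const_add (a k)
  set z : Ch N × Ch N × ℝ × ℝ × ℝ := ((φ, ρ, q, p), (φ', ρ', q', p'), n₁, n₂, n₃) with hz
  set v : Ch N × Ch N × ℝ × ℝ × ℝ := ((dφ, dρ, dq, dp), (dφ', dρ', dq', dp'), d₁, d₂, d₃) with hv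
  have h1 : HasDerivAt (fun t : ℝ => z + t • v) v 0 := by
    simpa using ((hasDerivAt_id (0 : ℝ)).smul_const v).const_add z
  have h2 := (((contDiff_tot hK c τ θ).differentiable one_ne_zero)
    (z + (0 : ℝ) • v)).hasFDerivAt.comp_hasDerivAt (0 : ℝ) h1
  rw [zero_smul, add_zero] at h2
  have h3 := ((((hasDerivAt_act hd hX c τ (l1 φ dφ) (l1 ρ dρ) (l2 q dq) (l2 p dp)).sub
    (hasDerivAt_act hd hX c τ (l1 φ' dφ') (l1 ρ' dρ') (l2 q' dq') (l2 p' dp'))).add
    ((l1 n₁ d₁).mul (((l2 q dq (Fin.last N)).inner ℝ (l2 q dq (Fin.last N))).sub_const 1))).add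
    ((l1 n₂ d₂).mul (((l2 q' dq' (Fin.last N)).inner ℝ (l2 q' dq' (Fin.last N))).sub_const 1))).add
    ((l1 n₃ d₃).mul (((l2 q dq (Fin.last N)).inner ℝ (l2 q' dq' (Fin.last N))).sub_const (cos θ)))
  rw [h2.unique h3]
  simp only [zero_mul, zero_smul, add_zero, real_inner_comm (q (Fin.last N)) (dq (Fin.last N)),
    real_inner_comm (q' (Fin.last N)) (dq' (Fin.last N))]
  ring

theorem gap_eq_zero {φ ρ : ℝ} {q : Fin (N + 1) → E3} :
    (∀ k, gap φ ρ q k = 0) ↔ ∀ k, q k = ρ • ec φ := by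
  refine ⟨fun h k => ?_, fun h k => ?_⟩
  · induction k using Fin.induction with
    | zero => simpa [gap, sub_eq_zero] using h 0
    | succ j ih => rw [← ih]; simpa [gap, sub_eq_zero] using h j.succ
  · cases k using Fin.cases <;> simp [gap, h]

theorem continuous_gap {Y : Type} [TopologicalSpace Y] {φ ρ : Y → ℝ} {q : Y → Fin (N + 1) → E3}
    (hφ : Continuous φ) (hρ : Continuous ρ) (hq : Continuous q) :
    Continuous fun y => gap (φ y) (ρ y) (q y) := by
  refine continuous_pi fun k => ?_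
  cases k using Fin.cases <;> simp only [gap, Fin.cons_zero, Fin.cons_succ] <;> fun_prop

theorem exists_crit {K : ℝ × E3 × E3 → ℝ} (hK : ContDiff ℝ 1 K) {B : ℝ} (hB : ∀ x, |K x| ≤ B)
    (c τ : ℝ) {θ : ℝ} (h0 : 0 < θ) (hπ : θ < π) (N : ℕ) {δ : ℝ} (hδ : 0 < δ) :
    ∃ z, ‖fderiv ℝ (tot (N := N) K c τ θ) z‖ ≤ δ := by
  have hS : ∀ q p : Fin (N + 1) → E3,
      |τ * ∑ j : Fin N, K (j * τ, q j.castSucc, p j.succ)| ≤ |τ| * (N * B) := fun q p => by
    rw [abs_mul]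
    refine mul_le_mul_of_nonneg_left ((abs_sum_le_sum_abs _ _).trans ?_) (abs_nonneg _)
    simpa using sum_le_card_nsmul univ _ B fun (j : Fin N) _ => hB (j * τ, q j.castSucc, p j.succ)
  refine saddle (V := (Fin (N + 1) → E3) × (Fin (N + 1) → E3) × ℝ × ℝ × ℝ) _
    (contDiff_tot hK c τ θ) (fun z => (fun k => z.1.2.2.1 k - ec z.1.1,
      fun k => z.2.1.2.2.1 k - ec (z.1.1 + θ), z.2.1.1 - z.1.1 - θ, z.1.2.1 - 1, z.2.1.2.1 - 1))
    (by fun_prop) (a := -(c * θ) - 2 * (|τ| * (N * B))) ?_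
    (U := {u | |u.2.2.1| < min θ (π - θ) ∧ |u.2.2.2.1| < 1 ∧ |u.2.2.2.2| < 1}) ?_ ?_ hδ
  · rintro ⟨⟨φ, ρ, q, p⟩, ⟨φ', ρ', q', p'⟩, n₁, n₂, n₃⟩ h
    simp only [Prod.mk_eq_zero, funext_iff, Pi.zero_apply, sub_eq_zero] at h
    obtain ⟨h1, h2, h3, rfl, rfl⟩ := h
    obtain rfl : φ' = φ + θ := by linarith
    have g1 := (gap_eq_zero (φ := φ) (ρ := 1) (q := q)).2 (by simpa using h1)
    have g2 := (gap_eq_zero (φ := φ + θ) (ρ := 1) (q := q')).2 (by simpa using h2)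
    simp only [tot, act, g1, g2, h1 (Fin.last N), h2 (Fin.last N), inner_ec]
    simp only [inner_zero_right, sum_const_zero, sub_self, cos_zero, sub_add_cancel_left, cos_neg]
    linarith [abs_le.1 (hS q p), abs_le.1 (hS q' p')]
  · refine Eventually.and ?_ (Eventually.and ?_ ?_) <;>
      exact ContinuousAt.eventually_lt (by fun_prop) continuousAt_const (by simp [h0, hπ])
  · intro S hS1 hS2 hS3
    set g : (Fin (N + 1) → E3) × (Fin (N + 1) → E3) × ℝ × ℝ × ℝ → Fin (N + 1) → E3 :=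
      fun u => gap 0 (1 + u.2.2.2.1) fun k => ec 0 + u.1 k with hg
    set g' : (Fin (N + 1) → E3) × (Fin (N + 1) → E3) × ℝ × ℝ × ℝ → Fin (N + 1) → E3 :=
      fun u => gap (θ + u.2.2.1) (1 + u.2.2.2.2) fun k => ec θ + u.2.1 k with hg'
    set x : (Fin (N + 1) → E3) × (Fin (N + 1) → E3) × ℝ × ℝ × ℝ → E3 :=
      fun u => ec 0 + u.1 (Fin.last N) with hx
    set y : (Fin (N + 1) → E3) × (Fin (N + 1) → E3) × ℝ × ℝ × ℝ → E3 :=
      fun u => ec θ + u.2.1 (Fin.last N) with hy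
    have gc : Continuous g := continuous_gap (by fun_prop) (by fun_prop) (by fun_prop)
    have gc' : Continuous g' := continuous_gap (by fun_prop) (by fun_prop) (by fun_prop)
    have xc : Continuous x := by fun_prop
    have yc : Continuous y := by fun_prop
    obtain ⟨μ, μ0, hμ⟩ := hS1.exists_forall_le' (a := (0 : ℝ))
      (f := fun u => ∑ k, inner ℝ (g u k) (g u k) + ∑ k, inner ℝ (g' u k) (g' u k) +
        (inner ℝ (x u) (x u) - 1) ^ 2 + (inner ℝ (y u) (y u) - 1) ^ 2 +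
        (inner ℝ (x u) (y u) - cos θ) ^ 2) (by fun_prop) fun u hu => by
      have p1 : 0 ≤ ∑ k, inner ℝ (g u k) (g u k) := sum_nonneg fun _ _ => real_inner_self_nonneg
      have p2 : 0 ≤ ∑ k, inner ℝ (g' u k) (g' u k) := sum_nonneg fun _ _ => real_inner_self_nonneg
      have p3 := sq_nonneg (inner ℝ (x u) (x u) - 1)
      have p4 := sq_nonneg (inner ℝ (y u) (y u) - 1)
      have p5 := sq_nonneg (inner ℝ (x u) (y u) - cos θ)
      refine lt_of_not_ge fun hle => hS3 ?_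
      have z1 := gap_eq_zero.1 fun k => inner_self_eq_zero.1
        ((sum_eq_zero_iff_of_nonneg fun _ _ => real_inner_self_nonneg).1
          (by linarith : ∑ k, inner ℝ (g u k) (g u k) = 0) k (mem_univ _))
      have z2 := gap_eq_zero.1 fun k => inner_self_eq_zero.1
        ((sum_eq_zero_iff_of_nonneg fun _ _ => real_inner_self_nonneg).1
          (by linarith : ∑ k, inner ℝ (g' u k) (g' u k) = 0) k (mem_univ _))
      have z3 := pow_eq_zero_iff two_ne_zero |>.1 (by linarith : (inner ℝ (x u) (x u) - 1) ^ 2 = 0)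
      have z4 := pow_eq_zero_iff two_ne_zero |>.1 (by linarith : (inner ℝ (y u) (y u) - 1) ^ 2 = 0)
      have z5 := pow_eq_zero_iff two_ne_zero |>.1
        (by linarith : (inner ℝ (x u) (y u) - cos θ) ^ 2 = 0)
      obtain ⟨u1, u2, u3⟩ := hS2 hu
      obtain ⟨a, b, f, r, r'⟩ := u
      simp only [hx, hy, z1 (Fin.last N), z2 (Fin.last N), inner_smul_left, inner_smul_right,
        inner_ec, sub_self, cos_zero, conj_trivial, zero_sub, cos_neg] at z3 z4 z5
      simp only [abs_lt] at u1 u2 u3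
      obtain rfl : r = 0 := by nlinarith
      obtain rfl : r' = 0 := by nlinarith
      obtain rfl : f = 0 := by
        have := injOn_cos (x₁ := θ + f) (x₂ := θ) ⟨by linarith [min_le_left θ (π - θ)],
          by linarith [min_le_right θ (π - θ)]⟩ ⟨h0.le, hπ.le⟩ (by linarith)
        linarith
      obtain rfl : a = 0 := funext fun k => by simpa using z1 k
      obtain rfl : b = 0 := funext fun k => by simpa using z2 k
      exact hu
    obtain ⟨κ, hκ⟩ : ∃ κ : ℝ, κ * μ = |c| * π + 4 * (|τ| * (N * |B|)) + 1 :=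
      ⟨_, div_mul_cancel₀ _ μ0.ne'⟩
    have κ0 : 0 ≤ κ := by
      have : 0 < κ * μ := by rw [hκ]; positivity
      exact ((mul_pos_iff_of_pos_right μ0).1 this).le
    refine ⟨fun u => ((0, 1 + u.2.2.2.1, fun k => ec 0 + u.1 k, fun k => (-κ) • g u k),
      (θ + u.2.2.1, 1 + u.2.2.2.2, fun k => ec θ + u.2.1 k, fun k => κ • g' u k),
      -κ * (inner ℝ (x u) (x u) - 1), -κ * (inner ℝ (y u) (y u) - 1),
      -κ * (inner ℝ (x u) (y u) - cos θ)), by fun_prop, fun u => by simp, fun u hu => ?_⟩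
    have h1 := mul_le_mul_of_nonneg_left (hμ u hu) κ0
    have h2 := abs_le.1 (hS (fun k => ec 0 + u.1 k) fun k => (-κ) • g u k)
    have h3 := abs_le.1 (hS (fun k => ec θ + u.2.1 k) fun k => κ • g' u k)
    have h4 : |c * u.2.2.1| ≤ |c| * π := by
      rw [abs_mul]
      exact mul_le_mul_of_nonneg_left ((hS2 hu).1.le.trans ((min_le_left _ _).trans hπ.le))
        (abs_nonneg _)
    have h5 : |τ| * (N * B) ≤ |τ| * (N * |B|) := by gcongr; exact le_abs_self B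
    simp only [tot, act, inner_smul_left, conj_trivial, ← mul_sum]
    simp only [hg, hg', hx, hy] at h1 h2 h3 ⊢
    nlinarith [abs_le.1 h4]

theorem exists_apx {K : ℝ × E3 × E3 → ℝ} (hK : ContDiff ℝ 1 K) {B : ℝ} (hB : ∀ x, |K x| ≤ B)
    {X : ℝ × E3 × E3 → E3 × E3} (hX : IsHam K X) (c τ : ℝ) {θ : ℝ} (h0 : 0 < θ) (hπ : θ < π)
    (N : ℕ) {δ : ℝ} (hδ : 0 < δ) : ∃ q p q' p' : ℕ → E3, Apx X c τ δ N q p ∧ Apx X c τ δ N q' p' ∧
      |inner ℝ (q N) (q N) - 1| ≤ δ ∧ |inner ℝ (q' N) (q' N) - 1| ≤ δ ∧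
      |inner ℝ (q N) (q' N) - cos θ| ≤ δ ∧
      ‖cr (q N) (p N) - cr (q' N) (p' N)‖ ≤ δ * (‖q N‖ + ‖q' N‖) := by
  obtain ⟨⟨⟨φ, ρ, q, p⟩, ⟨φ', ρ', q', p'⟩, n₁, n₂, n₃⟩, hz⟩ := exists_crit hK hB c τ h0 hπ N hδ
  have key := fun v => ((fderiv ℝ (tot (N := N) K c τ θ) _).le_opNorm v).trans
    (mul_le_mul_of_nonneg_right hz (norm_nonneg v))
  have d0 : ∀ φ ρ (q p : Fin (N + 1) → E3), dact X c τ φ ρ q p 0 0 0 0 = 0 := by simp [dact]
  refine ⟨extN q, extN p, extN q', extN p', apx_of (φ := φ) (ρ := ρ) hδ.le fun a b u v h => ?_,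
    apx_of (φ := φ') (ρ := ρ') hδ.le fun a b u v h => ?_, ?_, ?_, ?_, ?_⟩
  · have := key ((a, b, u, v), (0, 0, 0, 0), 0, 0, 0)
    rw [fderiv_tot hK hX] at this
    simpa [d0, h] using this
  · have := key ((0, 0, 0, 0), (a, b, u, v), 0, 0, 0)
    rw [fderiv_tot hK hX] at this
    simpa [d0, h] using this
  · have := key ((0, 0, 0, 0), (0, 0, 0, 0), 1, 0, 0)
    rw [fderiv_tot hK hX] at this
    simpa [d0, extN_last] using this
  · have := key ((0, 0, 0, 0), (0, 0, 0, 0), 0, 1, 0)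
    rw [fderiv_tot hK hX] at this
    simpa [d0, extN_last] using this
  · have := key ((0, 0, 0, 0), (0, 0, 0, 0), 0, 0, 1)
    rw [fderiv_tot hK hX] at this
    simpa [d0, extN_last] using this
  · simp only [extN_last]
    refine norm_le_of_inner (by positivity) fun b => ?_
    have := key ((0, 0, Pi.single (Fin.last N) (cr b (q (Fin.last N))), 0),
      (0, 0, Pi.single (Fin.last N) (cr b (q' (Fin.last N))), 0), 0, 0, 0)
    rw [fderiv_tot hK hX, dact_last, dact_last] at this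
    simp only [Prod.norm_def, Pi.norm_single, norm_zero, Pi.single_eq_same, Real.norm_eq_abs,
      max_self, max_eq_left (norm_nonneg _), max_eq_right (norm_nonneg _)] at this
    refine le_trans (le_of_eq ?_) (this.trans ?_)
    · congr 1
      simp only [inner3, cr_zero, cr_one, cr_two, PiLp.sub_apply]
      ring
    · rw [mul_assoc]
      refine mul_le_mul_of_nonneg_left (max_le ((norm_cr_le _ _).trans ?_)
        ((norm_cr_le _ _).trans ?_)) hδ.le <;>
      nlinarith [norm_nonneg b, norm_nonneg (q (Fin.last N)), norm_nonneg (q' (Fin.last N))]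

theorem exists_ham {K : ℝ × E3 × E3 → ℝ} (hK : ContDiff ℝ ∞ K) (hc : HasCompactSupport K) :
    ∃ (X : ℝ × E3 × E3 → E3 × E3) (L : ℝ≥0) (M R : ℝ), IsHam K X ∧ LipschitzWith L X ∧
      (∀ x, ‖X x‖ ≤ M) ∧ ∀ x, R < ‖x.2.2‖ → X x = 0 := by
  obtain ⟨X, hX⟩ : ∃ X, IsHam K X := ⟨fun x => ((InnerProductSpace.toDual ℝ E3).symm
    ((fderiv ℝ K x).comp ((ContinuousLinearMap.inr ℝ _ _).comp (ContinuousLinearMap.inr ℝ _ _))),
    -(InnerProductSpace.toDual ℝ E3).symm ((fderiv ℝ K x).comp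
      ((ContinuousLinearMap.inr ℝ _ _).comp (ContinuousLinearMap.inl ℝ _ _)))), fun x a b => by
    simp [← map_add]⟩
  have h1 : ∀ x y, ‖X x - X y‖ ≤ ‖fderiv ℝ K x - fderiv ℝ K y‖ := fun x y => by
    refine max_le (norm_le_of_inner (norm_nonneg _) fun b => ?_)
      (norm_le_of_inner (norm_nonneg _) fun a => ?_)
    · have := (fderiv ℝ K x - fderiv ℝ K y).le_opNorm (0, 0, b)
      simpa [hX x, hX y, inner_sub_right, real_inner_comm] using this
    · have := (fderiv ℝ K x - fderiv ℝ K y).le_opNorm (0, a, 0)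
      rw [Prod.snd_sub, inner_sub_right, abs_sub_comm]
      simpa [hX x, hX y, real_inner_comm, neg_add_eq_sub] using this
  have h2 : ∀ x, ‖X x‖ ≤ ‖fderiv ℝ K x‖ := fun x => by
    refine max_le (norm_le_of_inner (norm_nonneg _) fun b => ?_)
      (norm_le_of_inner (norm_nonneg _) fun a => ?_)
    · simpa [hX x, real_inner_comm] using (fderiv ℝ K x).le_opNorm (0, 0, b)
    · simpa [hX x, real_inner_comm] using (fderiv ℝ K x).le_opNorm (0, a, 0)
  have hd : ContDiff ℝ 1 (fderiv ℝ K) := hK.fderiv_right (by norm_cast)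
  have hc' := hc.fderiv (𝕜 := ℝ)
  obtain ⟨L, hL⟩ := hd.lipschitzWith_of_hasCompactSupport hc' one_ne_zero
  obtain ⟨M, hM⟩ := hc'.exists_bound_of_continuous hd.continuous
  obtain ⟨R, hR⟩ := hc'.isCompact.isBounded.exists_norm_le
  refine ⟨X, L, M, R, hX, LipschitzWith.of_dist_le_mul fun x y => ?_, fun x => (h2 x).trans (hM x),
    fun x hx => ?_⟩
  · rw [dist_eq_norm]; exact (h1 x y).trans (by simpa [dist_eq_norm] using hL.dist_le_mul x y)
  · have : fderiv ℝ K x = 0 := by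
      by_contra h
      have := hR x (subset_tsupport _ h)
      linarith [norm_snd_le x, norm_snd_le x.2]
    simpa [this] using h2 x

section Chain

variable {X : ℝ × E3 × E3 → E3 × E3} {c τ δ M R : ℝ} {q p : ℕ → E3}

theorem Apx.drift (h : Apx X c τ δ N q p) (hτ : 0 ≤ τ) {M : ℝ}
    (hM : ∀ k < N, ‖X (k * τ, q k, p (k + 1))‖ ≤ M) (k : ℕ) (hk : k ≤ N) :
    ‖q k - q 0‖ ≤ k * (τ * M + δ) ∧ ‖p k - p 0‖ ≤ k * (τ * M + δ) := by
  induction k with
  | zero => simp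
  | succ k ih =>
    obtain ⟨i1, i2⟩ := ih (by omega)
    have h1 := mul_le_mul_of_nonneg_left ((norm_fst_le _).trans (hM k hk)) hτ
    have h2 := mul_le_mul_of_nonneg_left ((norm_snd_le _).trans (hM k hk)) hτ
    have h3 := norm_add₃_le (a := q (k + 1) - q k - τ • (X (k * τ, q k, p (k + 1))).1)
      (b := τ • (X (k * τ, q k, p (k + 1))).1) (c := q k - q 0)
    have h4 := norm_add₃_le (a := p (k + 1) - p k - τ • (X (k * τ, q k, p (k + 1))).2)
      (b := τ • (X (k * τ, q k, p (k + 1))).2) (c := p k - p 0)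
    rw [sub_add_cancel, sub_add_sub_cancel, norm_smul, Real.norm_of_nonneg hτ] at h3 h4
    push_cast
    constructor <;> linarith [h.sq k hk, h.sp k hk]

end Chain

theorem init_lim {X : ℝ × E3 × E3 → E3 × E3} {c : ℝ} {τ δ w : ℕ → ℝ} {N : ℕ → ℕ}
    {q p : ℕ → ℕ → E3} (h : ∀ n, Apx X c (τ n) (δ n) (N n) (q n) (p n)) {l : Filter ℕ} [l.NeBot]
    (hδ : Tendsto δ l (𝓝 0)) (hw0 : ∀ n, 0 ≤ w n) {w₀ : ℝ} (hw : Tendsto w l (𝓝 w₀)) {x P : E3}
    (hq : Tendsto (fun n => q n 0) l (𝓝 x)) (hp : Tendsto (fun n => w n • p n 0) l (𝓝 P)) :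
    Init (w₀ * c) x P := by
  have hn : ∀ n, ‖w n • p n 0‖ = w n * ‖p n 0‖ := fun n => by
    rw [norm_smul, Real.norm_of_nonneg (hw0 n)]
  have c2 : Continuous fun v : E3 => v 2 := by fun_prop
  refine ⟨abs_nonpos_iff.1 (le_of_tendsto_of_tendsto' ((c2.tendsto x).comp hq).abs hδ
    fun n => (h n).i1), abs_nonpos_iff.1 ?_, sub_eq_zero.1 (abs_nonpos_iff.1 ?_)⟩
  · refine le_of_tendsto_of_tendsto' (hq.inner hp).abs
      (by simpa using hδ.mul (hp.norm.add (hw.mul (hq.norm.add hδ)))) fun n => ?_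
    have := mul_le_mul_of_nonneg_left (h n).i2 (hw0 n)
    simp only [inner_smul_right, abs_mul, abs_of_nonneg (hw0 n), hn]
    linarith
  · have h1 : Tendsto (fun n => cr (q n 0) (w n • p n 0)) l (𝓝 (cr x P)) :=
      (crL.continuous₂.tendsto (x, P)).comp (hq.prodMk_nhds hp)
    refine le_of_tendsto_of_tendsto' (((c2.tendsto _).comp h1).sub (hw.mul_const c)).abs
      (by simpa using hδ.mul (hw.add hp.norm)) fun n => ?_
    have := mul_le_mul_of_nonneg_left (h n).i3 (hw0 n)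
    have e : cr (q n 0) (w n • p n 0) 2 - w n * c = w n * (cr (q n 0) (p n 0) 2 - c) := by
      simp; ring
    simp only [Function.comp_apply, e, abs_mul, abs_of_nonneg (hw0 n), hn]
    linarith

theorem ulim (l : Ultrafilter ℕ) {f : ℕ → E3} {C : ℝ} (h : ∀ᶠ n in l, ‖f n‖ ≤ C) :
    ∃ x, Tendsto f l (𝓝 x) := by
  obtain ⟨x, -, hx⟩ := (isCompact_closedBall (0 : E3) C).ultrafilter_le_nhds (l.map f)
    (le_principal_iff.2 (h.mono fun n hn => mem_closedBall_zero_iff.2 hn))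
  exact ⟨x, hx⟩

section Limit

variable {X : ℝ × E3 × E3 → E3 × E3} {c M R : ℝ} {L : ℝ≥0} {q p : ℕ → ℕ → E3} {l : Filter ℕ}

theorem tendsto_step (hl : l ≤ atTop) : Tendsto (fun n : ℕ => 1 / ((n : ℝ) + 1)) l (𝓝 0) :=
  tendsto_one_div_add_atTop_nhds_zero_nat.mono_left hl

theorem drift_le (h : ∀ n : ℕ, Apx X c (1 / (n + 1)) ((1 / (n + 1)) ^ 2) (n + 1) (q n) (p n))
    (hM : ∀ x, ‖X x‖ ≤ M) (n k : ℕ) (hk : k ≤ n + 1) :
    ‖q n k - q n 0‖ ≤ M + 1 ∧ ‖p n k - p n 0‖ ≤ M + 1 := by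
  have M0 : 0 ≤ M := (norm_nonneg _).trans (hM 0)
  have h1 := (h n).drift (by positivity) (fun k _ => hM _) k hk
  have h2 : (k : ℝ) * (1 / (n + 1) * M + (1 / (n + 1)) ^ 2) ≤ M + 1 := by
    have h3 : (k : ℝ) ≤ n + 1 := by exact_mod_cast hk
    have h4 : 1 / ((n : ℝ) + 1) ≤ 1 := by rw [div_le_one (by positivity)]; simp
    calc _ ≤ ((n : ℝ) + 1) * (1 / (n + 1) * M + (1 / (n + 1)) ^ 2) := by gcongr
      _ = M + 1 / (n + 1) := by field_simp
      _ ≤ _ := by linarith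
  exact ⟨h1.1.trans h2, h1.2.trans h2⟩

theorem orbit_lim {K : ℝ × E3 × E3 → ℝ} (hX : IsHam K X) (hL : LipschitzWith L X)
    (hM : ∀ x, ‖X x‖ ≤ M) (hl : l ≤ atTop)
    (h : ∀ n : ℕ, Apx X c (1 / (n + 1)) ((1 / (n + 1)) ^ 2) (n + 1) (q n) (p n)) {x P₀ : E3}
    (hq : Tendsto (fun n => q n 0) l (𝓝 x)) (hp : Tendsto (fun n => p n 0) l (𝓝 P₀)) :
    ∃ Q P : ℝ → E3, IsOrbit K Q P ∧ Q 0 = x ∧ P 0 = P₀ ∧
      Tendsto (fun n => q n (n + 1)) l (𝓝 (Q 1)) ∧ Tendsto (fun n => p n (n + 1)) l (𝓝 (P 1)) := by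
  have M0 : 0 ≤ M := (norm_nonneg _).trans (hM 0)
  obtain ⟨α, a0, ha⟩ := MP_fac2a6_gt.exists_global (Z := fun z : ℝ × E3 × E3 => ((1 : ℝ), X z))
    (L := ⟨max 1 M, by positivity⟩) ((LipschitzWith.const (1 : ℝ)).prodMk hL)
    (fun z => max_le_max norm_one.le (hM z)) (0, x, P₀)
  have df : ∀ {A B : Type} [NormedAddCommGroup A] [NormedSpace ℝ A] [NormedAddCommGroup B]
      [NormedSpace ℝ B] {f : ℝ → A × B} {f' : A × B} {t : ℝ}, HasDerivAt f f' t →
      HasDerivAt (fun s => (f s).1) f'.1 t ∧ HasDerivAt (fun s => (f s).2) f'.2 t :=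
    fun {A B} _ _ _ _ _ _ _ h =>
      ⟨(ContinuousLinearMap.fst ℝ A B).hasFDerivAt.comp_hasDerivAt _ h,
      (ContinuousLinearMap.snd ℝ A B).hasFDerivAt.comp_hasDerivAt _ h⟩
  have at' : ∀ t, (α t).1 = t := fun t => by
    have := is_const_of_deriv_eq_zero (f := fun t => (α t).1 - t)
      (fun t => ((df (ha t)).1.sub (hasDerivAt_id t)).differentiableAt)
      (fun t => ((df (ha t)).1.sub (hasDerivAt_id t)).deriv.trans (sub_self _)) t 0
    simp only [a0] at this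
    linarith
  have hy : ∀ t, HasDerivAt (fun t => (α t).2) (X (t, (α t).2)) t := fun t => by
    have := (df (ha t)).2
    rwa [show α t = (t, (α t).2) from Prod.ext (at' t) rfl] at this
  have key : Tendsto (fun n => (q n (n + 1), p n (n + 1))) l (𝓝 (α 1).2) := by
    have hτ := tendsto_step hl
    refine tendsto_iff_norm_sub_tendsto_zero.2 (squeeze_zero (fun _ => norm_nonneg _)
      (g := fun n : ℕ => Real.exp L * (‖(q n 0, p n 0) - (x, P₀)‖ +
        (|1 / (n + 1) + L * (1 / (n + 1) * M + (1 / (n + 1)) ^ 2)| +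
          L * (1 / (n + 1) * (1 + M))))) (fun n => ?_) ?_)
    · have := euler hL hM hy (τ := 1 / (n + 1)) (by positivity) (z := fun k => (q n k, p n k))
        (N := n + 1) (η := 1 / (n + 1) + L * (1 / (n + 1) * M + (1 / (n + 1)) ^ 2))
        (fun k hk => ?_) (n + 1) le_rfl
      · rw [Nat.cast_succ, mul_one_div_cancel (by positivity), a0] at this
        simpa only [mul_one, one_mul] using this
      set τ : ℝ := 1 / (n + 1)
      have τ0 : 0 < τ := by positivity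
      have h1 := (h n).sq k hk
      have h2 := (h n).sp k hk
      have h3 : ‖p n (k + 1) - p n k‖ ≤ τ * M + τ ^ 2 := by
        have := norm_add_le (p n (k + 1) - p n k - τ • (X (k * τ, q n k, p n (k + 1))).2)
          (τ • (X (k * τ, q n k, p n (k + 1))).2)
        rw [sub_add_cancel, norm_smul, Real.norm_of_nonneg τ0.le] at this
        linarith [mul_le_mul_of_nonneg_left ((norm_snd_le _).trans
          (hM (k * τ, q n k, p n (k + 1)))) τ0.le]
      have h4 := hL.norm_sub_le (k * τ, q n k, p n (k + 1)) (k * τ, q n k, p n k)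
      simp only [Prod.mk_sub_mk, sub_self, Prod.norm_mk, norm_zero,
        max_eq_right (norm_nonneg _)] at h4
      have h5 := norm_add_le ((q n (k + 1), p n (k + 1)) - (q n k, p n k) -
        τ • X (k * τ, q n k, p n (k + 1)))
        (τ • (X (k * τ, q n k, p n (k + 1)) - X (k * τ, q n k, p n k)))
      rw [smul_sub τ, sub_add_sub_cancel, ← smul_sub τ, norm_smul, Real.norm_of_nonneg τ0.le] at h5
      have h6 : ‖(q n (k + 1), p n (k + 1)) - (q n k, p n k) -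
        τ • X (k * τ, q n k, p n (k + 1))‖ ≤ τ ^ 2 := max_le h1 h2
      nlinarith [mul_le_mul_of_nonneg_left (h4.trans (mul_le_mul_of_nonneg_left h3 L.2)) τ0.le]
    · simpa using ((tendsto_iff_norm_sub_tendsto_zero.1 (hq.prodMk_nhds hp)).add
        ((hτ.add (((hτ.mul_const M).add (hτ.pow 2)).const_mul (L : ℝ))).abs.add
          ((hτ.mul_const (1 + M)).const_mul (L : ℝ)))).const_mul (Real.exp L)
  exact ⟨fun t => (α t).2.1, fun t => (α t).2.2,
    fun t _ => ⟨_, _, (df (hy t)).1, (df (hy t)).2, hX _⟩, by simp [a0], by simp [a0],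
    (continuous_fst.tendsto _).comp key, (continuous_snd.tendsto _).comp key⟩

theorem far_lim [l.NeBot] (hM : ∀ x, ‖X x‖ ≤ M) (hR : ∀ x, R < ‖x.2.2‖ → X x = 0) (hl : l ≤ atTop)
    (h : ∀ n : ℕ, Apx X c (1 / (n + 1)) ((1 / (n + 1)) ^ 2) (n + 1) (q n) (p n)) {w : ℕ → ℝ}
    (hw0 : ∀ n, 0 ≤ w n) (hw : Tendsto w l (𝓝 0)) {x P : E3}
    (hq : Tendsto (fun n => q n (n + 1)) l (𝓝 x)) (hp : Tendsto (fun n => w n • p n 0) l (𝓝 P)) :
    Tendsto (fun n => w n • p n (n + 1)) l (𝓝 P) ∧ (P = 0 ∨ Init 0 x P) := by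
  have hτ := tendsto_step hl
  constructor
  · have : Tendsto (fun n => w n • (p n (n + 1) - p n 0)) l (𝓝 0) :=
      squeeze_zero_norm (a := fun n => w n * (M + 1)) (fun n => by
        rw [norm_smul, Real.norm_of_nonneg (hw0 n)]
        exact mul_le_mul_of_nonneg_left (drift_le h hM n _ le_rfl).2 (hw0 n))
        (by simpa using hw.mul_const (M + 1))
    simpa [smul_sub] using this.add hp
  refine or_iff_not_imp_left.2 fun hP => ?_
  have h1 : ∀ᶠ n in l, R + M + 1 < ‖p n 0‖ := by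
    filter_upwards [(hw.mul_const (R + M + 1)).eventually_lt hp.norm
      (by simpa using hP)] with n hn
    rw [norm_smul, Real.norm_of_nonneg (hw0 n)] at hn
    exact lt_of_mul_lt_mul_left hn (hw0 n)
  have h2 : Tendsto (fun n => q n (n + 1) - q n 0) l (𝓝 0) := by
    refine squeeze_zero_norm' ?_ hτ
    filter_upwards [h1] with n hn
    refine ((h n).drift (M := 0) (by positivity) (fun k hk => ?_) (n + 1) le_rfl).1.trans
      (le_of_eq (by push_cast; field_simp; ring))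
    rw [hR _ ?_, norm_zero]
    linarith [(drift_le h hM n (k + 1) hk).2, norm_sub_norm_le (p n 0) (p n (k + 1)),
      norm_sub_rev (p n 0) (p n (k + 1))]
  simpa using init_lim h (by simpa using hτ.pow 2) hw0 hw (by simpa using hq.sub h2) hp

end Limit

theorem chordStmt : ChordStmt := by
  intro K hK hc c θ h0 hπ
  obtain ⟨X, L, M, R, hX, hL, hM, hR⟩ := exists_ham hK hc
  obtain ⟨B, hB⟩ := hc.exists_bound_of_continuous hK.continuous
  choose q p q' p' a1 a2 a3 a4 a5 a6 using fun n : ℕ => exists_apx (hK.of_le (by norm_cast)) hB hX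
    c (1 / (n + 1)) h0 hπ (n + 1) (δ := (1 / (n + 1)) ^ 2) (by positivity)
  set l := Ultrafilter.of (atTop : Filter ℕ)
  have hl : (l : Filter ℕ) ≤ atTop := Ultrafilter.of_le _
  have hδ : Tendsto (fun n : ℕ => (1 / ((n : ℝ) + 1)) ^ 2) l (𝓝 0) := by
    simpa using (tendsto_step hl).pow 2
  have b0 : ∀ (n : ℕ) (v : E3), |inner ℝ v v - 1| ≤ (1 / ((n : ℝ) + 1)) ^ 2 → ‖v‖ ≤ 2 := by
    intro n v hv
    have h4 : 1 / ((n : ℝ) + 1) ≤ 1 := by rw [div_le_one (by positivity)]; simp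
    have h5 : 0 ≤ 1 / ((n : ℝ) + 1) := by positivity
    rw [real_inner_self_eq_norm_sq] at hv
    nlinarith [(abs_le.1 hv).2, norm_nonneg v]
  obtain ⟨x, hx⟩ := ulim l (Eventually.of_forall fun n => b0 n _ (a3 n))
  obtain ⟨y, hy⟩ := ulim l (Eventually.of_forall fun n => b0 n _ (a4 n))
  have lim : ∀ {u v : ℕ → E3} {a b : E3} {r : ℝ}, Tendsto u l (𝓝 a) → Tendsto v l (𝓝 b) →
      (∀ n, |inner ℝ (u n) (v n) - r| ≤ (1 / ((n : ℝ) + 1)) ^ 2) → inner ℝ a b = r :=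
    fun hu hv h => sub_eq_zero.1 (abs_nonpos_iff.1
      (le_of_tendsto_of_tendsto' ((hu.inner hv).sub_const _).abs hδ h))
  have nx := lim hx hx a3
  have ny := lim hy hy a4
  have nxy := lim hx hy a5
  have lc : ∀ {w : ℕ → ℝ} {w₀ : ℝ} {a b : E3}, (∀ n, 0 ≤ w n) → Tendsto w l (𝓝 w₀) →
      Tendsto (fun n => w n • p n (n + 1)) l (𝓝 a) →
      Tendsto (fun n => w n • p' n (n + 1)) l (𝓝 b) → cr x a = cr y b := by
    intro w w₀ a b hw0 hw ha hb
    refine sub_eq_zero.1 (norm_le_zero_iff.1 (le_of_tendsto_of_tendsto'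
      (((crL.continuous₂.tendsto (x, a)).comp (hx.prodMk_nhds ha)).sub
        ((crL.continuous₂.tendsto (y, b)).comp (hy.prodMk_nhds hb))).norm
      (by simpa using hw.mul (hδ.mul (hx.norm.add hy.norm))) fun n => ?_))
    have := mul_le_mul_of_nonneg_left (a6 n) (hw0 n)
    simp only [Function.comp_apply, Function.uncurry_apply_pair, map_smul, ← smul_sub,
      norm_smul, Real.norm_of_nonneg (hw0 n)]
    simpa using this
  by_cases hb : ∃ C : ℝ, ∀ᶠ n in l, ‖p n 0‖ + ‖p' n 0‖ ≤ C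
  · obtain ⟨C, hC⟩ := hb
    have b1 : ∀ {q p : ℕ → ℕ → E3}, (∀ n : ℕ, Apx X c (1 / (n + 1)) ((1 / (n + 1)) ^ 2) (n + 1)
        (q n) (p n)) → (∀ n, ‖q n (n + 1)‖ ≤ 2) → ∃ x, Tendsto (fun n => q n 0) l (𝓝 x) :=
      fun {q p} h h' => ulim l (C := M + 3) (Eventually.of_forall fun n => by
        linarith [(drift_le h hM n _ le_rfl).1, h' n, norm_sub_norm_le (q n 0) (q n (n + 1)),
          norm_sub_rev (q n 0) (q n (n + 1))])
    obtain ⟨x₀, hx₀⟩ := b1 a1 fun n => b0 n _ (a3 n)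
    obtain ⟨y₀, hy₀⟩ := b1 a2 fun n => b0 n _ (a4 n)
    obtain ⟨P₀, hP₀⟩ := ulim l (f := fun n => p n 0) (C := C)
      (hC.mono fun n h => by linarith [norm_nonneg (p' n 0)])
    obtain ⟨P₀', hP₀'⟩ := ulim l (f := fun n => p' n 0) (C := C)
      (hC.mono fun n h => by linarith [norm_nonneg (p n 0)])
    obtain ⟨Q, P, o1, rfl, rfl, t1, t2⟩ := orbit_lim hX hL hM hl a1 hx₀ hP₀
    obtain ⟨Q', P', o2, rfl, rfl, t3, t4⟩ := orbit_lim hX hL hM hl a2 hy₀ hP₀'
    obtain rfl := tendsto_nhds_unique hx t1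
    obtain rfl := tendsto_nhds_unique hy t3
    rw [real_inner_self_eq_norm_sq] at nx ny
    exact ⟨Q, P, Q', P', o1, o2,
      by simpa using init_lim a1 hδ (fun _ => zero_le_one) tendsto_const_nhds hx₀ (by simpa),
      by simpa using init_lim a2 hδ (fun _ => zero_le_one) tendsto_const_nhds hy₀ (by simpa),
      by nlinarith [norm_nonneg (Q 1)], by nlinarith [norm_nonneg (Q' 1)], nxy,
      lc (fun _ => zero_le_one) tendsto_const_nhds (by simpa) (by simpa)⟩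
  exfalso
  have h1 : Tendsto (fun n => ‖p n 0‖ + ‖p' n 0‖) l atTop := tendsto_atTop.2 fun C =>
    (Ultrafilter.eventually_not.2 fun h => hb ⟨C, h⟩).mono fun n h => (not_le.1 h).le
  have hw := h1.inv_tendsto_atTop
  have hw0 : ∀ n, 0 ≤ (‖p n 0‖ + ‖p' n 0‖)⁻¹ := fun n => by positivity
  have h2 : ∀ᶠ n in l, ‖(‖p n 0‖ + ‖p' n 0‖)⁻¹ • p n 0‖ + ‖(‖p n 0‖ + ‖p' n 0‖)⁻¹ • p' n 0‖ = 1 :=
    (h1.eventually_gt_atTop 0).mono fun n h => by
      simp only [norm_smul, Real.norm_of_nonneg (hw0 n)]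
      field_simp
  obtain ⟨P, hP⟩ := ulim l (C := 1) (h2.mono fun n h => (le_add_of_nonneg_right
    (norm_nonneg _)).trans h.le)
  obtain ⟨P', hP'⟩ := ulim l (C := 1) (h2.mono fun n h => (le_add_of_nonneg_left
    (norm_nonneg _)).trans h.le)
  have h3 : ‖P‖ + ‖P'‖ = 1 :=
    tendsto_nhds_unique (hP.norm.add hP'.norm) (tendsto_const_nhds.congr' (h2.mono fun _ h => h.symm))
  obtain ⟨t1, i1⟩ := far_lim hM hR hl a1 hw0 hw hx hP
  obtain ⟨t2, i2⟩ := far_lim hM hR hl a2 hw0 hw hy hP'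
  have h4 := lc hw0 hw t1 t2
  have vert : ∀ {x P : E3}, inner ℝ x x = 1 → Init 0 x P → P 0 = 0 ∧ P 1 = 0 := by
    rintro x P h ⟨e1, e2, e3⟩
    simp only [inner3, cr_two, e1] at h e2 e3
    exact ⟨by linear_combination (-P 0) * h + x 0 * e2 - x 1 * e3,
      by linear_combination (-P 1) * h + x 1 * e2 + x 0 * e3⟩
  have one : ∀ {x P : E3}, inner ℝ x x = 1 → Init 0 x P → cr x P = 0 → P = 0 := by
    intro x P h i e
    obtain ⟨v0, v1⟩ := vert h i
    have e0 := congrArg (· 0) e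
    have e1 := congrArg (· 1) e
    simp only [inner3, cr_zero, cr_one, i.1, v0, v1, PiLp.zero_apply] at h e0 e1
    exact ext3 v0 v1 (by
      simp only [PiLp.zero_apply]; linear_combination (-P 2) * h + x 1 * e0 - x 0 * e1)
  have cz : ∀ x : E3, cr x 0 = 0 := fun x => map_zero (crL x)
  rcases i1 with rfl | i1
  · rcases i2 with rfl | i2
    · simp at h3
    · simp [one ny i2 (by rw [← h4, cz])] at h3
  rcases i2 with rfl | i2
  · simp [one nx i1 (by rw [h4, cz])] at h3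
  obtain ⟨v0, v1⟩ := vert nx i1
  obtain ⟨w0, w1⟩ := vert ny i2
  have e0 := congrArg (· 0) h4
  have e1 := congrArg (· 1) h4
  simp only [inner3, cr_zero, cr_one, i1.1, i2.1, v0, v1, w0, w1] at nx ny nxy e0 e1
  have f1 : P 2 = cos θ * P' 2 := by
    linear_combination (-P 2) * nx + x 1 * e0 - x 0 * e1 + P' 2 * nxy
  have f2 : P' 2 = cos θ * P 2 := by
    linear_combination (-P' 2) * ny - y 1 * e0 + y 0 * e1 + P 2 * nxy
  have hs := sin_pos_of_pos_of_lt_pi h0 hπ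
  have f3 : P 2 = 0 := by
    have : sin θ ^ 2 * P 2 = 0 := by linear_combination P 2 * sin_sq_add_cos_sq θ + f1 + cos θ * f2
    exact (mul_eq_zero.1 this).resolve_left (by positivity)
  rw [ext3 (a := P) (b := 0) v0 v1 f3, ext3 (a := P') (b := 0) w0 w1 (by simp [f2, f3])] at h3
  simp at h3

end Pool.Agent.Lib.MP_55a7f7_gt
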