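import Mathlib

/-! Smooth Jordan curves and rectangles on the round unit sphere. -/

set_option autoImplicit false

open scoped ContDiff

namespace Pool.Agent.Lib.MP_55a7f7_gt

/-- Euclidean three-space. -/
abbrev E3 : Type := EuclideanSpace ℝ (Fin 3)

/-- The cross product. -/
noncomputable def cr (a b : E3) : E3 :=
  WithLp.toLp 2 ![a 1 * b 2 - a 2 * b 1, a 2 * b 0 - a 0 * b 2, a 0 * b 1 - a 1 * b 0]

/-- The exponential map of the round unit sphere at `x`, for a tangent vector `v`. -/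
noncomputable def sexp (x v : E3) : E3 := Real.cos ‖v‖ • x + (Real.sin ‖v‖ / ‖v‖) • v

/-- The rotation by the angle `θ` of the tangent plane of the unit sphere at `x`. -/
noncomputable def rot (x : E3) (θ : ℝ) (v : E3) : E3 := Real.cos θ • v + Real.sin θ • cr x v

/-- Four pairwise distinct points are the vertices of a rectangle of type `θ`. -/
def IsRect (θ : ℝ) (p₁ p₂ p₃ p₄ : E3) : Prop :=
  [p₁, p₂, p₃, p₄].Nodup ∧ ∃ x v : E3, ‖x‖ = 1 ∧ inner ℝ x v = 0 ∧ v ≠ 0 ∧
    p₁ = sexp x v ∧ p₂ = sexp x (rot x θ v) ∧ p₃ = sexp x (-v) ∧ p₄ = sexp x (-rot x θ v)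

/-- A smooth embedding of the circle `ℝ / ℤ`, given by its periodic lift. -/
structure Emb {F : Type} [NormedAddCommGroup F] [NormedSpace ℝ F] (γ : ℝ → F) : Prop where
  smooth : ContDiff ℝ ∞ γ
  per : Function.Periodic γ 1
  inj : Set.InjOn γ (Set.Ico 0 1)
  reg : ∀ s, deriv γ s ≠ 0

end Pool.Agent.Lib.MP_55a7f7_gt
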