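import Pool.Agent.Lib.MP_55a7f7_gt.Tools
import Pool.Agent.Lib.MP_55a7f7_gt.Basic

-- part Pool.Agent.Lib.MP_55a7f7_gt.Cyl
section

/-! Isotopies of constant area in cylindrical coordinates. -/

set_option autoImplicit false

open scoped ContDiff Topology NNReal ComplexConjugate
open Set Real Filter MeasureTheory

namespace Pool.Agent.Lib.MP_55a7f7_gt

/-- The point of the sphere with longitude `φ` and height `z`. -/
noncomputable def cyl (φ z : ℝ) : E3 :=
  WithLp.toLp 2 ![√(1 - z ^ 2) * cos φ, √(1 - z ^ 2) * sin φ, z]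

@[simp] theorem cyl_zero (φ z : ℝ) : cyl φ z 0 = √(1 - z ^ 2) * cos φ := rfl
@[simp] theorem cyl_one (φ z : ℝ) : cyl φ z 1 = √(1 - z ^ 2) * sin φ := rfl
@[simp] theorem cyl_two (φ z : ℝ) : cyl φ z 2 = z := rfl

theorem one_sub_sq_pos {z : ℝ} (h : |z| < 1) : 0 < 1 - z ^ 2 := by
  have := abs_lt.1 h; nlinarith

theorem cyl_deriv {φ z : ℝ → ℝ} {φ' z' τ : ℝ} {D : E3} (hφ : HasDerivAt φ φ' τ)
    (hz : HasDerivAt z z' τ) (h : |z τ| < 1) (hD : HasDerivAt (fun τ => cyl (φ τ) (z τ)) D τ) :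
    ∃ r', √(1 - z τ ^ 2) * r' = -(z τ * z') ∧
      D 0 = r' * cos (φ τ) - √(1 - z τ ^ 2) * sin (φ τ) * φ' ∧
      D 1 = r' * sin (φ τ) + √(1 - z τ ^ 2) * cos (φ τ) * φ' ∧ D 2 = z' := by
  have h0 := one_sub_sq_pos h
  have hr := ((hz.pow 2).const_sub 1).sqrt h0.ne'
  have hc := fun i : Fin 3 => (EuclideanSpace.proj (𝕜 := ℝ) i).hasFDerivAt.comp_hasDerivAt τ hD
  refine ⟨-(z τ * z') / √(1 - z τ ^ 2), ?_, ((hc 0).unique (hr.mul hφ.cos)).trans (by simp; ring),
    ((hc 1).unique (hr.mul hφ.sin)).trans (by simp; ring), (hc 2).unique hz⟩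
  have := sqrt_pos.2 h0
  field_simp

/-- Smooth families of embedded essential curves on the open cylinder. -/
structure Cyl (φ z : ℝ × ℝ → ℝ) : Prop where
  sφ : ContDiff ℝ ∞ φ
  sz : ContDiff ℝ ∞ z
  pφ : ∀ t s, φ (t, s + 1) = φ (t, s) + 2 * π
  lt : ∀ x, |z x| < 1
  emb : ∀ t, Emb fun s => (Complex.exp (φ (t, s) * Complex.I), z (t, s))

theorem Cyl.pz {φ z : ℝ × ℝ → ℝ} (h : Cyl φ z) (t s : ℝ) : z (t, s + 1) = z (t, s) + 0 := by
  simpa using congrArg Prod.snd ((h.emb t).per s)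

theorem Cyl.int_ds {φ z : ℝ × ℝ → ℝ} (h : Cyl φ z) (t : ℝ) :
    ∫ s in (0 : ℝ)..1, ds φ (t, s) = 2 * π := by
  rw [intervalIntegral.integral_eq_sub_of_hasDerivAt (fun s _ => hasDerivAt_ds h.sφ t s)
    (((contDiff_ds h.sφ).continuous.comp (Continuous.prodMk_right t)).intervalIntegrable _ _)]
  simpa using sub_eq_iff_eq_add'.2 (h.pφ t 0)

theorem Cyl.ham (hJ : JetStmt) {φ z : ℝ × ℝ → ℝ} (h : Cyl φ z) {A : ℝ}
    (hA : ∀ t, ∫ s in (0 : ℝ)..1, z (t, s) * ds φ (t, s) = A) :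
    ∃ H : ℝ × E3 → ℝ, ContDiff ℝ ∞ H ∧ HasCompactSupport H ∧ ∀ (p : ℝ → E3) (s : ℝ),
      p 0 = cyl (φ (0, s)) (z (0, s)) →
      (∀ t ∈ Icc (0 : ℝ) 1, HasDerivAt p (cr (grad H t (p t)) (p t)) t) →
        p 1 = cyl (φ (1, s)) (z (1, s)) := by
  have h0 := fun x => one_sub_sq_pos (h.lt x)
  have hr : ContDiff ℝ ∞ fun x => √(1 - z x ^ 2) :=
    (contDiff_const.sub (h.sz.pow 2)).sqrt fun x => (h0 x).ne'
  have hc : ContDiff ℝ ∞ fun x => cyl (φ x) (z x) := contDiff_euclidean.2 fun i => by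
    fin_cases i
    exacts [hr.mul h.sφ.cos, hr.mul h.sφ.sin, h.sz]
  refine ham_of_area hJ hc (fun t => (h.emb t).of_comp
    (fun p : E3 => (((√(1 - p 2 ^ 2))⁻¹ : ℝ) • ((p 0 : ℂ) + (p 1 : ℂ) * Complex.I), p 2))
    (hc.comp (contDiff_const.prodMk contDiff_id)) (fun s => by
      simp only [cyl, h.pφ, h.pz, add_zero, cos_add_two_pi, sin_add_two_pi]) (fun s => ?_)
    fun s => ?_) (fun x => ?_) fun t => ?_
  · have h1 : DifferentiableAt ℝ (fun p : E3 => (√(1 - p 2 ^ 2))⁻¹) (cyl (φ (t, s)) (z (t, s))) :=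
      (DifferentiableAt.sqrt (f := fun p : E3 => 1 - p 2 ^ 2) (by fun_prop) (h0 (t, s)).ne').inv
        (sqrt_pos.2 (h0 (t, s))).ne'
    have h2 : Differentiable ℝ Complex.ofReal := Complex.ofRealCLM.differentiable
    exact (h1.smul (by fun_prop)).prodMk (by fun_prop)
  · have := (sqrt_pos.2 (h0 (t, s))).ne'
    refine Prod.ext (Complex.ext ?_ ?_) rfl <;>
      simp [Complex.exp_ofReal_mul_I_re, Complex.exp_ofReal_mul_I_im, this,
        Complex.cos_ofReal_re, Complex.sin_ofReal_re]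
  · have := norm_sq3 (cyl (φ x) (z x))
    simp only [cyl_zero, cyl_one, cyl_two, mul_pow, sq_sqrt (h0 x).le] at this
    have h1 : ‖cyl (φ x) (z x)‖ ^ 2 = 1 := by
      linear_combination this + (1 - z x ^ 2) * cos_sq_add_sin_sq (φ x)
    nlinarith [norm_nonneg (cyl (φ x) (z x))]
  have e1 : ∀ s, inner ℝ (cr (cyl (φ (t, s)) (z (t, s))) (dt (fun x => cyl (φ x) (z x)) (t, s)))
      (ds (fun x => cyl (φ x) (z x)) (t, s)) = ds (fun x => z x * dt φ x) (t, s) -
        dt (fun x => z x * ds φ x) (t, s) := fun s => by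
    obtain ⟨a, a0, a1, a2, a3⟩ := cyl_deriv (hasDerivAt_dt h.sφ t s) (hasDerivAt_dt h.sz t s)
      (h.lt _) (hasDerivAt_dt hc t s)
    obtain ⟨b, b0, b1, b2, b3⟩ := cyl_deriv (hasDerivAt_ds h.sφ t s) (hasDerivAt_ds h.sz t s)
      (h.lt _) (hasDerivAt_ds hc t s)
    rw [(hasDerivAt_ds (h.sz.mul (contDiff_dt h.sφ)) t s).unique
      ((hasDerivAt_ds h.sz t s).mul (hasDerivAt_ds (contDiff_dt h.sφ) t s)),
      (hasDerivAt_dt (h.sz.mul (contDiff_ds h.sφ)) t s).unique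
      ((hasDerivAt_dt h.sz t s).mul (hasDerivAt_dt (contDiff_ds h.sφ) t s)), dt_ds h.sφ]
    simp only [inner3, cr_zero, cr_one, cr_two, cyl_zero, cyl_one, cyl_two, a1, a2, a3, b1, b2, b3]
    have e2 := sq_sqrt (h0 (t, s)).le
    have e3 := cos_sq_add_sin_sq (φ (t, s))
    set r := √(1 - z (t, s) ^ 2)
    linear_combination (r ^ 2 * (dt φ (t, s) * ds z (t, s) - ds φ (t, s) * dt z (t, s)) +
      z (t, s) * r * (a * ds φ (t, s) - b * dt φ (t, s))) * e3 +
      (dt φ (t, s) * ds z (t, s) - ds φ (t, s) * dt z (t, s)) * e2 +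
      z (t, s) * ds φ (t, s) * a0 - z (t, s) * dt φ (t, s) * b0
  have c1 := ((contDiff_ds (h.sz.mul (contDiff_dt h.sφ))).continuous.comp
    (Continuous.prodMk_right t)).intervalIntegrable (μ := volume) 0 1
  have c2 := ((contDiff_dt (h.sz.mul (contDiff_ds h.sφ))).continuous.comp
    (Continuous.prodMk_right t)).intervalIntegrable (μ := volume) 0 1
  have e4 := hasDerivAt_int (h.sz.mul (contDiff_ds h.sφ)) t
  simp only [hA] at e4
  simp only [Function.comp_def] at c1 c2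
  simp only [e1]
  rw [intervalIntegral.integral_sub c1 c2, e4.unique (hasDerivAt_const t A),
    intervalIntegral.integral_eq_sub_of_hasDerivAt
      (fun s _ => hasDerivAt_ds (h.sz.mul (contDiff_dt h.sφ)) t s) c1]
  have e5 := h.pz t 0
  have e6 := dt_per h.sφ h.pφ t 0
  rw [zero_add] at e5 e6
  simp [e5, e6]

theorem sign_cyl (hS : SignStmt) {φ u : ℝ → ℝ} (hφ : ContDiff ℝ ∞ φ) (hu : ContDiff ℝ ∞ u)
    (h0 : ∀ s, 0 < u s) (he : Emb fun s => (Complex.exp (φ s * Complex.I), u s))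
    (hi : 0 < ∫ s in (0 : ℝ)..1, deriv φ s) : 0 ≤ ∫ s in (0 : ℝ)..1, u s * deriv φ s := by
  have hr : ContDiff ℝ ∞ fun s => √(u s) := hu.sqrt fun s => (h0 s).ne'
  have hre : ContDiff ℝ ∞ Complex.ofReal := Complex.ofRealCLM.contDiff
  have hw : ContDiff ℝ ∞ fun s => (√(u s) : ℂ) * Complex.exp (φ s * Complex.I) :=
    (hre.comp hr).mul ((hre.comp hφ).mul contDiff_const).cexp
  have r0 : ∀ s, (√(u s) : ℂ) ≠ 0 := fun s => by exact_mod_cast (sqrt_pos.2 (h0 s)).ne'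
  have w0 : ∀ s, (√(u s) : ℂ) * Complex.exp (φ s * Complex.I) ≠ 0 := fun s =>
    mul_ne_zero (r0 s) (Complex.exp_ne_zero _)
  have wn : ∀ s, ‖(√(u s) : ℂ) * Complex.exp (φ s * Complex.I)‖ = √(u s) := fun s => by
    simp [Complex.norm_exp_ofReal_mul_I]
  have hd : ∀ s, deriv (fun s => (√(u s) : ℂ) * Complex.exp (φ s * Complex.I)) s =
      ((deriv (fun s => √(u s)) s : ℝ) + √(u s) * deriv φ s * Complex.I) *
        Complex.exp (φ s * Complex.I) := fun s => by
    exact ((hr.differentiable (by simp) s).hasDerivAt.ofReal_comp.mul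
      (((hφ.differentiable (by simp) s).hasDerivAt.ofReal_comp.mul_const
        Complex.I).cexp)).deriv.trans (by ring)
  have := hS _ (he.of_comp (fun w : ℂ => (‖w‖⁻¹ • w, ‖w‖ ^ 2)) hw (fun s => by
      have := he.per s
      simp only [Prod.mk.injEq] at this
      simp only [this.1, this.2]) (fun s => ?_) fun s => ?_) w0 ?_
  · convert this using 3 with s
    rw [hd, map_mul, Complex.conj_ofReal, mul_mul_mul_comm, mul_comm (conj _), Complex.mul_conj,
      Complex.normSq_eq_norm_sq, Complex.norm_exp_ofReal_mul_I]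
    simp [← mul_assoc, mul_self_sqrt (h0 s).le]
  · have h1 := (differentiableAt_id (𝕜 := ℝ) (x := (√(u s) : ℂ) *
      Complex.exp (φ s * Complex.I))).norm ℝ (w0 s)
    exact ((h1.inv (norm_ne_zero_iff.2 (w0 s))).smul differentiableAt_id).prodMk (h1.pow 2)
  · rw [wn, sq_sqrt (h0 s).le, Complex.real_smul, Complex.ofReal_inv, ← mul_assoc,
      inv_mul_cancel₀ (r0 s), one_mul]
  · convert hi using 3 with s
    rw [hd, mul_div_mul_right _ _ (Complex.exp_ne_zero _), Complex.div_ofReal_im]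
    simp [(sqrt_pos.2 (h0 s)).ne']

theorem Cyl.mean_lt (hS : SignStmt) {φ z : ℝ × ℝ → ℝ} (h : Cyl φ z) (t : ℝ) :
    |(∫ s in (0 : ℝ)..1, z (t, s) * ds φ (t, s)) / (2 * π)| < 1 := by
  have c0 : ContDiff ℝ ∞ fun s : ℝ => (t, s) := contDiff_const.prodMk contDiff_id
  obtain ⟨η, η0, hη⟩ := (isCompact_Icc (a := (0 : ℝ)) (b := 1)).exists_forall_le'
    (f := fun s => 1 - |z (t, s)|) (a := 0)
    (continuous_const.sub (h.sz.comp c0).continuous.abs).continuousOn
    fun s _ => sub_pos.2 (h.lt _)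
  have hη' : ∀ s, |z (t, s)| ≤ 1 - η := fun s => by
    obtain ⟨y, hy, e⟩ := Function.Periodic.exists_mem_Ico₀ (f := fun s => z (t, s))
      (fun s => by simpa using h.pz t s) one_pos s
    simp only [e]
    linarith [hη y (Ico_subset_Icc_self hy)]
  have i1 := ((contDiff_ds h.sφ).comp c0).continuous.intervalIntegrable (μ := volume) 0 1
  have i2 := ((h.sz.mul (contDiff_ds h.sφ)).comp c0).continuous.intervalIntegrable (μ := volume) 0 1
  have key : ∀ σ : ℝ, σ = 1 ∨ σ = -1 →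
      0 ≤ (1 - η / 2) * (2 * π) + σ * ∫ s in (0 : ℝ)..1, z (t, s) * ds φ (t, s) := fun σ hσ => by
    have hσ2 : σ * σ = 1 := by rcases hσ with rfl | rfl <;> norm_num
    have hu : ContDiff ℝ ∞ fun s => 1 - η / 2 + σ * z (t, s) :=
      contDiff_const.add (contDiff_const.mul (h.sz.comp c0))
    have := sign_cyl hS (h.sφ.comp c0) hu (fun s => by
        rcases hσ with rfl | rfl <;> linarith [abs_le.1 (hη' s)])
      ((h.emb t).of_comp (fun y : ℂ × ℝ => (y.1, σ * (y.2 - (1 - η / 2))))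
        ((contDiff_fst.comp (h.emb t).smooth).prodMk hu) (fun s => by
          have := (h.emb t).per s
          simp only [Prod.mk.injEq] at this
          simp only [Function.comp_apply, this.1, this.2]) (fun s => by fun_prop)
        fun s => Prod.ext rfl (by simp only; linear_combination z (t, s) * hσ2))
      (by simp only [Function.comp_def, (hasDerivAt_ds h.sφ t _).deriv, h.int_ds]; positivity)
    simp only [Function.comp_def, (hasDerivAt_ds h.sφ t _).deriv, add_mul, mul_assoc] at this i1 i2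
    rwa [intervalIntegral.integral_add (i1.const_mul _) (i2.const_mul _),
      intervalIntegral.integral_const_mul, intervalIntegral.integral_const_mul, h.int_ds] at this
  rw [abs_lt, lt_div_iff₀ (by positivity), div_lt_iff₀ (by positivity)]
  constructor <;> nlinarith [key 1 (.inl rfl), key (-1) (.inr rfl), mul_pos η0 pi_pos]

theorem Cyl.squeeze (hS : SignStmt) {φ z : ℝ × ℝ → ℝ} (h : Cyl φ z) {z₀ : ℝ}
    (h0 : ∀ s, z (0, s) = z₀) : ∃ (φ' z' : ℝ × ℝ → ℝ) (a : ℝ), Cyl φ' z' ∧ |a| < 1 ∧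
      (∀ t, ∫ s in (0 : ℝ)..1, z' (t, s) * ds φ' (t, s) = a * (2 * π)) ∧
      (∀ s, φ' (0, s) = φ (0, s) ∧ z' (0, s) = a) ∧
      ∀ s, φ' (1, s) = φ (1, s) ∧ z' (1, s) = z (1, s) := by
  set A : ℝ → ℝ := fun t => (∫ s in (0 : ℝ)..1, z (t, s) * ds φ (t, s)) / (2 * π) with hA
  have A1 : ContDiff ℝ ∞ A := (contDiff_int (h.sz.mul (contDiff_ds h.sφ))).div_const _
  have A2 : ∀ t, |A t| < 1 := h.mean_lt hS
  have hs : ContDiff ℝ ∞ smoothTransition := smoothTransition.contDiff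
  set b := (1 - |A 1|) / 2 with hb
  have b0 : 0 < b := by linarith [A2 1]
  have b1 : b ≤ 1 / 2 := by linarith [abs_nonneg (A 1)]
  set α : ℝ → ℝ := fun t => b + (1 - b) * smoothTransition (2 * t - 1) with hα
  have α0 : ∀ t, 0 < α t := fun t =>
    add_pos_of_pos_of_nonneg b0 (mul_nonneg (by linarith) (smoothTransition.nonneg _))
  have α1 : ∀ t, α t ≤ 1 := fun t => by
    simp only [hα]; nlinarith [smoothTransition.le_one (2 * t - 1)]
  have αs : ContDiff ℝ ∞ α := contDiff_const.add (contDiff_const.mul (hs.comp (by fun_prop)))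
  have us : ContDiff ℝ ∞ fun x : ℝ × ℝ => smoothTransition (2 * x.1) := hs.comp (by fun_prop)
  have s1 : ContDiff ℝ ∞ fun x : ℝ × ℝ => φ (smoothTransition (2 * x.1), x.2) :=
    h.sφ.comp (us.prodMk contDiff_snd)
  have s2 : ContDiff ℝ ∞ fun x : ℝ × ℝ => α x.1 * (z (smoothTransition (2 * x.1), x.2) -
      A (smoothTransition (2 * x.1))) + A 1 := ((αs.comp contDiff_fst).mul
    ((h.sz.comp (us.prodMk contDiff_snd)).sub (A1.comp us))).add contDiff_const
  refine ⟨_, _, A 1, ⟨s1, s2, fun t s => h.pφ _ _, fun x => ?_, fun t => ?_⟩, A2 1, fun t => ?_,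
    fun s => ⟨by simp, ?_⟩, fun s => ?_⟩
  · have h1 := abs_lt.1 (h.lt (smoothTransition (2 * x.1), x.2))
    have h2 := abs_lt.1 (A2 (smoothTransition (2 * x.1)))
    rcases le_total (2 * x.1) 1 with ht | ht
    · have : α x.1 = b := by
        simp only [hα]; rw [smoothTransition.zero_of_nonpos (by linarith)]; ring
      rw [this, abs_lt]
      constructor <;> nlinarith [le_abs_self (A 1), neg_abs_le (A 1)]
    · rw [smoothTransition.one_of_one_le ht] at h1 h2 ⊢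
      rw [abs_lt]
      constructor <;> nlinarith [α0 x.1, α1 x.1]
  · refine (h.emb (smoothTransition (2 * t))).of_comp
      (fun y : ℂ × ℝ => (y.1, (y.2 - A 1) / α t + A (smoothTransition (2 * t))))
      ((contDiff_fst.comp (h.emb (smoothTransition (2 * t))).smooth).prodMk
        (s2.comp ((contDiff_const (c := t)).prodMk contDiff_id)))
      (fun s => ?_) (fun s => by fun_prop) fun s => Prod.ext rfl ?_
    · have := (h.emb (smoothTransition (2 * t))).per s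
      simp only [Prod.mk.injEq] at this
      simp only [this.1, this.2]
    · have := (α0 t).ne'
      simp only
      field_simp
      ring
  · have e : ∀ s, ds (fun x : ℝ × ℝ => φ (smoothTransition (2 * x.1), x.2)) (t, s) =
        ds φ (smoothTransition (2 * t), s) := fun s =>
      (hasDerivAt_ds s1 t s).unique (hasDerivAt_ds h.sφ (smoothTransition (2 * t)) s)
    simp only [e]
    generalize smoothTransition (2 * t) = u
    have c0 : ContDiff ℝ ∞ fun s : ℝ => (u, s) := contDiff_const.prodMk contDiff_id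
    have i1 := ((contDiff_ds h.sφ).comp c0).continuous.intervalIntegrable (μ := volume) 0 1
    have i2 := ((h.sz.mul (contDiff_ds h.sφ)).comp c0).continuous.intervalIntegrable
      (μ := volume) 0 1
    have e2 : ∀ s, (α t * (z (u, s) - A u) + A 1) * ds φ (u, s) =
        α t * (z (u, s) * ds φ (u, s)) + (A 1 - α t * A u) * ds φ (u, s) := fun s => by ring
    simp only [Function.comp_def] at i1 i2
    simp only [e2]
    rw [intervalIntegral.integral_add (i2.const_mul _) (i1.const_mul _),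
      intervalIntegral.integral_const_mul, intervalIntegral.integral_const_mul, h.int_ds]
    simp only [hA]
    field_simp
    ring
  · have : A 0 = z₀ := by
      simp only [hA, h0]
      rw [intervalIntegral.integral_const_mul, h.int_ds]
      field_simp
    simp [this, h0]
  · have e1 : smoothTransition (2 * 1) = 1 := smoothTransition.one_of_one_le (by norm_num)
    have e2 : α 1 = 1 := by
      simp only [hα]; rw [smoothTransition.one_of_one_le (by norm_num)]; ring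
    simp only [e1, e2]
    exact ⟨trivial, by ring⟩

/-- Inverse stereographic projection. -/
noncomputable def ist (ζ : ℂ) : E3 :=
  WithLp.toLp 2 ![2 * ζ.re / (‖ζ‖ ^ 2 + 1), 2 * ζ.im / (‖ζ‖ ^ 2 + 1),
    (‖ζ‖ ^ 2 - 1) / (‖ζ‖ ^ 2 + 1)]

@[simp] theorem ist_zero (ζ : ℂ) : ist ζ 0 = 2 * ζ.re / (‖ζ‖ ^ 2 + 1) := rfl
@[simp] theorem ist_one (ζ : ℂ) : ist ζ 1 = 2 * ζ.im / (‖ζ‖ ^ 2 + 1) := rfl
@[simp] theorem ist_two (ζ : ℂ) : ist ζ 2 = (‖ζ‖ ^ 2 - 1) / (‖ζ‖ ^ 2 + 1) := rfl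

theorem cyl_eq_ist (Λ : ℂ) : cyl Λ.im ((‖Complex.exp Λ‖ ^ 2 - 1) / (‖Complex.exp Λ‖ ^ 2 + 1)) =
    ist (Complex.exp Λ) := by
  have : √(1 - ((‖Complex.exp Λ‖ ^ 2 - 1) / (‖Complex.exp Λ‖ ^ 2 + 1)) ^ 2) =
      2 * ‖Complex.exp Λ‖ / (‖Complex.exp Λ‖ ^ 2 + 1) := by
    rw [sqrt_eq_iff_mul_self_eq_of_pos (by have := Complex.exp_ne_zero Λ; positivity)]
    field_simp
    ring
  apply ext3
  · rw [cyl_zero, this, ist_zero, Complex.exp_re, Complex.norm_exp]; ring
  · rw [cyl_one, this, ist_one, Complex.exp_im, Complex.norm_exp]; ring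
  · rfl

theorem ham_of_iso (hJ : JetStmt) (hS : SignStmt) {a : ℂ} {ξ : ℝ → ℂ}
    (h : Iso {0}ᶜ (fun s => a * Complex.exp ((2 * π * s : ℝ) * Complex.I)) ξ) :
    ∃ (H : ℝ × E3 → ℝ) (z : ℝ), ContDiff ℝ ∞ H ∧ HasCompactSupport H ∧ |z| < 1 ∧
      ∀ p : ℝ → E3, ‖p 0‖ = 1 → p 0 2 = z →
        (∀ t ∈ Icc (0 : ℝ) 1, HasDerivAt p (cr (grad H t (p t)) (p t)) t) →
        ∃ s, p 1 = ist (ξ s) := by
  obtain ⟨ζ, h1, h2, h3, h4⟩ := h
  have hI : ∀ x, smoothTransition x ∈ Icc (0 : ℝ) 1 := fun x =>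
    ⟨smoothTransition.nonneg x, smoothTransition.le_one x⟩
  obtain ⟨Λ, L1, L2⟩ := exists_log (ζ := fun x => ζ (smoothTransition x.1, x.2))
    (h1.comp ((smoothTransition.contDiff.comp contDiff_fst).prodMk contDiff_snd))
    fun x => (h2 _ (hI _)).2 _
  have Lc := L1.continuous
  have e0 : ∀ s : ℝ, Λ (0, s) = Λ (0, 0) + (2 * π * s : ℝ) * Complex.I := fun s => by
    have := const_of_exp (f := fun s : ℝ => Λ (0, s) - (2 * π * s : ℝ) * Complex.I)
      (by fun_prop) (c := a) (fun s => by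
        rw [Complex.exp_sub, L2, smoothTransition.zero, h3, mul_div_cancel_right₀ _
          (Complex.exp_ne_zero _)]) s 0
    simpa [sub_eq_iff_eq_add] using this
  have e1 : ∀ t s : ℝ, Λ (t, s + 1) = Λ (t, s) + (2 * π : ℝ) * Complex.I := fun t s => by
    have := const_of_exp (f := fun x : ℝ × ℝ => Λ (x.1, x.2 + 1) - Λ x) (by fun_prop) (c := 1)
      (fun x => by
        rw [Complex.exp_sub, L2, L2, div_eq_one_iff_eq ((h2 _ (hI x.1)).2 x.2)]
        exact (h2 _ (hI x.1)).1.per x.2)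
      (t, s) (0, 0)
    simp only [zero_add, e0 1, add_sub_cancel_left, mul_one] at this
    linear_combination this
  have n0 : ∀ x, 0 < ‖Complex.exp (Λ x)‖ := fun x => norm_pos_iff.2 (Complex.exp_ne_zero _)
  have s1 : ContDiff ℝ ∞ fun x => (Λ x).im := Complex.imCLM.contDiff.comp L1
  have s2 : ContDiff ℝ ∞ fun x => (‖Complex.exp (Λ x)‖ ^ 2 - 1) / (‖Complex.exp (Λ x)‖ ^ 2 + 1) :=
    ((L1.cexp.norm_sq ℂ).sub contDiff_const).div ((L1.cexp.norm_sq ℂ).add contDiff_const)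
      fun x => by positivity
  have hre : ContDiff ℝ ∞ Complex.ofReal := Complex.ofRealCLM.contDiff
  have C1 : Cyl (fun x => (Λ x).im)
      fun x => (‖Complex.exp (Λ x)‖ ^ 2 - 1) / (‖Complex.exp (Λ x)‖ ^ 2 + 1) := by
    refine ⟨s1, s2, fun t s => by simp [e1], fun x => ?_, fun t => (h2 _ (hI t)).1.of_comp
      (fun y : ℂ × ℝ => √((1 + y.2) / (1 - y.2)) • y.1)
      ((((hre.comp s1).mul contDiff_const).cexp.prodMk s2).comp
        (contDiff_const.prodMk contDiff_id)) (fun s => ?_) (fun s => ?_) fun s => ?_⟩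
    · rw [abs_lt, lt_div_iff₀ (by positivity), div_lt_one (by positivity)]
      constructor <;> nlinarith [n0 x]
    · simp [e1, add_mul, Complex.exp_add]
    all_goals
      have e : (1 + (‖Complex.exp (Λ (t, s))‖ ^ 2 - 1) / (‖Complex.exp (Λ (t, s))‖ ^ 2 + 1)) /
          (1 - (‖Complex.exp (Λ (t, s))‖ ^ 2 - 1) / (‖Complex.exp (Λ (t, s))‖ ^ 2 + 1)) =
          ‖Complex.exp (Λ (t, s))‖ ^ 2 := by field_simp; ring
    · have h : 1 - (‖Complex.exp (Λ (t, s))‖ ^ 2 - 1) / (‖Complex.exp (Λ (t, s))‖ ^ 2 + 1) ≠ 0 :=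
        fun h => by rw [h, div_zero] at e; exact (pow_pos (n0 _) 2).ne e
      exact (DifferentiableAt.sqrt (f := fun y : ℂ × ℝ => (1 + y.2) / (1 - y.2))
        (by fun_prop (disch := exact h))
        (e.trans_ne (pow_pos (n0 _) 2).ne')).smul differentiableAt_fst
    · simp only
      rw [e, sqrt_sq (n0 _).le, ← L2 (t, s), Complex.norm_exp, Complex.real_smul,
        Complex.ofReal_exp, ← Complex.exp_add, Complex.re_add_im]
  obtain ⟨φ, z, c, C2, c1, c2, c3, c4⟩ := C1.squeeze hS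
    (z₀ := (‖Complex.exp (Λ (0, 0))‖ ^ 2 - 1) / (‖Complex.exp (Λ (0, 0))‖ ^ 2 + 1))
    fun s => by rw [e0 s, Complex.exp_add, norm_mul, Complex.norm_exp_ofReal_mul_I, mul_one]
  obtain ⟨H, H1, H2, H3⟩ := C2.ham hJ c2
  refine ⟨H, c, H1, H2, c1, fun p p1 p2 hp => ?_⟩
  set w : ℂ := ⟨p 0 0, p 0 1⟩ with hw
  have w1 : ‖w‖ = √(1 - c ^ 2) := by
    have := norm_sq3 (p 0)
    rw [Complex.norm_def, Complex.normSq_mk]
    congr 1
    rw [p1, p2] at this
    linarith
  refine ⟨(w.arg - (Λ (0, 0)).im) / (2 * π),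
    (H3 p ((w.arg - (Λ (0, 0)).im) / (2 * π)) ?_ hp).trans ?_⟩
  · rw [(c3 _).1, (c3 _).2, e0]
    have : (Λ (0, 0) + (2 * π * ((w.arg - (Λ (0, 0)).im) / (2 * π)) : ℝ) * Complex.I).im =
        w.arg := by
      rw [Complex.add_im, Complex.mul_I_im, Complex.ofReal_re]
      field_simp
      ring
    rw [this]
    exact ext3 (by rw [cyl_zero, ← w1, Complex.norm_mul_cos_arg])
      (by rw [cyl_one, ← w1, Complex.norm_mul_sin_arg]) p2
  · rw [(c4 _).1, (c4 _).2, cyl_eq_ist, L2, smoothTransition.one, h4]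

end Pool.Agent.Lib.MP_55a7f7_gt
end

-- part Pool.Agent.Lib.MP_55a7f7_gt.HamA
section

/-! Part G, first half: tools and the reduced equations. -/

set_option autoImplicit false

open scoped ContDiff Topology
open Set Real Filter

namespace Pool.Agent.Lib.MP_55a7f7_gt

namespace Ham

theorem gron_fwd {V : Type} [NormedAddCommGroup V] [NormedSpace ℝ V] {f : ℝ → V} {K ε a b : ℝ}
    (hK : 0 ≤ K) (hε : 0 ≤ ε) (hab : a ≤ b) (hb : b ≤ a + 1)
    (h : ∀ t ∈ Icc a b, ∃ d, HasDerivAt f d t ∧ ‖d‖ ≤ K * ‖f t‖ + ε) :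
    ‖f b‖ ≤ exp K * (‖f a‖ + ε) := by
  choose! d hd hd' using h
  have h1 := norm_le_gronwallBound_of_norm_deriv_right_le (f := f) (f' := d) (δ := ‖f a‖) (K := K)
    (ε := ε) (a := a) (b := b) (fun t ht => (hd t ht).continuousAt.continuousWithinAt)
    (fun t ht => (hd t (Ico_subset_Icc_self ht)).hasDerivWithinAt) le_rfl
    (fun t ht => hd' t (Ico_subset_Icc_self ht)) b ⟨hab, le_rfl⟩
  have h2 := gronwallBound_mono (norm_nonneg (f a)) hε hK (show b - a ≤ 1 by linarith)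
  refine h1.trans (h2.trans ?_)
  have hn := norm_nonneg (f a)
  rcases hK.eq_or_lt with rfl | hK'
  · simp [gronwallBound_K0]
  · rw [gronwallBound_of_K_ne_0 hK'.ne']
    simp only [mul_one]
    have h3 : exp K - 1 ≤ K * exp K := by
      have := add_one_le_exp (-K)
      have h4 : exp (-K) * exp K = 1 := by rw [← exp_add]; simp
      nlinarith [exp_pos K]
    have h5 : ε / K * (exp K - 1) ≤ ε / K * (K * exp K) := by gcongr
    have h6 : ε / K * (K * exp K) = ε * exp K := by field_simp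
    nlinarith

theorem gron {V : Type} [NormedAddCommGroup V] [NormedSpace ℝ V] {f : ℝ → V} {K ε : ℝ}
    (hK : 0 ≤ K) (hε : 0 ≤ ε)
    (h : ∀ t ∈ Icc (0 : ℝ) 1, ∃ d, HasDerivAt f d t ∧ ‖d‖ ≤ K * ‖f t‖ + ε) {a b : ℝ}
    (ha : a ∈ Icc (0 : ℝ) 1) (hb : b ∈ Icc (0 : ℝ) 1) : ‖f b‖ ≤ exp K * (‖f a‖ + ε) := by
  rcases le_total a b with hab | hab
  · exact gron_fwd hK hε hab (by linarith [ha.1, hb.2]) fun t ht =>
      h t ⟨ha.1.trans ht.1, ht.2.trans hb.2⟩
  · have := gron_fwd (f := fun t => f (-t)) (a := -a) (b := -b) hK hε (by linarith)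
      (by linarith [ha.2, hb.1]) fun t ht => by
        obtain ⟨d, h1, h2⟩ := h (-t) ⟨by linarith [ht.2, hb.1], by linarith [ht.1, ha.2]⟩
        exact ⟨(-1 : ℝ) • d, h1.scomp t (hasDerivAt_neg t), by simpa using h2⟩
    simpa using this

theorem supp_of {X V : Type} [NormedAddCommGroup X] [ProperSpace X] [Zero V] {F : X → V} (R : ℝ)
    (h : ∀ w, R < ‖w‖ → F w = 0) : HasCompactSupport F :=
  HasCompactSupport.intro (isCompact_closedBall (0 : X) R) fun w hw => h w (by simpa using hw)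

theorem lip {Z V : Type} [NormedAddCommGroup Z] [NormedSpace ℝ Z] [NormedAddCommGroup V]
    [NormedSpace ℝ V] {F : ℝ × Z → V} (hF : ContDiff ℝ ∞ F) (hs : HasCompactSupport F) :
    ∃ L, 0 ≤ L ∧ (∀ t z z', ‖F (t, z) - F (t, z')‖ ≤ L * ‖z - z'‖) ∧ ∀ w, ‖F w‖ ≤ L := by
  obtain ⟨C, hC⟩ := ContDiff.lipschitzWith_of_hasCompactSupport hs hF (by simp)
  obtain ⟨B, hB⟩ := hs.exists_bound_of_continuous hF.continuous
  refine ⟨max C B, le_max_of_le_left C.2, fun t z z' => ?_, fun w => (hB w).trans (le_max_right _ _)⟩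
  have := hC.norm_sub_le (t, z) (t, z')
  rw [Prod.mk_sub_mk, sub_self, Prod.norm_mk, norm_zero, max_eq_right (norm_nonneg _)] at this
  exact this.trans (mul_le_mul_of_nonneg_right (le_max_left _ _) (norm_nonneg _))

theorem fderiv_line {X : Type} [NormedAddCommGroup X] [NormedSpace ℝ X] {F : X → ℝ} {w v : X}
    (hF : DifferentiableAt ℝ F w) {γ : ℝ → X} (h0 : γ 0 = w) (hγ : HasDerivAt γ v 0) :
    HasDerivAt (fun τ => F (γ τ)) (fderiv ℝ F w v) 0 := by
  subst h0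
  exact hF.hasFDerivAt.comp_hasDerivAt 0 hγ

theorem line (w v : E3) : HasDerivAt (fun τ : ℝ => w + τ • v) v 0 := by
  simpa using ((hasDerivAt_id (0 : ℝ)).smul_const v).const_add w

theorem exists_pair (l : ℝ × E3 × E3 →L[ℝ] ℝ) :
    ∃ Gx Gm : E3, ∀ α ν, l (0, α, ν) = inner ℝ Gx α + inner ℝ Gm ν := by
  refine ⟨(InnerProductSpace.toDual ℝ E3).symm (l.comp ((ContinuousLinearMap.inr ℝ ℝ _).comp
    (ContinuousLinearMap.inl ℝ E3 E3))), (InnerProductSpace.toDual ℝ E3).symm (l.comp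
    ((ContinuousLinearMap.inr ℝ ℝ _).comp (ContinuousLinearMap.inr ℝ E3 E3))), fun α ν => ?_⟩
  rw [InnerProductSpace.toDual_symm_apply, InnerProductSpace.toDual_symm_apply]
  simp only [ContinuousLinearMap.comp_apply, ContinuousLinearMap.inr_apply,
    ContinuousLinearMap.inl_apply]
  rw [← map_add]
  simp

/-- The reduced equations. -/
def Red (KK : ℝ × E3 × E3 → ℝ) (x m : ℝ → E3) : Prop :=
  ∀ t ∈ Icc (0 : ℝ) 1, ‖x t‖ = 1 ∧ inner ℝ (x t) (m t) = 0 ∧ ∀ Gx Gm : E3,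
    (∀ α ν, fderiv ℝ KK (t, x t, m t) (0, α, ν) = inner ℝ Gx α + inner ℝ Gm ν) →
    HasDerivAt x (cr Gm (x t)) t ∧ HasDerivAt m (cr Gm (m t) + cr Gx (x t)) t

theorem red_of_orbit {KK : ℝ × E3 × E3 → ℝ} (hK : ContDiff ℝ ∞ KK) {C : ℝ} (hC0 : 0 ≤ C)
    (hC : ∀ w : ℝ × E3 × E3, |fderiv ℝ KK w (0, w.2.1, 0)| ≤ C) (ρ : ContDiffBump (0 : ℝ))
    (hρ : C < ρ.rIn) {Q P : ℝ → E3}
    (ho : IsOrbit (fun w => ρ (inner ℝ w.2.1 w.2.2) * KK (w.1, w.2.1, cr w.2.1 w.2.2)) Q P)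
    (h0 : inner ℝ (Q 0) (P 0) = 0) (h1 : ‖Q 1‖ = 1) : Red KK Q fun t => cr (Q t) (P t) := by
  have hρs : ContDiff ℝ ∞ ρ := ρ.contDiff
  have hKs : ContDiff ℝ ∞ fun w : ℝ × E3 × E3 =>
      ρ (inner ℝ w.2.1 w.2.2) * KK (w.1, w.2.1, cr w.2.1 w.2.2) :=
    (hρs.comp (ContDiff.inner ℝ (by fun_prop) (by fun_prop))).mul (hK.comp (contDiff_fst.prodMk
      (contDiff_snd.fst.prodMk (ContDiff.cr contDiff_snd.fst contDiff_snd.snd))))
  -- the equations with the cut-off
  have key : ∀ t ∈ Icc (0 : ℝ) 1, ∀ Gx Gm : E3,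
      (∀ α ν, fderiv ℝ KK (t, Q t, cr (Q t) (P t)) (0, α, ν) = inner ℝ Gx α + inner ℝ Gm ν) →
      ∃ k : ℝ, (ρ =ᶠ[𝓝 (inner ℝ (Q t) (P t))] 1 → k = 0) ∧
        HasDerivAt Q (k • Q t + ρ (inner ℝ (Q t) (P t)) • cr Gm (Q t)) t ∧
        HasDerivAt P (-(k • P t + ρ (inner ℝ (Q t) (P t)) • (Gx + cr (P t) Gm))) t := by
    intro t ht Gx Gm hG
    obtain ⟨u, w, hu, hw, he⟩ := ho t ht
    have hf : ∀ a b : E3, inner ℝ u b - inner ℝ w a =
        deriv ρ (inner ℝ (Q t) (P t)) * (inner ℝ (Q t) b + inner ℝ a (P t)) *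
          KK (t, Q t, cr (Q t) (P t)) + ρ (inner ℝ (Q t) (P t)) *
          (inner ℝ Gx a + inner ℝ Gm (cr a (P t) + cr (Q t) b)) := by
      intro a b
      rw [← he, ← hG]
      have l1 := line (Q t) a
      have l2 := line (P t) b
      have d1 := fderiv_line (w := (t, Q t, P t)) (hKs.differentiable (by simp) _)
        (γ := fun τ => (t, Q t + τ • a, P t + τ • b)) (by simp)
        ((hasDerivAt_const (0 : ℝ) t).prodMk (l1.prodMk l2))
      have d2 := fderiv_line (w := (t, Q t, cr (Q t) (P t))) (hK.differentiable (by simp) _)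
        (γ := fun τ => (t, Q t + τ • a, cr (Q t + τ • a) (P t + τ • b))) (by simp)
        ((hasDerivAt_const (0 : ℝ) t).prodMk (l1.prodMk (HasDerivAt.cr l1 l2)))
      have d3 := HasDerivAt.comp_of_eq (0 : ℝ)
        (hρs.differentiable (by simp) (inner ℝ (Q t) (P t))).hasDerivAt (l1.inner ℝ l2) (by simp)
      have d4 := d3.mul d2
      simpa using d1.unique d4
    refine ⟨deriv ρ (inner ℝ (Q t) (P t)) * KK (t, Q t, cr (Q t) (P t)), fun h => ?_, ?_, ?_⟩
    · rw [h.deriv_eq]; simp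
    · convert hu using 1
      refine ext_inner_right ℝ fun b => ?_
      have := hf 0 b
      simp only [inner3, cr_zero, cr_one, cr_two, PiLp.add_apply, PiLp.smul_apply, PiLp.zero_apply,
        smul_eq_mul] at this ⊢
      linear_combination -this
    · convert hw using 1
      refine ext_inner_right ℝ fun a => ?_
      have := hf a 0
      simp only [inner3, cr_zero, cr_one, cr_two, PiLp.add_apply, PiLp.smul_apply, PiLp.zero_apply,
        PiLp.neg_apply, smul_eq_mul] at this ⊢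
      linear_combination this
  have hI0 : (0 : ℝ) ∈ Icc (0 : ℝ) 1 := ⟨le_rfl, zero_le_one⟩
  have hI1 : (1 : ℝ) ∈ Icc (0 : ℝ) 1 := ⟨zero_le_one, le_rfl⟩
  have ha : ∀ t ∈ Icc (0 : ℝ) 1, ρ =ᶠ[𝓝 (inner ℝ (Q t) (P t))] 1 := by
    intro t ht
    have := gron (f := fun t => inner ℝ (Q t) (P t)) (K := 0) le_rfl hC0 (fun t ht => by
      obtain ⟨Gx, Gm, hG⟩ := exists_pair (fderiv ℝ KK (t, Q t, cr (Q t) (P t)))
      obtain ⟨k, -, d1, d2⟩ := key t ht Gx Gm hG
      refine ⟨_, d1.inner ℝ d2, ?_⟩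
      have h2 := hC (t, Q t, cr (Q t) (P t))
      rw [hG, inner_zero_right, add_zero] at h2
      have e : inner ℝ (Q t) (-(k • P t + ρ (inner ℝ (Q t) (P t)) • (Gx + cr (P t) Gm))) +
          inner ℝ (k • Q t + ρ (inner ℝ (Q t) (P t)) • cr Gm (Q t)) (P t) =
          -(ρ (inner ℝ (Q t) (P t)) * inner ℝ Gx (Q t)) := by
        generalize ρ (inner ℝ (Q t) (P t)) = r
        simp only [inner3, cr_zero, cr_one, cr_two, PiLp.add_apply, PiLp.smul_apply,
          PiLp.neg_apply, smul_eq_mul]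
        ring
      rw [e, norm_neg, zero_mul, zero_add, Real.norm_eq_abs, abs_mul, abs_of_nonneg ρ.nonneg]
      exact (mul_le_of_le_one_left (abs_nonneg _) ρ.le_one).trans h2) hI0 ht
    apply ρ.eventuallyEq_one_of_mem_ball
    simp only [h0, exp_zero, norm_zero, zero_add, one_mul] at this
    simpa using this.trans_lt hρ
  have key2 : ∀ t ∈ Icc (0 : ℝ) 1, ∀ Gx Gm : E3,
      (∀ α ν, fderiv ℝ KK (t, Q t, cr (Q t) (P t)) (0, α, ν) = inner ℝ Gx α + inner ℝ Gm ν) →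
      HasDerivAt Q (cr Gm (Q t)) t ∧ HasDerivAt P (-(Gx + cr (P t) Gm)) t := by
    intro t ht Gx Gm hG
    obtain ⟨k, hk, d1, d2⟩ := key t ht Gx Gm hG
    have e : ρ (inner ℝ (Q t) (P t)) = 1 := (ha t ht).eq_of_nhds
    rw [hk (ha t ht), e] at d1 d2
    simpa using And.intro d1 d2
  intro t ht
  refine ⟨?_, by simp only [inner3, cr_zero, cr_one, cr_two]; ring, fun Gx Gm hG => ?_⟩
  · have := gron (f := fun t => inner ℝ (Q t) (Q t) - 1) (K := 0) (ε := 0) le_rfl le_rfl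
      (fun t ht => by
        obtain ⟨Gx, Gm, hG⟩ := exists_pair (fderiv ℝ KK (t, Q t, cr (Q t) (P t)))
        obtain ⟨d1, -⟩ := key2 t ht Gx Gm hG
        refine ⟨_, (d1.inner ℝ d1).sub_const 1, le_of_eq ?_⟩
        simp only [inner3, cr_zero, cr_one, cr_two]
        ring_nf
        simp) hI1 ht
    simp only [real_inner_self_eq_norm_sq, h1, one_pow, sub_self, norm_zero, add_zero, mul_zero,
      norm_le_zero_iff] at this
    exact (sq_eq_sq₀ (norm_nonneg _) zero_le_one).1 (by linarith)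
  · obtain ⟨d1, d2⟩ := key2 t ht Gx Gm hG
    refine ⟨d1, ?_⟩
    convert HasDerivAt.cr d1 d2 using 1
    apply ext3 <;> simp <;> ring

theorem stageA (hA : ChordStmt) {KK : ℝ × E3 × E3 → ℝ} (hK : ContDiff ℝ ∞ KK)
    (hs : HasCompactSupport KK) (h4 : ∀ w : ℝ × E3 × E3, ‖w.2.1‖ ^ 2 ≤ 1 / 4 → KK w = 0)
    (c θ : ℝ) (h0 : 0 < θ) (hπ : θ < π) :
    ∃ x m y n : ℝ → E3, Red KK x m ∧ Red KK y n ∧ x 0 2 = 0 ∧ y 0 2 = 0 ∧ m 0 2 = c ∧ n 0 2 = c ∧
      inner ℝ (x 1) (y 1) = cos θ ∧ m 1 = n 1 := by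
  obtain ⟨C, hC⟩ : ∃ C, ∀ w : ℝ × E3 × E3, |fderiv ℝ KK w (0, w.2.1, 0)| ≤ C := by
    refine HasCompactSupport.exists_bound_of_continuous
      (f := fun w : ℝ × E3 × E3 => fderiv ℝ KK w (0, w.2.1, 0)) ?_ ?_
    · refine (hs.fderiv ℝ).mono fun w hw h => hw ?_
      simp only [h]
      rfl
    · exact (hK.continuous_fderiv (by simp)).clm_apply (by fun_prop)
  have hC0 : 0 ≤ C := (abs_nonneg _).trans (hC 0)
  let ρ : ContDiffBump (0 : ℝ) := ⟨C + 1, C + 2, by linarith, by linarith⟩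
  have hρs : ContDiff ℝ ∞ ρ := ρ.contDiff
  obtain ⟨R, hR0, hR⟩ := hs.exists_pos_le_norm
  obtain ⟨Q, P, Q', P', o1, o2, i1, i2, n1, n2, hc, he⟩ := hA
    (fun w => ρ (inner ℝ w.2.1 w.2.2) * KK (w.1, w.2.1, cr w.2.1 w.2.2))
    ((hρs.comp (ContDiff.inner ℝ (by fun_prop) (by fun_prop))).mul (hK.comp (contDiff_fst.prodMk
      (contDiff_snd.fst.prodMk (ContDiff.cr contDiff_snd.fst contDiff_snd.snd)))))
    (supp_of (R + 2 * (R + (C + 2))) fun w hw => by
      by_contra hne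
      obtain ⟨a1, a2⟩ := mul_ne_zero_iff.1 hne
      have b1 : |inner ℝ w.2.1 w.2.2| < C + 2 := by
        by_contra h
        exact a1 (ρ.zero_of_le_dist (by simpa using not_lt.1 h))
      have b2 : ‖(w.1, w.2.1, cr w.2.1 w.2.2)‖ < R := by
        by_contra h
        exact a2 (hR _ (not_lt.1 h))
      have b3 : 1 / 4 < ‖w.2.1‖ ^ 2 := by
        by_contra h
        exact a2 (h4 _ (not_lt.1 h))
      simp only [Prod.norm_mk, max_lt_iff] at b2
      have b4 := norm_cr_sq w.2.1 w.2.2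
      have b5 : ‖w.2.2‖ ≤ 2 * (R + (C + 2)) := by
        refine (abs_le_of_sq_le_sq' ?_ (by linarith)).2
        have c1 : ‖cr w.2.1 w.2.2‖ ^ 2 ≤ R ^ 2 := by gcongr; exact b2.2.2.le
        have c2 : inner ℝ w.2.1 w.2.2 ^ 2 ≤ (C + 2) ^ 2 := sq_le_sq' (abs_lt.1 b1).1.le
          (abs_lt.1 b1).2.le
        have c3 : 1 / 4 * ‖w.2.2‖ ^ 2 ≤ ‖w.2.1‖ ^ 2 * ‖w.2.2‖ ^ 2 := by gcongr
        nlinarith
      have b6 : ‖w‖ ≤ R + 2 * (R + (C + 2)) := by
        rw [Prod.norm_def, Prod.norm_def]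
        exact max_le (by linarith [b2.1]) (max_le (by linarith [b2.2.1]) (by linarith))
      linarith) c θ h0 hπ
  exact ⟨Q, _, Q', _, red_of_orbit hK hC0 hC ρ (by simp [ρ]) o1 i1.2.1 n1,
    red_of_orbit hK hC0 hC ρ (by simp [ρ]) o2 i2.2.1 n2, i1.1, i2.1, i1.2.2, i2.2.2, hc, he⟩

/-- The logarithmic cut-off. -/
theorem exists_chi {ε s : ℝ} (hε : 0 < ε) (hs : 0 < s) : ∃ (χ : ℝ → ℝ) (s' : ℝ), 0 < s' ∧
    ContDiff ℝ ∞ χ ∧ (∀ σ, 0 ≤ χ σ ∧ χ σ ≤ 1) ∧ (∀ σ ≤ s', χ σ = 0) ∧ (∀ σ, s ≤ σ → χ σ = 1) ∧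
    ∀ σ, |deriv χ σ * σ| ≤ ε := by
  have hst : ContDiff ℝ ∞ smoothTransition := smoothTransition.contDiff
  obtain ⟨M, hM⟩ : ∃ M, ∀ u, ‖deriv smoothTransition u‖ ≤ M := by
    refine HasCompactSupport.exists_bound_of_continuous (supp_of 1 fun u hu => ?_)
      (hst.continuous_deriv (by simp))
    rcases lt_abs.1 hu with h | h
    · have : smoothTransition =ᶠ[𝓝 u] fun _ => 1 := by
        filter_upwards [lt_mem_nhds h] with v hv using smoothTransition.one_of_one_le hv.le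
      rw [this.deriv_eq]; simp
    · have : smoothTransition =ᶠ[𝓝 u] fun _ => 0 := by
        filter_upwards [gt_mem_nhds (show u < 0 by linarith)] with v hv using
          smoothTransition.zero_of_nonpos hv.le
      rw [this.deriv_eq]; simp
  have hM0 : 0 ≤ M := (norm_nonneg _).trans (hM 0)
  set e := ε / (M + 1) with he
  have he0 : 0 < e := by positivity
  set a := s * exp (-(2 / e)) with ha
  have ha0 : 0 < a := by positivity
  let χ : ℝ → ℝ := fun σ => smoothTransition (e * log (max σ a / a) - 1)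
  have z0 : ∀ σ ≤ a * exp (1 / e), χ σ = 0 := by
    intro σ hσ
    apply smoothTransition.zero_of_nonpos
    have h1 : max σ a / a ≤ exp (1 / e) := by
      rw [div_le_iff₀ ha0]
      refine max_le (by linarith) ?_
      have := one_le_exp (show 0 ≤ 1 / e by positivity)
      nlinarith
    have h2 : log (max σ a / a) ≤ 1 / e := (log_le_iff_le_exp (by positivity)).2 h1
    have := mul_le_mul_of_nonneg_left h2 he0.le
    rw [mul_one_div_cancel he0.ne'] at this
    linarith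
  have hlt : a < a * exp (1 / e) := by
    have := one_lt_exp_iff.2 (show 0 < 1 / e by positivity)
    nlinarith
  have z1 : ∀ σ ≤ a, χ =ᶠ[𝓝 σ] fun _ => 0 := fun σ hσ => by
    filter_upwards [gt_mem_nhds (hσ.trans_lt hlt)] with v hv using z0 v hv.le
  have z2 : ∀ σ, a < σ → χ =ᶠ[𝓝 σ] fun v => smoothTransition (e * log (v / a) - 1) :=
    fun σ hσ => by
      filter_upwards [lt_mem_nhds hσ] with v hv
      simp only [χ, max_eq_left hv.le]
  refine ⟨χ, a, ha0, ?_, fun σ => ⟨smoothTransition.nonneg _, smoothTransition.le_one _⟩,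
    fun σ hσ => z0 σ (hσ.trans hlt.le), fun σ hσ => ?_, fun σ => ?_⟩
  · rw [contDiff_iff_contDiffAt]
    intro σ
    rcases le_or_gt σ a with h | h
    · exact contDiffAt_const.congr_of_eventuallyEq (z1 σ h)
    · refine ContDiffAt.congr_of_eventuallyEq ?_ (z2 σ h)
      refine hst.contDiffAt.comp σ ((contDiffAt_const.mul ?_).sub contDiffAt_const)
      exact (contDiffAt_id.div_const a).log (div_pos (ha0.trans h) ha0).ne'
  · apply smoothTransition.one_of_one_le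
    have h1 : exp (2 / e) ≤ max σ a / a := by
      rw [le_div_iff₀ ha0]
      refine le_max_of_le_left (le_trans (le_of_eq ?_) hσ)
      rw [ha, mul_left_comm, ← exp_add]; simp
    have h2 : 2 / e ≤ log (max σ a / a) := (le_log_iff_exp_le (by positivity)).2 h1
    have := mul_le_mul_of_nonneg_left h2 he0.le
    rw [mul_div_cancel₀ _ he0.ne'] at this
    linarith
  · rcases le_or_gt σ a with h | h
    · rw [(z1 σ h).deriv_eq]; simpa using hε.le
    · have hσ : 0 < σ := ha0.trans h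
      have d1 : HasDerivAt (fun v => e * log (v / a) - 1) (e * (1 / a / (σ / a))) σ :=
        ((((hasDerivAt_id σ).div_const a).log (div_pos hσ ha0).ne').const_mul e).sub_const 1
      have d2 := (hst.differentiable (by simp) _).hasDerivAt.comp σ d1
      rw [(z2 σ h).deriv_eq, (show deriv (fun v => smoothTransition (e * log (v / a) - 1)) σ = _
        from d2.deriv)]
      have e1 : ∀ u : ℝ, u * (e * (1 / a / (σ / a))) * σ = u * e := fun u => by field_simp
      rw [e1, abs_mul, abs_of_pos he0]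
      calc _ ≤ M * e := mul_le_mul_of_nonneg_right (hM _) he0.le
        _ ≤ (M + 1) * e := by gcongr; linarith
        _ = ε := by rw [he]; field_simp

end Ham

end Pool.Agent.Lib.MP_55a7f7_gt
end

-- part Pool.Agent.Lib.MP_55a7f7_gt.HamB
section

/-! Part G, second half: the cut-off Hamiltonian and pointwise estimates. -/

set_option autoImplicit false

open scoped ContDiff Topology
open Set Real Filter

namespace Pool.Agent.Lib.MP_55a7f7_gt

namespace Ham

variable {H : ℝ × E3 → ℝ}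

theorem grad_eq (hH : ContDiff ℝ ∞ H) (t : ℝ) (p : E3) : grad H t p =
    (InnerProductSpace.toDual ℝ E3).symm ((fderiv ℝ H (t, p)).comp
      (ContinuousLinearMap.inr ℝ ℝ E3)) := by
  unfold grad gradient
  congr 1
  exact ((hH.differentiable (by simp) (t, p)).hasFDerivAt.comp p
    (hasFDerivAt_prodMk_right t p)).fderiv

theorem hasDerivAt_H (hH : ContDiff ℝ ∞ H) (t : ℝ) {γ : ℝ → E3} {v : E3} {τ : ℝ}
    (hγ : HasDerivAt γ v τ) :
    HasDerivAt (fun τ => H (t, γ τ)) (inner ℝ (grad H t (γ τ)) v) τ := by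
  rw [grad_eq hH, InnerProductSpace.toDual_symm_apply]
  exact (hH.differentiable (by simp) (t, γ τ)).hasFDerivAt.comp_hasDerivAt τ
    ((hasDerivAt_const τ t).prodMk hγ)

variable (H) in
noncomputable def gr (w : ℝ × E3) : E3 := grad H w.1 w.2

theorem gr_eq (hH : ContDiff ℝ ∞ H) : gr H = fun w => (InnerProductSpace.toDual ℝ E3).symm
    ((fderiv ℝ H w).comp (ContinuousLinearMap.inr ℝ ℝ E3)) :=
  funext fun w => grad_eq hH w.1 w.2

theorem gr_smooth (hH : ContDiff ℝ ∞ H) : ContDiff ℝ ∞ (gr H) := by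
  rw [gr_eq hH]
  exact (InnerProductSpace.toDual ℝ E3).symm.contDiff.comp
    ((hH.fderiv_right (m := ∞) (by simp)).clm_comp contDiff_const)

theorem gr_supp (hH : ContDiff ℝ ∞ H) (hs : HasCompactSupport H) : HasCompactSupport (gr H) := by
  rw [gr_eq hH]
  refine (hs.fderiv ℝ).mono fun w hw h => hw ?_
  simp [h]

variable (H) in
noncomputable def hess (w : ℝ × E3) : E3 →L[ℝ] E3 :=
  (fderiv ℝ (gr H) w).comp (ContinuousLinearMap.inr ℝ ℝ E3)

theorem hess_smooth (hH : ContDiff ℝ ∞ H) : ContDiff ℝ ∞ (hess H) :=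
  ((gr_smooth hH).fderiv_right (m := ∞) (by simp)).clm_comp contDiff_const

theorem hess_supp (hH : ContDiff ℝ ∞ H) (hs : HasCompactSupport H) :
    HasCompactSupport (hess H) := by
  refine ((gr_supp hH hs).fderiv ℝ).mono fun w hw h => hw ?_
  simp [hess, h]

theorem hasDerivAt_gr (hH : ContDiff ℝ ∞ H) (t : ℝ) {γ : ℝ → E3} {v : E3} {τ : ℝ}
    (hγ : HasDerivAt γ v τ) :
    HasDerivAt (fun τ => gr H (t, γ τ)) (hess H (t, γ τ) v) τ := by
  have := ((gr_smooth hH).differentiable (by simp) (t, γ τ)).hasFDerivAt.comp_hasDerivAt τ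
    ((hasDerivAt_const τ t).prodMk hγ)
  exact this

theorem line' (w v : E3) (τ : ℝ) : HasDerivAt (fun τ : ℝ => w + τ • v) v τ := by
  simpa using ((hasDerivAt_id τ).smul_const v).const_add w

theorem line'' (w v : E3) (τ : ℝ) : HasDerivAt (fun τ : ℝ => w - τ • v) (-v) τ := by
  simpa using ((hasDerivAt_id τ).smul_const v).const_sub w

theorem abs_inner_le {x : E3} (hx : ‖x‖ = 1) (v : E3) : |inner ℝ x v| ≤ ‖v‖ := by
  simpa [hx] using abs_real_inner_le_norm x v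

theorem mvt {f f' : ℝ → ℝ} {s C : ℝ} (hs : 0 ≤ s) (h : ∀ τ, HasDerivAt f (f' τ) τ)
    (hb : ∀ τ ∈ Ico 0 s, |f' τ| ≤ C) : |f s - f 0| ≤ C * s := by
  simpa using norm_image_sub_le_of_norm_deriv_le_segment' (f := f) (f' := f') (a := 0) (b := s)
    (fun τ _ => (h τ).hasDerivWithinAt) hb s ⟨hs, le_rfl⟩

theorem norm_pm {x : E3} (hx : ‖x‖ = 1) (μ : E3) {s : ℝ} (hs : 0 ≤ s) :
    ‖μ + s • x - μ‖ = s ∧ ‖μ - s • x - μ‖ = s ∧ ‖μ + s • x - (μ - s • x)‖ = 2 * s := by
  refine ⟨by simp [norm_smul, hx, abs_of_nonneg hs], by simp [norm_smul, hx, abs_of_nonneg hs], ?_⟩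
  rw [show μ + s • x - (μ - s • x) = (2 * s) • x by module]
  simp [norm_smul, hx, abs_of_nonneg hs]

theorem taylor1 (hH : ContDiff ℝ ∞ H) {L : ℝ} (hL : 0 ≤ L)
    (h1 : ∀ t z z', ‖gr H (t, z) - gr H (t, z')‖ ≤ L * ‖z - z'‖) (t : ℝ) (μ : E3) {x : E3}
    (hx : ‖x‖ = 1) {s : ℝ} (hs : 0 ≤ s) :
    |H (t, μ + s • x) + H (t, μ - s • x) - 2 * H (t, μ)| ≤ 2 * L * s ^ 2 := by
  have := mvt (C := 2 * L * s) hs
    (fun τ => (hasDerivAt_H hH t (line' μ x τ)).add (hasDerivAt_H hH t (line'' μ x τ)))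
    (fun τ hτ => by
      rw [inner_neg_right, ← sub_eq_add_neg, ← inner_sub_left, real_inner_comm]
      refine (abs_inner_le hx _).trans ((h1 t _ _).trans ?_)
      rw [(norm_pm hx μ hτ.1).2.2]
      nlinarith [hτ.2])
  simp only [Pi.add_apply, zero_smul, add_zero, sub_zero] at this
  convert this using 1
  · congr 1; ring
  · ring

theorem taylor2 (hH : ContDiff ℝ ∞ H) {L : ℝ} (hL : 0 ≤ L)
    (h1 : ∀ t z z', ‖hess H (t, z) - hess H (t, z')‖ ≤ L * ‖z - z'‖) (t : ℝ) (μ : E3) {x : E3}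
    (hx : ‖x‖ = 1) {s : ℝ} (hs : 0 ≤ s) :
    |inner ℝ x (grad H t (μ + s • x) - grad H t (μ - s • x)) -
      2 * s * inner ℝ x (hess H (t, μ) x)| ≤ 2 * L * s ^ 2 := by
  have := mvt (C := 2 * L * s) hs
    (fun τ => ((hasDerivAt_const τ x).inner ℝ ((hasDerivAt_gr hH t (line' μ x τ)).sub
      (hasDerivAt_gr hH t (line'' μ x τ)))).sub
      (((hasDerivAt_id τ).const_mul 2).mul_const (inner ℝ x (hess H (t, μ) x))))
    (fun τ hτ => by
      have e : ∀ A B C : E3 →L[ℝ] E3, ∀ u : E3, inner ℝ x (A x - B (-x)) + inner ℝ (0 : E3) u -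
          2 * 1 * inner ℝ x (C x) = inner ℝ x ((A - C) x + (B - C) x) := by
        intro A B C u
        simp only [map_neg, inner_sub_right, inner_add_right, inner_neg_right, inner_zero_left,
          sub_apply]
        ring
      rw [e]
      refine (abs_inner_le hx _).trans ((norm_add_le _ _).trans ?_)
      have a1 := (hess H (t, μ + τ • x) - hess H (t, μ)).le_opNorm x
      have a2 := (hess H (t, μ - τ • x) - hess H (t, μ)).le_opNorm x
      have a3 := h1 t (μ + τ • x) μ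
      have a4 := h1 t (μ - τ • x) μ
      rw [(norm_pm hx μ hτ.1).1] at a3
      rw [(norm_pm hx μ hτ.1).2.1] at a4
      rw [hx, mul_one] at a1 a2
      nlinarith [hτ.2])
  simp only [Pi.sub_apply, zero_smul, add_zero, sub_zero, id, sub_self, inner_zero_right, mul_zero,
    zero_mul] at this
  exact this.trans (le_of_eq (by ring))

noncomputable def sg (m : E3) : ℝ := 1 - inner ℝ m m / 4

noncomputable def mu (m : E3) : E3 := (1 / 2 : ℝ) • m

variable (H) in
noncomputable def Dd (t : ℝ) (x m : E3) : ℝ :=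
  H (t, mu m + √(sg m) • x) + H (t, mu m - √(sg m) • x) - 2 * H (t, mu m)

noncomputable def bt : ContDiffBump (1 : ℝ) := ⟨1 / 4, 3 / 4, by norm_num, by norm_num⟩

variable (H) in
noncomputable def KK (χ : ℝ → ℝ) (w : ℝ × E3 × E3) : ℝ :=
  bt (inner ℝ w.2.1 w.2.1) * (2 * H (w.1, mu w.2.2) + χ (sg w.2.2) * Dd H w.1 w.2.1 w.2.2)

variable (H) in
noncomputable def Ee (t : ℝ) (x m : E3) : E3 :=
  grad H t (mu m + √(sg m) • x) - grad H t (mu m - √(sg m) • x)

variable (H) in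
noncomputable def Yy (t : ℝ) (x m : E3) : E3 :=
  (1 / 2 : ℝ) • (grad H t (mu m + √(sg m) • x) + grad H t (mu m - √(sg m) • x)) - grad H t (mu m)

variable (H) in
noncomputable def Gx (χ : ℝ → ℝ) (t : ℝ) (x m : E3) : E3 := (χ (sg m) * √(sg m)) • Ee H t x m

variable (H) in
noncomputable def Gm (χ : ℝ → ℝ) (t : ℝ) (x m : E3) : E3 :=
  grad H t (mu m) + χ (sg m) • Yy H t x m -
    (deriv χ (sg m) * Dd H t x m / 2 + χ (sg m) * inner ℝ x (Ee H t x m) / (4 * √(sg m))) • m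

theorem sg_smooth : ContDiff ℝ ∞ sg :=
  contDiff_const.sub ((ContDiff.inner ℝ contDiff_id contDiff_id).div_const 4)

theorem mu_smooth : ContDiff ℝ ∞ mu := contDiff_id.const_smul _

theorem bt_zero {x : E3} (h : ‖x‖ ^ 2 ≤ 1 / 4 ∨ 7 / 4 ≤ ‖x‖ ^ 2) : bt (inner ℝ x x) = 0 := by
  apply bt.zero_of_le_dist
  rw [real_inner_self_eq_norm_sq, Real.dist_eq, le_abs]
  change 3 / 4 ≤ _ ∨ 3 / 4 ≤ _
  rcases h with h | h
  · right; linarith
  · left; linarith

theorem bt_one {x : E3} (h : ‖x‖ = 1) : bt (inner ℝ x x) = 1 := by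
  rw [real_inner_self_eq_norm_sq, h, one_pow]
  exact bt.eventuallyEq_one.eq_of_nhds

theorem chi_ev {χ : ℝ → ℝ} {s' : ℝ} (h0 : ∀ σ ≤ s', χ σ = 0) {σ : ℝ} (h : σ < s') :
    χ =ᶠ[𝓝 σ] fun _ => 0 := by
  filter_upwards [gt_mem_nhds h] with v hv using h0 v hv.le

theorem KK_smooth (hH : ContDiff ℝ ∞ H) {χ : ℝ → ℝ} (hχ : ContDiff ℝ ∞ χ) {s' : ℝ} (hs' : 0 < s')
    (h0 : ∀ σ ≤ s', χ σ = 0) : ContDiff ℝ ∞ (KK H χ) := by
  have hb : ContDiff ℝ ∞ bt := bt.contDiff
  have hm : ContDiff ℝ ∞ fun w : ℝ × E3 × E3 => mu w.2.2 := mu_smooth.comp contDiff_snd.snd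
  have hσ : ContDiff ℝ ∞ fun w : ℝ × E3 × E3 => sg w.2.2 := sg_smooth.comp contDiff_snd.snd
  have hμ : ContDiff ℝ ∞ fun w : ℝ × E3 × E3 => 2 * H (w.1, mu w.2.2) :=
    contDiff_const.mul (hH.comp (contDiff_fst.prodMk hm))
  refine (hb.comp (ContDiff.inner ℝ contDiff_snd.fst contDiff_snd.fst)).mul (hμ.add ?_)
  rw [contDiff_iff_contDiffAt]
  intro w
  rcases lt_or_ge (sg w.2.2) s' with h | h
  · refine (contDiffAt_const (c := 0)).congr_of_eventuallyEq ?_
    filter_upwards [hσ.continuous.continuousAt.eventually (chi_ev h0 h)] with v hv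
    simp [hv]
  · have hq : ContDiffAt ℝ ∞ (fun w : ℝ × E3 × E3 => √(sg w.2.2) • w.2.1) w :=
      (hσ.contDiffAt.sqrt (hs'.trans_le h).ne').smul contDiff_snd.fst.contDiffAt
    refine (hχ.comp hσ).contDiffAt.mul (ContDiffAt.sub (ContDiffAt.add ?_ ?_) hμ.contDiffAt)
    · exact hH.contDiffAt.comp w (contDiffAt_fst.prodMk (hm.contDiffAt.add hq))
    · exact hH.contDiffAt.comp w (contDiffAt_fst.prodMk (hm.contDiffAt.sub hq))

theorem norm_mu (m : E3) : ‖mu m‖ = ‖m‖ / 2 := by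
  rw [mu, norm_smul]; simp; ring

theorem sg_eq (m : E3) : sg m = 1 - ‖m‖ ^ 2 / 4 := by rw [sg, real_inner_self_eq_norm_sq]

theorem KK_supp (hs : HasCompactSupport H) {χ : ℝ → ℝ} {s' : ℝ} (hs' : 0 < s')
    (h0 : ∀ σ ≤ s', χ σ = 0) : HasCompactSupport (KK H χ) := by
  obtain ⟨R, hR0, hR⟩ := hs.exists_pos_le_norm
  refine supp_of (2 * R + 2) fun w hw => ?_
  rw [Prod.norm_def, Prod.norm_def, lt_max_iff, lt_max_iff] at hw
  rcases hw with h | h | h
  · have : ∀ p, H (w.1, p) = 0 := fun p => hR _ (le_trans (by linarith) (norm_fst_le (w.1, p)))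
    simp [KK, Dd, this]
  · rw [KK, bt_zero (Or.inr (by nlinarith)), zero_mul]
  · have h1 : H (w.1, mu w.2.2) = 0 :=
      hR _ (le_trans (by rw [norm_mu]; linarith) (norm_snd_le (w.1, mu w.2.2)))
    have h2 : χ (sg w.2.2) = 0 := h0 _ (by rw [sg_eq]; nlinarith)
    simp [KK, h1, h2]

theorem hasDerivAt_sg {m : ℝ → E3} {v : E3} {t : ℝ} (h : HasDerivAt m v t) :
    HasDerivAt (fun t => sg (m t)) (-(inner ℝ (m t) v / 2)) t := by
  refine (((h.inner ℝ h).div_const 4).const_sub 1).congr_deriv ?_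
  rw [real_inner_comm (m t) v]; ring

theorem fderiv_KK (hH : ContDiff ℝ ∞ H) {χ : ℝ → ℝ} (hχ : ContDiff ℝ ∞ χ) {s' : ℝ} (hs' : 0 < s')
    (h0 : ∀ σ ≤ s', χ σ = 0) (t : ℝ) {x : E3} (hx : ‖x‖ = 1) (m α ν : E3) :
    fderiv ℝ (KK H χ) (t, x, m) (0, α, ν) =
      inner ℝ (Gx H χ t x m) α + inner ℝ (Gm H χ t x m) ν := by
  have l1 := line x α
  have l2 := line m ν
  have d1 := fderiv_line (w := (t, x, m)) ((KK_smooth hH hχ hs' h0).differentiable (by simp) _)
    (γ := fun τ => (t, x + τ • α, m + τ • ν)) (by simp)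
    ((hasDerivAt_const (0 : ℝ) t).prodMk (l1.prodMk l2))
  refine d1.unique ?_
  have hb : (fun τ : ℝ => bt (inner ℝ (x + τ • α) (x + τ • α))) =ᶠ[𝓝 0] fun _ => 1 := by
    have h1 : Tendsto (fun τ : ℝ => inner ℝ (x + τ • α) (x + τ • α)) (𝓝 0) (𝓝 1) := by
      have := (l1.inner ℝ l1).continuousAt.tendsto
      simpa [hx] using this
    exact h1.eventually bt.eventuallyEq_one
  have dμ : HasDerivAt (fun τ : ℝ => mu (m + τ • ν)) (mu ν) 0 := l2.const_smul (1 / 2 : ℝ)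
  have dσ := hasDerivAt_sg l2
  have d2 := (hasDerivAt_H hH t dμ).const_mul 2
  have main : HasDerivAt (fun τ : ℝ => 2 * H (t, mu (m + τ • ν)) +
      χ (sg (m + τ • ν)) * Dd H t (x + τ • α) (m + τ • ν))
      (inner ℝ (Gx H χ t x m) α + inner ℝ (Gm H χ t x m) ν) 0 := by
    rcases lt_or_ge (sg m) s' with h | h
    · have e1 := chi_ev h0 h
      have e2 : Tendsto (fun τ : ℝ => sg (m + τ • ν)) (𝓝 0) (𝓝 (sg m)) := by
        simpa using dσ.continuousAt.tendsto
      have e3 : χ (sg m) = 0 := h0 _ h.le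
      have e4 : deriv χ (sg m) = 0 := by rw [e1.deriv_eq]; simp
      refine HasDerivAt.congr_of_eventuallyEq (f := fun τ => 2 * H (t, mu (m + τ • ν))) ?_ ?_
      · refine d2.congr_deriv ?_
        simp [Gx, Gm, e3, e4, mu, inner_smul_right]
      · filter_upwards [e2.eventually e1] with τ hτ
        simp [hτ]
    · have hpos : 0 < sg m := hs'.trans_le h
      have hsq : √(sg m) ≠ 0 := (sqrt_pos.2 hpos).ne'
      have dq := (dσ.sqrt (by simpa using hpos.ne')).smul l1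
      have d3 := hasDerivAt_H hH t (dμ.add dq)
      have d4 := hasDerivAt_H hH t (dμ.sub dq)
      have d5 := HasDerivAt.comp_of_eq (0 : ℝ) (hχ.differentiable (by simp) (sg m)).hasDerivAt dσ
        (by simp)
      refine (d2.add (d5.mul ((d3.add d4).sub d2))).congr_deriv ?_
      simp only [Gx, Gm, Yy, Ee, Dd, zero_smul, add_zero, Pi.add_apply, Pi.sub_apply,
        Pi.smul_apply', Function.comp_apply]
      generalize grad H t (mu m + √(sg m) • x) = a
      generalize grad H t (mu m - √(sg m) • x) = b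
      generalize grad H t (mu m) = g
      simp only [mu, inner3, PiLp.add_apply, PiLp.sub_apply, PiLp.smul_apply, smul_eq_mul]
      field_simp
      ring
  refine main.congr_of_eventuallyEq ?_
  filter_upwards [hb] with τ hτ
  simp only [KK, hτ, one_mul]

end Ham

end Pool.Agent.Lib.MP_55a7f7_gt
end
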