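import Pool.Agent.Lib.MP_55a7f7_gt.Basic

/-! Part H: a smooth function with prescribed gradient along a moving embedded curve. -/

set_option autoImplicit false

open scoped ContDiff Topology Manifold
open Set Filter

namespace Pool.Agent.Lib.MP_55a7f7_gt

section Jet

variable {c w : ℝ × ℝ → E3} {h : ℝ × ℝ → ℝ}

theorem jet_hasDerivAt {F : Type} [NormedAddCommGroup F] [NormedSpace ℝ F] {f : ℝ × ℝ → F}
    (hf : ContDiff ℝ ∞ f) (t s : ℝ) :
    HasDerivAt (fun s => f (t, s)) (fderiv ℝ f (t, s) (0, 1)) s :=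
  ((hf.differentiable (by simp)) (t, s)).hasFDerivAt.comp_hasDerivAt s
    ((hasDerivAt_const s t).prodMk (hasDerivAt_id s))

/-- reduction of the parameter to an interval of length one -/
theorem jet_reduce (s₀ s : ℝ) : ∃ s' ∈ Icc (s₀ - 1 / 2) (s₀ + 1 / 2),
    ∀ {X : Type} {f : ℝ → X}, Function.Periodic f 1 → f s' = f s := by
  refine ⟨s - ⌊s - s₀ + 1 / 2⌋ * 1, ⟨?_, ?_⟩, fun hf => hf.sub_int_mul_eq _⟩
  · linarith [Int.floor_le (s - s₀ + 1 / 2)]
  · linarith [Int.lt_floor_add_one (s - s₀ + 1 / 2)]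

/-- a smooth local left inverse of the moving curve -/
theorem jet_inv (hc : ContDiff ℝ ∞ c) {t₀ s₀ : ℝ} (hreg : deriv (fun s => c (t₀, s)) s₀ ≠ 0) :
    ∃ S : ℝ × E3 → ℝ, (∀ᶠ x in 𝓝 (t₀, c (t₀, s₀)), ContDiffAt ℝ ∞ S x) ∧
      ∀ᶠ y in 𝓝 (t₀, s₀), S (y.1, c y) = y.2 := by
  set a := deriv (fun s => c (t₀, s)) s₀ with ha
  let Φ : ℝ × ℝ → ℝ × ℝ := fun y => (y.1, inner ℝ a (c y))
  have hΦ : ContDiff ℝ ∞ Φ := contDiff_fst.prodMk (contDiff_const.inner ℝ hc)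
  have hd : ∀ y, HasFDerivAt Φ ((ContinuousLinearMap.fst ℝ ℝ ℝ).prod
      ((innerSL ℝ a).comp (fderiv ℝ c y))) y := fun y =>
    hasFDerivAt_fst.prodMk ((innerSL ℝ a).hasFDerivAt.comp y
      ((hc.differentiable (by simp)) y).hasFDerivAt)
  have hinj : Function.Injective (fderiv ℝ Φ (t₀, s₀)) := by
    rw [(hd _).fderiv]
    refine (injective_iff_map_eq_zero _).2 fun v hv => ?_
    have h1 : v.1 = 0 := congrArg Prod.fst hv
    have h2 : inner ℝ a (fderiv ℝ c (t₀, s₀) v) = 0 := congrArg Prod.snd hv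
    have h3 : v = v.2 • ((0, 1) : ℝ × ℝ) := by ext <;> simp [h1]
    rw [h3, map_smul, ← (jet_hasDerivAt hc t₀ s₀).deriv, ← ha, inner_smul_right,
      mul_eq_zero, inner_self_eq_zero] at h2
    rw [h3, h2.resolve_right hreg, zero_smul]
  let D : (ℝ × ℝ) ≃L[ℝ] (ℝ × ℝ) :=
    (LinearEquiv.ofInjectiveEndo (fderiv ℝ Φ (t₀, s₀)).toLinearMap hinj).toContinuousLinearEquiv
  have hD : (D : (ℝ × ℝ) →L[ℝ] (ℝ × ℝ)) = fderiv ℝ Φ (t₀, s₀) := by ext <;> rfl
  have hD' : HasFDerivAt Φ (D : (ℝ × ℝ) →L[ℝ] (ℝ × ℝ)) (t₀, s₀) :=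
    hD ▸ ((hΦ.differentiable (by simp)) _).hasFDerivAt
  let e := hΦ.contDiffAt.toOpenPartialHomeomorph Φ hD' (by simp)
  have hs : (t₀, s₀) ∈ e.source := hΦ.contDiffAt.mem_toOpenPartialHomeomorph_source hD' (by simp)
  have h1 : ∀ᶠ y in 𝓝 (t₀, s₀), fderiv ℝ Φ y ∈
      range ((↑) : ((ℝ × ℝ) ≃L[ℝ] (ℝ × ℝ)) → (ℝ × ℝ) →L[ℝ] (ℝ × ℝ)) :=
    ((hΦ.continuous_fderiv (by simp)).tendsto _).eventually (hD ▸ D.nhds)
  have h2 : ∀ᶠ z in 𝓝 (e (t₀, s₀)), ContDiffAt ℝ ∞ e.symm z := by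
    filter_upwards [e.open_target.mem_nhds (e.map_source hs), (e.tendsto_symm hs).eventually h1]
      with z hz ⟨D', hz'⟩
    exact e.contDiffAt_symm (f₀' := D') hz
      (hz' ▸ ((hΦ.differentiable (by simp)) _).hasFDerivAt) hΦ.contDiffAt
  have hΨ : ContDiff ℝ ∞ fun x : ℝ × E3 => (x.1, inner ℝ a x.2) :=
    contDiff_fst.prodMk (contDiff_const.inner ℝ contDiff_snd)
  refine ⟨fun x => (e.symm (x.1, inner ℝ a x.2)).2, ?_, ?_⟩
  · filter_upwards [(hΨ.continuous.tendsto (t₀, c (t₀, s₀))).eventually h2] with x hx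
    exact (hx.comp x hΨ.contDiffAt).snd
  · filter_upwards [e.open_source.mem_nhds hs] with y hy
    exact congrArg Prod.snd (e.left_inv hy)

/-- the jet condition -/
def JetAt (c w : ℝ × ℝ → E3) (h : ℝ × ℝ → ℝ) (g : ℝ × E3 → ℝ) (t s : ℝ) : Prop :=
  g (t, c (t, s)) = h (t, s) ∧ HasFDerivAt (fun q => g (t, q)) (innerSL ℝ (w (t, s))) (c (t, s))

theorem jet_model (hc : ContDiff ℝ ∞ c) (hw : ContDiff ℝ ∞ w) (hh : ContDiff ℝ ∞ h)
    (hd : ∀ t s, deriv (fun s => h (t, s)) s =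
      inner ℝ (w (t, s)) (deriv (fun s => c (t, s)) s))
    {S : ℝ × E3 → ℝ} {t s : ℝ} (hS : ContDiffAt ℝ ∞ S (t, c (t, s))) (e : S (t, c (t, s)) = s) :
    JetAt c w h (fun x => h (x.1, S x) + inner ℝ (w (x.1, S x)) (x.2 - c (x.1, S x))) t s := by
  refine ⟨by simp [e], ?_⟩
  have h0 : DifferentiableAt ℝ (fun q => S (t, q)) (c (t, s)) :=
    DifferentiableAt.comp (f := fun q : E3 => (t, q)) _ (hS.differentiableAt (by simp))
      (by fun_prop)
  have h1 := h0.hasFDerivAt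
  have k : ∀ {F : Type} [NormedAddCommGroup F] [NormedSpace ℝ F] {f : ℝ × ℝ → F},
      ContDiff ℝ ∞ f → HasFDerivAt (fun q => f (t, S (t, q)))
        ((fderiv ℝ (fun q => S (t, q)) (c (t, s))).smulRight (deriv (fun s => f (t, s)) s))
        (c (t, s)) := fun {F} _ _ {f} hf => by
    have h2 := (jet_hasDerivAt hf t s).differentiableAt.hasDerivAt.hasFDerivAt
    rw [← e] at h2
    refine (HasFDerivAt.comp (f := fun q => S (t, q)) _ h2 h1).congr_fderiv ?_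
    ext v
    simp [e]
  refine ((k hh).add ((k hw).inner ℝ ((hasFDerivAt_id _).sub (k hc)))).congr_fderiv ?_
  ext v
  simp [e, hd, inner_sub_right, inner_smul_right]

theorem jet_local (hc : ContDiff ℝ ∞ c) (hw : ContDiff ℝ ∞ w) (hh : ContDiff ℝ ∞ h)
    (he : ∀ t, Emb fun s => c (t, s)) (pw : ∀ t s, w (t, s + 1) = w (t, s))
    (ph : ∀ t s, h (t, s + 1) = h (t, s))
    (hd : ∀ t s, deriv (fun s => h (t, s)) s =
      inner ℝ (w (t, s)) (deriv (fun s => c (t, s)) s)) (x₀ : ℝ × E3) :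
    ∃ g : ℝ × E3 → ℝ, ∀ᶠ x in 𝓝 x₀, ContDiffAt ℝ ∞ g x ∧
      ∀ s, x.2 = c (x.1, s) → JetAt c w h g x.1 s := by
  have hne : ∀ s, x₀.2 ≠ c (x₀.1, s) →
      ∀ᶠ z : (ℝ × E3) × ℝ in 𝓝 (x₀, s), z.1.2 ≠ c (z.1.1, z.2) := fun s hs => by
    have hcc := hc.continuous
    have : Continuous fun z : (ℝ × E3) × ℝ => z.1.2 - c (z.1.1, z.2) := by fun_prop
    exact (this.continuousAt.eventually_ne (sub_ne_zero.2 hs)).mono fun z => sub_ne_zero.1
  by_cases hx : ∃ s₀, x₀.2 = c (x₀.1, s₀)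
  · obtain ⟨s₀, hx⟩ := hx
    obtain ⟨S, h1, h2⟩ := jet_inv hc ((he x₀.1).reg s₀)
    rw [← hx] at h1
    have h3 : ∀ᶠ x in 𝓝 x₀, ∀ s ∈ Icc (s₀ - 1 / 2) (s₀ + 1 / 2),
        x.2 = c (x.1, s) → S (x.1, c (x.1, s)) = s := by
      refine isCompact_Icc.eventually_forall_of_forall_eventually fun s hs => ?_
      rcases lt_trichotomy s s₀ with h | rfl | h
      · exact (hne s (hx ▸ ((he x₀.1).ne h (by linarith [hs.1])).symm)).mono
          fun z hz e => absurd e hz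
      · have : Continuous fun z : (ℝ × E3) × ℝ => (z.1.1, z.2) := by fun_prop
        exact ((this.tendsto (x₀, s)).eventually h2).mono fun z hz _ => hz
      · exact (hne s (hx ▸ (he x₀.1).ne h (by linarith [hs.2]))).mono fun z hz e => absurd e hz
    refine ⟨fun x => h (x.1, S x) + inner ℝ (w (x.1, S x)) (x.2 - c (x.1, S x)), ?_⟩
    filter_upwards [h1, h3] with x a1 a2
    have a3 : ContDiffAt ℝ ∞ (fun x : ℝ × E3 => (x.1, S x)) x := contDiffAt_fst.prodMk a1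
    refine ⟨(hh.contDiffAt.comp x a3).add ((hw.contDiffAt.comp x a3).inner ℝ
      (contDiffAt_snd.sub (hc.contDiffAt.comp x a3))), fun s hs => ?_⟩
    obtain ⟨s', b1, b2⟩ := jet_reduce s₀ s
    have c1 : c (x.1, s') = c (x.1, s) := b2 (he x.1).per
    have c2 : w (x.1, s') = w (x.1, s) := b2 (f := fun s => w (x.1, s)) (pw x.1)
    have c3 : h (x.1, s') = h (x.1, s) := b2 (f := fun s => h (x.1, s)) (ph x.1)
    have := jet_model hc hw hh hd (S := S) (t := x.1) (s := s')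
      (by rw [c1, ← hs]; exact a1) (a2 s' b1 (hs.trans c1.symm))
    unfold JetAt at this ⊢
    rwa [c1, c2, c3] at this
  · push Not at hx
    refine ⟨fun _ => 0, ?_⟩
    filter_upwards [(isCompact_Icc (a := (0 : ℝ) - 1 / 2) (b := 0 + 1 / 2)
      ).eventually_forall_of_forall_eventually (P := fun x s => x.2 ≠ c (x.1, s))
        fun s _ => hne s (hx s)] with x a1
    refine ⟨contDiffAt_const, fun s hs => ?_⟩
    obtain ⟨s', b1, b2⟩ := jet_reduce 0 s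
    exact absurd (hs.trans (b2 (he x.1).per).symm) (a1 s' b1)

theorem jet_glue
    (hl : ∀ x₀ : ℝ × E3, ∃ g : ℝ × E3 → ℝ, ∀ᶠ x in 𝓝 x₀, ContDiffAt ℝ ∞ g x ∧
      ∀ s, x.2 = c (x.1, s) → JetAt c w h g x.1 s) :
    ∃ G : ℝ × E3 → ℝ, ContDiff ℝ ∞ G ∧
      ∀ t s, HasFDerivAt (fun q => G (t, q)) (innerSL ℝ (w (t, s))) (c (t, s)) := by
  choose g hg using hl
  choose U hU hUo hUx using fun x => eventually_nhds_iff.1 (hg x)
  obtain ⟨ρ, hρ⟩ := SmoothPartitionOfUnity.exists_isSubordinate 𝓘(ℝ, ℝ × E3) isClosed_univ U hUo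
    fun x _ => mem_iUnion.2 ⟨x, hUx x⟩
  refine ⟨fun x => ∑ᶠ i, ρ i x • g i x, contDiff_iff_contDiffAt.2 fun x =>
    ρ.contDiffAt_finsum fun i hi => (hU i x (hρ i hi)).1, fun t s => ?_⟩
  let l : E3 → ℝ := fun q => h (t, s) + innerSL ℝ (w (t, s)) (q - c (t, s))
  have hl : HasFDerivAt l (innerSL ℝ (w (t, s))) (c (t, s)) := by
    have := ((innerSL ℝ (w (t, s))).hasFDerivAt.comp (c (t, s))
      ((hasFDerivAt_id (c (t, s))).sub_const (c (t, s)))).const_add (h (t, s))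
    rwa [ContinuousLinearMap.comp_id] at this
  have h1 : ∀ i ∈ ρ.fintsupport (t, c (t, s)),
      HasFDerivAt (fun q => ρ i (t, q) * (g i (t, q) - l q)) (0 : E3 →L[ℝ] ℝ) (c (t, s)) := by
    intro i hi
    obtain ⟨a1, a2⟩ := (hU i _ (hρ i ((ρ.mem_fintsupport_iff _ i).1 hi))).2 s rfl
    have a3 : DifferentiableAt ℝ (fun q => ρ i (t, q)) (c (t, s)) :=
      DifferentiableAt.comp (f := fun q : E3 => (t, q)) _
        (((ρ i).contMDiff.contDiff.differentiable (by simp)) _) (by fun_prop)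
    refine (a3.hasFDerivAt.mul (a2.sub hl)).congr_fderiv ?_
    simp only at a1
    simp [a1, l]
  have h2 := hl.add (HasFDerivAt.fun_sum h1)
  rw [Finset.sum_const_zero, add_zero] at h2
  refine h2.congr_of_eventuallyEq ?_
  have hc : Continuous fun q : E3 => (t, q) := by fun_prop
  filter_upwards [(hc.tendsto (c (t, s))).eventually
    (ρ.eventually_finsupport_subset (t, c (t, s)))] with q hq
  have a1 := ρ.sum_finsupport' (t, q) (mem_univ _) hq
  rw [finsum_eq_sum_of_support_subset (s := ρ.fintsupport (t, c (t, s))) _ fun i hi =>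
    hq ((ρ.mem_finsupport _).2 (left_ne_zero_of_smul hi))]
  simp only [Pi.add_apply, mul_sub, Finset.sum_sub_distrib, ← Finset.sum_mul, a1, smul_eq_mul]
  ring

end Jet

theorem jetStmt : JetStmt := by
  intro c w h hc hw hh he pw ph hd
  obtain ⟨G, hG, hG'⟩ := jet_glue (jet_local hc hw hh he pw ph hd)
  have hcc := hc.continuous
  have hK : IsCompact ((fun y : ℝ × ℝ => (y.1, c y)) ''
      (Icc (0 : ℝ) 1 ×ˢ Icc ((0 : ℝ) - 1 / 2) (0 + 1 / 2))) :=
    (isCompact_Icc.prod isCompact_Icc).image (by fun_prop)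
  obtain ⟨R, hR, hb⟩ := hK.isBounded.subset_ball_lt 0 0
  let β : ContDiffBump (0 : ℝ × E3) := ⟨R, R + 1, hR, by linarith⟩
  refine ⟨fun x => β x * G x, β.contDiff.mul hG, β.hasCompactSupport.mul_right, fun t ht s => ?_⟩
  obtain ⟨s', b1, b2⟩ := jet_reduce 0 s
  have h1 : (t, c (t, s)) ∈ Metric.ball (0 : ℝ × E3) R :=
    hb ⟨(t, s'), ⟨ht, b1⟩, Prod.ext rfl (b2 (he t).per)⟩
  have h2 : Continuous fun q : E3 => (t, q) := by fun_prop
  refine HasGradientAt.gradient (hasGradientAt_iff_hasFDerivAt.2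
    ((hG' t s).congr_of_eventuallyEq ?_))
  filter_upwards [(h2.tendsto (c (t, s))).eventually (β.eventuallyEq_one_of_mem_ball h1)] with q hq
  rw [hq, Pi.one_apply, one_mul]

end Pool.Agent.Lib.MP_55a7f7_gt
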