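import Pool.Agent.Lib.MP_55a7f7_gt.Moll

/-! The smooth Schoenflies theorem in isotopy form, and the sign of the enclosed area. -/

set_option autoImplicit false

open scoped ContDiff ComplexConjugate Topology
open Set Real Filter Metric Function MeasureTheory

namespace Pool.Agent.Lib.MP_55a7f7_gt

namespace TS

/-! ### Logarithms, star shaped curves -/

theorem exists_log {g : ℝ → ℂ} (hg : ContDiff ℝ ∞ g) (h0 : ∀ s, g s ≠ 0) :
    ∃ L : ℝ → ℂ, ContDiff ℝ ∞ L ∧ (∀ s, HasDerivAt L (deriv g s / g s) s) ∧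
      (∀ s, Complex.exp (L s) = g s) ∧ L 1 - L 0 = ∫ s in (0 : ℝ)..1, deriv g s / g s := by
  have hq : ContDiff ℝ ∞ fun s => deriv g s / g s := by
    simp only [div_eq_mul_inv]
    exact (contDiff_infty_iff_deriv.1 hg).2.mul (hg.inv h0)
  have hL : ∀ s, HasDerivAt (fun s => Complex.log (g 0) + ∫ x in (0 : ℝ)..s, deriv g x / g x)
      (deriv g s / g s) s := fun s =>
    (hq.continuous.integral_hasStrictDerivAt 0 s).hasDerivAt.const_add _
  refine ⟨_, contDiff_infty_iff_deriv.2 ⟨fun s => (hL s).differentiableAt, ?_⟩, hL, fun s => ?_,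
    by simp⟩
  · rwa [show deriv (fun s => Complex.log (g 0) + ∫ x in (0 : ℝ)..s, deriv g x / g x) =
      fun s => deriv g s / g s from funext fun s => (hL s).deriv]
  · set L := fun s => Complex.log (g 0) + ∫ x in (0 : ℝ)..s, deriv g x / g x with hLd
    have hu : ∀ s, HasDerivAt (fun s => g s * Complex.exp (-L s)) 0 s := fun s => by
      have := ((hg.differentiable (by simp)) s).hasDerivAt.mul (hL s).neg.cexp
      have e : deriv g s * Complex.exp (-L s) +
          g s * (Complex.exp (-L s) * -(deriv g s / g s)) = 0 := by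
        have := h0 s
        field_simp
        ring
      exact e ▸ this
    have h1 := is_const_of_deriv_eq_zero (fun s => (hu s).differentiableAt)
      (fun s => (hu s).deriv) s 0
    have h2 : L 0 = Complex.log (g 0) := by simp [hLd]
    rw [h2, Complex.exp_neg, Complex.exp_neg, Complex.exp_log (h0 0), mul_inv_cancel₀ (h0 0),
      mul_inv_eq_one₀ (Complex.exp_ne_zero _)] at h1
    exact h1.symm

theorem deriv_per {g : ℝ → ℂ} (hp : Periodic g 1) (s : ℝ) : deriv g (s + 1) = deriv g s := by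
  rw [← deriv_comp_add_const]
  congr 1; funext x; exact hp x

theorem no_int {σ : ℝ} (hσ : σ = 1 ∨ σ = -1) (m : ℤ) (h1 : 0 < σ * m) (h2 : σ * m < 1) : False := by
  rcases hσ with rfl | rfl
  · have h3 : (0 : ℤ) < m := by exact_mod_cast (by linarith : (0 : ℝ) < m)
    have h4 : m < (1 : ℤ) := by exact_mod_cast (by linarith : (m : ℝ) < 1)
    omega
  · have h3 : m < (0 : ℤ) := by exact_mod_cast (by linarith : (m : ℝ) < 0)
    have h4 : (-1 : ℤ) < m := by exact_mod_cast (by linarith : (-1 : ℝ) < m)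
    omega

theorem exp_sigma {σ : ℝ} (hσ : σ = 1 ∨ σ = -1) :
    Complex.exp ((2 * π * σ : ℝ) * Complex.I) = 1 := by
  rcases hσ with rfl | rfl
  · exact Complex.exp_eq_one_iff.2 ⟨1, by push_cast; ring⟩
  · exact Complex.exp_eq_one_iff.2 ⟨-1, by push_cast; ring⟩

/-- A simple closed curve with monotone argument winds once. -/
theorem wind_one {L : ℝ → ℂ} (hc : Continuous L) {σ c : ℝ} (hσ : σ = 1 ∨ σ = -1)
    (hm : StrictMono fun s => σ * (L s).im) (hre : Periodic (fun s => (L s).re) 1)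
    (him : ∀ s, σ * (L (s + 1)).im = σ * (L s).im + c)
    (hi : Inj1 fun s => Complex.exp (L s)) : c ≤ 2 * π := by
  by_contra hlt
  push Not at hlt
  set θ := fun s => σ * (L s).im with hθ
  have hθc : Continuous θ := by rw [hθ]; fun_prop
  have hcp : 0 < c := by linarith [pi_pos]
  have hper : Periodic (fun s => θ s - c * s) 1 := fun s => by
    simp only [hθ, him]; ring
  have hint : ∀ m : ℤ, θ m = θ 0 + c * m := fun m => by
    have := hper.int_mul m 0
    simp only [mul_one, zero_add, mul_zero, sub_zero] at this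
    linarith
  have hsurj : Surjective θ := by
    refine hθc.surjective (hm.monotone.tendsto_atTop_atTop fun y => ?_)
      (hm.monotone.tendsto_atBot_atBot fun y => ?_)
    · refine ⟨(⌈(y - θ 0) / c⌉ : ℤ), ?_⟩
      have := Int.le_ceil ((y - θ 0) / c)
      rw [div_le_iff₀ hcp] at this
      rw [hint]; linarith
    · refine ⟨(⌊(y - θ 0) / c⌋ : ℤ), ?_⟩
      have := Int.floor_le ((y - θ 0) / c)
      rw [le_div_iff₀ hcp] at this
      rw [hint]; linarith
  set E := StrictMono.orderIsoOfSurjective θ hm hsurj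
  set u := fun s => E.symm (θ s + 2 * π) with hu
  have huc : Continuous u := E.symm.continuous.comp (hθc.add continuous_const)
  have hθu : ∀ s, θ (u s) = θ s + 2 * π := fun s =>
    StrictMono.orderIsoOfSurjective_self_symm_apply θ hm hsurj _
  have hr : Continuous fun s => (L s).re := by fun_prop
  have hK := hre.compact_of_continuous one_ne_zero hr
  obtain ⟨_, ⟨s1, rfl⟩, h1⟩ := hK.exists_isGreatest (range_nonempty _)
  obtain ⟨_, ⟨s2, rfl⟩, h2⟩ := hK.exists_isLeast (range_nonempty _)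
  obtain ⟨s, hs⟩ := intermediate_value_univ (f := fun s => (L (u s)).re - (L s).re) s1 s2
    ((hr.comp huc).sub hr) (show (0 : ℝ) ∈ Icc _ _ from
      ⟨sub_nonpos.2 (h1 ⟨u s1, rfl⟩), sub_nonneg.2 (h2 ⟨u s2, rfl⟩)⟩)
  refine hi s (u s) (hm.lt_iff_lt.1 ?_) (hm.lt_iff_lt.1 ?_) ?_
  · show θ s < θ (u s)
    rw [hθu]; linarith [pi_pos]
  · show θ (u s) < σ * (L (s + 1)).im
    rw [hθu, him]; simp only [hθ]; linarith
  · have e : L (u s) = L s + (2 * π * σ : ℝ) * Complex.I := by
      have h3 := hθu s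
      simp only [hθ] at h3 hs
      apply Complex.ext
      · simp; linarith
      · rcases hσ with rfl | rfl <;> simp <;> linarith
    simp only [e, Complex.exp_add, exp_sigma hσ, mul_one]

theorem star_iso {g : ℝ → ℂ} (hg : Emb g) (o : ℂ) {σ : ℝ} (hσ : σ = 1 ∨ σ = -1)
    (hs : ∀ s, 0 < σ * (conj (g s - o) * deriv g s).im) :
    Iso univ (fun s => 1 * Complex.exp ((2 * π * σ * s : ℝ) * Complex.I) + o) g := by
  have hσ2 : σ * σ = 1 := by rcases hσ with rfl | rfl <;> norm_num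
  have h0 : ∀ s, g s - o ≠ 0 := fun s h => by simpa [h] using hs s
  have hw : ContDiff ℝ ∞ fun s => g s - o := hg.smooth.sub contDiff_const
  obtain ⟨L, hL, hd, he, -⟩ := exists_log hw h0
  simp only [deriv_sub_const] at hd
  have hq : ∀ s, 0 < σ * (deriv g s / (g s - o)).im := fun s => by
    have e : deriv g s / (g s - o) =
        (((Complex.normSq (g s - o))⁻¹ : ℝ) : ℂ) * (conj (g s - o) * deriv g s) := by
      rw [div_eq_mul_inv, Complex.inv_def]; ring
    rw [e, Complex.im_ofReal_mul, mul_left_comm]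
    exact mul_pos (inv_pos.2 (Complex.normSq_pos.2 (h0 s))) (hs s)
  have hθ : ∀ s, HasDerivAt (fun s => σ * (L s).im) (σ * (deriv g s / (g s - o)).im) s := fun s =>
    (Complex.imCLM.hasFDerivAt.comp_hasDerivAt s (hd s)).const_mul σ
  have hm : StrictMono fun s => σ * (L s).im := strictMono_of_hasDerivAt_pos hθ hq
  have hc : ∀ s, L (s + 1) - L s = L (0 + 1) - L 0 := fun s => by
    have hu : ∀ s, HasDerivAt (fun s => L (s + 1) - L s) 0 s := fun s => by
      have := ((hd (s + 1)).comp_add_const s 1).sub (hd s)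
      rwa [deriv_per hg.per, hg.per, sub_self] at this
    exact is_const_of_deriv_eq_zero (fun s => (hu s).differentiableAt) (fun s => (hu s).deriv) s 0
  obtain ⟨n, hn⟩ : ∃ n : ℤ, L (0 + 1) - L 0 = n * (2 * π * Complex.I) := by
    rw [← Complex.exp_eq_one_iff, Complex.exp_sub, he, he, hg.per, div_self (h0 0)]
  have hs1 : ∀ s, L (s + 1) = L s + n * (2 * π * Complex.I) := fun s => by
    rw [← hn, ← hc s]; ring
  have him : ∀ s, σ * (L (s + 1)).im = σ * (L s).im + σ * n * (2 * π) := fun s => by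
    rw [hs1]; simp; ring
  have hle := wind_one hL.continuous hσ hm (fun s => by simp only [hs1]; simp) him
    (fun s t h1 h2 h3 => hg.ne h1 h2 (by simpa only [he, sub_left_inj] using h3))
  have hpos : 0 < σ * n := by
    have h1 : σ * (L 0).im < σ * (L (0 + 1)).im := hm (by norm_num)
    rw [him] at h1
    have := pi_pos
    by_contra h2
    nlinarith
  have hone : σ * n = 1 := by
    by_contra h2
    exact no_int hσ n hpos (lt_of_le_of_ne (by nlinarith [pi_pos]) h2)
  have hnσ : (n : ℝ) = σ := by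
    calc (n : ℝ) = σ * (σ * n) := by rw [← mul_assoc, hσ2, one_mul]
      _ = σ := by rw [hone, mul_one]
  have hs2 : ∀ s, L (s + 1) = L s + (2 * π * σ : ℝ) * Complex.I := fun s => by
    rw [hs1, ← hnσ]; push_cast; ring
  set M : ℝ → ℝ → ℂ := fun t s => (1 - t) * ((2 * π * σ * s : ℝ) * Complex.I) + t * L s with hM
  have hMim : ∀ t s, σ * (M t s).im = (1 - t) * (2 * π * s) + t * (σ * (L s).im) := fun t s => by
    simp only [hM]
    rw [show (1 - (t : ℂ)) = ((1 - t : ℝ) : ℂ) by push_cast; ring, Complex.add_im,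
      Complex.im_ofReal_mul, Complex.im_ofReal_mul, Complex.im_ofReal_mul, Complex.I_im]
    linear_combination (1 - t) * (2 * π * s) * hσ2
  have hMs : ContDiff ℝ ∞ fun x : ℝ × ℝ => M x.1 x.2 := by
    have h1 : ContDiff ℝ ∞ fun x : ℝ × ℝ => (x.1 : ℂ) :=
      Complex.ofRealCLM.contDiff.comp contDiff_fst
    have h2 : ContDiff ℝ ∞ fun x : ℝ × ℝ => ((2 * π * σ * x.2 : ℝ) : ℂ) :=
      Complex.ofRealCLM.contDiff.comp (contDiff_const.mul contDiff_snd)
    exact ((contDiff_const.sub h1).mul (h2.mul contDiff_const)).add (h1.mul (hL.comp contDiff_snd))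
  have hζ : ContDiff ℝ ∞ fun x : ℝ × ℝ => Complex.exp (M x.1 x.2) + o :=
    hMs.cexp.add contDiff_const
  refine ⟨_, hζ, fun t ht => ⟨⟨?_, fun s => ?_, injOn_of_ne fun s s' h1 h2 h3 => ?_, fun s => ?_⟩,
    fun _ => trivial⟩, fun s => by simp [hM], fun s => by simp [hM, he]⟩
  · exact hζ.comp (f := fun s : ℝ => (t, s)) (by fun_prop)
  · have e : M t (s + 1) = M t s + (2 * π * σ : ℝ) * Complex.I := by
      simp only [hM, hs2]; push_cast; ring
    simp only [e, Complex.exp_add, exp_sigma hσ, mul_one]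
  · obtain ⟨m, hm'⟩ := Complex.exp_eq_exp_iff_exists_int.1 (add_right_cancel h3).symm
    have e1 : σ * (M t s').im = σ * (M t s).im + σ * m * (2 * π) := by rw [hm']; simp; ring
    rw [hMim, hMim] at e1
    have h4 : σ * (L s).im < σ * (L s').im := hm h1
    have h5 : σ * (L s').im < σ * (L (s + 1)).im := hm h2
    rw [him, hone] at h5
    have hp := pi_pos
    have e2 : σ * m * (2 * π) =
        (1 - t) * (2 * π * (s' - s)) + t * (σ * (L s').im - σ * (L s).im) := by linarith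
    have h6 : 0 < 2 * π * (s' - s) := by nlinarith
    have h7 : 2 * π * (s' - s) < 2 * π := by nlinarith
    generalize 2 * π * (s' - s) = x at e2 h6 h7
    obtain ⟨y, hy⟩ : ∃ y, y = σ * (L s').im - σ * (L s).im := ⟨_, rfl⟩
    rw [← hy] at e2
    have h8 : 0 < y := by linarith
    have h9 : y < 2 * π := by linarith
    have h10 : 0 < (1 - t) * x + t * y := by
      rcases eq_or_lt_of_le ht.1 with h | h
      · rw [← h]; linarith
      · nlinarith [ht.2]
    have h11 : (1 - t) * x + t * y < 2 * π := by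
      rcases eq_or_lt_of_le ht.1 with h | h
      · rw [← h]; linarith
      · nlinarith [ht.2]
    refine no_int hσ m ?_ ?_
    · by_contra h; nlinarith
    · by_contra h; nlinarith
  · have h1 : HasDerivAt (fun s : ℝ => ((2 * π * σ * s : ℝ) : ℂ)) ((2 * π * σ : ℝ) : ℂ) s := by
      simpa using ((hasDerivAt_id s).const_mul (2 * π * σ)).ofReal_comp
    have h2 : HasDerivAt (M t) ((1 - t) * ((2 * π * σ : ℝ) * Complex.I) +
        t * (deriv g s / (g s - o))) s :=
      ((h1.mul_const _).const_mul _).add ((hd s).const_mul _)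
    rw [(h2.cexp.add_const o).deriv]
    refine mul_ne_zero (Complex.exp_ne_zero _) fun h3 => ?_
    have h4 := congrArg (fun z => σ * Complex.im z) h3
    rw [show (1 - (t : ℂ)) = ((1 - t : ℝ) : ℂ) by push_cast; ring] at h4
    simp only [Complex.add_im, Complex.im_ofReal_mul, Complex.I_im, Complex.zero_im] at h4
    have h5 := hq s
    have hp := pi_pos
    have e : (1 - t) * (2 * π) + t * (σ * (deriv g s / (g s - o)).im) = 0 := by
      linear_combination h4 - (1 - t) * (2 * π) * hσ2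
    rcases eq_or_lt_of_le ht.1 with h | h
    · rw [← h] at e; linarith
    · nlinarith [ht.2]

/-! ### Parametrised polygons -/

/-- Break points. -/
structure Brk (n : ℕ) (b : ℕ → ℝ) : Prop where
  b0 : b 0 = 0
  bn : b n = 1
  lt : ∀ j < n, b j < b (j + 1)

/-- `P` is the parametrisation of the polygon `v` with break points `b`. -/
structure IsParam (n : ℕ) (v : ℕ → ℂ) (b : ℕ → ℝ) (P : ℝ → ℂ) : Prop where
  brk : Brk n b
  cont : Continuous P
  per : Periodic P 1
  eq : ∀ j < n, ∀ τ ∈ Icc (0 : ℝ) 1, P (b j + τ * (b (j + 1) - b j)) = edge v j τ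

/-- The velocity on the piece `j`. -/
noncomputable def slp (v : ℕ → ℂ) (b : ℕ → ℝ) (j : ℕ) : ℂ :=
  ((b (j + 1) - b j)⁻¹ : ℝ) * (v (j + 1) - v j)

variable {n : ℕ} {v v' : ℕ → ℂ} {b : ℕ → ℝ} {P P' : ℝ → ℂ}

theorem Brk.le (h : Brk n b) {i j : ℕ} (hij : i ≤ j) (hj : j ≤ n) : b i ≤ b j := by
  induction j, hij using Nat.le_induction with
  | base => exact le_rfl
  | succ j _ ih => exact (ih (by omega)).trans (h.lt j (by omega)).le

theorem Brk.mem (h : Brk n b) {j : ℕ} (hj : j < n) {τ : ℝ} (hτ : τ ∈ Icc (0 : ℝ) 1) :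
    b j ≤ b j + τ * (b (j + 1) - b j) ∧ b j + τ * (b (j + 1) - b j) ≤ b (j + 1) := by
  have := h.lt j hj
  constructor <;> nlinarith [hτ.1, hτ.2]

theorem Brk.coverR (h : Brk n b) (s : ℝ) :
    ∃ j < n, ∃ m : ℤ, b j + m ≤ s ∧ s < b (j + 1) + m := by
  have key : ∀ x, 0 ≤ x → ∀ k ≤ n, x < b k → ∃ j < n, b j ≤ x ∧ x < b (j + 1) := by
    intro x hx k
    induction k with
    | zero => intro _ h1; rw [h.b0] at h1; linarith
    | succ k ih =>
      intro hk h1
      rcases lt_or_ge x (b k) with h2 | h2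
      · exact ih (by omega) h2
      · exact ⟨k, by omega, h2, h1⟩
  obtain ⟨j, hj, h1, h2⟩ := key _ (Int.fract_nonneg s) n le_rfl
    (by rw [h.bn]; exact Int.fract_lt_one s)
  simp only [Int.fract] at h1 h2
  exact ⟨j, hj, ⌊s⌋, by linarith, by linarith⟩

theorem Brk.coverL (h : Brk n b) (s : ℝ) :
    ∃ j < n, ∃ m : ℤ, b j + m < s ∧ s ≤ b (j + 1) + m := by
  have key : ∀ x, 0 < x → ∀ k ≤ n, x ≤ b k → ∃ j < n, b j < x ∧ x ≤ b (j + 1) := by
    intro x hx k
    induction k with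
    | zero => intro _ h1; rw [h.b0] at h1; linarith
    | succ k ih =>
      intro hk h1
      rcases le_or_gt x (b k) with h2 | h2
      · exact ih (by omega) h2
      · exact ⟨k, by omega, h2, h1⟩
  obtain ⟨j, hj, h1, h2⟩ := key (s - ⌈s⌉ + 1) (by linarith [Int.ceil_lt_add_one s]) n le_rfl
    (by rw [h.bn]; linarith [Int.le_ceil s])
  exact ⟨j, hj, ⌈s⌉ - 1, by push_cast; linarith, by push_cast; linarith⟩

theorem exists_param (h : Brk n b) (hv : v n = v 0) : ∃ P, IsParam n v b P := by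
  have key : ∀ m ≤ n, ∃ Q : ℝ → ℂ, Continuous Q ∧ Q 0 = v 0 ∧ (∀ s, b m ≤ s → Q s = v m) ∧
      ∀ j < m, ∀ τ ∈ Icc (0 : ℝ) 1, Q (b j + τ * (b (j + 1) - b j)) = edge v j τ := by
    intro m
    induction m with
    | zero => exact fun _ => ⟨fun _ => v 0, continuous_const, rfl, fun _ _ => rfl, by simp⟩
    | succ m ih =>
      intro hm
      obtain ⟨Q, h1, h2, h3, h4⟩ := ih (by omega)
      have hΔ : 0 < b (m + 1) - b m := sub_pos.2 (h.lt m (by omega))
      have hz : ∀ s, s ≤ b m → max 0 (min ((s - b m) / (b (m + 1) - b m)) 1) = 0 := fun s hs =>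
        max_eq_left (min_le_of_left_le (div_nonpos_of_nonpos_of_nonneg (by linarith) hΔ.le))
      refine ⟨fun s => Q s + (max 0 (min ((s - b m) / (b (m + 1) - b m)) 1) : ℝ) *
        (v (m + 1) - v m), by fun_prop, ?_, fun s hs => ?_, fun j hj τ hτ => ?_⟩
      · simp only
        rw [hz 0 (by rw [← h.b0]; exact h.le (Nat.zero_le _) (by omega)), h2]; simp
      · simp only
        rw [h3 s (by linarith), min_eq_right (by rw [le_div_iff₀ hΔ]; linarith),
          max_eq_right zero_le_one]; simp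
      · simp only
        rcases Nat.lt_succ_iff_lt_or_eq.1 hj with hj' | rfl
        · rw [hz _ ((h.mem (by omega) hτ).2.trans (h.le (by omega) (by omega))), h4 j hj' τ hτ]
          simp
        · rw [h3 _ (h.mem (by omega) hτ).1, add_sub_cancel_left, mul_div_assoc, div_self hΔ.ne',
            mul_one, min_eq_left hτ.2, max_eq_right hτ.1]
          rfl
  obtain ⟨Q, h1, h2, h3, h4⟩ := key n le_rfl
  have h5 : Q 0 = Q 1 := by rw [h2, h3 1 h.bn.le, hv]
  refine ⟨Q ∘ Int.fract, h, h1.continuousOn.comp_fract'' h5, fun s => by simp, fun j hj τ hτ => ?_⟩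
  rw [← h4 j hj τ hτ]
  have h6 := h.mem hj hτ
  have h7 := h.le (Nat.zero_le j) hj.le
  have h8 := h.le (show j + 1 ≤ n from hj) le_rfl
  rw [h.b0] at h7
  rw [h.bn] at h8
  generalize b j + τ * (b (j + 1) - b j) = x at h6
  rcases eq_or_lt_of_le (h6.2.trans h8) with h9 | h9
  · simp [h9, h5]
  · simp only [comp, Int.fract_eq_self.2 ⟨h7.trans h6.1, h9⟩]

theorem IsParam.piece (h : IsParam n v b P) {j : ℕ} (hj : j < n) {m : ℤ} {s : ℝ}
    (h1 : b j + m ≤ s) (h2 : s ≤ b (j + 1) + m) :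
    ∃ τ ∈ Icc (0 : ℝ) 1, s = b j + τ * (b (j + 1) - b j) + m ∧ P s = edge v j τ := by
  have hΔ : 0 < b (j + 1) - b j := sub_pos.2 (h.brk.lt j hj)
  have hτ : (s - m - b j) / (b (j + 1) - b j) ∈ Icc (0 : ℝ) 1 :=
    ⟨div_nonneg (by linarith) hΔ.le, by rw [div_le_one hΔ]; linarith⟩
  have e : s = b j + (s - m - b j) / (b (j + 1) - b j) * (b (j + 1) - b j) + m := by
    rw [div_mul_cancel₀ _ hΔ.ne']; ring
  refine ⟨_, hτ, e, ?_⟩
  rw [← h.eq j hj _ hτ, ← per_int h.per m (_ + _ * _), ← e]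

theorem IsParam.slope (h : IsParam n v b P) {j : ℕ} (hj : j < n) {m : ℤ} {s s' : ℝ}
    (h1 : b j + m ≤ s) (h2 : s ≤ b (j + 1) + m) (h1' : b j + m ≤ s') (h2' : s' ≤ b (j + 1) + m) :
    P s' = P s + (s' - s : ℝ) * slp v b j := by
  have hΔ : (b (j + 1) - b j) ≠ 0 := (sub_pos.2 (h.brk.lt j hj)).ne'
  obtain ⟨τ, -, e, e1⟩ := h.piece hj h1 h2
  obtain ⟨τ', -, e', e1'⟩ := h.piece hj h1' h2'
  have e2 : (s' - s) * (b (j + 1) - b j)⁻¹ = τ' - τ := by
    rw [e, e']; field_simp; ring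
  rw [e1, e1', slp, ← mul_assoc, ← Complex.ofReal_mul, e2]
  simp only [edge]; push_cast; ring

theorem IsParam.vn (h : IsParam n v b P) : v n = v 0 := by
  obtain ⟨m, rfl⟩ : ∃ m, n = m + 1 := by
    rcases n with _ | m
    · have := h.brk.bn; rw [h.brk.b0] at this; norm_num at this
    · exact ⟨m, rfl⟩
  have h1 := h.eq 0 (by omega) 0 ⟨le_rfl, zero_le_one⟩
  have h2 := h.eq m (by omega) 1 ⟨zero_le_one, le_rfl⟩
  have h3 := h.per 0
  simp only [edge, h.brk.b0, h.brk.bn, zero_mul, add_zero, one_mul, add_sub_cancel, zero_add,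
    Complex.ofReal_zero, Complex.ofReal_one] at h1 h2 h3
  rw [← h1, ← h2, h3]

theorem Brk.mem' (h : Brk n b) {j : ℕ} (hj : j < n) {τ : ℝ} (hτ : τ ∈ Ico (0 : ℝ) 1) :
    b j ≤ b j + τ * (b (j + 1) - b j) ∧ b j + τ * (b (j + 1) - b j) < b (j + 1) := by
  have := h.lt j hj
  constructor <;> nlinarith [hτ.1, hτ.2]

theorem IsParam.simple (h : IsParam n v b P) (hi : Inj1 P) : Simple n v := by
  refine ⟨h.vn, fun i hi' j hj τ hτ τ' hτ' e => ?_⟩
  rw [← h.eq i hi' τ ⟨hτ.1, hτ.2.le⟩, ← h.eq j hj τ' ⟨hτ'.1, hτ'.2.le⟩] at e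
  have m1 := h.brk.mem' hi' hτ
  have m2 := h.brk.mem' hj hτ'
  have hI : ∀ k < n, ∀ x, b k ≤ x ∧ x < b (k + 1) → x ∈ Ico (0 : ℝ) 1 := fun k hk x hx =>
    ⟨(h.brk.b0.ge.trans (h.brk.le (Nat.zero_le k) hk.le)).trans hx.1,
      hx.2.trans_le ((h.brk.le (show k + 1 ≤ n from hk) le_rfl).trans h.brk.bn.le)⟩
  have e1 := injOn_of_ne hi (hI i hi' _ m1) (hI j hj _ m2) e
  have hij : i = j := by
    rcases lt_trichotomy i j with h1 | h1 | h1
    · linarith [h.brk.le (show i + 1 ≤ j from h1) hj.le, m1.2, m2.1]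
    · exact h1
    · linarith [h.brk.le (show j + 1 ≤ i from h1) hi'.le, m1.1, m2.2]
  subst hij
  exact ⟨rfl, mul_right_cancel₀ (sub_pos.2 (h.brk.lt i hi')).ne' (add_left_cancel e1)⟩

theorem IsParam.inj (h : IsParam n v b P) (hs : Simple n v) : Inj1 P := by
  intro s t h1 h2 e
  obtain ⟨i, hi, m, a1, a2⟩ := h.brk.coverR s
  obtain ⟨j, hj, m', b1, b2⟩ := h.brk.coverR t
  obtain ⟨τ, hτ, e1, e2⟩ := h.piece hi a1 a2.le
  obtain ⟨τ', hτ', e1', e2'⟩ := h.piece hj b1 b2.le
  obtain ⟨rfl, rfl⟩ := hs.2 i hi j hj τ ⟨hτ.1, lt_of_le_of_ne hτ.2 (by rintro rfl; linarith)⟩ τ'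
    ⟨hτ'.1, lt_of_le_of_ne hτ'.2 (by rintro rfl; linarith)⟩ (by rw [← e2, ← e2', e])
  exact no_int (Or.inl rfl) (m' - m) (by push_cast; linarith) (by push_cast; linarith)

theorem IsParam.aff (h : IsParam n v b P) (s0 : ℝ) : ∃ d > 0, ∃ i < n, ∃ j < n,
    (∃ τ, P s0 = edge v i τ) ∧ (∃ τ, P s0 = edge v j τ) ∧
    (∀ s, s0 - d < s → s ≤ s0 → P s = P s0 + (s - s0 : ℝ) * slp v b i) ∧
    ∀ s, s0 ≤ s → s < s0 + d → P s = P s0 + (s - s0 : ℝ) * slp v b j := by
  obtain ⟨i, hi, m, a1, a2⟩ := h.brk.coverL s0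
  obtain ⟨j, hj, m', b1, b2⟩ := h.brk.coverR s0
  obtain ⟨τ, -, -, e⟩ := h.piece hi a1.le a2
  obtain ⟨τ', -, -, e'⟩ := h.piece hj b1 b2.le
  have h1 := min_le_left (s0 - (b i + m)) (b (j + 1) + m' - s0)
  have h2 := min_le_right (s0 - (b i + m)) (b (j + 1) + m' - s0)
  exact ⟨min (s0 - (b i + m)) (b (j + 1) + m' - s0), lt_min (by linarith) (by linarith), i, hi, j,
    hj, ⟨τ, e⟩, ⟨τ', e'⟩, fun s h3 h4 => h.slope hi a1.le a2 (by linarith) (by linarith),
    fun s h3 h4 => h.slope hj b1 b2.le (by linarith) (by linarith)⟩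

theorem mono_of_aff {F : ℝ → ℂ} {A B e : ℂ} {k s0 d : ℝ}
    (hA : ∀ s, s0 - d < s → s ≤ s0 → F s = F s0 + (s - s0 : ℝ) * A)
    (hB : ∀ s, s0 ≤ s → s < s0 + d → F s = F s0 + (s - s0 : ℝ) * B)
    (h1 : k ≤ (conj e * A).re) (h2 : k ≤ (conj e * B).re) : Mono F e k (ball s0 d) := by
  intro s hs s' hs' hle
  rw [mem_ball, Real.dist_eq, abs_lt] at hs hs'
  have key : ∀ (x y : ℝ) (C D : ℂ), (conj e * (F s0 + x * C - (F s0 + y * D))).re =
      x * (conj e * C).re - y * (conj e * D).re := fun x y C D => by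
    rw [← Complex.re_ofReal_mul, ← Complex.re_ofReal_mul, ← Complex.sub_re]
    congr 1; ring
  rcases le_total s' s0 with h3 | h3
  · rw [hA s (by linarith) (by linarith), hA s' (by linarith) h3, key]; nlinarith
  rcases le_total s s0 with h4 | h4
  · rw [hA s (by linarith) h4, hB s' h3 (by linarith), key]; nlinarith
  · rw [hB s h4 (by linarith), hB s' h3 (by linarith), key]; nlinarith

theorem exists_dir {A B : ℂ} (h : ∀ x y : ℝ, 0 ≤ x → 0 ≤ y → 0 < x + y → x * A + y * B ≠ 0) :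
    ∃ e : ℂ, 0 < (conj e * A).re ∧ 0 < (conj e * B).re := by
  have hA : 0 < ‖A‖ := norm_pos_iff.2 (by simpa using h 1 0 zero_le_one le_rfl (by norm_num))
  have hB : 0 < ‖B‖ := norm_pos_iff.2 (by simpa using h 0 1 le_rfl zero_le_one (by norm_num))
  have h1 := Complex.normSq_pos.2 (h ‖B‖ ‖A‖ hB.le hA.le (by linarith))
  have a2 : A.re * A.re + A.im * A.im = ‖A‖ ^ 2 := by rw [← Complex.normSq_eq_norm_sq]; rfl
  have b2 : B.re * B.re + B.im * B.im = ‖B‖ ^ 2 := by rw [← Complex.normSq_eq_norm_sq]; rfl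
  refine ⟨‖B‖ * A + ‖A‖ * B, ?_⟩
  simp only [Complex.normSq_apply, Complex.add_re, Complex.add_im, Complex.mul_re, Complex.mul_im,
    Complex.conj_re, Complex.conj_im, Complex.ofReal_re, Complex.ofReal_im] at h1 ⊢
  generalize ‖A‖ = x at *
  generalize ‖B‖ = y at *
  have h2 : 0 < x * y * (x * y + (A.re * B.re + A.im * B.im)) := by
    linear_combination (1 / 2) * h1 + (1 / 2) * y ^ 2 * a2 + (1 / 2) * x ^ 2 * b2
  have h3 := (mul_pos_iff_of_pos_left (mul_pos hA hB)).1 h2
  constructor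
  · linear_combination mul_pos hA h3 - y * a2
  · linear_combination mul_pos hB h3 - x * b2

theorem IsParam.comb (h : IsParam n v b P) (h' : IsParam n v' b P') (t : ℝ) :
    IsParam n (fun j => (1 - t) * v j + t * v' j) b (comb P P' t) :=
  ⟨h.brk, (comb_cont h.cont h'.cont).comp (f := fun s : ℝ => (t, s)) (by fun_prop),
    comb_per h.per h'.per t, fun j hj τ hτ => by
      simp only [TS.comb, h.eq j hj τ hτ, h'.eq j hj τ hτ, edge]; ring⟩

theorem IsParam.lin (h : IsParam n v b P) (h' : IsParam n v' b P')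
    (hi : ∀ t ∈ Icc (0 : ℝ) 1, Inj1 (TS.comb P P' t)) : Lin P P' := by
  refine ⟨h.cont, h'.cont, h.per, h'.per, hi, fun t0 ht0 s0 => ?_⟩
  obtain ⟨d1, hd1, i, -, j, -, -, -, hA, hB⟩ := h.aff s0
  obtain ⟨d2, hd2, i', -, j', -, -, -, hA', hB'⟩ := h'.aff s0
  generalize slp v b i = A at hA
  generalize slp v b j = B at hB
  generalize slp v' b i' = A' at hA'
  generalize slp v' b j' = B' at hB'
  have m1 := min_le_left d1 d2
  have m2 := min_le_right d1 d2
  have m3 := lt_min hd1 hd2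
  generalize min d1 d2 = d at m1 m2 m3
  have HA : ∀ t s : ℝ, s0 - d < s → s ≤ s0 →
      TS.comb P P' t s = TS.comb P P' t s0 + (s - s0 : ℝ) * ((1 - t) * A + t * A') :=
    fun t s h1 h2 => by
      simp only [TS.comb, hA s (by linarith) h2, hA' s (by linarith) h2]; ring
  have HB : ∀ t s : ℝ, s0 ≤ s → s < s0 + d →
      TS.comb P P' t s = TS.comb P P' t s0 + (s - s0 : ℝ) * ((1 - t) * B + t * B') :=
    fun t s h1 h2 => by
      simp only [TS.comb, hB s h1 (by linarith), hB' s h1 (by linarith)]; ring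
  obtain ⟨e, he1, he2⟩ := exists_dir (A := (1 - t0) * A + t0 * A') (B := (1 - t0) * B + t0 * B')
    fun x y hx hy hxy h0 => by
      have hc : 0 < min d 1 / (2 * (x + y)) := div_pos (lt_min m3 one_pos) (by linarith)
      have hc2 : min d 1 / (2 * (x + y)) * (x + y) = min d 1 / 2 := by field_simp
      have n1 := min_le_left d 1
      have n2 := min_le_right d 1
      generalize min d 1 / (2 * (x + y)) = c at hc hc2
      have p1 := mul_nonneg hc.le hx
      have p2 := mul_nonneg hc.le hy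
      have p3 := mul_pos hc hxy
      refine hi t0 ht0 (s0 - c * x) (s0 + c * y) (by linarith) (by linarith) ?_
      rw [HA t0 (s0 - c * x) (by linarith) (by linarith),
        HB t0 (s0 + c * y) (by linarith) (by linarith)]
      push_cast
      linear_combination (-c : ℂ) * h0
  have c1 : Continuous fun t : ℝ => (conj e * ((1 - t) * A + t * A')).re := by fun_prop
  have c2 : Continuous fun t : ℝ => (conj e * ((1 - t) * B + t * B')).re := by fun_prop
  have hk := lt_min he1 he2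
  obtain ⟨r, hr, H⟩ := Metric.eventually_nhds_iff_ball.1
    ((c1.continuousAt.eventually (lt_mem_nhds ((half_lt_self hk).trans_le (min_le_left _ _)))).and
    (c2.continuousAt.eventually (lt_mem_nhds ((half_lt_self hk).trans_le (min_le_right _ _)))))
  refine ⟨min d r, lt_min m3 hr, _, half_pos hk, e, fun t _ ht => ?_⟩
  have := H t (ht.trans_le (min_le_right _ _))
  exact (mono_of_aff (HA t) (HB t) this.1.le this.2.le).mono (ball_subset_ball (min_le_left _ _))

/-! ### Removing ears -/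

/-- Deletion of a break point. -/
def delR (b : ℕ → ℝ) (i : ℕ) : ℕ → ℝ := fun j => if j < i then b j else b (j + 1)

theorem Brk.del {m : ℕ} (h : Brk (n + 1) b) (hm : m + 1 < n) : Brk n (delR b (m + 1)) := by
  refine ⟨by simp [delR, h.b0], by simp [delR, h.bn, show ¬ n < m + 1 by omega], fun j hj => ?_⟩
  simp only [delR]
  split_ifs with h1 h2 h2
  · exact h.lt j (by omega)
  · exact (h.lt j (by omega)).trans (h.lt (j + 1) (by omega))
  · omega
  · exact h.lt (j + 1) (by omega)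

theorem IsParam.undel {m : ℕ} (hb : Brk (n + 1) b) (hm : m + 1 < n)
    (h : IsParam n (del v (m + 1)) (delR b (m + 1)) P) : ∃ l ∈ Ioo (0 : ℝ) 1,
    IsParam (n + 1) (update v (m + 1) ((1 - l) * v m + l * v (m + 1 + 1))) b P := by
  have h1 := hb.lt m (by omega)
  have h2 := hb.lt (m + 1) (by omega)
  have hΔ : 0 < b (m + 1 + 1) - b m := by linarith
  obtain ⟨l, hl, hl2⟩ : ∃ l ∈ Ioo (0 : ℝ) 1, l * (b (m + 1 + 1) - b m) = b (m + 1) - b m :=
    ⟨(b (m + 1) - b m) / (b (m + 1 + 1) - b m),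
      ⟨div_pos (by linarith) hΔ, by rw [div_lt_one hΔ]; linarith⟩, div_mul_cancel₀ _ hΔ.ne'⟩
  refine ⟨l, hl, hb, h.cont, h.per, fun j hj τ hτ => ?_⟩
  have key : ∀ σ ∈ Icc (0 : ℝ) 1, P (b m + σ * (b (m + 1 + 1) - b m)) =
      v m + σ * (v (m + 1 + 1) - v m) := fun σ hσ => by
    simpa [delR, del, edge] using h.eq m (by omega) σ hσ
  rcases lt_trichotomy j m with h3 | rfl | h3
  · have := h.eq j (by omega) τ hτ
    simp only [delR, del, edge, show j < m + 1 by omega, show j + 1 < m + 1 by omega,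
      if_true] at this
    rw [this, edge, update_of_ne (by omega), update_of_ne (by omega)]
  · have := key (τ * l) ⟨mul_nonneg hτ.1 hl.1.le, by nlinarith [hτ.1, hτ.2, hl.1, hl.2]⟩
    rw [mul_assoc, hl2] at this
    rw [this, edge, update_of_ne (by omega), update_self]
    push_cast; ring
  rcases eq_or_lt_of_le (show m + 1 ≤ j from h3) with rfl | h4
  · have := key (l + τ * (1 - l)) ⟨by nlinarith [hτ.1, hl.1, hl.2],
      by nlinarith [hτ.1, hτ.2, hl.1, hl.2]⟩
    rw [show b m + (l + τ * (1 - l)) * (b (m + 1 + 1) - b m) =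
      b (m + 1) + τ * (b (m + 1 + 1) - b (m + 1)) by linear_combination (1 - τ) * hl2] at this
    rw [this, edge, update_self, update_of_ne (by omega)]
    push_cast; ring
  · obtain ⟨i, rfl⟩ : ∃ i, j = i + 1 := ⟨j - 1, by omega⟩
    have := h.eq i (by omega) τ hτ
    simp only [delR, del, edge, show ¬ i < m + 1 by omega, show ¬ i + 1 < m + 1 by omega,
      if_false] at this
    rw [this, edge, update_of_ne (by omega), update_of_ne (by omega)]

theorem to_triangle (hE : EarStmt) {n : ℕ} (hn : 3 ≤ n) : ∀ (v : ℕ → ℂ) (b : ℕ → ℝ) (P : ℝ → ℂ),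
    Simple n v → IsParam n v b P → ∃ (v' : ℕ → ℂ) (b' : ℕ → ℝ) (T : ℝ → ℂ), Simple 3 v' ∧
      IsParam 3 v' b' T ∧ ∀ᶠ φ in sm, Iso univ (moll φ P) (moll φ T) := by
  induction n, hn using Nat.le_induction with
  | base =>
    intro v b P hs h
    exact ⟨v, b, P, hs, h, (h.lin h fun t _ => by rw [comb_self]; exact h.inj hs).iso_moll⟩
  | succ n hn ih =>
    intro v b P hs h
    obtain ⟨i, hi0, hi, hs', hup⟩ := hE (n + 1) v (by omega) hs
    obtain ⟨m, rfl⟩ : ∃ m, i = m + 1 := ⟨i - 1, by omega⟩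
    simp only [Nat.add_sub_cancel] at hs' hup
    obtain ⟨P', h'⟩ := exists_param (h.brk.del (m := m) (by omega)) hs'.1
    obtain ⟨v', b', T, h1, h2, h3⟩ := ih _ _ P' hs' h'
    obtain ⟨l, hl, h''⟩ := h'.undel h.brk (by omega)
    have hL : Lin P P' := h.lin h'' fun t ht => (h.comb h'' t).inj (by
      convert hup t ht l hl using 1
      funext j
      by_cases hj : j = m + 1
      · subst hj; simp only [update_self]
      · simp only [update_of_ne hj]; ring)
    refine ⟨v', b', T, h1, h2, ?_⟩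
    filter_upwards [hL.iso_moll, h3] with φ k1 k2 using k1.trans k2

theorem re_rot (σ : ℝ) (y D : ℂ) :
    (conj ((σ : ℂ) * Complex.I * y) * D).re = σ * (conj y * D).im := by
  simp; ring

theorem tri_star (hT : TriStmt) (hs : Simple 3 v) (h : IsParam 3 v b P) :
    ∃ (o : ℂ) (σ : ℝ), (σ = 1 ∨ σ = -1) ∧
      ∀ᶠ φ in sm, ∀ s, 0 < σ * (conj (moll φ P s - o) * deriv (moll φ P) s).im := by
  obtain ⟨σ, hσ, hA⟩ : ∃ σ : ℝ, (σ = 1 ∨ σ = -1) ∧
      0 < σ * (conj (v 1 - v 0) * (v 2 - v 0)).im := by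
    rcases lt_or_gt_of_ne (hT v hs) with h1 | h1
    · exact ⟨-1, Or.inr rfl, by linarith⟩
    · exact ⟨1, Or.inl rfl, by linarith⟩
  set o : ℂ := ((1 / 3 : ℝ) : ℂ) * (v 0 + v 1 + v 2) with ho
  refine ⟨o, σ, hσ, ?_⟩
  have key : ∀ j < 3, ∀ τ : ℝ, 0 < σ * (conj (edge v j τ - o) * slp v b j).im := by
    intro j hj τ
    have h1 : (conj (edge v j τ - o) * (v (j + 1) - v j)).im =
        1 / 3 * (conj (v 1 - v 0) * (v 2 - v 0)).im := by
      have h3 := hs.1
      interval_cases j <;>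
        simp only [ho, edge, h3, zero_add, Nat.reduceAdd, Complex.mul_im, Complex.mul_re,
          Complex.sub_im, Complex.sub_re, Complex.add_im, Complex.add_re, Complex.conj_re,
          Complex.conj_im, Complex.ofReal_re, Complex.ofReal_im] <;> ring
    rw [slp, mul_left_comm (conj _), Complex.im_ofReal_mul, h1]
    have := mul_pos (inv_pos.2 (sub_pos.2 (h.brk.lt j hj))) hA
    linarith
  obtain ⟨δ, hδ, H⟩ := leb (K := (fun s => (s, P s)) '' Icc (0 : ℝ) 1)
    (isCompact_Icc.image (continuous_id.prodMk h.cont))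
    (fun U => ∃ k > 0, ∀ x : ℂ, Mono P (σ * Complex.I * (x - o)) k {s | (s, x) ∈ U})
    (fun U V hUV ⟨k, hk, he⟩ => ⟨k, hk, fun x => (he x).mono fun s hs => hUV hs⟩)
    (by
      rintro _ ⟨s0, -, rfl⟩
      obtain ⟨d, hd, i, hi, j, hj, ⟨τ, e⟩, ⟨τ', e'⟩, hA, hB⟩ := h.aff s0
      have k1 := key i hi τ
      have k2 := key j hj τ'
      rw [← e] at k1
      rw [← e'] at k2
      have c1 : Continuous fun x : ℂ => σ * (conj (x - o) * slp v b i).im := by fun_prop
      have c2 : Continuous fun x : ℂ => σ * (conj (x - o) * slp v b j).im := by fun_prop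
      have hk := lt_min k1 k2
      obtain ⟨r, hr, H⟩ := Metric.eventually_nhds_iff_ball.1
        ((c1.continuousAt.eventually
          (lt_mem_nhds ((half_lt_self hk).trans_le (min_le_left _ _)))).and
        (c2.continuousAt.eventually
          (lt_mem_nhds ((half_lt_self hk).trans_le (min_le_right _ _)))))
      refine ⟨min d r, lt_min hd hr, _, half_pos hk, fun x s hs s' hs' hle => ?_⟩
      simp only [mem_ofPred_eq, mem_ball, Prod.dist_eq, max_lt_iff, lt_min_iff] at hs hs'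
      have := H x hs.2.2
      exact mono_of_aff hA hB (by rw [re_rot]; exact this.1.le) (by rw [re_rot]; exact this.2.le)
        s hs.1.1 s' hs'.1.1 hle)
  filter_upwards [ev_sm (half_pos hδ), moll_close h.cont h.per (half_pos hδ)] with φ h1 h2 s
  obtain ⟨k, hk, H'⟩ := H _ ⟨Int.fract s, ⟨Int.fract_nonneg s, (Int.fract_lt_one s).le⟩, rfl⟩
  have h3 : Mono P (σ * Complex.I * (moll φ P s - o)) k (ball s δ) := by
    refine Mono.shift h.per ((H' _).mono fun x hx => ?_)
    simp only [mem_ofPred_eq, mem_ball, Prod.dist_eq, max_lt_iff]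
    refine ⟨hx, ?_⟩
    rw [per_fract h.per, dist_eq_norm]
    linarith [h2 s]
  have h4 := (h3.moll h.cont h1).le_deriv (half_pos hδ)
    (((moll_smooth h.cont).differentiable (by simp)) s).hasDerivAt
  rw [re_rot] at h4
  linarith

/-! ### Inscribed polygons -/

theorem IsParam.close {a : ℝ → ℂ} {η ρ : ℝ} (h : IsParam n (fun j => a (b j)) b P)
    (hp : Periodic a 1) (hη : ∀ j < n, b (j + 1) - b j < η)
    (hu : ∀ s s' : ℝ, |s' - s| < η → ‖a s' - a s‖ ≤ ρ) (s : ℝ) : ‖P s - a s‖ ≤ ρ := by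
  obtain ⟨j, hj, m, h1, h2⟩ := h.brk.coverR s
  obtain ⟨τ, hτ, -, e⟩ := h.piece hj h1 h2.le
  have h3 := hη j hj
  have := comb_close (a := a) (b := a) (A := fun _ => a (b j + m)) (B := fun _ => a (b (j + 1) + m))
    (s := s) hτ (hu _ _ (abs_lt.2 ⟨by linarith, by linarith⟩))
    (hu _ _ (abs_lt.2 ⟨by linarith, by linarith⟩))
  rw [comb_self] at this
  convert this using 3
  simp only [e, edge, TS.comb, per_int hp]; ring

theorem IsParam.mono {a : ℝ → ℂ} {e : ℂ} {k s0 d : ℝ} (h : IsParam n (fun j => a (b j)) b P)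
    (hp : Periodic a 1) (hη : ∀ j < n, b (j + 1) - b j < d / 2) (hm : Mono a e k (ball s0 d)) :
    Mono P e k (ball s0 (d / 2)) := by
  refine mono_of_right h.cont fun x hx => ?_
  obtain ⟨j, hj, m, h1, h2⟩ := h.brk.coverR x
  refine ⟨slp (fun j => a (b j)) b j, ?_, ?_⟩
  · have h3 : HasDerivAt (fun s : ℝ => P x + (s - x : ℝ) * slp (fun j => a (b j)) b j)
        (slp (fun j => a (b j)) b j) x := by
      simpa using ((((hasDerivAt_id x).sub_const x).ofReal_comp).mul_const _).const_add (P x)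
    refine h3.hasDerivWithinAt.congr_of_eventuallyEq ?_ (by simp)
    filter_upwards [Ico_mem_nhdsGE h2] with s hs
    exact h.slope hj h1 h2.le (h1.trans hs.1) hs.2.le
  · have h3 := hη j hj
    have h4 := h.brk.lt j hj
    rw [mem_ball, Real.dist_eq, abs_lt] at hx
    have := hm (b j + m) (by rw [mem_ball, Real.dist_eq, abs_lt]; constructor <;> linarith)
      (b (j + 1) + m) (by rw [mem_ball, Real.dist_eq, abs_lt]; constructor <;> linarith)
      (by linarith)
    rw [per_int hp, per_int hp, add_sub_add_right_eq_sub] at this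
    rw [slp, mul_left_comm (conj _), Complex.re_ofReal_mul, le_inv_mul_iff₀ (by linarith)]
    linarith

theorem brk_unif (hn : 0 < n) : Brk n fun j => (j : ℝ) / n := by
  have : (0 : ℝ) < n := by exact_mod_cast hn
  exact ⟨by simp, div_self this.ne', fun j _ => by
    push_cast; exact div_lt_div_of_pos_right (by linarith) this⟩

theorem ev_mesh {η : ℝ} (hη : 0 < η) :
    ∀ᶠ n : ℕ in atTop, ∀ j : ℕ, ((j + 1 : ℕ) : ℝ) / n - (j : ℝ) / n < η := by
  filter_upwards [(tendsto_one_div_atTop_nhds_zero_nat (𝕜 := ℝ)).eventually (gt_mem_nhds hη)] with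
    n hn j
  rwa [show ((j + 1 : ℕ) : ℝ) / n - (j : ℝ) / n = 1 / n by push_cast; ring]

theorem inscribed {a : ℝ → ℂ} (h : Emb a) {ρ : ℝ} (hρ : 0 < ρ) : ∀ᶠ n : ℕ in atTop, ∃ P,
    IsParam n (fun j => a ((j : ℝ) / n)) (fun j => (j : ℝ) / n) P ∧ Lin a P ∧
      ∀ s, ‖P s - a s‖ ≤ ρ := by
  have hc := h.smooth.continuous
  obtain ⟨d, hd, H⟩ := (lin_self h).unif
  obtain ⟨ρ', hρ', H'⟩ := (lin_self h).core (half_pos hd)
  obtain ⟨δ, hδ, hu⟩ := unif_per hc h.per (lt_min hρ hρ')
  filter_upwards [ev_mesh hδ, ev_mesh (half_pos hd), eventually_gt_atTop 0] with n h1 h2 hn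
  have hb := brk_unif hn
  obtain ⟨P, hP⟩ := exists_param (v := fun j => a ((j : ℝ) / n)) hb (by
    have := h.per 0
    rw [zero_add] at this
    simp only [hb.bn, hb.b0, this])
  have hcl := hP.close h.per (fun j _ => h1 j) hu
  have hm : ∀ s0, ∃ k > 0, ∃ e : ℂ, ∀ t ∈ Icc (0 : ℝ) 1,
      Mono (comb a P t) e k (ball s0 (d / 2)) := fun s0 => by
    obtain ⟨k, hk, e, he⟩ := H 0 ⟨le_rfl, zero_le_one⟩ s0
    rw [comb_self] at he
    exact ⟨k, hk, e, fun t ht => (he.mono (ball_subset_ball (by linarith))).comb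
      (hP.mono h.per (fun j _ => h2 j) he) ht⟩
  refine ⟨P, hP, ⟨hc, hP.cont, h.per, hP.per, fun t ht => H' t ht _ (comb_per h.per hP.per t)
    (fun s => comb_close ht (by simp [hρ'.le]) ((hcl s).trans (min_le_right _ _))) fun s0 => ?_,
    fun t0 _ s0 => ?_⟩, fun s => (hcl s).trans (min_le_left _ _)⟩
  · obtain ⟨k, hk, e, he⟩ := hm s0
    exact ⟨k, hk, e, he t ht⟩
  · obtain ⟨k, hk, e, he⟩ := hm s0
    exact ⟨_, half_pos hd, k, hk, e, fun t ht _ => he t ht⟩

theorem Lin.inj_right {a b : ℝ → ℂ} (h : Lin a b) : Inj1 b := by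
  simpa only [comb_one] using h.inj 1 ⟨zero_le_one, le_rfl⟩

theorem Iso.emb {U : Set ℂ} {a b : ℝ → ℂ} (h : Iso U a b) : Emb b := by
  obtain ⟨ζ, -, h2, -, h4⟩ := h
  exact (h2 1 ⟨zero_le_one, le_rfl⟩).1.congr fun s => (h4 s).symm

theorem pos_lower {w : ℝ → ℂ} (hc : Continuous w) (hp : Periodic w 1) (h0 : ∀ s, w s ≠ 0) :
    ∃ ρ > 0, ∀ s, ρ ≤ ‖w s‖ := by
  obtain ⟨ρ, hρ, H⟩ := (isCompact_Icc (a := (0 : ℝ)) (b := 1)).exists_forall_le' (a := 0)
    hc.norm.continuousOn fun x _ => norm_pos_iff.2 (h0 x)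
  exact ⟨ρ, hρ, fun s => by
    simpa only [per_fract hp] using H _ ⟨Int.fract_nonneg s, (Int.fract_lt_one s).le⟩⟩

theorem area_piece {w : ℝ → ℂ} (hw : ContDiff ℝ ∞ w) {x y c : ℝ} (hxy : x ≤ y)
    (hc : ∀ s ∈ Icc x y, ‖w s - w x‖ * ‖deriv w s‖ ≤ c) :
    (conj (w x) * w y).im ≤ (∫ s in x..y, (conj (w s) * deriv w s).im) + c * (y - x) := by
  have hD : Continuous (deriv w) := hw.continuous_deriv (by simp)
  have hwc := hw.continuous
  have h1 : ∫ s in x..y, (conj (w x) * deriv w s).im = (conj (w x) * w y).im := by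
    rw [intervalIntegral.integral_eq_sub_of_hasDerivAt (f := fun s => (conj (w x) * w s).im)
      (f' := fun s => (conj (w x) * deriv w s).im) (fun s _ => Complex.imCLM.hasFDerivAt.comp_hasDerivAt s
        (((hw.differentiable (by simp)) s).hasDerivAt.const_mul (conj (w x))))
      (Continuous.intervalIntegrable (by fun_prop) _ _)]
    simp; ring
  have h2 : ∫ s in x..y, ((conj (w s) * deriv w s).im + c) =
      (∫ s in x..y, (conj (w s) * deriv w s).im) + c * (y - x) := by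
    rw [intervalIntegral.integral_add (Continuous.intervalIntegrable (by fun_prop) _ _)
      (by simp), intervalIntegral.integral_const, smul_eq_mul, mul_comm]
  rw [← h1, ← h2]
  refine intervalIntegral.integral_mono_on hxy (Continuous.intervalIntegrable (by fun_prop) _ _)
    (Continuous.intervalIntegrable (by fun_prop) _ _) fun s hs => ?_
  have h3 := (abs_le.1 (Complex.abs_im_le_norm (conj (w s - w x) * deriv w s))).1
  rw [norm_mul, Complex.norm_conj, map_sub, sub_mul, Complex.sub_im] at h3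
  linarith [hc s hs]

end TS

open TS

theorem planarStmt (hE : EarStmt) (hT : TriStmt) : PlanarStmt := by
  intro Γ hΓ
  obtain ⟨n, ⟨P, hP, hL, -⟩, hn⟩ := ((inscribed hΓ one_pos).and (eventually_ge_atTop 3)).exists
  obtain ⟨v', b', T, h1, h2, h3⟩ := to_triangle hE hn _ _ P (hP.simple hL.inj_right) hP
  obtain ⟨o, σ, hσ, h4⟩ := tri_star hT h1 h2
  have := sm_neBot
  obtain ⟨φ, ⟨k1, k2⟩, k3, k4⟩ := (((iso_moll_self hΓ).and hL.iso_moll).and (h3.and h4)).exists
  exact ⟨1, o, σ, one_ne_zero, hσ,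
    (star_iso (TS.Iso.emb k3) o hσ k4).trans ((k1.trans k2).trans k3).symm⟩

theorem signStmt (hA : AreaStmt) : SignStmt := by
  intro w hw h0 hpos
  have hc := hw.smooth.continuous
  have hD : Continuous (deriv w) := hw.smooth.continuous_deriv (by simp)
  obtain ⟨L, hL, -, he, hI⟩ := exists_log hw.smooth h0
  obtain ⟨ρ, hρ, hρ'⟩ := pos_lower hc hw.per h0
  obtain ⟨C, hC⟩ := isCompact_Icc.exists_bound_of_continuousOn (s := Icc (0 : ℝ) 1) hD.continuousOn
  have hC0 : 0 ≤ C := (norm_nonneg _).trans (hC 0 ⟨le_rfl, zero_le_one⟩)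
  obtain ⟨η, hη, hu⟩ := Metric.uniformContinuousOn_iff.1
    ((isCompact_Icc (a := (0 : ℝ)) (b := 1)).uniformContinuousOn_of_continuous
      hL.continuous.continuousOn) π pi_pos
  have hq : Continuous fun s => deriv w s / w s := hD.div hc h0
  have hI' : (L 1).im - (L 0).im = ∫ s in (0 : ℝ)..1, (deriv w s / w s).im := by
    rw [← Complex.sub_im, hI]
    exact (Complex.imCLM.intervalIntegral_comp_comm (hq.intervalIntegrable _ _)).symm
  refine le_of_forall_pos_le_add fun ε hε => ?_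
  obtain ⟨δ, hδ, hv⟩ := unif_per hc hw.per (div_pos hε (by linarith : 0 < C + 1))
  obtain ⟨n, ⟨⟨P, hP, hLin, hcl⟩, hn⟩, m1, m2⟩ := (((inscribed hw (half_pos hρ)).and
    (eventually_ge_atTop 3)).and ((ev_mesh hη).and (ev_mesh hδ))).exists
  have hb := hP.brk
  set b : ℕ → ℝ := fun j => (j : ℝ) / n with hbd
  have hI01 : ∀ j ≤ n, b j ∈ Icc (0 : ℝ) 1 := fun j hj =>
    ⟨hb.b0.ge.trans (hb.le (Nat.zero_le j) hj), (hb.le hj le_rfl).trans hb.bn.le⟩
  have hw1 : wnd n (fun j => w (b j)) 0 = (L 1).im - (L 0).im := by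
    rw [← hb.bn, ← hb.b0, ← Finset.sum_range_sub (fun j => (L (b j)).im), wnd]
    refine Finset.sum_congr rfl fun j hj => ?_
    have hj' := Finset.mem_range.1 hj
    have h1 := hu _ (hI01 (j + 1) hj') _ (hI01 j hj'.le) (by
      rw [Real.dist_eq, abs_of_pos (sub_pos.2 (hb.lt j hj'))]; exact m1 j)
    rw [dist_eq_norm] at h1
    have h2 := abs_lt.1 ((Complex.abs_im_le_norm _).trans_lt h1)
    simp only [sub_zero, ← he, ← Complex.exp_sub]
    rw [← Complex.log_im, Complex.log_exp h2.1 h2.2.le, Complex.sub_im]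
  have ha := hA n (fun j => w (b j)) 0 hn (hP.simple hLin.inj_right) (fun j hj τ hτ h => by
    have h1 := hP.eq j hj τ hτ
    have h2 := hcl (b j + τ * (b (j + 1) - b j))
    rw [h1.trans h, zero_sub, norm_neg] at h2
    linarith [hρ' (b j + τ * (b (j + 1) - b j))]) (by rw [hw1, hI']; exact hpos)
  have hs : area n (fun j => w (b j)) ≤ ∑ j ∈ Finset.range n,
      ((∫ s in b j..b (j + 1), (conj (w s) * deriv w s).im) + ε * (b (j + 1) - b j)) := by
    refine Finset.sum_le_sum fun j hj => ?_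
    have hj' := Finset.mem_range.1 hj
    refine area_piece hw.smooth (hb.lt j hj').le fun s hs => ?_
    have h1 := hv (b j) s (by
      rw [abs_of_nonneg (sub_nonneg.2 hs.1)]; exact (sub_le_sub_right hs.2 _).trans_lt (m2 j))
    have h2 := hC s ⟨(hI01 j hj'.le).1.trans hs.1, hs.2.trans (hI01 (j + 1) hj').2⟩
    calc _ ≤ ε / (C + 1) * (C + 1) :=
          mul_le_mul h1 (by linarith) (norm_nonneg _) (by positivity)
      _ = ε := div_mul_cancel₀ _ (by linarith)
  rw [Finset.sum_add_distrib, ← Finset.mul_sum, Finset.sum_range_sub,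
    intervalIntegral.sum_integral_adjacent_intervals
      fun j _ => Continuous.intervalIntegrable (by fun_prop) _ _, hb.bn, hb.b0] at hs
  linarith

end Pool.Agent.Lib.MP_55a7f7_gt
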