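import Pool.Agent.Lib.MP_55a7f7_gt.Basic

/-! Ears of simple polygons; the sign of the area and of the winding numbers. -/

set_option autoImplicit false

open scoped ComplexConjugate Topology
open Set Real

namespace Pool.Agent.Lib.MP_55a7f7_gt

namespace Pg

/-! ### Winding numbers of closed chains of segments -/

noncomputable def ang (z p q : ℂ) : ℝ := Complex.arg ((q - z) / (p - z))

noncomputable def sm (L : Multiset (ℂ × ℂ)) (g : ℂ → ℂ → ℝ) : ℝ := (L.map fun e => g e.1 e.2).sum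

def supp (L : Multiset (ℂ × ℂ)) : Set ℂ := {z | ∃ e ∈ L, z ∈ segment ℝ e.1 e.2}

def Closed (L : Multiset (ℂ × ℂ)) : Prop := ∀ f : ℂ → ℝ, sm L (fun p q => f q - f p) = 0

@[simp] theorem sm_add (L M : Multiset (ℂ × ℂ)) (g : ℂ → ℂ → ℝ) :
    sm (L + M) g = sm L g + sm M g := by simp [sm]

@[simp] theorem sm_single (p q : ℂ) (g : ℂ → ℂ → ℝ) : sm {(p, q)} g = g p q := by simp [sm]

@[simp] theorem supp_add (L M : Multiset (ℂ × ℂ)) : supp (L + M) = supp L ∪ supp M := by
  ext z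
  simp only [supp, Multiset.mem_add, mem_ofPred_eq, mem_union, or_and_right, exists_or]

@[simp] theorem supp_single (p q : ℂ) : supp {(p, q)} = segment ℝ p q := by
  ext z
  simp [supp]

theorem isClosed_supp (L : Multiset (ℂ × ℂ)) : IsClosed (supp L) := by
  induction L using Multiset.induction_on with
  | empty => simp [supp]
  | cons e L ih =>
    rw [← Multiset.singleton_add, supp_add, supp_single, ← closure_openSegment]
    exact isClosed_closure.union ih

theorem slit {z p q : ℂ} (h : z ∉ segment ℝ p q) : (q - z) / (p - z) ∈ Complex.slitPlane := by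
  have hp : p - z ≠ 0 := fun e => h (sub_eq_zero.mp e ▸ left_mem_segment ℝ p q)
  by_contra hs
  rw [Complex.mem_slitPlane_iff, not_or, not_lt, not_not] at hs
  obtain ⟨r, hr⟩ : ∃ r : ℝ, (q - z) / (p - z) = r := ⟨_, Complex.ext rfl (by simpa using hs.2)⟩
  have h1 : r ≤ 0 := by simpa [hr] using hs.1
  have h2 : (1 - r) ≠ 0 := by linarith
  have h3 : (1 - r : ℂ) ≠ 0 := by exact_mod_cast h2
  rw [div_eq_iff hp] at hr
  refine h ⟨-r / (1 - r), 1 / (1 - r), div_nonneg (by linarith) (by linarith),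
    div_nonneg one_pos.le (by linarith), by field_simp; ring, ?_⟩
  simp only [Complex.real_smul]
  push_cast
  field_simp
  linear_combination hr

theorem ang_rev {z p q : ℂ} (h : z ∉ segment ℝ p q) : ang z p q + ang z q p = 0 := by
  rw [ang, ang, ← inv_div (q - z), Complex.arg_inv, if_neg (Complex.slitPlane_arg_ne_pi (slit h)),
    add_neg_cancel]

theorem ang_coe {z p q : ℂ} (h : z ∉ segment ℝ p q) :
    (ang z p q : Real.Angle) = ((q - z).arg - (p - z).arg : ℝ) := by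
  have h1 : q - z ≠ 0 := fun e => h (sub_eq_zero.mp e ▸ right_mem_segment ℝ p q)
  have h2 : p - z ≠ 0 := fun e => h (sub_eq_zero.mp e ▸ left_mem_segment ℝ p q)
  rw [ang, Complex.arg_div_coe_angle h1 h2, Real.Angle.coe_sub]

theorem wn_int {L : Multiset (ℂ × ℂ)} (hL : Closed L) {z : ℂ} (hz : z ∉ supp L) :
    ∃ k : ℤ, sm L (ang z) = 2 * π * k := by
  have : (sm L (ang z) : Real.Angle) = (sm L fun p q => (q - z).arg - (p - z).arg : ℝ) := by
    clear hL
    induction L using Multiset.induction_on with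
    | empty => simp [sm]
    | cons e L ih =>
      rw [← Multiset.singleton_add, supp_add, supp_single, mem_union, not_or] at hz
      rw [← Multiset.singleton_add, sm_add, sm_add, sm_single, sm_single, Real.Angle.coe_add,
        Real.Angle.coe_add, ih hz.2, ang_coe hz.1]
  rw [hL fun p => (p - z).arg, Real.Angle.angle_eq_iff_two_pi_dvd_sub] at this
  simpa using this

theorem wn_cont (L : Multiset (ℂ × ℂ)) : ContinuousOn (fun z => sm L (ang z)) (supp L)ᶜ := by
  induction L using Multiset.induction_on with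
  | empty => simpa [sm] using continuousOn_const
  | cons e L ih =>
    simp only [← Multiset.singleton_add, supp_add, sm_add, compl_union]
    refine ContinuousOn.add (fun z hz => ?_) (ih.mono inter_subset_right)
    obtain ⟨p, q⟩ := e
    simp only [supp_single, sm_single] at hz ⊢
    refine ContinuousAt.continuousWithinAt (ContinuousAt.comp (f := fun z => (q - z) / (p - z))
      (Complex.continuousAt_arg (slit hz.1)) ?_)
    exact ContinuousAt.div (by fun_prop) (by fun_prop)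
      fun e => hz.1 (sub_eq_zero.mp e ▸ left_mem_segment ℝ p q)

theorem wn_const {L : Multiset (ℂ × ℂ)} (hL : Closed L) {s : Set ℂ} (hs : IsPreconnected s)
    (h : ∀ z ∈ s, z ∉ supp L) {x y : ℂ} (hx : x ∈ s) (hy : y ∈ s) :
    sm L (ang x) = sm L (ang y) := by
  wlog hxy : sm L (ang x) < sm L (ang y) generalizing x y
  · exact (not_lt.mp hxy).eq_or_lt.elim Eq.symm fun h => (this hy hx h).symm
  obtain ⟨k, hk⟩ := wn_int hL (h x hx)
  obtain ⟨k', hk'⟩ := wn_int hL (h y hy)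
  have h1 : k + 1 ≤ k' := by
    rw [hk, hk'] at hxy
    exact_mod_cast lt_of_mul_lt_mul_left hxy (by positivity)
  have h2 : (k : ℝ) + 1 ≤ k' := by exact_mod_cast h1
  obtain ⟨z, hz, e⟩ := hs.intermediate_value hx hy ((wn_cont L).mono h)
    (show 2 * π * k + π ∈ Icc (sm L (ang x)) (sm L (ang y)) from
      ⟨by rw [hk]; linarith [pi_pos], by rw [hk']; nlinarith [pi_pos]⟩)
  obtain ⟨m, hm⟩ := wn_int hL (h z hz)
  have h3 : (2 * k + 1 : ℝ) = 2 * m :=
    mul_left_cancel₀ pi_ne_zero (by simp only [hm] at e; linarith)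
  have h4 : 2 * k + 1 = 2 * m := by exact_mod_cast h3
  omega

theorem wn_half {L : Multiset (ℂ × ℂ)} (hL : Closed L) (f : ℂ →ᵃ[ℝ] ℝ) {z : ℂ}
    (h : ∀ e ∈ L, f z < f e.1 ∧ f z < f e.2) : sm L (ang z) = 0 := by
  obtain ⟨c, hc⟩ : ∃ c : ℂ, ∀ p, (c * (p - z)).im = f p - f z := by
    refine ⟨f.linear Complex.I + f.linear 1 * Complex.I, fun p => ?_⟩
    have h1 : f.linear (p - z) = f p - f z := f.linearMap_vsub p z
    have h2 : p - z = (p - z).re • (1 : ℂ) + (p - z).im • Complex.I := by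
      apply Complex.ext <;> simp
    rw [← h1, h2, map_add, map_smul, map_smul, ← h2]
    simp
    ring
  rw [← hL fun p => (c * (p - z)).arg]
  refine congrArg Multiset.sum (Multiset.map_congr rfl fun e he => ?_)
  have a1 : 0 < (c * (e.1 - z)).im := by rw [hc]; linarith [(h e he).1]
  have a2 : 0 < (c * (e.2 - z)).im := by rw [hc]; linarith [(h e he).2]
  have n1 : c * (e.1 - z) ≠ 0 := fun e => by simp [e] at a1
  have n2 : c * (e.2 - z) ≠ 0 := fun e => by simp [e] at a2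
  rw [ang, ← mul_div_mul_left _ _ (left_ne_zero_of_mul n1)]
  refine Eq.trans ?_ (Real.Angle.toReal_coe_eq_self_iff.mpr ?_)
  · rw [← Complex.arg_coe_angle_eq_iff_eq_toReal, Complex.arg_div_coe_angle n2 n1,
      Real.Angle.coe_sub]
  have := Complex.arg_nonneg_iff.mpr a1.le
  have := Complex.arg_nonneg_iff.mpr a2.le
  have := Complex.arg_lt_pi_iff.mpr (Or.inr a1.ne')
  have := Complex.arg_lt_pi_iff.mpr (Or.inr a2.ne')
  constructor <;> linarith

theorem exists_eps {U : Set ℂ} (hU : IsOpen U) {c : ℂ} (hc : c ∈ U) (A B : ℂ) :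
    ∃ ε : ℝ, 0 < ε ∧ ε < 1 ∧ segment ℝ (c + ε • A) (c + ε • B) ⊆ U := by
  obtain ⟨r, hr, h⟩ := Metric.isOpen_iff.mp hU c hc
  have key : ∀ A : ℂ, ∀ᶠ ε : ℝ in 𝓝 0, c + ε • A ∈ Metric.ball c r := fun A =>
    (by fun_prop : Continuous fun ε : ℝ => c + ε • A).continuousAt.eventually_mem
      (by simpa using Metric.ball_mem_nhds c hr)
  obtain ⟨ε, h0, ⟨h1, h2⟩, h3⟩ :=
    (((key A).and (key B)).and (eventually_lt_nhds one_pos)).exists_gt
  exact ⟨ε, h0, h3, ((convex_ball c r).segment_subset h1 h2).trans h⟩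

theorem aff (f : ℂ →ᵃ[ℝ] ℝ) {a b : ℝ} (h : a + b = 1) (p q : ℂ) :
    f (a • p + b • q) = a * f p + b * f q := Convex.combo_affine_apply h

theorem local_zero {L : Multiset (ℂ × ℂ)} (hL : Closed L) {v x w : ℂ} (β f : ℂ →ᵃ[ℝ] ℝ)
    (hv : β v = 0) (hx : β x = 0) (hw : 0 < β w) (hxv : x ≠ v)
    (hf : ∀ e ∈ L, f v ≤ f e.1 ∧ f v ≤ f e.2) (hfw : f v < f w)
    (h : ∀ e ∈ L, v ∈ segment ℝ e.1 e.2 → ∀ z ∈ segment ℝ e.1 e.2, β z ≤ 0 → z = v) :
    ∃ z ∈ segment ℝ v x, z ∉ supp L ∧ sm L (ang z) = 0 := by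
  classical
  obtain ⟨ε, h0, h1, h2⟩ := exists_eps
    (isClosed_supp (L.filter fun e => v ∉ segment ℝ e.1 e.2)).isOpen_compl (c := v)
    (fun ⟨e, he, hv⟩ => (Multiset.mem_filter.mp he).2 hv) (x - v) (v - w)
  have e1 : v + ε • (x - v) = (1 - ε) • v + ε • x := by module
  have e2 : v + ε • (v - w) = (1 + ε) • v + (-ε) • w := by module
  have h3 : ∀ z ∈ segment ℝ (v + ε • (x - v)) (v + ε • (v - w)), z ∉ supp L := by
    rintro z hz ⟨e, he, hze⟩
    by_cases hve : v ∈ segment ℝ e.1 e.2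
    swap
    · exact h2 hz ⟨e, Multiset.mem_filter.mpr ⟨he, hve⟩, hze⟩
    obtain ⟨a, b, ha, hb, hab, rfl⟩ := hz
    have h4 : β (a • (v + ε • (x - v)) + b • (v + ε • (v - w))) = -(b * (ε * β w)) := by
      rw [aff β hab, e1, e2, aff β (by ring), aff β (by ring), hv, hx]
      ring
    have h5 := h e he hve _ hze (by rw [h4, neg_nonpos]; positivity)
    rw [h5, hv, eq_comm, neg_eq_zero, mul_eq_zero, or_iff_left (by positivity)] at h4
    rw [h4, add_zero] at hab
    simp [h4, hab, h0.ne', sub_eq_zero, hxv] at h5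
  refine ⟨v + ε • (x - v), ⟨1 - ε, ε, by linarith, h0.le, by ring, e1.symm⟩,
    h3 _ (left_mem_segment ℝ _ _), (wn_const hL (convex_segment _ _).isPreconnected h3
      (left_mem_segment ℝ _ _) (right_mem_segment ℝ _ _)).trans (wn_half hL f fun e he => ?_)⟩
  rw [e2, aff f (by ring)]
  constructor <;> nlinarith [(hf e he).1, (hf e he).2]

/-! ### Triangles -/

noncomputable def sg (x y w : ℂ) : ℝ := (conj (y - x) * (w - x)).im

theorem sg_cyc (x y w : ℂ) : sg y w x = sg x y w := by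
  simp [sg]
  ring

noncomputable def bary (x y w : ℂ) : ℂ →ᵃ[ℝ] ℝ where
  toFun z := sg z y w / sg x y w
  linear := ((y - w).im / sg x y w) • Complex.reLm - ((y - w).re / sg x y w) • Complex.imLm
  map_vadd' p v := by
    generalize sg x y w = s
    simp [sg]
    ring

theorem bary_apply (x y w z : ℂ) : bary x y w z = sg z y w / sg x y w := rfl

@[simp] theorem bary_snd (x y w : ℂ) : bary x y w y = 0 := by simp [bary_apply, sg]

@[simp] theorem bary_thd (x y w : ℂ) : bary x y w w = 0 := by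
  rw [bary_apply, sg_cyc, ← sg_cyc]
  simp [sg]

/-- The closed triangle. -/
def Tri (x y w : ℂ) : Set ℂ := {z | 0 ≤ bary x y w z ∧ 0 ≤ bary y w x z ∧ 0 ≤ bary w x y z}

/-- The boundary of the triangle. -/
def tri (x y w : ℂ) : Multiset (ℂ × ℂ) := {(x, y)} + {(y, w)} + {(w, x)}

theorem closed_tri (x y w : ℂ) : Closed (tri x y w) := fun f => by
  simp only [tri, sm_add, sm_single]
  ring

theorem ang_sign {s : ℝ} {z p q : ℂ} (h : 0 < s * sg z p q) : 0 < s * ang z p q := by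
  have hp : p - z ≠ 0 := fun e => by simp [sg, e] at h
  have h1 : ((q - z) / (p - z)).im = sg z p q / Complex.normSq (p - z) := by
    simp [Complex.div_im, sg]
    ring
  have h2 := Complex.normSq_pos.mpr hp
  rcases mul_pos_iff.mp h with ⟨a, b⟩ | ⟨a, b⟩
  · have h3 : 0 < ((q - z) / (p - z)).im := h1 ▸ div_pos b h2
    exact mul_pos a ((Complex.arg_nonneg_iff.mpr h3.le).lt_of_ne
      fun e => h3.ne' (Complex.arg_eq_zero_iff.mp e.symm).2)
  · exact mul_pos_of_neg_of_neg a (Complex.arg_neg_iff.mpr (h1 ▸ div_neg_of_neg_of_pos b h2))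

theorem tri_out {x y w z : ℂ} (f : ℂ →ᵃ[ℝ] ℝ) (h0 : f z < 0) (h1 : 0 ≤ f x) (h2 : 0 ≤ f y)
    (h3 : 0 ≤ f w) : sm (tri x y w) (ang z) = 0 := by
  refine wn_half (closed_tri x y w) f fun e he => ?_
  simp only [tri, Multiset.mem_add, Multiset.mem_singleton] at he
  rcases he with (rfl | rfl) | rfl <;> constructor <;> linarith

section
variable {x y w z : ℂ} (h : sg x y w ≠ 0)
include h

theorem bary_fst : bary x y w x = 1 := div_self h

theorem ne_cyc : sg y w x ≠ 0 := sg_cyc x y w ▸ h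

theorem bary_sum (z : ℂ) : bary x y w z + bary y w x z + bary w x y z = 1 := by
  rw [bary_apply, bary_apply, bary_apply, sg_cyc x y w, ← sg_cyc w x y]
  field_simp
  simp [sg]
  ring

theorem bary_eq (z : ℂ) : bary x y w z • x + bary y w x z • y + bary w x y z • w = z := by
  rw [bary_apply, bary_apply, bary_apply, sg_cyc x y w, ← sg_cyc w x y]
  apply Complex.ext <;> simp only [Complex.add_re, Complex.add_im, Complex.smul_re,
    Complex.smul_im, smul_eq_mul] <;> field_simp <;> simp [sg] <;> ring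

theorem mem_seg (h0 : bary x y w z = 0) (h1 : 0 ≤ bary y w x z) (h2 : 0 ≤ bary w x y z) :
    z ∈ segment ℝ y w :=
  ⟨_, _, h1, h2, by linarith [bary_sum h z], by simpa [h0] using bary_eq h z⟩

theorem seg_bary (hz : z ∈ segment ℝ y w) :
    bary x y w z = 0 ∧ 0 ≤ bary y w x z ∧ 0 ≤ bary w x y z := by
  obtain ⟨a, b, ha, hb, hab, rfl⟩ := hz
  simp only [aff _ hab]
  simp [bary_fst (ne_cyc h), bary_fst (ne_cyc (ne_cyc h)), ha, hb]

theorem tri_in (h0 : 0 < bary x y w z) (h1 : 0 < bary y w x z) (h2 : 0 < bary w x y z) :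
    0 < sg x y w * sm (tri x y w) (ang z) := by
  have key : ∀ t, 0 < t / sg x y w → 0 < sg x y w * t := fun t ht => by
    have := mul_pos ht (mul_self_pos.mpr h)
    rwa [← mul_assoc, div_mul_cancel₀ _ h, mul_comm] at this
  rw [bary_apply] at h0 h1 h2
  rw [sg_cyc x y w] at h1
  rw [← sg_cyc w x y] at h2
  simp only [tri, sm_add, sm_single]
  linarith [ang_sign (key _ h0), ang_sign (key _ h1), ang_sign (key _ h2)]

theorem tri_not (hz : z ∉ Tri x y w) : sm (tri x y w) (ang z) = 0 := by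
  have h1 := bary_fst h
  have h2 := bary_fst (ne_cyc h)
  have h3 := bary_fst (ne_cyc (ne_cyc h))
  simp only [Tri, mem_ofPred_eq, not_and_or, not_le] at hz
  rcases hz with hz | hz | hz <;> exact tri_out _ hz (by simp [*]) (by simp [*]) (by simp [*])

theorem tri_nonneg (hz : z ∉ supp (tri x y w)) : 0 ≤ sg x y w * sm (tri x y w) (ang z) := by
  by_cases hT : z ∈ Tri x y w
  swap
  · rw [tri_not h hT, mul_zero]
  simp only [tri, supp_add, supp_single, mem_union, not_or] at hz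
  obtain ⟨h0, h1, h2⟩ := hT
  exact (tri_in h (h0.lt_of_ne fun e => hz.1.2 (mem_seg h e.symm h1 h2))
    (h1.lt_of_ne fun e => hz.2 (mem_seg (ne_cyc h) e.symm h2 h0))
    (h2.lt_of_ne fun e => hz.1.1 (mem_seg (ne_cyc (ne_cyc h)) e.symm h0 h1))).le

/-- A segment avoiding two sides of the triangle cannot cross them. -/
theorem exit {c d : ℂ} (H : ∀ p ∈ segment ℝ c d, p ∈ segment ℝ x y ∨ p ∈ segment ℝ y w →
    p = c ∨ p = d) (hz : z ∈ segment ℝ c d) (hT : z ∈ Tri x y w)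
    (hc : bary y w x z ≤ bary y w x c) : c ∈ Tri x y w ∨ z = d := by
  by_contra hn
  rw [not_or] at hn
  have h1 : min (bary x y w c) (bary w x y c) < 0 := by
    by_contra h1
    rw [not_lt, le_min_iff] at h1
    exact hn.1 ⟨h1.1, hT.2.1.trans hc, h1.2⟩
  obtain ⟨p, hp, e⟩ := (convex_segment c z).isPreconnected.intermediate_value
    (f := fun p => min (bary x y w p) (bary w x y p)) (left_mem_segment ℝ _ _)
    (right_mem_segment ℝ _ _) (((bary x y w).continuous_of_finiteDimensional.min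
      (bary w x y).continuous_of_finiteDimensional).continuousOn) ⟨h1.le, le_min hT.1 hT.2.2⟩
  have h2 : 0 ≤ bary y w x p := by
    obtain ⟨a, b, ha, hb, hab, rfl⟩ := hp
    rw [aff _ hab]
    exact add_nonneg (mul_nonneg ha (hT.2.1.trans hc)) (mul_nonneg hb hT.2.1)
  rcases H p ((convex_segment c d).segment_subset (left_mem_segment ℝ _ _) hz hp) (by
    rcases min_eq_iff.mp e with ⟨a, b⟩ | ⟨a, b⟩
    · exact Or.inr (mem_seg h a h2 (a ▸ b))
    · exact Or.inl (mem_seg (ne_cyc (ne_cyc h)) a (a ▸ b) h2)) with rfl | rfl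
  · exact h1.ne e
  · exact hn.2 ((wbtw_swap_right_iff ℝ c).mp
      ⟨mem_segment_iff_wbtw.mp hz, mem_segment_iff_wbtw.mp hp⟩)

end

theorem conv3 (f g k : ℂ →ᵃ[ℝ] ℝ) {s t r : Set ℝ} (hs : Convex ℝ s) (ht : Convex ℝ t)
    (hr : Convex ℝ r) : IsPreconnected (f ⁻¹' s ∩ (g ⁻¹' t ∩ k ⁻¹' r)) :=
  ((hs.affine_preimage f).inter
    ((ht.affine_preimage g).inter (hr.affine_preimage k))).isPreconnected

/-! ### Subpolygons cut off by a diagonal -/

variable (u : ℕ → ℂ)

abbrev seg (j : ℕ) : Set ℂ := segment ℝ (u j) (u (j + 1))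

def ch (a b : ℕ) : Multiset (ℂ × ℂ) := ∑ j ∈ Finset.Ico a b, {(u j, u (j + 1))}

def cyc (a b : ℕ) : Multiset (ℂ × ℂ) := ch u a b + {(u b, u a)}

def oth (a b c d : ℕ) : Multiset (ℂ × ℂ) := ch u a c + ch u d b + {(u b, u a)}

def rest (a b c d : ℕ) : Multiset (ℂ × ℂ) := oth u a b c d + {(u c, u d)}

structure Good (a b : ℕ) : Prop where
  lt : a + 2 ≤ b
  ne : ∀ j, a ≤ j → j < b → u j ≠ u (j + 1)
  arc : ∀ i j z, a ≤ i → i < j → j < b → z ∈ seg u i → z ∈ seg u j → j = i + 1 ∧ z = u j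
  cl : ∀ j z, a ≤ j → j < b → z ∈ seg u j → z ∈ segment ℝ (u b) (u a) →
    (j = a ∧ z = u a) ∨ (j + 1 = b ∧ z = u b)

structure Ear (a b i : ℕ) : Prop where
  le : a ≤ i
  lt : i + 2 ≤ b
  ne : sg (u i) (u (i + 1)) (u (i + 2)) ≠ 0
  free : ∀ z ∈ Tri (u i) (u (i + 1)) (u (i + 2)), z ∈ supp (oth u a b i (i + 2)) →
    z = u i ∨ z = u (i + 2) ∨ b = a + 2
  tip : sm (rest u a b i (i + 2)) (ang (u (i + 1))) = 0

variable {u} {a b c d i j p : ℕ} {z : ℂ}

theorem ch_add (h1 : a ≤ c) (h2 : c ≤ b) : ch u a b = ch u a c + ch u c b :=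
  (Finset.sum_Ico_consecutive _ h1 h2).symm

theorem mem_ch {e : ℂ × ℂ} : e ∈ ch u a b ↔ ∃ j, a ≤ j ∧ j < b ∧ e = (u j, u (j + 1)) := by
  simp [ch, Multiset.mem_sum, and_assoc]

theorem mem_supp_ch : z ∈ supp (ch u a b) ↔ ∃ j, a ≤ j ∧ j < b ∧ z ∈ seg u j := by
  simp only [supp, mem_ch, mem_ofPred_eq]
  exact ⟨fun ⟨_, ⟨j, h1, h2, e⟩, h⟩ => ⟨j, h1, h2, by simpa [e] using h⟩,
    fun ⟨j, h1, h2, h⟩ => ⟨_, ⟨j, h1, h2, rfl⟩, h⟩⟩

theorem sm_ch (g : ℂ → ℂ → ℝ) : sm (ch u a b) g = ∑ j ∈ Finset.Ico a b, g (u j) (u (j + 1)) := by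
  have := map_sum (⟨⟨fun L => sm L g, by simp [sm]⟩, fun L M => sm_add L M g⟩ :
    Multiset (ℂ × ℂ) →+ ℝ) (fun j => {(u j, u (j + 1))}) (Finset.Ico a b)
  exact this.trans (Finset.sum_congr rfl fun _ _ => sm_single _ _ g)

theorem ch_tel (h : a ≤ b) (f : ℂ → ℝ) : sm (ch u a b) (fun p q => f q - f p) = f (u b) - f (u a) := by
  rw [sm_ch]
  exact Finset.sum_Ico_sub (fun j => f (u j)) h

theorem closed_cyc (h : a ≤ b) : Closed (cyc u a b) := fun f => by
  simp only [cyc, sm_add, sm_single, ch_tel h]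
  ring

theorem closed_rest (h1 : a ≤ c) (h2 : d ≤ b) : Closed (rest u a b c d) := fun f => by
  simp only [rest, oth, sm_add, sm_single, ch_tel h1, ch_tel h2]
  ring

theorem cyc_eq (h1 : a ≤ c) (h2 : c ≤ d) (h3 : d ≤ b) : cyc u a b = oth u a b c d + ch u c d := by
  rw [cyc, oth, ch_add h1 (h2.trans h3), ch_add h2 h3]
  abel

theorem ch_two : ch u i (i + 2) = {(u i, u (i + 1))} + {(u (i + 1), u (i + 2))} := by
  rw [ch, Finset.sum_Ico_succ_top (by omega), Finset.sum_Ico_succ_top (by omega)]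
  simp

theorem cyc_tri : cyc u i (i + 2) = tri (u i) (u (i + 1)) (u (i + 2)) := by rw [cyc, ch_two, tri]

theorem sm_split (h1 : a ≤ c) (h2 : c ≤ d) (h3 : d ≤ b) {g : ℂ → ℂ → ℝ}
    (hg : g (u c) (u d) + g (u d) (u c) = 0) :
    sm (cyc u a b) g = sm (cyc u c d) g + sm (rest u a b c d) g := by
  rw [cyc_eq h1 h2 h3]
  simp only [cyc, rest, sm_add, sm_single]
  linarith

theorem mem_oth : z ∈ supp (oth u a b c d) ↔
    (∃ j, (a ≤ j ∧ j < c ∨ d ≤ j ∧ j < b) ∧ z ∈ seg u j) ∨ z ∈ segment ℝ (u b) (u a) := by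
  simp only [oth, supp_add, supp_single, mem_union, mem_supp_ch, or_and_right, exists_or, and_assoc]

theorem Good.inj (h : Good u a b) (h1 : a ≤ i) (h2 : i < j) (h3 : j ≤ b) : u i ≠ u j := by
  obtain ⟨j, rfl⟩ : ∃ k, j = k + 1 := ⟨j - 1, by omega⟩
  intro e
  by_cases h4 : i = j
  · exact h.ne j (h4 ▸ h1) h3 (h4 ▸ e)
  obtain ⟨rfl, h5⟩ := h.arc i j (u i) h1 (by omega) h3 (left_mem_segment ℝ _ _)
    (e ▸ right_mem_segment ℝ _ _)
  exact h.ne i h1 (by omega) h5

theorem Good.inj' (h : Good u a b) (h1 : a ≤ i) (h2 : i ≤ b) (h3 : a ≤ j) (h4 : j ≤ b)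
    (h5 : i ≠ j) : u i ≠ u j :=
  h5.lt_or_gt.elim (fun k => h.inj h1 k h4) fun k => (h.inj h3 k h2).symm

theorem Good.on (h : Good u a b) (h1 : a ≤ p) (h2 : p ≤ b) (h3 : a ≤ j) (h4 : j < b)
    (h5 : u p ∈ seg u j) : p = j ∨ p = j + 1 := by
  rcases h2.eq_or_lt with rfl | h2
  · rcases h.cl j _ h3 h4 h5 (left_mem_segment ℝ _ _) with ⟨-, e⟩ | ⟨e, -⟩
    · exact absurd e.symm (h.inj le_rfl (by omega) le_rfl)
    · exact Or.inr e.symm
  rcases lt_trichotomy p j with k | k | k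
  · exact absurd (h.arc p j _ h1 k h4 (left_mem_segment ℝ _ _) h5).2 (h.inj h1 k h4.le)
  · exact Or.inl k
  · exact Or.inr (h.arc j p _ h3 k h2 h5 (left_mem_segment ℝ _ _)).1

theorem Good.on_cl (h : Good u a b) (h1 : a ≤ p) (h2 : p ≤ b)
    (h5 : u p ∈ segment ℝ (u b) (u a)) : p = a ∨ p = b := by
  rcases h2.eq_or_lt with rfl | h2
  · exact Or.inr rfl
  rcases h.cl p _ h1 h2 (left_mem_segment ℝ _ _) h5 with ⟨e, -⟩ | ⟨-, e⟩
  · exact Or.inl e
  · exact absurd e (h.inj h1 h2 le_rfl)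

theorem Good.not_open (h : Good u a b) (h1 : a ≤ p) (h2 : p ≤ b) (h3 : a ≤ j) (h4 : j < b) :
    u p ∉ openSegment ℝ (u j) (u (j + 1)) := fun h5 => by
  rcases h.on h1 h2 h3 h4 (openSegment_subset_segment ℝ _ _ h5) with rfl | rfl
  · exact h.ne _ h3 h4 (left_mem_openSegment_iff.mp h5)
  · exact h.ne _ h3 h4 (right_mem_openSegment_iff.mp h5)

theorem Good.not_open_cl (h : Good u a b) (h1 : a ≤ p) (h2 : p ≤ b) :
    u p ∉ openSegment ℝ (u b) (u a) := fun h5 => by
  have := h.lt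
  rcases h.on_cl h1 h2 (openSegment_subset_segment ℝ _ _ h5) with rfl | rfl
  · exact h.inj le_rfl (by omega) le_rfl (right_mem_openSegment_iff.mp h5).symm
  · exact h.inj le_rfl (by omega) le_rfl (left_mem_openSegment_iff.mp h5).symm

theorem Good.meet (h : Good u a b) (h1 : a ≤ c) (h3 : d ≤ b) (h4 : z ∈ supp (oth u a b c d))
    (h5 : z ∈ supp (ch u c d)) : z = u c ∨ z = u d := by
  obtain ⟨j, j1, j2, j3⟩ := mem_supp_ch.mp h5
  rcases mem_oth.mp h4 with ⟨k, k1 | k1, k2⟩ | k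
  · obtain ⟨e, rfl⟩ := h.arc k j z k1.1 (by omega) (by omega) k2 j3
    exact Or.inl (by rw [show j = c by omega])
  · obtain ⟨e, rfl⟩ := h.arc j k z (by omega) (by omega) k1.2 j3 k2
    exact Or.inr (by rw [show k = d by omega])
  · rcases h.cl j z (by omega) (by omega) j3 k with ⟨e, rfl⟩ | ⟨e, rfl⟩
    · exact Or.inl (by rw [show a = c by omega])
    · exact Or.inr (by rw [show b = d by omega])

theorem Ear.rest_zero (h : Ear u a b i) (hT : z ∈ Tri (u i) (u (i + 1)) (u (i + 2)))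
    (hz : 0 < bary (u (i + 1)) (u (i + 2)) (u i) z) :
    z ∉ supp (rest u a b i (i + 2)) ∧ sm (rest u a b i (i + 2)) (ang z) = 0 := by
  have key : ∀ z ∈ Tri (u i) (u (i + 1)) (u (i + 2)), 0 < bary (u (i + 1)) (u (i + 2)) (u i) z →
      z ∉ supp (rest u a b i (i + 2)) := by
    intro z hT hz h1
    have h2 : z ∉ segment ℝ (u (i + 2)) (u i) := fun k => hz.ne' (seg_bary (ne_cyc h.ne) k).1
    rw [rest, supp_add, supp_single, segment_symm, mem_union, or_iff_left h2] at h1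
    rcases h.free z hT h1 with rfl | rfl | e
    · simp at hz
    · simp at hz
    · have := h.le
      have := h.lt
      obtain rfl : a = i := by omega
      rcases mem_oth.mp h1 with ⟨j, j1, -⟩ | k
      · omega
      · exact h2 (e ▸ k)
  refine ⟨key z hT hz, (wn_const (closed_rest h.le h.lt) (conv3 _ _ _ (convex_Ici 0) (convex_Ioi 0)
    (convex_Ici 0)) (fun z hz => key z ⟨hz.1, le_of_lt hz.2.1, hz.2.2⟩ hz.2.1)
    ⟨hT.1, hz, hT.2.2⟩ ?_).trans h.tip⟩
  simp [bary_fst (ne_cyc h.ne)]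

theorem Ear.inside (h : Ear u a b i) (h1 : 0 < bary (u i) (u (i + 1)) (u (i + 2)) z)
    (h2 : 0 ≤ bary (u (i + 1)) (u (i + 2)) (u i) z) (h3 : 0 < bary (u (i + 2)) (u i) (u (i + 1)) z)
    (h4 : 0 < bary (u (i + 1)) (u (i + 2)) (u i) z ∨ b ≠ a + 2) :
    z ∉ supp (cyc u a b) ∧ 0 < sg (u i) (u (i + 1)) (u (i + 2)) * sm (cyc u a b) (ang z) := by
  have k1 : ∀ z, 0 < bary (u i) (u (i + 1)) (u (i + 2)) z →
      0 ≤ bary (u (i + 1)) (u (i + 2)) (u i) z → 0 < bary (u (i + 2)) (u i) (u (i + 1)) z →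
      (0 < bary (u (i + 1)) (u (i + 2)) (u i) z ∨ b ≠ a + 2) → z ∉ supp (cyc u a b) := by
    intro z h1 h2 h3 h4 h5
    rw [cyc_eq h.le (by omega) h.lt, ch_two, supp_add, supp_add, supp_single, supp_single] at h5
    rcases h5 with k | k | k
    · rcases h4 with h4 | h4
      · exact (h.rest_zero ⟨h1.le, h2, h3.le⟩ h4).1 (by rw [rest, supp_add]; exact Or.inl k)
      · rcases h.free z ⟨h1.le, h2, h3.le⟩ k with rfl | rfl | e
        · simp at h3
        · simp at h1
        · exact h4 e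
    · exact h3.ne' (seg_bary (ne_cyc (ne_cyc h.ne)) k).1
    · exact h1.ne' (seg_bary h.ne k).1
  have k2 : ∀ z, 0 < bary (u i) (u (i + 1)) (u (i + 2)) z →
      0 < bary (u (i + 1)) (u (i + 2)) (u i) z → 0 < bary (u (i + 2)) (u i) (u (i + 1)) z →
      0 < sg (u i) (u (i + 1)) (u (i + 2)) * sm (cyc u a b) (ang z) := by
    intro z h1 h2 h3
    rw [sm_split h.le (by omega) h.lt (ang_rev fun k => h2.ne'
      (seg_bary (ne_cyc h.ne) (by rwa [segment_symm])).1), (h.rest_zero ⟨h1.le, h2.le, h3.le⟩ h2).2,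
      add_zero, cyc_tri]
    exact tri_in h.ne h1 h2 h3
  refine ⟨k1 z h1 h2 h3 h4, h4.elim (fun h4 => k2 z h1 h4 h3) fun h4 => ?_⟩
  have e : (1 / 2 : ℝ) + 1 / 2 = 1 := by norm_num
  have e1 := bary_fst h.ne
  have e2 := bary_fst (ne_cyc h.ne)
  have e3 := bary_fst (ne_cyc (ne_cyc h.ne))
  rw [wn_const (closed_cyc (h.le.trans (by linarith [h.lt]))) (conv3 _ _ _ (convex_Ioi 0)
    (convex_Ici 0) (convex_Ioi 0)) (fun z hz => k1 z hz.1 hz.2.1 hz.2.2 (Or.inr h4)) ⟨h1, h2, h3⟩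
    (y := (1 / 2 : ℝ) • z + (1 / 2 : ℝ) • u (i + 1))]
  · apply k2 <;> rw [aff _ e] <;> simp [*]
    positivity
  · simp only [mem_inter_iff, mem_preimage, aff _ e]
    simp [*]
    positivity

theorem pre_seg {U : Set ℂ} {x y : ℂ} (h : openSegment ℝ x y ⊆ U) :
    IsPreconnected (segment ℝ x y ∩ U) :=
  (convex_openSegment x y).isPreconnected.subset_closure
    (subset_inter (openSegment_subset_segment ℝ x y) h)
    (inter_subset_left.trans segment_subset_closure_openSegment)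

theorem pre_union {s t : Set ℂ} (hs : IsPreconnected s) (ht : IsPreconnected t)
    (h : s.Nonempty → (s ∩ t).Nonempty) : IsPreconnected (s ∪ t) := by
  rcases s.eq_empty_or_nonempty with rfl | h1
  · simpa using ht
  · exact hs.union' (h h1) ht

theorem pre_ch {U : Set ℂ} (hcd : c ≤ d)
    (h1 : ∀ j, c ≤ j → j < d → openSegment ℝ (u j) (u (j + 1)) ⊆ U)
    (h2 : ∀ j, c < j → j < d → u j ∈ U) : IsPreconnected (supp (ch u c d) ∩ U) := by
  induction d, hcd using Nat.le_induction with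
  | base => simp [ch, supp, isPreconnected_empty]
  | succ d hcd ih =>
    rw [ch, Finset.sum_Ico_succ_top hcd, supp_add, supp_single, union_inter_distrib_right]
    refine pre_union (ih (fun j a b => h1 j a (by omega)) fun j a b => h2 j a (by omega))
      (pre_seg (h1 d hcd (by omega))) fun ⟨z, hz, _⟩ => ?_
    obtain ⟨j, j1, j2, -⟩ := mem_supp_ch.mp hz
    obtain ⟨d, rfl⟩ : ∃ k, d = k + 1 := ⟨d - 1, by omega⟩
    have := h2 (d + 1) (by omega) (by omega)
    exact ⟨u (d + 1), ⟨mem_supp_ch.mpr ⟨d, by omega, by omega, right_mem_segment ℝ _ _⟩, this⟩,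
      left_mem_segment ℝ _ _, this⟩

/-- An ear of the part cut off by a diagonal is an ear. -/
theorem Good.transfer (h : Good u a b) (h1 : a ≤ c) (h2 : c + 2 ≤ d) (h3 : d ≤ b)
    (hd : ∀ z ∈ segment ℝ (u d) (u c), z ∈ supp (cyc u a b) → z = u c ∨ z = u d)
    (p1 : ∃ z ∈ supp (oth u a b c d), z ∉ supp (cyc u c d) ∧ sm (cyc u c d) (ang z) = 0)
    (p2 : ∃ z ∈ supp (ch u c d), z ∉ supp (rest u a b c d) ∧ sm (rest u a b c d) (ang z) = 0) :
    Good u c d ∧ ∀ i, Ear u c d i → Ear u a b i := by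
  have hcd : c ≤ d := by omega
  rw [cyc_eq h1 hcd h3, supp_add] at hd
  have hG : Good u c d := ⟨h2, fun j a b => h.ne j (by omega) (by omega),
    fun i j z a b c => h.arc i j z (by omega) b (by omega), fun j z j1 j2 j3 j4 => by
      rcases hd z j4 (Or.inr (mem_supp_ch.mpr ⟨j, j1, j2, j3⟩)) with rfl | rfl
      · exact Or.inl ⟨by have := h.on h1 (by omega) (by omega) (by omega) j3; omega, rfl⟩
      · exact Or.inr ⟨by have := h.on (by omega) h3 (by omega) (by omega) j3; omega, rfl⟩⟩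
  obtain ⟨U, hU⟩ : ∃ U : Set ℂ, ∀ z, z ∈ U ↔ ¬(z = u c ∨ z = u d) := ⟨{z | _}, fun _ => Iff.rfl⟩
  have u1 : ∀ j, a ≤ j → j < b → openSegment ℝ (u j) (u (j + 1)) ⊆ U := fun j j1 j2 z hz =>
    (hU z).mpr (by
      rintro (rfl | rfl)
      exacts [h.not_open h1 (by omega) j1 j2 hz, h.not_open (by omega) h3 j1 j2 hz])
  have u2 : ∀ j, a ≤ j → j ≤ b → j ≠ c → j ≠ d → u j ∈ U := fun j j1 j2 j3 j4 => (hU _).mpr
    (not_or.mpr ⟨h.inj' j1 j2 h1 (by omega) j3, h.inj' j1 j2 (by omega) h3 j4⟩)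
  have u3 : ∀ z, z ∉ segment ℝ (u d) (u c) → z ∈ U := fun z hz => (hU z).mpr (by
    rintro (rfl | rfl)
    exacts [hz (right_mem_segment ℝ _ _), hz (left_mem_segment ℝ _ _)])
  have d2 : ∀ z ∈ supp (oth u a b c d), z ∉ supp (cyc u c d) → sm (cyc u c d) (ang z) = 0 := by
    obtain ⟨y, y1, y2, y3⟩ := p1
    intro z z1 z2
    simp only [cyc, supp_add, supp_single, mem_union, not_or] at y2 z2
    refine (wn_const (closed_cyc hcd) (s := supp (oth u a b c d) ∩ U) ?_ (fun z hz k => ?_)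
      ⟨z1, u3 z z2.2⟩ ⟨y1, u3 y y2.2⟩).trans y3
    · rw [oth, add_assoc, supp_add, supp_add, supp_single, union_inter_distrib_right,
        union_inter_distrib_right]
      refine pre_union (pre_ch h1 (fun j _ _ => u1 j (by omega) (by omega))
        fun j _ _ => u2 j (by omega) (by omega) (by omega) (by omega)) (pre_union
        (pre_ch h3 (fun j _ _ => u1 j (by omega) (by omega))
        fun j _ _ => u2 j (by omega) (by omega) (by omega) (by omega)) (pre_seg fun z hz =>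
          (hU z).mpr ?_) fun ⟨z, hz, _⟩ => ?_) fun ⟨z, hz, _⟩ => ?_
      · rintro (rfl | rfl)
        exacts [h.not_open_cl h1 (by omega) hz, h.not_open_cl (by omega) h3 hz]
      · obtain ⟨j, j1, j2, -⟩ := mem_supp_ch.mp hz
        obtain ⟨b, rfl⟩ : ∃ k, b = k + 1 := ⟨b - 1, by omega⟩
        have := u2 (b + 1) (by omega) le_rfl (by omega) (by omega)
        exact ⟨_, ⟨mem_supp_ch.mpr ⟨b, by omega, by omega, right_mem_segment ℝ _ _⟩, this⟩,
          left_mem_segment ℝ _ _, this⟩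
      · obtain ⟨j, j1, j2, -⟩ := mem_supp_ch.mp hz
        have := u2 a le_rfl (by omega) (by omega) (by omega)
        exact ⟨_, ⟨mem_supp_ch.mpr ⟨a, le_rfl, by omega, left_mem_segment ℝ _ _⟩, this⟩,
          Or.inr ⟨right_mem_segment ℝ _ _, this⟩⟩
    · rw [cyc, supp_add, supp_single] at k
      exact (hU z).mp hz.2 (k.elim (h.meet h1 h3 hz.1) fun k => hd z k (Or.inl hz.1))
  have d3 : ∀ j, c < j → j < d → sm (rest u a b c d) (ang (u j)) = 0 := by
    obtain ⟨y, y1, y2, y3⟩ := p2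
    intro j j1 j2
    simp only [rest, supp_add, supp_single, mem_union, not_or] at y2
    refine (wn_const (closed_rest h1 h3) (pre_ch hcd (fun j _ _ => u1 j (by omega) (by omega))
      fun j _ _ => u2 j (by omega) (by omega) (by omega) (by omega)) (fun z hz k => ?_)
      ⟨mem_supp_ch.mpr ⟨j, j1.le, j2, left_mem_segment ℝ _ _⟩,
        u2 j (by omega) (by omega) (by omega) (by omega)⟩
      ⟨y1, u3 y (by rw [segment_symm]; exact y2.2)⟩).trans y3
    rw [rest, supp_add, supp_single, segment_symm] at k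
    exact (hU z).mp hz.2 (k.elim (fun k => h.meet h1 h3 k hz.1) fun k => hd z k (Or.inr hz.1))
  refine ⟨hG, fun i hi => ?_⟩
  have i1 := hi.le
  have i2 := hi.lt
  have e : oth u a b i (i + 2) + {(u d, u c)} = oth u c d i (i + 2) + oth u a b c d := by
    rw [oth, oth, oth, ch_add h1 i1, ch_add i2 h3]
    abel
  refine ⟨by omega, by omega, hi.ne, fun z hT hz => ?_, ?_⟩
  · have k1 : z ∈ supp (oth u c d i (i + 2)) → z ∈ supp (cyc u a b) →
        z = u i ∨ z = u (i + 2) ∨ b = a + 2 := fun k k' => by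
      rcases hi.free z hT k with k1 | k1 | k1
      · exact Or.inl k1
      · exact Or.inr (Or.inl k1)
      obtain rfl : c = i := by omega
      subst k1
      rcases mem_oth.mp k with ⟨j, j1, -⟩ | k
      · omega
      · rw [cyc_eq h1 hcd h3, supp_add] at k'
        exact (hd z k k').imp_right Or.inl
    have k2 : z ∈ supp (cyc u a b) := by
      rw [cyc_eq (h1.trans i1) (by omega) (i2.trans h3), supp_add]
      exact Or.inl hz
    have k3 : z ∈ supp (oth u c d i (i + 2) + oth u a b c d) := by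
      rw [← e, supp_add]
      exact Or.inl hz
    rw [supp_add] at k3
    refine k3.elim (k1 · k2) fun k => ?_
    by_cases k4 : z ∈ supp (cyc u c d)
    · refine k1 (mem_oth.mpr (Or.inr ?_)) k2
      rw [cyc, supp_add, supp_single] at k4
      refine k4.elim (fun k4 => ?_) id
      rcases h.meet h1 h3 k k4 with rfl | rfl
      exacts [right_mem_segment ℝ _ _, left_mem_segment ℝ _ _]
    have k5 := k4
    rw [cyc_eq i1 (by omega) i2, ch_two, supp_add, supp_add, supp_single, supp_single, mem_union,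
      mem_union, not_or, not_or] at k5
    obtain ⟨t1, t2, t3⟩ := hT
    have := (hi.inside (t1.lt_of_ne fun e => k5.2.2 (mem_seg hi.ne e.symm t2 t3)) t2
      (t3.lt_of_ne fun e => k5.2.1 (mem_seg (ne_cyc (ne_cyc hi.ne)) e.symm t1 t2))
      (t2.eq_or_lt.symm.imp_right fun e k => k5.1 (mem_oth.mpr (Or.inr (by
        obtain rfl : c = i := by omega
        exact k ▸ mem_seg (ne_cyc hi.ne) e.symm t3 t1))))).2
    rw [d2 z k k4, mul_zero] at this
    exact absurd this (lt_irrefl 0)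
  · have k1 := congrArg (sm · (ang (u (i + 1)))) e
    have k2 := hi.tip
    have k3 := d3 (i + 1) (by omega) (by omega)
    have k4 := ang_rev fun k => (by have := hG.on_cl (p := i + 1) (by omega) (by omega) k; omega :
      False)
    simp only [rest, sm_add, sm_single] at k1 k2 k3 ⊢
    linarith

/-! ### Existence of ears -/

theorem Good.extreme (h : Good u a b) : ∃ i, a ≤ i ∧ i + 2 ≤ b ∧ ∃ f : ℂ →ᵃ[ℝ] ℝ,
    ∀ j, a ≤ j → j ≤ b → j ≠ i + 1 → f (u (i + 1)) < f (u j) := by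
  have hl := h.lt
  obtain ⟨g, s, h1, h2⟩ := geometric_hahn_banach_point_closed (convex_segment (u b) (u a))
    (closure_openSegment (𝕜 := ℝ) (u b) (u a) ▸ isClosed_closure) (x := u (a + 1))
    fun k => by have := h.on_cl (by omega) (by omega) k; omega
  obtain ⟨R, r0, r1⟩ : ∃ R : ℝ, 0 ≤ R ∧ R * (s - g (u (a + 1))) =
      Complex.normSq (u a) + Complex.normSq (u b) + 1 :=
    ⟨_, div_nonneg (by linarith [Complex.normSq_nonneg (u a), Complex.normSq_nonneg (u b)])
      (sub_pos.mpr h1).le, div_mul_cancel₀ _ (sub_pos.mpr h1).ne'⟩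
  obtain ⟨k, hk, hm⟩ := (Finset.Icc a b).exists_max_image
    (fun j => Complex.normSq (u j) - R * g (u j)) ⟨a, by simp; omega⟩
  simp only [Finset.mem_Icc] at hk hm
  have k1 := hm (a + 1) ⟨by omega, by omega⟩
  have n1 := Complex.normSq_nonneg (u a)
  have n2 := Complex.normSq_nonneg (u b)
  have n3 := Complex.normSq_nonneg (u (a + 1))
  have k2 : k ≠ a := by
    rintro rfl
    nlinarith [mul_le_mul_of_nonneg_left (h2 _ (right_mem_segment ℝ _ _)).le r0]
  have k3 : k ≠ b := by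
    rintro rfl
    nlinarith [mul_le_mul_of_nonneg_left (h2 _ (left_mem_segment ℝ _ _)).le r0]
  obtain ⟨i, rfl⟩ : ∃ i, k = i + 1 := ⟨k - 1, by omega⟩
  refine ⟨i, by omega, by omega, (R • g.toLinearMap - (2 * (u (i + 1)).re) • Complex.reLm -
    (2 * (u (i + 1)).im) • Complex.imLm).toAffineMap, fun j j1 j2 j3 => ?_⟩
  have k4 := hm j ⟨j1, j2⟩
  have k5 := Complex.normSq_pos.mpr (sub_ne_zero.mpr (h.inj' j1 j2 hk.1 hk.2 j3))
  simp [Complex.normSq_apply] at k4 k5 ⊢
  nlinarith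

theorem nondeg {x v w : ℂ} (f : ℂ →ᵃ[ℝ] ℝ) (h1 : f v < f x) (h2 : f v < f w)
    (h : ∀ z ∈ segment ℝ x v, z ∈ segment ℝ v w → z = v) : sg x v w ≠ 0 := by
  intro h0
  have key : ∀ p, f p - f v = (p - v).re * f.linear 1 + (p - v).im * f.linear Complex.I := by
    intro p
    have h2 : p - v = (p - v).re • (1 : ℂ) + (p - v).im • Complex.I := by
      apply Complex.ext <;> simp
    rw [← show f.linear (p - v) = f p - f v from f.linearMap_vsub p v, h2, map_add, map_smul,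
      map_smul, ← h2]
    rfl
  obtain ⟨p, hp⟩ : ∃ p, p = f x - f v := ⟨_, rfl⟩
  obtain ⟨q, hq⟩ : ∃ q, q = f w - f v := ⟨_, rfl⟩
  have p0 : 0 < p := by linarith
  have q0 : 0 < q := by linarith
  have e : q • (x - v) = p • (w - v) := by
    rw [hp, hq, key, key]
    simp [sg] at h0
    apply Complex.ext <;> simp
    · linear_combination -(f.linear Complex.I) * h0
    · linear_combination (f.linear 1) * h0
  have e1 : q / (p + q) + p / (p + q) = 1 := by field_simp; ring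
  have := h ((q / (p + q)) • x + (p / (p + q)) • v) ⟨_, _, by positivity, by positivity, e1, rfl⟩
    ⟨q / (p + q), p / (p + q), by positivity, by positivity, e1, by
      linear_combination (norm := module) -(1 / (p + q)) • e⟩
  have := congrArg f this
  rw [aff f e1] at this
  have h3 : q / (p + q) * p = 0 := by linear_combination this + q / (p + q) * hp - f v * e1
  exact absurd h3 (by positivity)

theorem ray {v w : ℂ} (β : ℂ →ᵃ[ℝ] ℝ) (hv : β v = 0) (hw : 0 < β w) :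
    ∀ z ∈ segment ℝ v w, β z ≤ 0 → z = v := by
  rintro z ⟨s, t, hs, ht, hst, rfl⟩ h
  rw [aff β hst, hv, mul_zero, zero_add] at h
  obtain rfl : t = 0 := by nlinarith
  simp_all

/-- An edge of the polygon other than the two edges at the vertex `i + 1`. -/
structure OE (u : ℕ → ℂ) (a b i p q : ℕ) : Prop where
  p1 : a ≤ p ∧ p ≤ b ∧ p ≠ i + 1
  q1 : a ≤ q ∧ q ≤ b ∧ q ≠ i + 1
  ne : p = i ∨ p = i + 2 → q = i ∨ q = i + 2 → b = a + 2
  H : ∀ y ∈ segment ℝ (u p) (u q), y ∈ seg u i ∨ y ∈ seg u (i + 1) → y = u p ∨ y = u q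

theorem OE.symm {q : ℕ} (h : OE u a b i p q) : OE u a b i q p :=
  ⟨h.q1, h.p1, fun k k' => h.ne k' k, fun y hy k => (h.H y (by rwa [segment_symm]) k).symm⟩

theorem Good.oe (h : Good u a b) (h1 : a ≤ i) (h2 : i + 2 ≤ b) (τ : ℂ →ᵃ[ℝ] ℝ)
    (hz : z ∈ supp (oth u a b i (i + 2))) :
    ∃ p q, OE u a b i p q ∧ z ∈ segment ℝ (u p) (u q) ∧ τ z ≤ τ (u p) := by
  obtain ⟨p, q, k1, k2⟩ : ∃ p q, OE u a b i p q ∧ z ∈ segment ℝ (u p) (u q) := by
    rcases mem_oth.mp hz with ⟨j, j1, j2⟩ | k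
    · refine ⟨j, j + 1, ⟨by omega, by omega, by omega, fun y hy k => ?_⟩, j2⟩
      rcases j1 with j1 | j1 <;> rcases k with k | k
      · obtain ⟨rfl, e⟩ := h.arc j i y j1.1 j1.2 (by omega) hy k
        exact Or.inr e
      · have := (h.arc j (i + 1) y j1.1 (by omega) (by omega) hy k).1
        omega
      · have := (h.arc i j y h1 (by omega) j1.2 k hy).1
        omega
      · exact Or.inl (h.arc (i + 1) j y (by omega) (by omega) j1.2 k hy).2
    · refine ⟨b, a, ⟨by omega, by omega, by omega, fun y hy k => ?_⟩, k⟩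
      rcases k with k | k
      · exact (h.cl i y h1 (by omega) k hy).symm.imp And.right And.right
      · exact (h.cl (i + 1) y (by omega) (by omega) k hy).symm.imp And.right And.right
  rcases le_total (τ (u q)) (τ (u p)) with k | k
  · refine ⟨p, q, k1, k2, ?_⟩
    obtain ⟨s, t, hs, ht, hst, rfl⟩ := k2
    rw [aff τ hst]
    exact (Convex.combo_self hst (τ (u p))).le.trans' (by simp only [smul_eq_mul]; gcongr)
  · refine ⟨q, p, k1.symm, by rwa [segment_symm], ?_⟩
    obtain ⟨s, t, hs, ht, hst, rfl⟩ := k2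
    rw [aff τ hst]
    exact (Convex.combo_self hst (τ (u q))).le.trans' (by simp only [smul_eq_mul]; gcongr)

theorem Good.loc (h : Good u a b) {k m : ℕ} (h1 : a < p) (h2 : p < b) {L : Multiset (ℂ × ℂ)}
    (hL : Closed L) {x w : ℂ} (β f : ℂ →ᵃ[ℝ] ℝ) (hv : β (u p) = 0) (hx : β x = 0) (hw : 0 < β w)
    (hk : 0 < β (u k)) (hxv : x ≠ u p) (hk' : a ≤ k ∧ k ≤ b)
    (hf : ∀ j, a ≤ j → j ≤ b → f (u p) ≤ f (u j)) (hfw : f (u p) < f w)
    (hm : ∀ j, j ≠ m → p = j ∨ p = j + 1 → seg u j = segment ℝ (u p) w)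
    (he : ∀ e ∈ L, (∃ j, (a ≤ j ∧ j < b ∧ j ≠ m) ∧ e = (u j, u (j + 1))) ∨ e = (u b, u a) ∨
      e = (u p, u k) ∨ e = (u k, u p)) :
    ∃ z ∈ segment ℝ (u p) x, z ∉ supp L ∧ sm L (ang z) = 0 := by
  refine local_zero hL β f hv hx hw hxv (fun e k => ?_) hfw fun e k k1 => ?_
  · rcases he e k with ⟨j, j1, rfl⟩ | rfl | rfl | rfl <;>
      exact ⟨hf _ (by omega) (by omega), hf _ (by omega) (by omega)⟩
  rcases he e k with ⟨j, j1, rfl⟩ | rfl | rfl | rfl
  · exact fun z hz => ray β hv hw z (hm j j1.2.2 (h.on h1.le h2.le j1.1 j1.2.1 k1) ▸ hz)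
  · have := h.on_cl h1.le h2.le k1
    omega
  · exact ray β hv hk
  · exact fun z hz => ray β hv hk z (by rwa [segment_symm])

theorem Good.ear (h : Good u a b) : ∃ i, Ear u a b i := by
  induction hn : b - a using Nat.strong_induction_on generalizing a b with | _ n ih => ?_
  classical
  obtain ⟨i, i1, i2, f, hf⟩ := h.extreme
  have hne := nondeg f (hf i i1 (by omega) (by omega)) (hf (i + 2) (by omega) i2 (by omega))
    fun z k k' => (h.arc i (i + 1) z i1 (by omega) (by omega) k k').2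
  set α := bary (u i) (u (i + 1)) (u (i + 2)) with hα
  set τ := bary (u (i + 1)) (u (i + 2)) (u i) with hτ
  set β := bary (u (i + 2)) (u i) (u (i + 1)) with hβ
  have t0 : ∀ p, p = i ∨ p = i + 2 → τ (u p) = 0 := by rintro _ (rfl | rfl) <;> simp [hτ]
  rcases ((Finset.Icc a b).filter fun k => (k ≠ i ∧ k ≠ i + 1 ∧ k ≠ i + 2) ∧
    u k ∈ Tri (u i) (u (i + 1)) (u (i + 2))).eq_empty_or_nonempty with hk | hk
  · simp only [Finset.filter_eq_empty_iff, Finset.mem_Icc, not_and] at hk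
    have k0 : ∀ p, a ≤ p ∧ p ≤ b ∧ p ≠ i + 1 → u p ∈ Tri (u i) (u (i + 1)) (u (i + 2)) →
        p = i ∨ p = i + 2 := fun p p1 p2 => by
      by_contra k
      exact hk ⟨p1.1, p1.2.1⟩ (by omega) p2
    have k1 : ∀ p, a ≤ p ∧ p ≤ b ∧ p ≠ i + 1 → u p ∈ Tri (u i) (u (i + 1)) (u (i + 2)) →
        u p = u i ∨ u p = u (i + 2) ∨ b = a + 2 := fun p p1 p2 => by
      rcases k0 p p1 p2 with rfl | rfl <;> simp
    refine ⟨i, i1, i2, hne, fun z hT hz => ?_, wn_half (closed_rest i1 i2) f fun e he => ?_⟩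
    · obtain ⟨p, q, o, z1, z2⟩ := h.oe i1 i2 τ hz
      rcases exit hne o.H z1 hT z2 with k | rfl
      swap
      · exact k1 q o.q1 hT
      have k2 := t0 p (k0 p o.p1 k)
      by_cases k3 : τ z ≤ τ (u q)
      · rcases exit hne o.symm.H (by rwa [segment_symm]) hT k3 with k4 | rfl
        · exact Or.inr (Or.inr (o.ne (k0 p o.p1 k) (k0 q o.q1 k4)))
        · exact k1 p o.p1 hT
      · rw [ray (-τ) (by simp [k2]) (by simp; linarith) z z1 (by simpa using hT.2.1)]
        exact k1 p o.p1 k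
    · simp only [rest, oth, Multiset.mem_add, mem_ch, Multiset.mem_singleton] at he
      rcases he with ((⟨j, _, _, rfl⟩ | ⟨j, _, _, rfl⟩) | rfl) | rfl <;>
        exact ⟨hf _ (by omega) (by omega) (by omega), hf _ (by omega) (by omega) (by omega)⟩
  obtain ⟨k, hk, hm⟩ := Finset.exists_max_image _ (fun k => τ (u k)) hk
  simp only [Finset.mem_filter, Finset.mem_Icc] at hk hm
  obtain ⟨k1, k2, t1, t2, t3⟩ := hk
  have a0 : 0 < α (u k) := t1.lt_of_ne fun e => by
    have := h.on k1.1 k1.2 (by omega) (by omega) (mem_seg hne e.symm t2 t3)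
    omega
  have b0 : 0 < β (u k) := t3.lt_of_ne fun e => by
    have := h.on k1.1 k1.2 (by omega) (by omega) (mem_seg (ne_cyc (ne_cyc hne)) e.symm t1 t2)
    omega
  have hd : ∀ z ∈ segment ℝ (u (i + 1)) (u k), z ∈ supp (cyc u a b) →
      z = u (i + 1) ∨ z = u k := by
    intro z hz k3
    rw [← insert_endpoints_openSegment] at hz
    rcases hz with rfl | rfl | ⟨s, t, hs, ht, hst, rfl⟩
    · exact Or.inl rfl
    · exact Or.inr rfl
    exfalso
    have e1 : 0 < α (s • u (i + 1) + t • u k) := by rw [aff α hst]; simp [hα]; positivity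
    have e2 : 0 < β (s • u (i + 1) + t • u k) := by rw [aff β hst]; simp [hβ]; positivity
    have e3 : τ (u k) < τ (s • u (i + 1) + t • u k) := by
      rw [aff τ hst, bary_fst (ne_cyc hne), show t = 1 - s by linarith]
      nlinarith [bary_sum hne (u k)]
    generalize s • u (i + 1) + t • u k = z at k3 e1 e2 e3
    rw [cyc_eq i1 (by omega) i2, ch_two, supp_add, supp_add, supp_single, supp_single] at k3
    rcases k3 with k3 | k3 | k3
    · obtain ⟨p, q, o, z1, z2⟩ := h.oe i1 i2 τ k3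
      have hT : z ∈ Tri (u i) (u (i + 1)) (u (i + 2)) := ⟨e1.le, (t2.trans_lt e3).le, e2.le⟩
      have k4 : ∀ r, a ≤ r ∧ r ≤ b ∧ r ≠ i + 1 → u r ∈ Tri (u i) (u (i + 1)) (u (i + 2)) →
          τ z ≤ τ (u r) → False := fun r r1 r2 r3 => by
        by_cases r4 : r = i ∨ r = i + 2
        · linarith [t0 r r4, (show 0 ≤ τ (u k) from t2)]
        · linarith [hm r ⟨⟨r1.1, r1.2.1⟩, by omega, r2⟩]
      rcases exit hne o.H z1 hT z2 with k | rfl
      exacts [k4 p o.p1 k z2, k4 q o.q1 hT le_rfl]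
    · exact e2.ne' (seg_bary (ne_cyc (ne_cyc hne)) k3).1
    · exact e1.ne' (seg_bary hne k3).1
  have hf' : ∀ j, a ≤ j → j ≤ b → f (u (i + 1)) ≤ f (u j) := fun j j1 j2 => by
    by_cases j3 : j = i + 1
    exacts [j3 ▸ le_rfl, (hf j j1 j2 j3).le]
  have l1 := fun L (hL : Closed L) => h.loc (p := i + 1) (m := i) (x := u i) (w := u (i + 2))
    (by omega) (by omega) hL β f (by simp [hβ]) (by simp [hβ])
    (by simp [hβ, bary_fst (ne_cyc (ne_cyc hne))]) b0 (h.ne i i1 (by omega)) k1 hf'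
    (hf _ (by omega) i2 (by omega)) fun j j1 j2 => by rw [show j = i + 1 by omega]
  have l2 := fun L (hL : Closed L) => h.loc (p := i + 1) (m := i + 1) (x := u (i + 2)) (w := u i)
    (by omega) (by omega) hL α f (by simp [hα]) (by simp [hα])
    (by simp [hα, bary_fst hne]) a0 (h.ne (i + 1) (by omega) (by omega)).symm k1 hf'
    (hf _ i1 (by omega) (by omega)) fun j j1 j2 => by rw [show j = i by omega, segment_symm]
  simp only [segment_symm ℝ (u (i + 1)) (u i)] at l1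
  have fin : ∀ c d, d - c < n → (Good u c d ∧ ∀ i, Ear u c d i → Ear u a b i) →
      ∃ i, Ear u a b i := fun c d k4 k5 => (ih _ k4 k5.1 rfl).imp k5.2
  rcases (by omega : k < i ∨ i + 2 < k) with k3 | k3
  · obtain ⟨y, y1, y2⟩ := l2 _ (closed_cyc (u := u) (a := k) (b := i + 1) (by omega)) fun e he => by
      simp only [cyc, Multiset.mem_add, mem_ch, Multiset.mem_singleton] at he
      rcases he with ⟨j, _, _, rfl⟩ | rfl
      exacts [Or.inl ⟨j, by omega, rfl⟩, by simp]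
    obtain ⟨y', y3, y4⟩ := l1 _ (closed_rest (u := u) k1.1 (by omega : i + 1 ≤ b)) fun e he => by
      simp only [rest, oth, Multiset.mem_add, mem_ch, Multiset.mem_singleton] at he
      rcases he with ((⟨j, _, _, rfl⟩ | ⟨j, _, _, rfl⟩) | rfl) | rfl
      exacts [Or.inl ⟨j, by omega, rfl⟩, Or.inl ⟨j, by omega, rfl⟩, by simp, by simp]
    exact fin k (i + 1) (by omega) (h.transfer k1.1 (by omega) (by omega)
      (fun z z1 z2 => (hd z z1 z2).symm) ⟨y, mem_oth.mpr (Or.inl ⟨i + 1, by omega, y1⟩), y2⟩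
      ⟨y', mem_supp_ch.mpr ⟨i, by omega, by omega, y3⟩, y4⟩)
  · obtain ⟨y, y1, y2⟩ := l1 _ (closed_cyc (u := u) (a := i + 1) (b := k) (by omega)) fun e he => by
      simp only [cyc, Multiset.mem_add, mem_ch, Multiset.mem_singleton] at he
      rcases he with ⟨j, _, _, rfl⟩ | rfl
      exacts [Or.inl ⟨j, by omega, rfl⟩, by simp]
    obtain ⟨y', y3, y4⟩ := l2 _ (closed_rest (u := u) (by omega : a ≤ i + 1) k1.2) fun e he => by
      simp only [rest, oth, Multiset.mem_add, mem_ch, Multiset.mem_singleton] at he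
      rcases he with ((⟨j, _, _, rfl⟩ | ⟨j, _, _, rfl⟩) | rfl) | rfl
      exacts [Or.inl ⟨j, by omega, rfl⟩, Or.inl ⟨j, by omega, rfl⟩, by simp, by simp]
    exact fin (i + 1) k (by omega) (h.transfer (by omega) (by omega) k1.2
      (fun z z1 z2 => hd z (by rwa [segment_symm]) z2) ⟨y, mem_oth.mpr (Or.inl ⟨i, by omega, y1⟩), y2⟩
      ⟨y', mem_supp_ch.mpr ⟨i + 1, by omega, by omega, y3⟩, y4⟩)

/-! ### Simple polygons -/

variable {n : ℕ}

structure SS (n : ℕ) (v : ℕ → ℂ) : Prop where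
  cl : v n = v 0
  ne : ∀ j < n, v j ≠ v (j + 1)
  arc : ∀ i j z, i < j → j < n → z ∈ seg v i → z ∈ seg v j →
    (j = i + 1 ∧ z = v j) ∨ (i = 0 ∧ j + 1 = n ∧ z = v 0)

theorem mem_seg_edge : z ∈ seg u j ↔ ∃ τ ∈ Icc (0 : ℝ) 1, edge u j τ = z := by
  rw [seg, segment_eq_image']
  rfl

theorem ss_of_simple (h : Simple n u) : SS n u := by
  have e0 : ∀ j, edge u j 0 = u j := fun j => by simp [edge]
  have e1 : ∀ j, edge u j 1 = edge u (j + 1) 0 := fun j => by simp [edge]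
  have z0 : (0 : ℝ) ∈ Ico (0 : ℝ) 1 := by simp
  refine ⟨h.1, fun j hj e => ?_, fun i j z h1 h2 h3 h4 => ?_⟩
  · simpa using (h.2 j hj j hj 0 z0 (1 / 2) (by norm_num) (by simp [edge, e])).2
  obtain ⟨s, ⟨s0, s1⟩, rfl⟩ := mem_seg_edge.mp h3
  obtain ⟨t, ⟨t0, t1⟩, e⟩ := mem_seg_edge.mp h4
  rcases t1.eq_or_lt with rfl | t1
  · obtain ⟨k, k1, k2, k3⟩ : ∃ k < n, edge u j 1 = edge u k 0 ∧ (k = j + 1 ∨ k = 0 ∧ j + 1 = n) := by
      by_cases k : j + 1 = n
      · exact ⟨0, by omega, by rw [e1, e0, e0, k, h.1], Or.inr ⟨rfl, k⟩⟩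
      · exact ⟨j + 1, by omega, e1 j, Or.inl rfl⟩
    rw [k2] at e
    rcases s1.eq_or_lt with rfl | s1
    · have := (h.2 k k1 (i + 1) (by omega) 0 z0 0 z0 (e.trans (e1 i))).1
      omega
    · have := (h.2 k k1 i (by omega) 0 z0 s ⟨s0, s1⟩ e).1
      exact Or.inr ⟨by omega, by omega, by rw [← e, e0, show k = 0 by omega]⟩
  · rcases s1.eq_or_lt with rfl | s1
    · have := (h.2 j h2 (i + 1) (by omega) t ⟨t0, t1⟩ 0 z0 (e.trans (e1 i))).1
      exact Or.inl ⟨this, by rw [e1, e0, this]⟩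
    · have := (h.2 j h2 i (by omega) t ⟨t0, t1⟩ s ⟨s0, s1⟩ e).1
      omega

theorem SS.simple (h : SS n u) : Simple n u := by
  have key : ∀ j < n, ∀ s t : ℝ, edge u j s = edge u j t → s = t := fun j hj s t e => by
    simpa [edge, sub_eq_zero, (h.ne j hj).symm] using e
  have key2 : ∀ i j, i < j → j < n → ∀ s ∈ Ico (0 : ℝ) 1, ∀ t ∈ Ico (0 : ℝ) 1,
      edge u i s ≠ edge u j t := fun i j h1 h2 s hs t ht e => by
    rcases h.arc i j _ h1 h2 (mem_seg_edge.mpr ⟨s, Ico_subset_Icc_self hs, rfl⟩)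
      (mem_seg_edge.mpr ⟨t, Ico_subset_Icc_self ht, e.symm⟩) with ⟨rfl, k⟩ | ⟨-, rfl, k⟩
    · exact hs.2.ne (key i (by omega) s 1 (by rw [k]; simp [edge]))
    · exact ht.2.ne (key j h2 t 1 (by rw [← e, k]; simp [edge, h.cl]))
  refine ⟨h.cl, fun i hi j hj s hs t ht e => ?_⟩
  rcases lt_trichotomy i j with k | rfl | k
  exacts [absurd e (key2 i j k hj s hs t ht), ⟨rfl, key i hi s t e⟩,
    absurd e.symm (key2 j i k hi t ht s hs)]

theorem SS.good (h : SS (n + 1) u) (hn : 2 ≤ n) : Good u 0 n :=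
  ⟨by omega, fun j _ hj => h.ne j (by omega),
    fun i j z _ h2 h3 h4 h5 => (h.arc i j z h2 (by omega) h4 h5).resolve_right (by omega),
    fun j z _ h2 h3 h4 => (h.arc j n z h2 (by omega) h3 (by rwa [seg, h.cl])).symm.imp
      (fun k => ⟨k.1, k.2.2⟩) fun k => ⟨k.1.symm, k.2⟩⟩

theorem SS.cyc (h : SS (n + 1) u) : ch u 0 (n + 1) = cyc u 0 n := by
  rw [ch, Finset.sum_Ico_succ_top n.zero_le, h.cl]
  rfl

theorem del_le (h : j ≤ i) : del u (i + 1) j = u j := if_pos (by omega)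

theorem del_gt (h : i < j) : del u (i + 1) j = u (j + 1) := if_neg (by omega)

theorem SS.rest (h : SS (n + 1) u) (hi : i + 2 ≤ n) :
    ch (del u (i + 1)) 0 n = rest u 0 n i (i + 2) := by
  have e1 : ch (del u (i + 1)) 0 i = ch u 0 i := Finset.sum_congr rfl fun j hj => by
    have := (Finset.mem_Ico.mp hj).2
    rw [del_le (by omega), del_le (by omega)]
  have e2 : ch (del u (i + 1)) (i + 1) n = ch u (i + 2) (n + 1) := by
    rw [ch, ch, ← Finset.sum_Ico_add' _ (i + 1) n 1]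
    exact Finset.sum_congr rfl fun j hj => by
      have := (Finset.mem_Ico.mp hj).1
      rw [del_gt (by omega), del_gt (by omega)]
  have e3 : ch (del u (i + 1)) i (i + 1) = {(u i, u (i + 2))} := by
    simp [ch, del_le, del_gt]
  rw [ch_add i.zero_le (by omega), ch_add i.le_succ (by omega), e1, e2, e3, Pg.rest, oth,
    ch, ch, ch, Finset.sum_Ico_succ_top hi, h.cl]
  abel

section
variable (h : SS (n + 1) u) (hn : 3 ≤ n) (he : Ear u 0 n i)
include h hn he

theorem SS.free (h1 : j ≤ n) (h2 : j ≠ i) (h3 : j ≠ i + 1) (h4 : z ∈ seg u j)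
    (hT : z ∈ Tri (u i) (u (i + 1)) (u (i + 2))) :
    (z = u i ∧ (j + 1 = i ∨ i = 0 ∧ j = n)) ∨ (z = u (i + 2) ∧ j = i + 2) := by
  have hG := h.good (by omega)
  have := he.lt
  rcases h1.eq_or_lt with rfl | h1
  · rw [seg, h.cl] at h4
    rcases he.free z hT (mem_oth.mpr (Or.inr h4)) with rfl | rfl | k
    · exact Or.inl ⟨rfl, by have := hG.on_cl (by omega) (by omega) h4; omega⟩
    · exact Or.inr ⟨rfl, by have := hG.on_cl (by omega) (by omega) h4; omega⟩
    · omega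
  · rcases he.free z hT (mem_oth.mpr (Or.inl ⟨j, by omega, h4⟩)) with rfl | rfl | k
    · exact Or.inl ⟨rfl, by have := hG.on (by omega) (by omega) (by omega) h1 h4; omega⟩
    · exact Or.inr ⟨rfl, by have := hG.on (by omega) (by omega) (by omega) h1 h4; omega⟩
    · omega

theorem SS.rem : SS n (del u (i + 1)) := by
  have := he.lt
  have s1 : ∀ j < i, seg (del u (i + 1)) j = seg u j := fun j hj => by
    rw [seg, del_le (by omega), del_le (by omega)]
  have s2 : ∀ j, i < j → seg (del u (i + 1)) j = seg u (j + 1) := fun j hj => by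
    rw [seg, del_gt (by omega), del_gt (by omega)]
  have s3 : ∀ z ∈ seg (del u (i + 1)) i, z ∈ Tri (u i) (u (i + 1)) (u (i + 2)) := fun z hz => by
    rw [seg, del_le le_rfl, del_gt (by omega), segment_symm] at hz
    obtain ⟨k1, k2, k3⟩ := seg_bary (ne_cyc he.ne) hz
    exact ⟨k3, k1.ge, k2⟩
  refine ⟨by rw [del_gt (by omega), del_le (by omega), h.cl], fun j hj => ?_,
    fun p q z h1 h2 h3 h4 => ?_⟩
  · rcases lt_trichotomy j i with k | rfl | k
    · rw [del_le (by omega), del_le (by omega)]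
      exact h.ne j (by omega)
    · rw [del_le (by omega), del_gt (by omega)]
      exact (h.good (by omega)).inj (by omega) (by omega) this
    · rw [del_gt (by omega), del_gt (by omega)]
      exact h.ne _ (by omega)
  rw [del_le i.zero_le]
  rcases lt_trichotomy q i with k | rfl | k
  · rw [del_le k.le]
    exact Or.inl ((h.arc p q z h1 (by omega) (s1 p (by omega) ▸ h3) (s1 q k ▸ h4)).resolve_right
      (by omega))
  · rw [del_le le_rfl]
    rcases h.free hn he (by omega) (by omega) (by omega) (s1 p h1 ▸ h3) (s3 z h4) with k | k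
    · exact Or.inl ⟨by omega, k.1⟩
    · omega
  rw [del_gt k]
  rw [s2 q k] at h4
  rcases lt_trichotomy p i with k' | rfl | k'
  · rcases h.arc p (q + 1) z (by omega) (by omega) (s1 p k' ▸ h3) h4 with k | k
    · omega
    · exact Or.inr ⟨k.1, by omega, k.2.2⟩
  · rcases h.free hn he (by omega) (by omega) (by omega) h4 (s3 z h3) with k | k
    · exact Or.inr ⟨by omega, by omega, by rw [k.1, show p = 0 by omega]⟩
    · exact Or.inl ⟨by omega, by rw [k.1, k.2]⟩
  · rcases h.arc (p + 1) (q + 1) z (by omega) (by omega) (s2 p k' ▸ h3) h4 with k | k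
    · exact Or.inl ⟨by omega, k.2⟩
    · omega

theorem SS.update {t l : ℝ} (ht : t ∈ Icc (0 : ℝ) 1) (hl : l ∈ Ioo (0 : ℝ) 1) {y : ℂ}
    (hy : y = (1 - t) • u (i + 1) + t • ((1 - l) • u i + l • u (i + 2))) :
    SS (n + 1) (Function.update u (i + 1) y) := by
  have := he.lt
  obtain ⟨t0, t1⟩ := ht
  obtain ⟨l0, l1⟩ := hl
  have e1 := bary_fst he.ne
  have e2 := bary_fst (ne_cyc he.ne)
  have e3 := bary_fst (ne_cyc (ne_cyc he.ne))
  have y1 : bary (u i) (u (i + 1)) (u (i + 2)) y = t * (1 - l) := by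
    rw [hy, aff _ (by ring), aff _ (by ring)]; simp [e1]
  have y2 : bary (u (i + 1)) (u (i + 2)) (u i) y = 1 - t := by
    rw [hy, aff _ (by ring), aff _ (by ring)]; simp [e2]
  have y3 : bary (u (i + 2)) (u i) (u (i + 1)) y = t * l := by
    rw [hy, aff _ (by ring), aff _ (by ring)]; simp [e3]
  have l2 : 0 < 1 - l := by linarith
  have t2 : 0 ≤ 1 - t := by linarith
  have a1 : ∀ z ∈ segment ℝ (u i) y, z ∈ Tri (u i) (u (i + 1)) (u (i + 2)) ∧ z ≠ u (i + 2) := by
    rintro _ ⟨r, s, r0, s0, e, rfl⟩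
    refine ⟨?_, fun k => ?_⟩
    · simp only [Tri, mem_ofPred_eq, aff _ e, e1, y1, y2, y3, bary_snd, bary_thd]
      refine ⟨?_, ?_, ?_⟩ <;> positivity
    · have := congrArg (bary (u (i + 2)) (u i) (u (i + 1))) k
      rw [aff _ e, e3, y3, bary_snd] at this
      nlinarith [mul_nonneg t0 l0.le, mul_nonneg t2 l0.le]
  have a2 : ∀ z ∈ segment ℝ y (u (i + 2)), z ∈ Tri (u i) (u (i + 1)) (u (i + 2)) ∧ z ≠ u i := by
    rintro _ ⟨r, s, r0, s0, e, rfl⟩
    refine ⟨?_, fun k => ?_⟩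
    · simp only [Tri, mem_ofPred_eq, aff _ e, e3, y1, y2, y3, bary_snd, bary_thd]
      refine ⟨?_, ?_, ?_⟩ <;> positivity
    · have := congrArg (bary (u i) (u (i + 1)) (u (i + 2))) k
      rw [aff _ e, e1, y1, bary_thd] at this
      nlinarith [mul_nonneg t0 l2.le, mul_nonneg t2 l2.le]
  have a3 : ∀ z ∈ segment ℝ (u i) y, z ∈ segment ℝ y (u (i + 2)) → z = y := by
    rintro _ ⟨r, s, r0, s0, e, rfl⟩ ⟨r', s', r0', s0', e', k⟩
    have k1 := congrArg (bary (u i) (u (i + 1)) (u (i + 2))) k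
    have k2 := congrArg (bary (u (i + 2)) (u i) (u (i + 1))) k
    rw [aff _ e, aff _ e', e1, y1, bary_thd] at k1
    rw [aff _ e, aff _ e', e3, y3, bary_snd] at k2
    have k3 : r * l + s' * (1 - l) = 0 := by linear_combination (1 - l) * k2 - l * k1
    obtain rfl : r = 0 := by nlinarith [mul_nonneg s0' l2.le]
    simp_all
  obtain ⟨w, hw⟩ : ∃ w, w = Function.update u (i + 1) y := ⟨_, rfl⟩
  have w1 : ∀ j, j ≠ i + 1 → w j = u j := fun j hj => by rw [hw, Function.update_of_ne hj]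
  have w2 : w (i + 1) = y := by rw [hw, Function.update_self]
  have s1 : ∀ j, j ≠ i → j ≠ i + 1 → seg w j = seg u j := fun j j1 j2 => by
    rw [seg, w1 j j2, w1 _ (by omega)]
  have s2 : seg w i = segment ℝ (u i) y := by rw [seg, w1 i (by omega), w2]
  have s3 : seg w (i + 1) = segment ℝ y (u (i + 2)) := by rw [seg, w1 (i + 1 + 1) (by omega), w2]
  rw [← hw]
  refine ⟨by rw [w1 _ (by omega), w1 _ (by omega), h.cl], fun j hj => ?_,
    fun p q z h1 h2 h3 h4 => ?_⟩
  · by_cases j1 : j = i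
    · rw [j1, w1 _ (by omega), w2]
      exact (a2 y (left_mem_segment ℝ _ _)).2.symm
    by_cases j2 : j = i + 1
    · rw [j2, w2, w1 _ (by omega)]
      exact (a1 y (right_mem_segment ℝ _ _)).2
    rw [w1 j j2, w1 _ (by omega)]
    exact h.ne j hj
  rw [w1 0 (by omega)]
  rcases (by omega : q = i ∨ q = i + 1 ∨ (q ≠ i ∧ q ≠ i + 1)) with rfl | rfl | k
  · rcases h.free hn he (by omega) (by omega) (by omega) (s1 p (by omega) (by omega) ▸ h3)
      (a1 z (s2 ▸ h4)).1 with k | k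
    · exact Or.inl ⟨by omega, by rw [w1 _ (by omega), k.1]⟩
    · omega
  · by_cases k : p = i
    · exact Or.inl ⟨by omega, w2 ▸ a3 z (s2 ▸ k ▸ h3) (s3 ▸ h4)⟩
    rcases h.free hn he (by omega) k (by omega) (s1 p k (by omega) ▸ h3) (a2 z (s3 ▸ h4)).1 with
      k | k
    · exact absurd k.1 (a2 z (s3 ▸ h4)).2
    · omega
  rw [w1 q k.2]
  rw [s1 q k.1 k.2] at h4
  rcases (by omega : p = i ∨ p = i + 1 ∨ (p ≠ i ∧ p ≠ i + 1)) with rfl | rfl | k'
  · rcases h.free hn he (by omega) k.1 k.2 h4 (a1 z (s2 ▸ h3)).1 with k | k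
    · exact Or.inr ⟨by omega, by omega, by rw [k.1, show p = 0 by omega]⟩
    · exact absurd k.1 (a1 z (s2 ▸ h3)).2
  · rcases h.free hn he (by omega) k.1 k.2 h4 (a2 z (s3 ▸ h3)).1 with k | k
    · exact absurd k.1 (a2 z (s3 ▸ h3)).2
    · exact Or.inl ⟨k.2, by rw [k.1, k.2]⟩
  · exact h.arc p q z h1 h2 (s1 p k'.1 k'.2 ▸ h3) h4

end

theorem sm_tri (x y w : ℂ) : sm (tri x y w) (fun p q => (conj p * q).im) = sg x y w := by
  simp only [tri, sm_add, sm_single]
  simp [sg]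
  ring

theorem SS.area (h : SS (n + 3) u) : sm (ch u 0 (n + 3)) (fun p q => (conj p * q).im) ≠ 0 ∧
    ∀ z ∉ supp (ch u 0 (n + 3)),
      0 ≤ sm (ch u 0 (n + 3)) (fun p q => (conj p * q).im) * sm (ch u 0 (n + 3)) (ang z) := by
  induction n generalizing u with
  | zero =>
    obtain ⟨i, he⟩ := (h.good le_rfl).ear
    obtain rfl : i = 0 := by linarith [he.lt]
    rw [h.cyc, cyc_tri, sm_tri]
    exact ⟨he.ne, fun z => tri_nonneg he.ne⟩
  | succ n ih =>
    obtain ⟨i, he⟩ := (h.good (by omega)).ear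
    have i1 := he.lt
    obtain ⟨h1, h2⟩ := ih (h.rem (by omega) he)
    rw [h.rest he.lt] at h1 h2
    rw [h.cyc, sm_split he.le (by omega) he.lt (by simp; ring), cyc_tri, sm_tri]
    generalize sm (Pg.rest u 0 _ i (i + 2)) (fun p q => (conj p * q).im) = A at h1 h2 ⊢
    have e1 := bary_fst he.ne
    have e2 := bary_fst (ne_cyc he.ne)
    have e3 := bary_fst (ne_cyc (ne_cyc he.ne))
    have key : ∀ z ∉ supp (Pg.cyc u 0 (n + 1 + 2)), z ∉ segment ℝ (u i) (u (i + 2)) →
        z ∉ supp (tri (u i) (u (i + 1)) (u (i + 2))) ∧ 0 ≤ A * sm (Pg.rest u 0 (n + 1 + 2) i (i + 2)) (ang z) ∧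
        sm (Pg.cyc u 0 (n + 1 + 2)) (ang z) = sm (tri (u i) (u (i + 1)) (u (i + 2))) (ang z) +
          sm (Pg.rest u 0 (n + 1 + 2) i (i + 2)) (ang z) := fun z z1 z2 => by
      rw [sm_split he.le (by omega) he.lt (ang_rev z2), cyc_tri]
      rw [cyc_eq he.le (by omega) he.lt, supp_add, mem_union, not_or] at z1
      refine ⟨?_, h2 z ?_, rfl⟩
      · rw [← cyc_tri, Pg.cyc, supp_add, supp_single, segment_symm]
        exact not_or.mpr ⟨z1.2, z2⟩
      · rw [Pg.rest, supp_add, supp_single]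
        exact not_or.mpr ⟨z1.1, z2⟩
    have h3 : 0 < sg (u i) (u (i + 1)) (u (i + 2)) * A := by
      obtain ⟨c, hc⟩ : ∃ c, c = (1 / 2 : ℝ) • u i + (1 / 2 : ℝ) • u (i + 2) := ⟨_, rfl⟩
      have e : (1 / 2 : ℝ) + 1 / 2 = 1 := by norm_num
      have c0 : bary (u (i + 1)) (u (i + 2)) (u i) c = 0 := by rw [hc, aff _ e]; simp
      obtain ⟨c1, c2⟩ := he.inside (z := c) (by rw [hc, aff _ e]; simp [e1]) c0.ge
        (by rw [hc, aff _ e]; simp [e3]) (Or.inr (by omega))
      obtain ⟨ε, ε0, -, k⟩ := exists_eps (isClosed_supp _).isOpen_compl c1 0 (c - u (i + 1))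
      rw [smul_zero, add_zero] at k
      have k1 : bary (u (i + 1)) (u (i + 2)) (u i) (c + ε • (c - u (i + 1))) < 0 := by
        rw [show c + ε • (c - u (i + 1)) = (1 + ε) • c + (-ε) • u (i + 1) by module,
          aff _ (by ring), c0, e2]
        linarith
      obtain ⟨-, k2, k3⟩ := key _ (k (right_mem_segment ℝ _ _))
        fun k => k1.ne (seg_bary (ne_cyc he.ne) (by rwa [segment_symm])).1
      rw [wn_const (closed_cyc (by omega)) (convex_segment _ _).isPreconnected k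
        (left_mem_segment ℝ _ _) (right_mem_segment ℝ _ _), k3,
        tri_not he.ne fun k => k1.not_ge k.2.1, zero_add] at c2
      refine (lt_of_le_of_ne ?_ (mul_ne_zero he.ne h1).symm)
      by_contra k4
      nlinarith [mul_pos c2 (neg_pos.mpr (not_le.mp k4)), mul_self_nonneg (sg (u i) (u (i + 1)) (u (i + 2)))]
    refine ⟨fun k => by
      rw [eq_neg_of_add_eq_zero_left k] at h3; nlinarith [mul_self_nonneg A], fun z hz => ?_⟩
    have k0 : ∀ s B w : ℝ, 0 < s * B → 0 ≤ s * w → 0 ≤ B * w := fun s B w k1 k2 => by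
      by_contra k3
      nlinarith [mul_pos k1 (neg_pos.mpr (not_le.mp k3)), mul_nonneg k2 (mul_self_nonneg B)]
    by_cases k : z ∈ segment ℝ (u i) (u (i + 2))
    · obtain ⟨k1, k2, k3⟩ := seg_bary (ne_cyc he.ne) (by rwa [segment_symm])
      rw [cyc_eq he.le (by omega) he.lt, ch_two, supp_add, supp_add, supp_single, supp_single,
        mem_union, mem_union, not_or, not_or] at hz
      have := (he.inside (k3.lt_of_ne fun e => hz.2.2 (mem_seg he.ne e.symm k1.ge k2)) k1.ge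
        (k2.lt_of_ne fun e => hz.2.1 (mem_seg (ne_cyc (ne_cyc he.ne)) e.symm k3 k1.ge))
        (Or.inr (by omega))).2.le
      linarith [k0 _ _ _ h3 this]
    · obtain ⟨k1, k2, k3⟩ := key z hz k
      have k4 := tri_nonneg he.ne k1
      rw [k3]
      linarith [k0 _ _ _ h3 k4, k0 _ _ _ (mul_comm A _ ▸ h3) k2]

end Pg

open Pg

theorem earStmt : EarStmt := by
  intro n v hn hv
  obtain ⟨n, rfl⟩ : ∃ k, n = k + 1 := ⟨n - 1, by omega⟩
  have h := ss_of_simple hv
  obtain ⟨i, he⟩ := (h.good (by omega)).ear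
  exact ⟨i + 1, by omega, by linarith [he.lt], (h.rem (by omega) he).simple, fun t ht l hl =>
    (h.update (by omega) he ht hl (by simp; ring)).simple⟩

theorem triStmt : TriStmt := by
  intro v hv
  obtain ⟨i, he⟩ := ((ss_of_simple hv).good le_rfl).ear
  obtain rfl : i = 0 := by linarith [he.lt]
  exact he.ne

theorem areaStmt : AreaStmt := by
  intro n v z hn hv hz hw
  obtain ⟨n, rfl⟩ : ∃ k, n = k + 3 := ⟨n - 3, by omega⟩
  obtain ⟨h1, h2⟩ := (ss_of_simple hv).area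
  have h3 := h2 z fun k => by
    obtain ⟨j, -, j1, j2⟩ := mem_supp_ch.mp k
    obtain ⟨τ, t1, t2⟩ := mem_seg_edge.mp j2
    exact hz j j1 τ t1 t2
  rw [sm_ch, ← Finset.range_eq_Ico] at h1
  rw [sm_ch, sm_ch, ← Finset.range_eq_Ico] at h3
  exact (nonneg_of_mul_nonneg_left h3 hw).lt_of_ne' h1

end Pool.Agent.Lib.MP_55a7f7_gt
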