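import Pool.Agent.Lib.MP_55a7f7_gt.HamB
import Pool.Agent.Lib.MP_55a7f7_gt.Chord
import Pool.Agent.Lib.MP_55a7f7_gt.Jet
import Pool.Agent.Lib.MP_55a7f7_gt.Planar
import Pool.Agent.Lib.MP_55a7f7_gt.Poly

-- part Pool.Agent.Lib.MP_55a7f7_gt.Ham
section

/-! Part G: rectangles on the Hamiltonian image of a circle of latitude. -/

set_option autoImplicit false

open scoped ContDiff Topology
open Set Real Filter

namespace Pool.Agent.Lib.MP_55a7f7_gt

namespace Ham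

variable {H : ℝ × E3 → ℝ}

variable (H) in
noncomputable def F1 (w : ℝ × E3) : E3 := cr (gr H (w.1, mu w.2)) w.2

variable (H) in
noncomputable def F2 (w : ℝ × E3 × E3) : E3 :=
  bt (inner ℝ w.2.2 w.2.2) • cr (gr H (w.1, mu w.2.1)) w.2.2

variable (H) in
noncomputable def F3 (w : ℝ × E3 × E3) : E3 :=
  (bt (inner ℝ w.2.2 w.2.2) * inner ℝ w.2.2 (hess H (w.1, mu w.2.1) w.2.2)) • cr w.2.1 w.2.2

variable (H) in
/-- uniform bounds -/
structure Bd (L : ℝ) : Prop where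
  pos : 0 ≤ L
  g0 : ∀ w, ‖gr H w‖ ≤ L
  g1 : ∀ t z z', ‖gr H (t, z) - gr H (t, z')‖ ≤ L * ‖z - z'‖
  h1 : ∀ t z z', ‖hess H (t, z) - hess H (t, z')‖ ≤ L * ‖z - z'‖
  f1 : ∀ t z z', ‖F1 H (t, z) - F1 H (t, z')‖ ≤ L * ‖z - z'‖
  f2 : ∀ t z z', ‖F2 H (t, z) - F2 H (t, z')‖ ≤ L * ‖z - z'‖
  f3 : ∀ t z z', ‖F3 H (t, z) - F3 H (t, z')‖ ≤ L * ‖z - z'‖
  f0 : ∀ w, ‖F3 H w‖ ≤ L

theorem cr_zero_left (x : E3) : cr 0 x = 0 := by apply ext3 <;> simp

theorem big {R t : ℝ} {m : E3} (hR : 0 < R) (h : 2 * R + 2 < ‖t‖ ∨ 2 * R + 2 < ‖m‖) :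
    R ≤ ‖(t, mu m)‖ := by
  rcases h with h | h
  · exact le_trans (by linarith) (norm_fst_le (t, mu m))
  · exact le_trans (by rw [norm_mu]; linarith) (norm_snd_le (t, mu m))

theorem exists_bd (hH : ContDiff ℝ ∞ H) (hs : HasCompactSupport H) : ∃ L, Bd H L := by
  have hb : ContDiff ℝ ∞ bt := bt.contDiff
  have hg := gr_smooth hH
  have hh := hess_smooth hH
  obtain ⟨R, hR0, hR⟩ := (gr_supp hH hs).exists_pos_le_norm
  obtain ⟨S, hS0, hS⟩ := (hess_supp hH hs).exists_pos_le_norm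
  have hm : ContDiff ℝ ∞ fun w : ℝ × E3 × E3 => (w.1, mu w.2.1) :=
    contDiff_fst.prodMk (mu_smooth.comp contDiff_snd.fst)
  have hx : ContDiff ℝ ∞ fun w : ℝ × E3 × E3 => bt (inner ℝ w.2.2 w.2.2) :=
    hb.comp (ContDiff.inner ℝ contDiff_snd.snd contDiff_snd.snd)
  obtain ⟨L1, p1, a1, b1⟩ := lip hg (gr_supp hH hs)
  obtain ⟨L2, p2, a2, -⟩ := lip hh (hess_supp hH hs)
  obtain ⟨L3, p3, a3, -⟩ := lip (F := F1 H)
    (ContDiff.cr (hg.comp (contDiff_fst.prodMk (mu_smooth.comp contDiff_snd))) contDiff_snd)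
    (supp_of (2 * R + 2) fun w hw => by
      rw [Prod.norm_def, lt_max_iff] at hw
      rw [F1, hR _ (big hR0 hw), cr_zero_left])
  obtain ⟨L4, p4, a4, -⟩ := lip (F := F2 H)
    (hx.smul (ContDiff.cr (hg.comp hm) contDiff_snd.snd))
    (supp_of (2 * R + 2) fun w hw => by
      rw [Prod.norm_def, Prod.norm_def, lt_max_iff, lt_max_iff, ← or_assoc] at hw
      rcases hw with hw | hw
      · rw [F2, hR _ (big hR0 hw), cr_zero_left, smul_zero]
      · rw [F2, bt_zero (Or.inr (by nlinarith)), zero_smul])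
  obtain ⟨L5, p5, a5, b5⟩ := lip (F := F3 H)
    ((hx.mul (ContDiff.inner ℝ contDiff_snd.snd ((hh.comp hm).clm_apply contDiff_snd.snd))).smul
      (ContDiff.cr contDiff_snd.fst contDiff_snd.snd))
    (supp_of (2 * S + 2) fun w hw => by
      rw [Prod.norm_def, Prod.norm_def, lt_max_iff, lt_max_iff, ← or_assoc] at hw
      rcases hw with hw | hw
      · rw [F3, hS _ (big hS0 hw)]; simp
      · rw [F3, bt_zero (Or.inr (by nlinarith)), zero_mul, zero_smul])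
  refine ⟨L1 + L2 + L3 + L4 + L5, by positivity, fun w => (b1 w).trans (by linarith),
    fun t z z' => (a1 t z z').trans ?_, fun t z z' => (a2 t z z').trans ?_,
    fun t z z' => (a3 t z z').trans ?_, fun t z z' => (a4 t z z').trans ?_,
    fun t z z' => (a5 t z z').trans ?_, fun w => (b5 w).trans (by linarith)⟩ <;>
  exact mul_le_mul_of_nonneg_right (by linarith) (norm_nonneg _)

/-- properties of the cut-off function -/
structure Cut (χ : ℝ → ℝ) (s' ε : ℝ) : Prop where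
  pos : 0 < s'
  smooth : ContDiff ℝ ∞ χ
  mem : ∀ σ, 0 ≤ χ σ ∧ χ σ ≤ 1
  zero : ∀ σ ≤ s', χ σ = 0
  der : ∀ σ, |deriv χ σ * σ| ≤ ε

theorem Cut.cases {χ : ℝ → ℝ} {s' ε : ℝ} (h : Cut χ s' ε) (m : E3) :
    (χ (sg m) = 0 ∧ deriv χ (sg m) = 0) ∨ (0 < sg m ∧ ‖m‖ ≤ 2) := by
  rcases lt_or_ge (sg m) s' with h1 | h1
  · left
    refine ⟨h.zero _ h1.le, ?_⟩
    rw [(chi_ev h.zero h1).deriv_eq]; simp
  · right
    have := h.pos.trans_le h1
    refine ⟨this, (abs_le_of_sq_le_sq' ?_ (by norm_num)).2⟩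
    rw [sg_eq] at this
    linarith

theorem norm_cr_le' {a b : E3} {A B : ℝ} (ha : ‖a‖ ≤ A) (hb : ‖b‖ ≤ B) : ‖cr a b‖ ≤ A * B :=
  (norm_cr_le a b).trans (mul_le_mul ha hb (norm_nonneg _) ((norm_nonneg _).trans ha))

theorem norm_smul_le' {c C A : ℝ} {a : E3} (hc : |c| ≤ C) (ha : ‖a‖ ≤ A) : ‖c • a‖ ≤ C * A := by
  rw [norm_smul]
  exact mul_le_mul hc ha (norm_nonneg _) ((abs_nonneg _).trans hc)

section est

variable {L : ℝ} {χ : ℝ → ℝ} {s' ε : ℝ} {t : ℝ} {x m : E3}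

theorem Ee_le (b : Bd H L) (hx : ‖x‖ = 1) : ‖Ee H t x m‖ ≤ 2 * L * √(sg m) := by
  have := b.g1 t (mu m + √(sg m) • x) (mu m - √(sg m) • x)
  rw [(norm_pm hx _ (sqrt_nonneg _)).2.2] at this
  exact this.trans (le_of_eq (by ring))

theorem Ee_le' (b : Bd H L) : ‖Ee H t x m‖ ≤ 2 * L :=
  (norm_sub_le _ _).trans ((add_le_add (b.g0 (t, mu m + √(sg m) • x))
    (b.g0 (t, mu m - √(sg m) • x))).trans (le_of_eq (by ring)))

theorem Yy_le (b : Bd H L) (hx : ‖x‖ = 1) : ‖Yy H t x m‖ ≤ L * √(sg m) := by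
  have h1 := b.g1 t (mu m + √(sg m) • x) (mu m)
  have h2 := b.g1 t (mu m - √(sg m) • x) (mu m)
  rw [(norm_pm hx _ (sqrt_nonneg _)).1] at h1
  rw [(norm_pm hx _ (sqrt_nonneg _)).2.1] at h2
  have e : Yy H t x m = (1 / 2 : ℝ) • ((gr H (t, mu m + √(sg m) • x) - gr H (t, mu m)) +
      (gr H (t, mu m - √(sg m) • x) - gr H (t, mu m))) := by
    simp only [Yy, gr]; module
  rw [e]
  refine (norm_smul_le' (C := 1 / 2) (by norm_num [abs_of_pos])
    ((norm_add_le _ _).trans (add_le_add h1 h2))).trans (le_of_eq (by ring))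

theorem dsg_eq : -(inner ℝ m (cr (Gm H χ t x m) m + cr (Gx H χ t x m) x) / 2) =
    -(χ (sg m) * √(sg m) * inner ℝ m (cr (Ee H t x m) x) / 2) := by
  simp only [Gx, inner3, cr_zero, cr_one, cr_two, PiLp.add_apply, PiLp.smul_apply, smul_eq_mul]
  ring

theorem est_sg (b : Bd H L) (c : Cut χ s' ε) (hx : ‖x‖ = 1) :
    |-(χ (sg m) * √(sg m) * inner ℝ m (cr (Ee H t x m) x) / 2)| ≤ 2 * L * |sg m| := by
  have hL := b.pos
  rcases c.cases m with h | h
  · rw [h.1]; simp only [zero_mul, zero_div, neg_zero, abs_zero]; positivity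
  · have h1 : |inner ℝ m (cr (Ee H t x m) x)| ≤ 2 * (2 * L * √(sg m) * 1) :=
      (abs_real_inner_le_norm _ _).trans (mul_le_mul h.2 (norm_cr_le' (Ee_le b hx) hx.le)
        (norm_nonneg _) (by norm_num))
    rw [abs_neg, abs_div, abs_mul, abs_mul, abs_of_nonneg (c.mem _).1,
      abs_of_nonneg (sqrt_nonneg _), abs_of_pos h.1, abs_two]
    have h2 := (c.mem (sg m)).2
    calc _ ≤ 1 * √(sg m) * (2 * (2 * L * √(sg m) * 1)) / 2 := by gcongr
      _ = 2 * L * (√(sg m) * √(sg m)) := by ring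
      _ = _ := by rw [mul_self_sqrt h.1.le]

theorem est_m (b : Bd H L) (c : Cut χ s' ε) (hx : ‖x‖ = 1) {r : ℝ} (hr : 0 ≤ r)
    (h : sg m ≤ r ^ 2) :
    ‖cr (Gm H χ t x m) m + cr (Gx H χ t x m) x - F1 H (t, m)‖ ≤ 4 * L * r := by
  have hL := b.pos
  have hs : √(sg m) ≤ r := sqrt_le_iff.2 ⟨hr, h⟩
  have e : cr (Gm H χ t x m) m + cr (Gx H χ t x m) x - F1 H (t, m) =
      χ (sg m) • (cr (Yy H t x m) m + √(sg m) • cr (Ee H t x m) x) := by
    apply ext3 <;> simp [Gm, Gx, F1, gr] <;> ring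
  rw [e]
  rcases c.cases m with h | h
  · rw [h.1, zero_smul, norm_zero]; positivity
  · have h1 := norm_cr_le' (Yy_le (t := t) (m := m) b hx) h.2
    have h2 := norm_smul_le' ((abs_of_nonneg (sqrt_nonneg _)).trans_le hs)
      (norm_cr_le' (Ee_le' (t := t) (x := x) (m := m) b) hx.le)
    refine (norm_smul_le' ((abs_of_nonneg (c.mem _).1).trans_le (c.mem _).2)
      ((norm_add_le _ _).trans (add_le_add h1 h2))).trans ?_
    nlinarith [mul_le_mul_of_nonneg_left hs hL]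

theorem est_x (hH : ContDiff ℝ ∞ H) (b : Bd H L) (c : Cut χ s' ε) (hx : ‖x‖ = 1) {r : ℝ}
    (hr : 0 ≤ r) (h : sg m ≤ r ^ 2) :
    ‖cr (Gm H χ t x m) x - (F2 H (t, m, x) - (χ (sg m) / 2) • F3 H (t, m, x))‖ ≤
      2 * L * r + 2 * L * ε := by
  have hL := b.pos
  have hε : 0 ≤ ε := (abs_nonneg _).trans (c.der 0)
  have hs : √(sg m) ≤ r := sqrt_le_iff.2 ⟨hr, h⟩
  have e : cr (Gm H χ t x m) x - (F2 H (t, m, x) - (χ (sg m) / 2) • F3 H (t, m, x)) =
      χ (sg m) • cr (Yy H t x m) x - (deriv χ (sg m) * Dd H t x m / 2 + χ (sg m) *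
        (inner ℝ x (Ee H t x m) / (4 * √(sg m)) - inner ℝ x (hess H (t, mu m) x) / 2)) • cr m x := by
    simp only [F2, F3, bt_one hx]
    apply ext3 <;> simp [Gm, gr] <;> ring
  rw [e]
  rcases c.cases m with h | h
  · rw [h.1, h.2]; simp only [zero_smul, zero_mul, zero_div, add_zero, sub_zero, norm_zero]
    positivity
  · have hsq := sqrt_pos.2 h.1
    have h1 := norm_smul_le' ((abs_of_nonneg (c.mem _).1).trans_le (c.mem (sg m)).2)
      (norm_cr_le' (Yy_le (t := t) (m := m) b hx) hx.le)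
    have h2 : |deriv χ (sg m) * Dd H t x m / 2| ≤ L * ε := by
      have t1 := taylor1 hH hL b.g1 t (mu m) hx (sqrt_nonneg (sg m))
      rw [sq_sqrt h.1.le] at t1
      have t2 := c.der (sg m)
      rw [abs_mul, abs_of_pos h.1] at t2
      rw [abs_div, abs_mul, abs_two]
      calc _ ≤ |deriv χ (sg m)| * (2 * L * sg m) / 2 := by gcongr; exact t1
        _ = L * (|deriv χ (sg m)| * sg m) := by ring
        _ ≤ _ := by gcongr
    have h3 : |inner ℝ x (Ee H t x m) / (4 * √(sg m)) - inner ℝ x (hess H (t, mu m) x) / 2| ≤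
        L * r / 2 := by
      have t1 := taylor2 hH hL b.h1 t (mu m) hx (sqrt_nonneg (sg m))
      have e1 : inner ℝ x (Ee H t x m) / (4 * √(sg m)) - inner ℝ x (hess H (t, mu m) x) / 2 =
          (inner ℝ x (Ee H t x m) - 2 * √(sg m) * inner ℝ x (hess H (t, mu m) x)) /
            (4 * √(sg m)) := by field_simp; ring
      rw [e1, abs_div, abs_of_pos (by positivity : 0 < 4 * √(sg m)), div_le_iff₀ (by positivity)]
      refine t1.trans ?_
      nlinarith [mul_le_mul_of_nonneg_left hs (mul_nonneg hL hsq.le)]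
    have h4 : |χ (sg m) * (inner ℝ x (Ee H t x m) / (4 * √(sg m)) -
        inner ℝ x (hess H (t, mu m) x) / 2)| ≤ L * r / 2 := by
      rw [abs_mul, abs_of_nonneg (c.mem _).1]
      exact (mul_le_of_le_one_left (abs_nonneg _) (c.mem _).2).trans h3
    have h5 := norm_smul_le' ((abs_add_le _ _).trans (add_le_add h2 h4)) (norm_cr_le' h.2 hx.le)
    refine (norm_sub_le _ _).trans ((add_le_add h1 h5).trans ?_)
    nlinarith [mul_le_mul_of_nonneg_left hs hL]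

end est

variable (H) in
/-- the explicit reduced system -/
def Sys (χ : ℝ → ℝ) (x m : ℝ → E3) : Prop :=
  ∀ t ∈ Icc (0 : ℝ) 1, ‖x t‖ = 1 ∧ inner ℝ (x t) (m t) = 0 ∧
    HasDerivAt x (cr (Gm H χ t (x t) (m t)) (x t)) t ∧
    HasDerivAt m (cr (Gm H χ t (x t) (m t)) (m t) + cr (Gx H χ t (x t) (m t)) (x t)) t

section orbit

variable {L : ℝ} {χ : ℝ → ℝ} {s' ε : ℝ} {x m y n : ℝ → E3}

theorem I0 : (0 : ℝ) ∈ Icc (0 : ℝ) 1 := ⟨le_rfl, zero_le_one⟩

theorem I1 : (1 : ℝ) ∈ Icc (0 : ℝ) 1 := ⟨zero_le_one, le_rfl⟩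

theorem Sys.dsg (h : Sys H χ x m) {t : ℝ} (ht : t ∈ Icc (0 : ℝ) 1) :
    HasDerivAt (fun t => sg (m t))
      (-(χ (sg (m t)) * √(sg (m t)) * inner ℝ (m t) (cr (Ee H t (x t) (m t)) (x t)) / 2)) t :=
  dsg_eq ▸ hasDerivAt_sg (h t ht).2.2.2

theorem Sys.comp (h : Sys H χ x m) (b : Bd H L) (c : Cut χ s' ε) {u v : ℝ}
    (hu : u ∈ Icc (0 : ℝ) 1) (hv : v ∈ Icc (0 : ℝ) 1) :
    |sg (m v)| ≤ exp (2 * L) * |sg (m u)| := by
  have := gron (f := fun t => sg (m t)) (K := 2 * L) (ε := 0) (by linarith [b.pos]) le_rfl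
    (fun t ht => ⟨_, h.dsg ht, by
      rw [add_zero]; exact est_sg b c (h t ht).1⟩) hu hv
  simpa using this

theorem Sys.ivt (h : Sys H χ x m) {t v : ℝ} (ht : t ∈ Icc (0 : ℝ) 1)
    (hv : v ∈ uIcc (sg (m t)) (sg (m 1))) : ∃ u ∈ Icc (0 : ℝ) 1, sg (m u) = v := by
  have hsub : uIcc t 1 ⊆ Icc 0 1 := uIcc_subset_Icc ht I1
  obtain ⟨u, hu, e⟩ := intermediate_value_uIcc (f := fun t => sg (m t)) (a := t) (b := 1)
    (fun u hu => (h.dsg (hsub hu)).continuousAt.continuousWithinAt) hv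
  exact ⟨u, hsub hu, e⟩

theorem Sys.lower (h : Sys H χ x m) (b : Bd H L) (c : Cut χ s' ε) {s : ℝ} (hs : 0 < s)
    (h1 : exp (2 * L) * s ≤ sg (m 1)) {t : ℝ} (ht : t ∈ Icc (0 : ℝ) 1) : s ≤ sg (m t) := by
  by_contra hc
  push Not at hc
  have e1 : s ≤ exp (2 * L) * s := le_mul_of_one_le_left hs.le (one_le_exp (by linarith [b.pos]))
  obtain ⟨u, hu, e⟩ := h.ivt (v := max (sg (m t)) 0) ht
    (mem_uIcc_of_le (le_max_left _ _) (max_le (by linarith) (by linarith)))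
  have := h.comp b c hu I1
  rw [e, abs_of_nonneg (le_max_right (sg (m t)) 0)] at this
  have h2 : exp (2 * L) * max (sg (m t)) 0 < exp (2 * L) * s :=
    mul_lt_mul_of_pos_left (max_lt hc hs) (exp_pos _)
  linarith [le_abs_self (sg (m 1))]

theorem Sys.upper (h : Sys H χ x m) (b : Bd H L) (c : Cut χ s' ε) {s : ℝ} (hs : 0 < s)
    (h1 : sg (m 1) ≤ s) {t : ℝ} (ht : t ∈ Icc (0 : ℝ) 1) : sg (m t) ≤ exp (2 * L) * s := by
  by_contra hc
  push Not at hc
  have e1 : s ≤ exp (2 * L) * s := le_mul_of_one_le_left hs.le (one_le_exp (by linarith [b.pos]))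
  obtain ⟨u, hu, e⟩ := h.ivt (v := s) ht (mem_uIcc_of_ge h1 (by linarith))
  have := h.comp b c hu ht
  rw [e, abs_of_pos hs] at this
  linarith [le_abs_self (sg (m t))]

theorem id_p {x m a b g : E3} {s : ℝ} (hs : s ≠ 0) (hx : ‖x‖ = 1) (hm : inner ℝ x m = 0)
    {G E : E3} (hE : E = a - b)
    (hG : G = g + ((1 / 2 : ℝ) • (a + b) - g) - (inner ℝ x E / (4 * s)) • m) :
    mu (cr G m + cr (s • E) x) + (s • cr G x + (-(s * inner ℝ m (cr E x) / 2) / (2 * s)) • x) =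
      cr a (mu m + s • x) ∧
    mu (cr G m + cr (s • E) x) - (s • cr G x + (-(s * inner ℝ m (cr E x) / 2) / (2 * s)) • x) =
      cr b (mu m - s • x) := by
  have h1 := norm_sq3 x
  rw [hx] at h1
  rw [inner3] at hm
  have e1 : s * (inner ℝ x E / (4 * s)) = inner ℝ x E / 4 := by field_simp
  have e2 : -(s * inner ℝ m (cr E x) / 2) / (2 * s) = -(inner ℝ m (cr E x) / 4) := by
    field_simp; ring
  rw [e2]
  generalize inner ℝ x E / (4 * s) = l at e1 hG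
  subst hG
  have ha : a = b + E := by rw [hE]; abel
  subst ha
  simp only [inner3, cr_zero, cr_one, cr_two] at e1 ⊢
  constructor <;> apply ext3 <;>
    simp only [mu, cr_zero, cr_one, cr_two, PiLp.add_apply, PiLp.sub_apply, PiLp.smul_apply,
      smul_eq_mul]
  · linear_combination (-(m 1 * x 2 - m 2 * x 1)) * e1 - (E 1 * m 2 - E 2 * m 1) / 4 * h1 -
      (E 1 * x 2 - E 2 * x 1) / 4 * hm
  · linear_combination (-(m 2 * x 0 - m 0 * x 2)) * e1 - (E 2 * m 0 - E 0 * m 2) / 4 * h1 -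
      (E 2 * x 0 - E 0 * x 2) / 4 * hm
  · linear_combination (-(m 0 * x 1 - m 1 * x 0)) * e1 - (E 0 * m 1 - E 1 * m 0) / 4 * h1 -
      (E 0 * x 1 - E 1 * x 0) / 4 * hm
  · linear_combination (m 1 * x 2 - m 2 * x 1) * e1 + (E 1 * m 2 - E 2 * m 1) / 4 * h1 +
      (E 1 * x 2 - E 2 * x 1) / 4 * hm
  · linear_combination (m 2 * x 0 - m 0 * x 2) * e1 + (E 2 * m 0 - E 0 * m 2) / 4 * h1 +
      (E 2 * x 0 - E 0 * x 2) / 4 * hm
  · linear_combination (m 0 * x 1 - m 1 * x 0) * e1 + (E 0 * m 1 - E 1 * m 0) / 4 * h1 +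
      (E 0 * x 1 - E 1 * x 0) / 4 * hm

theorem norm_p {x m : E3} (hx : ‖x‖ = 1) (hm : inner ℝ x m = 0) (hσ : 0 ≤ sg m) (e : ℝ)
    (he : e ^ 2 = 1) : ‖mu m + (e * √(sg m)) • x‖ = 1 := by
  refine (sq_eq_sq₀ (norm_nonneg _) zero_le_one).1 ?_
  have h1 := norm_sq3 x
  have h2 := sq_sqrt hσ
  rw [hx] at h1
  rw [inner3] at hm
  rw [norm_sq3]
  generalize √(sg m) = s at h2
  rw [sg, inner3] at h2
  simp only [mu, PiLp.add_apply, PiLp.smul_apply, smul_eq_mul]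
  linear_combination e * s * hm - e ^ 2 * s ^ 2 * h1 + s ^ 2 * he + h2

theorem Sys.large (h : Sys H χ x m) {s z : ℝ} (hs : 0 < s) (h1 : ∀ σ, s ≤ σ → χ σ = 1)
    (hσ : ∀ t ∈ Icc (0 : ℝ) 1, s < sg (m t)) (hx : x 0 2 = 0) (hm : m 0 2 = 2 * z) {Γ : Set E3}
    (hΓ : ∀ p : ℝ → E3, ‖p 0‖ = 1 → p 0 2 = z →
      (∀ t ∈ Icc (0 : ℝ) 1, HasDerivAt p (cr (grad H t (p t)) (p t)) t) → p 1 ∈ Γ) :
    mu (m 1) + √(sg (m 1)) • x 1 ∈ Γ ∧ mu (m 1) - √(sg (m 1)) • x 1 ∈ Γ := by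
  have key : ∀ t ∈ Icc (0 : ℝ) 1,
      HasDerivAt (fun t => mu (m t) + √(sg (m t)) • x t)
        (cr (grad H t (mu (m t) + √(sg (m t)) • x t)) (mu (m t) + √(sg (m t)) • x t)) t ∧
      HasDerivAt (fun t => mu (m t) - √(sg (m t)) • x t)
        (cr (grad H t (mu (m t) - √(sg (m t)) • x t)) (mu (m t) - √(sg (m t)) • x t)) t := by
    intro t ht
    obtain ⟨a1, a2, a3, a4⟩ := h t ht
    have hpos := hs.trans (hσ t ht)
    have c1 : χ (sg (m t)) = 1 := h1 _ (hσ t ht).le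
    have c2 : deriv χ (sg (m t)) = 0 := by
      have : χ =ᶠ[𝓝 (sg (m t))] fun _ => 1 := by
        filter_upwards [lt_mem_nhds (hσ t ht)] with v hv using h1 v hv.le
      rw [this.deriv_eq]; simp
    have d1 : HasDerivAt (fun t => mu (m t)) (mu _) t := a4.const_smul (1 / 2 : ℝ)
    have d2 := ((h.dsg ht).sqrt hpos.ne').smul a3
    have e := id_p (G := Gm H χ t (x t) (m t)) (E := Ee H t (x t) (m t))
      (g := grad H t (mu (m t))) (sqrt_pos.2 hpos).ne' a1 a2 rfl (by simp [Gm, Yy, c1, c2])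
    simp only [Gx, c1, one_mul] at d1 d2
    exact ⟨(d1.add d2).congr_deriv e.1, (d1.sub d2).congr_deriv e.2⟩
  obtain ⟨a1, a2, -⟩ := h 0 I0
  have hp := (hs.trans (hσ 0 I0)).le
  refine ⟨hΓ (fun t => mu (m t) + √(sg (m t)) • x t) ?_ ?_ fun t ht => (key t ht).1,
    hΓ (fun t => mu (m t) - √(sg (m t)) • x t) ?_ ?_ fun t ht => (key t ht).2⟩
  · simpa using norm_p a1 a2 hp 1 (by norm_num)
  · simp [mu, hx, hm]
  · simpa [sub_eq_add_neg] using norm_p a1 a2 hp (-1) (by norm_num)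
  · simp [mu, hx, hm]

theorem init_close {x y m n : E3} {z δ κ : ℝ} (hx : ‖x‖ = 1) (hy : ‖y‖ = 1) (x2 : x 2 = 0)
    (y2 : y 2 = 0) (hm : inner ℝ x m = 0) (hn : inner ℝ y n = 0) (m2 : m 2 = 2 * z)
    (hκ : 0 < κ) (hκ' : κ ^ 2 = 1 - z ^ 2) (hσ : sg m ≤ κ ^ 2 / 2) (hδ : ‖m - n‖ ≤ δ) :
    ∃ e : ℝ, e ^ 2 = 1 ∧ ‖x - e • y‖ ≤ δ / κ := by
  have hδ0 : 0 ≤ δ := (norm_nonneg _).trans hδ
  have h1 : inner ℝ y m ^ 2 ≤ δ ^ 2 := by
    have := (abs_inner_le hy (m - n)).trans hδ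
    rw [inner_sub_right, hn, sub_zero] at this
    exact sq_le_sq' (abs_le.1 this).1 (abs_le.1 this).2
  have nx := norm_sq3 x
  have ny := norm_sq3 y
  rw [hx, x2] at nx
  rw [hy, y2] at ny
  rw [inner3, x2] at hm
  rw [inner3, y2] at h1
  rw [sg, inner3, m2] at hσ
  set c := x 0 * y 0 + x 1 * y 1 with hc
  have e1 : (y 0 * m 0 + y 1 * m 1 + 0 * m 2) ^ 2 = (m 0 ^ 2 + m 1 ^ 2) * (1 - c ^ 2) := by
    have k0 : m 0 = -(x 0 * m 1 - x 1 * m 0) * x 1 := by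
      linear_combination x 0 * hm + m 0 * nx
    have k1 : m 1 = (x 0 * m 1 - x 1 * m 0) * x 0 := by
      linear_combination x 1 * hm + m 1 * nx
    generalize x 0 * m 1 - x 1 * m 0 = w at k0 k1
    rw [k0, k1, hc]
    have k2 : 1 - (x 0 * y 0 + x 1 * y 1) ^ 2 = (x 0 * y 1 - x 1 * y 0) ^ 2 := by
      linear_combination (y 0 ^ 2 + y 1 ^ 2) * nx + ny
    rw [k2]
    linear_combination w ^ 2 * (x 0 * y 1 - x 1 * y 0) ^ 2 * nx
  have c1 : c ^ 2 ≤ 1 := by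
    have : 1 - c ^ 2 = (x 0 * y 1 - x 1 * y 0) ^ 2 := by
      rw [hc]; linear_combination (y 0 ^ 2 + y 1 ^ 2) * nx + ny
    nlinarith [sq_nonneg (x 0 * y 1 - x 1 * y 0)]
  have h2 : 2 * κ ^ 2 * (1 - c ^ 2) ≤ δ ^ 2 := by
    refine le_trans ?_ (e1 ▸ h1)
    gcongr
    nlinarith
  obtain ⟨e, he, hec⟩ : ∃ e : ℝ, e ^ 2 = 1 ∧ e * c = |c| := by
    rcases le_total 0 c with h | h
    · exact ⟨1, by norm_num, by rw [abs_of_nonneg h, one_mul]⟩
    · exact ⟨-1, by norm_num, by rw [abs_of_nonpos h]; ring⟩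
  refine ⟨e, he, (abs_le_of_sq_le_sq' ?_ (by positivity)).2⟩
  have e2 : ‖x - e • y‖ ^ 2 = 2 - 2 * |c| := by
    rw [norm_sq3, ← hec, hc]
    simp only [PiLp.sub_apply, PiLp.smul_apply, smul_eq_mul, x2, y2]
    linear_combination (-1 : ℝ) * nx - e ^ 2 * ny + he
  rw [e2, div_pow, le_div_iff₀ (by positivity)]
  have c2 : |c| ≤ 1 := abs_le_one_iff_mul_self_le_one.2 (by nlinarith)
  have c3 : c ^ 2 ≤ |c| := by rw [← sq_abs]; nlinarith [abs_nonneg c]
  nlinarith [sq_nonneg κ]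

theorem odd23 {e : ℝ} (he : e ^ 2 = 1) (t : ℝ) (n y : E3) :
    F2 H (t, n, e • y) = e • F2 H (t, n, y) ∧ F3 H (t, n, e • y) = e • F3 H (t, n, y) := by
  have h1 : inner ℝ (e • y) (e • y) = inner ℝ y y := by
    rw [real_inner_smul_left, real_inner_smul_right, ← mul_assoc, ← sq, he, one_mul]
  have h2 : ∀ B : E3 →L[ℝ] E3, inner ℝ (e • y) (B (e • y)) = inner ℝ y (B y) := fun B => by
    rw [map_smul, real_inner_smul_left, real_inner_smul_right, ← mul_assoc, ← sq, he, one_mul]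
  simp only [F2, F3, h1, h2]
  constructor <;> apply ext3 <;> simp <;> ring

theorem Sys.small (hH : ContDiff ℝ ∞ H) (b : Bd H L) {r : ℝ} (c : Cut χ s' r) (h : Sys H χ x m)
    (h' : Sys H χ y n) (hr : 0 ≤ r) (hσ : ∀ t ∈ Icc (0 : ℝ) 1, sg (m t) ≤ r ^ 2)
    (hσ' : ∀ t ∈ Icc (0 : ℝ) 1, sg (n t) ≤ r ^ 2) (h1 : m 1 = n 1) {z κ : ℝ} (x2 : x 0 2 = 0)
    (y2 : y 0 2 = 0) (m2 : m 0 2 = 2 * z) (hκ : 0 < κ) (hκ' : κ ^ 2 = 1 - z ^ 2)
    (hrκ : r ^ 2 ≤ κ ^ 2 / 2) : ∃ e : ℝ, e ^ 2 = 1 ∧ ‖x 1 - e • y 1‖ ≤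
      exp (2 * L) * (exp L * (8 * L) / κ + (2 * L * (exp L * (8 * L)) + 2 * L ^ 2 + 8 * L)) * r := by
  have hL := b.pos
  have dm : ∀ t ∈ Icc (0 : ℝ) 1, ‖m t - n t‖ ≤ exp L * (8 * L) * r := by
    intro t ht
    have := gron (f := fun t => m t - n t) (K := L) (ε := 8 * L * r) hL (by positivity)
      (fun t ht => ⟨_, (h t ht).2.2.2.sub (h' t ht).2.2.2, by
        have a1 := est_m (t := t) b c (h t ht).1 hr (hσ t ht)
        have a2 := est_m (t := t) b c (h' t ht).1 hr (hσ' t ht)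
        have a3 := b.f1 t (m t) (n t)
        have e : ∀ u v A B : E3, u - v = (u - A) - (v - B) + (A - B) := fun u v A B => by abel
        rw [e _ _ (F1 H (t, m t)) (F1 H (t, n t))]
        refine (norm_add_le _ _).trans ((add_le_add (norm_sub_le _ _) le_rfl).trans ?_)
        linarith⟩) I1 ht
    simpa [h1, mul_assoc] using this
  have dk0 : ∀ {x m : ℝ → E3}, Sys H χ x m → ∀ t ∈ Icc (0 : ℝ) 1, ∃ d,
      HasDerivAt (fun t => χ (sg (m t))) d t ∧ |d| ≤ 2 * L * r := by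
    intro x m h t ht
    refine ⟨_, (c.smooth.differentiable (by simp) _).hasDerivAt.comp t (h.dsg ht), ?_⟩
    have a1 := est_sg (t := t) (m := m t) b c (h t ht).1
    have a2 := c.der (sg (m t))
    rw [abs_mul] at a2 ⊢
    calc _ ≤ |deriv χ (sg (m t))| * (2 * L * |sg (m t)|) := by gcongr
      _ = 2 * L * (|deriv χ (sg (m t))| * |sg (m t)|) := by ring
      _ ≤ _ := by gcongr
  have dk : ∀ t ∈ Icc (0 : ℝ) 1, |χ (sg (m t)) - χ (sg (n t))| ≤ 4 * L * r := by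
    intro t ht
    have := gron (f := fun t => χ (sg (m t)) - χ (sg (n t))) (K := 0) (ε := 4 * L * r) le_rfl
      (by positivity) (fun t ht => by
        obtain ⟨d, a1, a2⟩ := dk0 h t ht
        obtain ⟨d', a3, a4⟩ := dk0 h' t ht
        refine ⟨_, a1.sub a3, ?_⟩
        have := abs_sub d d'
        rw [Real.norm_eq_abs]
        linarith) I1 ht
    simpa [h1] using this
  obtain ⟨e, he, h0⟩ := init_close (h 0 I0).1 (h' 0 I0).1 x2 y2 (h 0 I0).2.1 (h' 0 I0).2.1 m2 hκ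
    hκ' ((hσ 0 I0).trans hrκ) (dm 0 I0)
  have he' : |e| = 1 := by
    rw [← sq_eq_sq₀ (abs_nonneg _) zero_le_one, sq_abs, he, one_pow]
  refine ⟨e, he, ?_⟩
  have := gron (f := fun t => x t - e • y t) (K := 2 * L)
    (ε := (2 * L * (exp L * (8 * L)) + 2 * L ^ 2 + 8 * L) * r) (by positivity) (by positivity)
    (fun t ht => ⟨_, (h t ht).2.2.1.sub ((h' t ht).2.2.1.const_smul e), by
      have a1 := est_x (t := t) hH b c (h t ht).1 hr (hσ t ht)
      have a2 := norm_smul_le' he'.le (est_x (t := t) hH b c (h' t ht).1 hr (hσ' t ht))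
      have n1 : ‖(m t, x t) - (n t, e • y t)‖ ≤ exp L * (8 * L) * r + ‖x t - e • y t‖ := by
        rw [Prod.mk_sub_mk, Prod.norm_mk]
        exact max_le (by linarith [dm t ht, norm_nonneg (x t - e • y t)])
          (le_add_of_nonneg_left (by positivity))
      have a3 := (b.f2 t (m t, x t) (n t, e • y t)).trans (mul_le_mul_of_nonneg_left n1 hL)
      have a4 := norm_smul_le' (c := χ (sg (m t)) / 2) (C := 1) (by
          rw [abs_of_nonneg (by linarith [(c.mem (sg (m t))).1])]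
          linarith [(c.mem (sg (m t))).2])
        ((b.f3 t (m t, x t) (n t, e • y t)).trans (mul_le_mul_of_nonneg_left n1 hL))
      have a5 := norm_smul_le' (c := (χ (sg (m t)) - χ (sg (n t))) / 2) (C := 2 * L * r) (by
          rw [abs_div, abs_two]
          linarith [dk t ht]) (b.f0 (t, n t, e • y t))
      rw [(odd23 he t _ _).1] at a3
      rw [(odd23 he t _ _).2] at a4 a5
      have e1 : ∀ (u v A B C D : E3) (k k' : ℝ), u - e • v = (u - (A - (k / 2) • C)) -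
          e • (v - (B - (k' / 2) • D)) + (A - e • B) - (k / 2) • (C - e • D) -
          ((k - k') / 2) • e • D := fun u v A B C D k k' => by module
      rw [e1 _ _ (F2 H (t, m t, x t)) (F2 H (t, n t, y t)) (F3 H (t, m t, x t))
        (F3 H (t, n t, y t)) (χ (sg (m t))) (χ (sg (n t)))]
      refine (norm_sub_le _ _).trans ((add_le_add ((norm_sub_le _ _).trans (add_le_add
        ((norm_add_le _ _).trans (add_le_add ((norm_sub_le _ _).trans (add_le_add a1 a2)) a3)) a4))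
        a5).trans (le_of_eq ?_))
      ring⟩) I0 I1
  refine this.trans ?_
  rw [mul_assoc (exp (2 * L))]
  gcongr
  refine (add_le_add h0 le_rfl).trans (le_of_eq ?_)
  ring

end orbit

end Ham

open Ham in
theorem hamStmt (hA : ChordStmt) : HamStmt := by
  intro H hH hs z θ hz h0 hπ Γ hΓ
  obtain ⟨L, b⟩ := exists_bd hH hs
  have hL := b.pos
  have hz2 : 0 < 1 - z ^ 2 := by nlinarith [abs_lt.1 hz]
  set κ := √(1 - z ^ 2) with hκdef
  have hκ : 0 < κ := sqrt_pos.2 hz2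
  have hκ' : κ ^ 2 = 1 - z ^ 2 := sq_sqrt hz2.le
  have hcos : |cos θ| < 1 := by
    have := sin_pos_of_pos_of_lt_pi h0 hπ
    rw [← sq_lt_one_iff_abs_lt_one]
    nlinarith [sin_sq_add_cos_sq θ]
  set d := √(2 - 2 * |cos θ|) with hd
  have hd0 : 0 < d := sqrt_pos.2 (by linarith)
  set C := exp (2 * L) * (exp L * (8 * L) / κ + (2 * L * (exp L * (8 * L)) + 2 * L ^ 2 + 8 * L))
    with hC
  have hC0 : 0 ≤ C := by positivity
  obtain ⟨r, hr, hr1, hr2⟩ : ∃ r : ℝ, 0 < r ∧ C * r < d ∧ r ^ 2 ≤ κ ^ 2 / 2 := by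
    refine ⟨min (d / (C + 1)) (κ / 2), by positivity, ?_, ?_⟩
    · calc _ ≤ C * (d / (C + 1)) := by gcongr; exact min_le_left _ _
        _ < (C + 1) * (d / (C + 1)) := by gcongr; linarith
        _ = d := by field_simp
    · calc _ ≤ (κ / 2) ^ 2 := by gcongr; exact min_le_right _ _
        _ ≤ _ := by nlinarith
  set s1 := r ^ 2 / exp (2 * L) with hs1
  set s2 := s1 / exp (2 * L) with hs2
  have p1 : 0 < s1 := by positivity
  have p2 : 0 < s2 := by positivity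
  obtain ⟨χ, s', q1, q2, q3, q4, q5, q6⟩ := exists_chi hr (half_pos p2)
  have c : Cut χ s' r := ⟨q1, q2, q3, q4, q6⟩
  obtain ⟨x, m, y, n, r1, r2, x2, y2, m2, n2, hxy, hmn⟩ := stageA hA (KK_smooth hH q2 q1 q4)
    (KK_supp hs q1 q4) (fun w hw => by rw [KK, bt_zero (Or.inl hw), zero_mul]) (2 * z) θ h0 hπ
  have conv : ∀ {x m : ℝ → E3}, Red (KK H χ) x m → Sys H χ x m := fun h t ht =>
    ⟨(h t ht).1, (h t ht).2.1, (h t ht).2.2 _ _ (fderiv_KK hH q2 q1 q4 t (h t ht).1 _)⟩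
  have h := conv r1
  have h' := conv r2
  rcases le_total s1 (sg (m 1)) with hc | hc
  · have e : exp (2 * L) * s2 = s1 := by rw [hs2]; field_simp
    have l1 := h.large (half_pos p2) q5 (fun t ht => (half_lt_self p2).trans_le
      (h.lower b c p2 (e ▸ hc) ht)) x2 m2 hΓ
    have l2 := h'.large (half_pos p2) q5 (fun t ht => (half_lt_self p2).trans_le
      (h'.lower b c p2 (e ▸ hmn ▸ hc) ht)) y2 n2 hΓ
    rw [← hmn] at l2
    have hp := p1.trans_le hc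
    refine ⟨x 1, y 1, mu (m 1), √(sg (m 1)), sqrt_pos.2 hp, (h 1 I1).1, (h' 1 I1).1, hxy, ?_, ?_,
      ?_, l1.1, l1.2, l2.1, l2.2⟩
    · rw [mu, inner_smul_right, (h 1 I1).2.1, mul_zero]
    · rw [mu, inner_smul_right, hmn, (h' 1 I1).2.1, mul_zero]
    · rw [sq_sqrt hp.le, norm_mu, sg_eq]; ring
  · exfalso
    have e : exp (2 * L) * s1 = r ^ 2 := by rw [hs1]; field_simp
    obtain ⟨ε, he, hle⟩ := Sys.small hH b c h h' hr.le (fun t ht => e ▸ h.upper b c p1 hc ht)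
      (fun t ht => e ▸ h'.upper b c p1 (hmn ▸ hc) ht) hmn x2 y2 m2 hκ hκ' hr2
    have he' : |ε| = 1 := by
      rw [← sq_eq_sq₀ (abs_nonneg _) zero_le_one, sq_abs, he, one_pow]
    have h1 : d ≤ ‖x 1 - ε • y 1‖ := by
      refine sqrt_le_iff.2 ⟨norm_nonneg _, ?_⟩
      rw [norm_sub_sq_real, norm_smul, real_inner_smul_right, hxy, (h 1 I1).1, (h' 1 I1).1,
        Real.norm_eq_abs, he']
      have : ε * cos θ ≤ |cos θ| := (le_abs_self _).trans (by rw [abs_mul, he', one_mul])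
      linarith
    linarith

end Pool.Agent.Lib.MP_55a7f7_gt
end

-- part Pool.Agent.Lib.MP_55a7f7_gt.Main
section

/-! Assembly of the proof. -/

set_option autoImplicit false

open scoped ContDiff Topology NNReal ComplexConjugate
open Set Real Filter

namespace Pool.Agent.Lib.MP_55a7f7_gt

theorem push_off {ζ : ℝ × ℝ → ℂ} (h1 : ContDiff ℝ ∞ ζ)
    (h2 : ∀ t ∈ Icc (0 : ℝ) 1, Emb fun s => ζ (t, s)) (s₀ : ℝ) :
    ∃ ε₀ > (0 : ℝ), ∀ ε : ℝ, ε ≠ 0 → |ε| < ε₀ → ∀ t ∈ Icc (0 : ℝ) 1, ∀ s,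
      ζ (t, s) ≠ ζ (t, s₀) + ε * Complex.I * ds ζ (t, s₀) := by
  have hc := h1.continuous
  have hd := (contDiff_ds h1).continuous
  have T0 : ∀ t ∈ Icc (0 : ℝ) 1, ds ζ (t, s₀) ≠ 0 := fun t ht =>
    (hasDerivAt_ds h1 t s₀).deriv ▸ (h2 t ht).reg s₀
  obtain ⟨δ, δ0, hδ⟩ := Metric.eventually_nhds_iff.1
    ((isCompact_Icc (a := (0 : ℝ)) (b := 1)).eventually_forall_of_forall_eventually (x₀ := s₀)
      (P := fun s t => 0 < (conj (ds ζ (t, s₀)) * ds ζ (t, s)).re) fun t ht =>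
      ContinuousAt.eventually_lt continuousAt_const (by fun_prop) (by
        simpa [Complex.normSq_apply] using Complex.normSq_pos.2 (T0 t ht)))
  set d := min (δ / 2) (1 / 2) with hd'
  have d0 : 0 < d := by positivity
  have d1 : d < δ := (min_le_left _ _).trans_lt (by linarith)
  obtain ⟨ρ, ρ0, hρ⟩ := ((isCompact_Icc (a := (0 : ℝ)) (b := 1)).prod
    (isCompact_Icc (a := s₀ + d) (b := s₀ - d + 1))).exists_forall_le' (a := 0)
    (f := fun x => ‖ζ x - ζ (x.1, s₀)‖) (by fun_prop) fun x hx => norm_pos_iff.2 (sub_ne_zero.2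
      ((h2 _ hx.1).ne (by linarith [hx.2.1]) (by linarith [hx.2.2])).symm)
  obtain ⟨B, hB⟩ := (isCompact_Icc (a := (0 : ℝ)) (b := 1)).exists_bound_of_continuousOn
    (f := fun t => ds ζ (t, s₀)) (by fun_prop)
  have B0 : 0 ≤ B := (norm_nonneg _).trans (hB 0 (by simp))
  refine ⟨ρ / (B + 1), by positivity, fun ε ε0 hε t ht s e => ?_⟩
  obtain ⟨y, hy, ey⟩ := (h2 t ht).per.exists_mem_Ico one_pos s (s₀ - d)
  rw [ey] at e
  rcases le_total y (s₀ + d) with h | h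
  · have hG : ∀ s, HasDerivAt (fun s => (conj (ds ζ (t, s₀)) * ζ (t, s)).re)
        (conj (ds ζ (t, s₀)) * ds ζ (t, s)).re s := fun s =>
      Complex.reCLM.hasFDerivAt.comp_hasDerivAt s ((hasDerivAt_ds h1 t s).const_mul _)
    have hm := strictMonoOn_of_deriv_pos (convex_Icc (s₀ - d) (s₀ + d))
      (f := fun s => (conj (ds ζ (t, s₀)) * ζ (t, s)).re)
      (fun s _ => (hG s).continuousAt.continuousWithinAt) fun s hs => by
        have hs := interior_subset hs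
        rw [(hG s).deriv]
        exact hδ (abs_lt.2 ⟨by linarith [hs.1], by linarith [hs.2]⟩) t ht
    obtain rfl : y = s₀ := hm.injOn ⟨hy.1, h⟩ ⟨by linarith, by linarith⟩ (by simp [e]; ring)
    simp [ε0, T0 t ht] at e
  · have h3 := hρ (t, y) ⟨ht, h, hy.2.le⟩
    simp only [e, add_sub_cancel_left, norm_mul, Complex.norm_real, Complex.norm_I, mul_one,
      Real.norm_eq_abs] at h3
    rw [lt_div_iff₀ (by positivity)] at hε
    nlinarith [hB t ht, abs_nonneg ε]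

theorem Emb.sub_const {a : ℝ → ℂ} (h : Emb a) (c : ℂ) : Emb fun s => a s - c :=
  h.of_comp (· + c) (h.smooth.sub contDiff_const) (fun s => by simp only [h.per s])
    (fun _ => by fun_prop) fun _ => by simp

theorem Iso.neg {U : Set ℂ} {a b : ℝ → ℂ} (h : Iso U a b) :
    Iso U (fun s => a (-s)) fun s => b (-s) := by
  obtain ⟨ζ, h1, h2, h3, h4⟩ := h
  exact ⟨fun x => ζ (x.1, -x.2), h1.comp (by fun_prop),
    fun t ht => ⟨(h2 t ht).1.neg, fun s => (h2 t ht).2 _⟩, fun s => h3 _, fun s => h4 _⟩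

theorem iso_moebius {Γ : ℝ → ℂ} (h : Emb Γ) {b : ℂ} (h1 : ∀ s, Γ s ≠ b)
    (h2 : ∀ s, ‖b‖ * ‖Γ s‖ < 1) :
    Iso {0}ᶜ (fun s => Γ s - b) fun s => (Γ s - b) / (1 + conj b * Γ s) := by
  have hn : ∀ τ ∈ Icc (0 : ℝ) 1, ∀ s, 1 + τ * conj b * Γ s ≠ 0 := fun τ hτ s e => by
    have h3 : ‖(τ : ℂ) * conj b * Γ s‖ = 1 := by
      rw [eq_neg_of_add_eq_zero_right e, norm_neg, norm_one]
    rw [mul_assoc, norm_mul, norm_mul, Complex.norm_conj, Complex.norm_real,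
      Real.norm_of_nonneg hτ.1] at h3
    nlinarith [h2 s, hτ.2, mul_nonneg (norm_nonneg b) (norm_nonneg (Γ s))]
  have hI : ∀ x, smoothTransition x ∈ Icc (0 : ℝ) 1 := fun x =>
    ⟨smoothTransition.nonneg x, smoothTransition.le_one x⟩
  have hs : ContDiff ℝ ∞ fun x : ℝ × ℝ => (Γ x.2 - b) *
      (1 + (smoothTransition x.1 : ℝ) * conj b * Γ x.2)⁻¹ :=
    ((h.smooth.comp contDiff_snd).sub contDiff_const).mul ((contDiff_const.add
      (((Complex.ofRealCLM.contDiff.comp (smoothTransition.contDiff.comp contDiff_fst)).mul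
        contDiff_const).mul (h.smooth.comp contDiff_snd))).inv fun x => hn _ (hI _) _)
  refine ⟨_, hs, fun t _ => ⟨?_, fun s => mul_ne_zero (sub_ne_zero.2 (h1 s))
    (inv_ne_zero (hn _ (hI t) s))⟩, fun s => by simp, fun s => by simp [div_eq_mul_inv]⟩
  have e : ∀ s, 1 - (smoothTransition t : ℝ) * conj b * ((Γ s - b) *
      (1 + (smoothTransition t : ℝ) * conj b * Γ s)⁻¹) = (1 + (smoothTransition t : ℝ) *
        conj b * b) * (1 + (smoothTransition t : ℝ) * conj b * Γ s)⁻¹ := fun s => by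
    have := hn _ (hI t) s
    field_simp
    ring
  have e2 : 1 + (smoothTransition t : ℝ) * conj b * b ≠ 0 := by
    rw [mul_assoc, Complex.conj_mul']
    have := (hI t).1
    exact_mod_cast (by positivity : 1 + smoothTransition t * ‖b‖ ^ 2 ≠ 0)
  refine h.of_comp (fun w => (w + b) * (1 - (smoothTransition t : ℝ) * conj b * w)⁻¹)
    (hs.comp ((contDiff_const (c := t)).prodMk contDiff_id)) (fun s => by simp only [h.per s])
    (fun s => DifferentiableAt.mul (by fun_prop) (DifferentiableAt.inv (by fun_prop) ?_)) fun s => ?_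
  · exact (e s).trans_ne (mul_ne_zero e2 (inv_ne_zero (hn _ (hI t) s)))
  · have := hn _ (hI t) s
    simp only [e]
    rw [mul_inv, inv_inv, ← mul_assoc, mul_right_comm, add_mul, inv_mul_cancel_right₀ this,
      mul_inv_eq_iff_eq_mul₀ e2]
    ring

theorem exists_rot (b : ℂ) : ∃ R : E3 ≃ₗᵢ[ℝ] E3, ∀ ζ : ℂ, 1 + conj b * ζ ≠ 0 →
    ist ((ζ - b) / (1 + conj b * ζ)) = R (ist ζ) := by
  obtain ⟨u, v⟩ := b
  have n0 : 0 < 1 + u ^ 2 + v ^ 2 := by positivity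
  let A : E3 →ₗᵢ[ℝ] E3 :=
    { toFun := fun p => WithLp.toLp 2
        ![((1 - u ^ 2 + v ^ 2) * p 0 - 2 * u * v * p 1 + 2 * u * p 2) / (1 + u ^ 2 + v ^ 2),
        (-2 * u * v * p 0 + (1 + u ^ 2 - v ^ 2) * p 1 + 2 * v * p 2) / (1 + u ^ 2 + v ^ 2),
        (-2 * u * p 0 - 2 * v * p 1 + (1 - u ^ 2 - v ^ 2) * p 2) / (1 + u ^ 2 + v ^ 2)]
      map_add' := fun p q => by apply ext3 <;> simp <;> ring
      map_smul' := fun c p => by apply ext3 <;> simp <;> ring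
      norm_map' := fun p => by
        rw [← sq_eq_sq₀ (norm_nonneg _) (norm_nonneg _), norm_sq3, norm_sq3]
        simp
        field_simp
        ring }
  refine ⟨A.toLinearIsometryEquiv rfl, fun ⟨x, y⟩ h => ?_⟩
  have h1 : (1 + u * x + v * y) ^ 2 + (u * y - v * x) ^ 2 ≠ 0 := by
    have := Complex.normSq_eq_zero.not.2 h
    simp only [Complex.normSq_apply] at this
    convert this using 1
    simp
    ring
  have h2 : ‖(⟨x, y⟩ - ⟨u, v⟩ : ℂ) / (1 + conj (⟨u, v⟩ : ℂ) * ⟨x, y⟩)‖ ^ 2 =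
      ((x - u) ^ 2 + (y - v) ^ 2) / ((1 + u * x + v * y) ^ 2 + (u * y - v * x) ^ 2) := by
    rw [norm_div, div_pow, Complex.sq_norm, Complex.sq_norm]
    congr 1 <;> simp [Complex.normSq_apply] <;> ring
  have h3 : Complex.normSq (1 + conj (⟨u, v⟩ : ℂ) * ⟨x, y⟩) =
      (1 + u * x + v * y) ^ 2 + (u * y - v * x) ^ 2 := by simp [Complex.normSq_apply]; ring
  have h4 : ‖(⟨x, y⟩ : ℂ)‖ ^ 2 = x ^ 2 + y ^ 2 := by rw [Complex.sq_norm]; simp [sq]
  have h5 : ((x - u) ^ 2 + (y - v) ^ 2) / ((1 + u * x + v * y) ^ 2 + (u * y - v * x) ^ 2) + 1 =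
      (x ^ 2 + y ^ 2 + 1) * (1 + u ^ 2 + v ^ 2) /
        ((1 + u * x + v * y) ^ 2 + (u * y - v * x) ^ 2) := by
    rw [div_add_one h1]; congr 1; ring
  have h6 : 0 < x ^ 2 + y ^ 2 + 1 := by positivity
  have h7 : ((x - u) ^ 2 + (y - v) ^ 2) / ((1 + u * x + v * y) ^ 2 + (u * y - v * x) ^ 2) - 1 =
      ((x - u) ^ 2 + (y - v) ^ 2 - ((1 + u * x + v * y) ^ 2 + (u * y - v * x) ^ 2)) /
        ((1 + u * x + v * y) ^ 2 + (u * y - v * x) ^ 2) := div_sub_one h1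
  have h8 : ∀ a N : ℝ, N ≠ 0 → a / N / ((x ^ 2 + y ^ 2 + 1) * (1 + u ^ 2 + v ^ 2) / N) =
      a / ((x ^ 2 + y ^ 2 + 1) * (1 + u ^ 2 + v ^ 2)) := fun a N h => by field_simp
  apply ext3 <;>
    simp only [ist_zero, ist_one, ist_two, h2, h5, h7, Complex.div_re, Complex.div_im, h3,
      ← add_div, ← sub_div, ← mul_div_assoc, h8 _ _ h1] <;>
    simp [A, h4] <;> field_simp <;> ring

theorem iso_of_curve {γ : ℝ → E3} (hγ : Emb γ) (h1 : ∀ s, ‖γ s‖ = 1) {s₀ : ℝ}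
    (hs : ∀ s, γ s ≠ -γ s₀) : ∃ (R : E3 ≃ₗᵢ[ℝ] E3) (a : ℂ) (ξ : ℝ → ℂ),
      Iso {0}ᶜ (fun s => a * Complex.exp ((2 * π * s : ℝ) * Complex.I)) ξ ∧
      ∀ s, ∃ s', ist (ξ s) = R (γ s') := by
  obtain ⟨R₁, hR⟩ : ∃ R₁ : E3 ≃ₗᵢ[ℝ] E3, R₁ (γ s₀) = -EuclideanSpace.single 2 (1 : ℝ) :=
    ⟨_, Submodule.reflection_sub (by simp [h1])⟩
  have g1 : ∀ s, R₁ (γ s) 0 ^ 2 + R₁ (γ s) 1 ^ 2 + R₁ (γ s) 2 ^ 2 = 1 := fun s => by
    rw [← norm_sq3, R₁.norm_map, h1, one_pow]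
  have g2 : ∀ s, 1 - R₁ (γ s) 2 ≠ 0 := fun s e => hs s (R₁.injective (by
    have e1 : R₁ (γ s) 2 = 1 := by linarith
    have := g1 s
    rw [e1] at this
    rw [map_neg, hR, neg_neg]
    exact ext3 (by simp; nlinarith [sq_nonneg (R₁ (γ s) 1)])
      (by simp; nlinarith [sq_nonneg (R₁ (γ s) 0)]) (by simp [e1])))
  have gs : ContDiff ℝ ∞ fun s => R₁ (γ s) := R₁.contDiff.comp hγ.smooth
  have gi := contDiff_euclidean.1 gs
  have hre : ContDiff ℝ ∞ Complex.ofReal := Complex.ofRealCLM.contDiff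
  set Γ : ℝ → ℂ := fun s => ((R₁ (γ s) 0 / (1 - R₁ (γ s) 2) : ℝ) : ℂ) +
    ((R₁ (γ s) 1 / (1 - R₁ (γ s) 2) : ℝ) : ℂ) * Complex.I with hΓ
  have G1 : ∀ s, ist (Γ s) = R₁ (γ s) := fun s => by
    have e : ‖Γ s‖ ^ 2 = (1 + R₁ (γ s) 2) / (1 - R₁ (γ s) 2) := by
      rw [Complex.sq_norm, hΓ, Complex.normSq_add_mul_I]
      have := g2 s
      field_simp
      linear_combination g1 s
    have := g2 s
    have e1 : (Γ s).re = R₁ (γ s) 0 / (1 - R₁ (γ s) 2) := by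
      simp only [hΓ, Complex.add_re, Complex.mul_I_re, Complex.ofReal_re, Complex.ofReal_im]; ring
    have e2 : (Γ s).im = R₁ (γ s) 1 / (1 - R₁ (γ s) 2) := by
      simp only [hΓ, Complex.add_im, Complex.mul_I_im, Complex.ofReal_re, Complex.ofReal_im]; ring
    apply ext3 <;> simp only [ist_zero, ist_one, ist_two, e, e1, e2] <;> field_simp <;> ring
  have G2 : Emb Γ := hγ.of_comp (fun w => R₁.symm (ist w))
    ((hre.comp ((gi 0).div (contDiff_const.sub (gi 2)) g2)).add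
      ((hre.comp ((gi 1).div (contDiff_const.sub (gi 2)) g2)).mul contDiff_const))
    (fun s => by simp only [hΓ, hγ.per s]) (fun s => R₁.symm.differentiableAt.comp _
      (differentiableAt_euclidean.2 fun i => by
        have d1 : DifferentiableAt ℝ (fun w : ℂ => ‖w‖ ^ 2) (Γ s) :=
          (differentiableAt_id (𝕜 := ℝ)).norm_sq ℂ
        have d2 : ‖Γ s‖ ^ 2 + 1 ≠ 0 := by positivity
        fin_cases i
        · exact ((Complex.reCLM.differentiableAt.const_mul 2).mul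
            ((d1.add_const 1).inv d2)).congr_of_eventuallyEq (.of_forall fun w => div_eq_mul_inv _ _)
        · exact ((Complex.imCLM.differentiableAt.const_mul 2).mul
            ((d1.add_const 1).inv d2)).congr_of_eventuallyEq (.of_forall fun w => div_eq_mul_inv _ _)
        · exact ((d1.sub_const 1).mul
            ((d1.add_const 1).inv d2)).congr_of_eventuallyEq (.of_forall fun w => div_eq_mul_inv _ _)))
    fun s => by simp [G1]
  have G3 : Γ s₀ = 0 := by simp [hΓ, hR]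
  obtain ⟨a, b, σ, a0, hσ, ζ, z1, z2, z3, z4⟩ := planarStmt earStmt triStmt Γ G2
  obtain ⟨ε₀, ε0, hε⟩ := push_off z1 (fun t ht => (z2 t ht).1) s₀
  obtain ⟨B, hB⟩ := (G2.per.isBounded_of_continuous one_ne_zero
    G2.smooth.continuous).exists_norm_le
  obtain ⟨ε, e0, e1, e2, e3⟩ : ∃ ε > (0 : ℝ), ε < ε₀ ∧ π * ε < 1 ∧
      ε * ‖ds ζ (1, s₀)‖ * B < 1 := by
    have : ∀ᶠ ε in 𝓝 (0 : ℝ), ε < ε₀ ∧ π * ε < 1 ∧ ε * ‖ds ζ (1, s₀)‖ * B < 1 := by
      refine Eventually.and ?_ (Eventually.and ?_ ?_) <;>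
        exact ContinuousAt.eventually_lt (by fun_prop) continuousAt_const (by simp [ε0])
    obtain ⟨ε, h, h'⟩ := ((this.filter_mono nhdsWithin_le_nhds).and
      (self_mem_nhdsWithin (s := Ioi (0 : ℝ)))).exists
    exact ⟨ε, h', h⟩
  have σ1 : |σ| = 1 := by rcases hσ with rfl | rfl <;> simp
  have σ2 : (σ : ℂ) ^ 2 = 1 := by rcases hσ with rfl | rfl <;> simp
  have hε' := hε (σ * ε) (mul_ne_zero (by rintro rfl; simp at σ1) e0.ne')
    (by rw [abs_mul, σ1, one_mul, abs_of_pos e0]; exact e1)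
  set e : ℝ → ℂ := fun s => Complex.exp ((2 * π * σ * s : ℝ) * Complex.I) with he
  have en : ∀ s, ‖e s‖ = 1 := fun s => Complex.norm_exp_ofReal_mul_I _
  have E1 : Emb fun s => a * e s + b := (z2 0 (by simp)).1.congr fun s => (z3 s).symm
  have d0 : ds ζ (0, s₀) = a * (e s₀ * ((2 * π * σ : ℝ) * Complex.I)) := by
    have := hasDerivAt_ds z1 0 s₀
    simp only [z3] at this
    refine this.unique ((HasDerivAt.cexp ?_).const_mul a |>.add_const b)
    simpa using ((hasDerivAt_id s₀).const_mul (2 * π * σ)).ofReal_comp.mul_const Complex.I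
  set β : ℂ := (σ * ε : ℝ) * Complex.I * ds ζ (1, s₀) with hβ
  have β1 : ∀ s, ‖β‖ * ‖Γ s‖ < 1 := fun s => by
    rw [hβ, norm_mul, norm_mul, Complex.norm_real, Complex.norm_I, Real.norm_eq_abs, abs_mul, σ1,
      abs_of_pos e0, one_mul, mul_one]
    exact (mul_le_mul_of_nonneg_left (hB _ ⟨s, rfl⟩) (by positivity)).trans_lt e3
  have I1 : Iso {0}ᶜ (fun s => a * e s) fun s => a * e s - (1 - 2 * π * ε : ℝ) * (a * e s₀) := by
    refine ⟨fun x => a * e x.2 + b - (b + (x.1 * (1 - 2 * π * ε) : ℝ) * (a * e s₀)),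
      (E1.smooth.comp contDiff_snd).sub (contDiff_const.add ((hre.comp (by fun_prop)).mul
        contDiff_const)), fun t ht => ⟨E1.sub_const
          (b + (t * (1 - 2 * π * ε) : ℝ) * (a * e s₀)), fun s h => ?_⟩, fun s => by simp,
      fun s => by simp only [one_mul]; ring⟩
    have h2 : a * e s = (t * (1 - 2 * π * ε) : ℝ) * (a * e s₀) := by
      simp only [mem_singleton_iff] at h
      linear_combination h
    have h3 := congrArg norm h2
    simp only [norm_mul, en, mul_one, Complex.norm_real, Real.norm_eq_abs,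
      abs_of_nonneg ht.1] at h3
    have h4 : |1 - 2 * π * ε| < 1 := abs_lt.2 ⟨by linarith, by nlinarith [pi_pos]⟩
    have h5 := mul_right_cancel₀ (norm_ne_zero_iff.2 a0) ((one_mul _).trans h3)
    nlinarith [ht.1, ht.2, abs_nonneg (1 - 2 * π * ε)]
  have I2 : Iso {0}ᶜ (fun s => a * e s - (1 - 2 * π * ε : ℝ) * (a * e s₀)) fun s => Γ s - β := by
    refine ⟨fun x => ζ x - (ζ (x.1, s₀) + (σ * ε : ℝ) * Complex.I * ds ζ (x.1, s₀)),
      z1.sub ((z1.comp (by fun_prop)).add (contDiff_const.mul ((contDiff_ds z1).comp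
        (by fun_prop)))), fun t ht => ⟨(z2 t ht).1.sub_const
          (ζ (t, s₀) + (σ * ε : ℝ) * Complex.I * ds ζ (t, s₀)),
          fun s => sub_ne_zero.2 (hε' t ht s)⟩, fun s => ?_, fun s => by simp [z4, G3, hβ]⟩
    have z3' : ∀ s, ζ (0, s) = a * e s + b := z3
    simp only [z3', d0]
    push_cast
    linear_combination (2 * π * ε * a * e s₀) * σ2 -
      (2 * π * ε * a * e s₀ * σ ^ 2) * Complex.I_sq
  have I3 := (I1.trans I2).trans (iso_moebius G2 (fun s => by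
    simpa [z4, G3, hβ] using hε' 1 (by simp) s) β1)
  obtain ⟨R, hR'⟩ := exists_rot β
  have fin : ∀ s, ∃ s', ist ((Γ s - β) / (1 + conj β * Γ s)) = (R₁.trans R) (γ s') := fun s =>
    ⟨s, by
      rw [hR' _ fun h => ?_, G1, LinearIsometryEquiv.trans_apply]
      have := β1 s
      rw [← Complex.norm_conj, ← norm_mul, eq_neg_of_add_eq_zero_right h] at this
      simp at this⟩
  rcases hσ with rfl | rfl
  · exact ⟨_, a, _, by simpa [he] using I3, fin⟩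
  · exact ⟨_, a, _, by simpa [he] using I3.neg, fun s => fin _⟩

theorem rect_of_data {θ s : ℝ} {x y m : E3} (h0 : 0 < θ) (hπ : θ < π) (hs : 0 < s) (hx : ‖x‖ = 1)
    (hy : ‖y‖ = 1) (hxy : inner ℝ x y = cos θ) (hxm : inner ℝ x m = 0) (hym : inner ℝ y m = 0)
    (hm : ‖m‖ ^ 2 + s ^ 2 = 1) : IsRect θ (m + s • x) (m + s • y) (m - s • x) (m - s • y) := by
  have hS := sin_pos_of_pos_of_lt_pi h0 hπ
  have hc : cos θ ^ 2 < 1 := by nlinarith [sin_sq_add_cos_sq θ]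
  have n1 : x ≠ y := by rintro rfl; simp [← hxy, hx] at hc
  have n2 : x ≠ -y := by rintro rfl; simp [← hxy, hy] at hc
  have n3 : ∀ z : E3, ‖z‖ = 1 → z ≠ -z := fun z hz e => by
    have : (2 : ℝ) • z = 0 := by rw [two_smul]; nth_rewrite 1 [e]; simp
    simp [(smul_eq_zero.1 this).resolve_left two_ne_zero] at hz
  have inj : ∀ a b : E3, m + s • a = m + s • b → a = b := fun a b e =>
    smul_right_injective _ hs.ne' (add_left_cancel e)
  refine ⟨?_, ?_⟩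
  · simp only [sub_eq_add_neg, ← smul_neg, List.nodup_cons, List.mem_cons, List.not_mem_nil,
      or_false, not_or, List.nodup_nil, and_true, not_false_eq_true]
    exact ⟨⟨fun e => n1 (inj _ _ e), fun e => n3 x hx (inj _ _ e), fun e => n2 (inj _ _ e)⟩,
      ⟨fun e => n2 (by rw [inj _ _ e, neg_neg]), fun e => n3 y hy (inj _ _ e)⟩,
      fun e => n1 (neg_injective (inj _ _ e))⟩
  set k : E3 := (sin θ)⁻¹ • cr x y with hk
  have c1 : ‖cr x y‖ ^ 2 = sin θ ^ 2 := by rw [norm_cr_sq, hx, hy, hxy, sin_sq]; ring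
  have k1 : ‖k‖ = 1 := by
    rw [hk, norm_smul, (sq_eq_sq₀ (norm_nonneg _) hS.le).1 c1, norm_inv, Real.norm_of_nonneg hS.le,
      inv_mul_cancel₀ hS.ne']
  obtain ⟨a, ha⟩ : ∃ a : ℝ, m = a • k := by
    refine ⟨inner ℝ m (cr x y) / sin θ, ?_⟩
    rw [norm_sq3] at c1
    simp only [inner3, cr_zero, cr_one, cr_two] at c1 hxm hym
    apply ext3 <;> simp only [hk, PiLp.smul_apply, inner3, cr_zero, cr_one, cr_two, smul_eq_mul] <;>
      field_simp
    · linear_combination (norm := (simp only [cr_zero, cr_one, cr_two]; ring))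
        (-m 0) * c1 - cr (cr x y) y 0 * hxm + cr (cr x y) x 0 * hym
    · linear_combination (norm := (simp only [cr_zero, cr_one, cr_two]; ring))
        (-m 1) * c1 - cr (cr x y) y 1 * hxm + cr (cr x y) x 1 * hym
    · linear_combination (norm := (simp only [cr_zero, cr_one, cr_two]; ring))
        (-m 2) * c1 - cr (cr x y) y 2 * hxm + cr (cr x y) x 2 * hym
  have a1 : a ^ 2 + s ^ 2 = 1 := by rwa [ha, norm_smul, k1, mul_one, Real.norm_eq_abs, sq_abs] at hm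
  have a2 : -1 < a ∧ a < 1 := abs_lt.1 (sq_lt_one_iff_abs_lt_one a |>.1 (by nlinarith))
  have r0 : 0 < arccos a := arccos_pos.2 a2.2
  have r1 : sin (arccos a) = s := by
    rw [sin_arccos, show 1 - a ^ 2 = s ^ 2 by linarith, sqrt_sq hs.le]
  have key : ∀ z : E3, ‖z‖ = 1 → sexp k (arccos a • z) = m + s • z := fun z hz => by
    rw [sexp, norm_smul, hz, mul_one, Real.norm_of_nonneg r0.le, cos_arccos a2.1.le a2.2.le, r1,
      smul_smul (s / arccos a), div_mul_cancel₀ _ r0.ne', ← ha]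
  have hr : rot k θ (arccos a • x) = arccos a • y := by
    have x1 := norm_sq3 x
    rw [hx] at x1
    simp only [inner3] at hxy
    apply ext3 <;> simp only [rot, hk, PiLp.add_apply, PiLp.smul_apply, cr_zero, cr_one, cr_two,
      smul_eq_mul] <;> field_simp
    · linear_combination (-y 0) * x1 - x 0 * hxy
    · linear_combination (-y 1) * x1 - x 1 * hxy
    · linear_combination (-y 2) * x1 - x 2 * hxy
  refine ⟨k, arccos a • x, k1, ?_, smul_ne_zero r0.ne' (norm_ne_zero_iff.1 (by simp [hx])),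
    (key x hx).symm, by rw [hr, key y hy], ?_, ?_⟩
  · simp only [hk, inner3, PiLp.smul_apply, cr_zero, cr_one, cr_two, smul_eq_mul]; ring
  · rw [← smul_neg, key _ (by simpa), smul_neg, sub_eq_add_neg]
  · rw [hr, ← smul_neg, key _ (by simpa), smul_neg, sub_eq_add_neg]

theorem main {γ : ℝ → E3} (hγ : Emb γ) (h1 : ∀ s, ‖γ s‖ = 1) {θ : ℝ} (h0 : 0 < θ) (hπ : θ < π) :
    ∃ s₁ s₂ s₃ s₄, IsRect θ (γ s₁) (γ s₂) (γ s₃) (γ s₄) := by
  by_cases h : ∀ s₀, ∃ s, γ s = -γ s₀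
  · obtain ⟨s₃, e3⟩ := h 0
    obtain ⟨s₂, e2⟩ := intermediate_value_univ s₃ 0 (f := fun s => inner ℝ (γ 0) (γ s))
      (continuous_const.inner hγ.smooth.continuous) (show cos θ ∈ _ from
        ⟨by simp [e3, h1, neg_one_le_cos], by simp [h1, cos_le_one]⟩)
    obtain ⟨s₄, e4⟩ := h s₂
    refine ⟨0, s₂, s₃, s₄, ?_⟩
    simpa [e3, e4] using rect_of_data (m := 0) h0 hπ one_pos (h1 0) (h1 s₂) e2 (by simp) (by simp)
      (by simp)
  push Not at h
  obtain ⟨s₀, hs⟩ := h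
  obtain ⟨R, a, ξ, hI, hξ⟩ := iso_of_curve hγ h1 hs
  obtain ⟨H, z, H1, H2, hz, H3⟩ := ham_of_iso jetStmt (signStmt areaStmt) hI
  obtain ⟨x, y, m, s, r0, r1, r2, r3, r4, r5, r6, ⟨s₁, e1⟩, ⟨s₃, e3⟩, ⟨s₂, e2⟩, s₄, e4⟩ :=
    hamStmt chordStmt H H1 H2 z θ hz h0 hπ (range fun s => R (γ s)) fun p p1 p2 hp => by
      obtain ⟨s, e⟩ := H3 p p1 p2 hp
      obtain ⟨s', e'⟩ := hξ s
      exact ⟨s', (e.trans e').symm⟩
  refine ⟨s₁, s₂, s₃, s₄, ?_⟩
  have := rect_of_data (x := R.symm x) (y := R.symm y) (m := R.symm m) h0 hπ r0 (by simpa)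
    (by simpa) (by simpa) (by simpa) (by simpa) (by simpa)
  simp only [← map_smul, ← map_add, ← map_sub, ← e1, ← e2, ← e3, ← e4] at this
  simpa using this

end Pool.Agent.Lib.MP_55a7f7_gt
end
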