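import Pool.Agent.Lib.MP_55a7f7_gt.Basic

/-! Linear homotopies of plane curves which stay embedded after a small perturbation, and
mollification of plane curves. -/

set_option autoImplicit false

open scoped ContDiff ComplexConjugate Topology Convolution
open Set Real Filter Metric Function MeasureTheory

namespace Pool.Agent.Lib.MP_55a7f7_gt.TS

/-- Monotonicity of a curve in the direction `e`, with rate `k`, on `S`. -/
def Mono (F : ℝ → ℂ) (e : ℂ) (k : ℝ) (S : Set ℝ) : Prop :=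
  ∀ s ∈ S, ∀ s' ∈ S, s ≤ s' → k * (s' - s) ≤ (conj e * (F s' - F s)).re

/-- Injectivity modulo one. -/
def Inj1 (F : ℝ → ℂ) : Prop := ∀ s t, s < t → t < s + 1 → F s ≠ F t

/-- The linear homotopy. -/
noncomputable def comb (a b : ℝ → ℂ) (t s : ℝ) : ℂ := (1 - t) * a s + t * b s

/-- The linear homotopy from `a` to `b` consists of simple curves, locally monotone. -/
structure Lin (a b : ℝ → ℂ) : Prop where
  ca : Continuous a
  cb : Continuous b
  pa : Periodic a 1
  pb : Periodic b 1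
  inj : ∀ t ∈ Icc (0 : ℝ) 1, Inj1 (comb a b t)
  loc : ∀ t0 ∈ Icc (0 : ℝ) 1, ∀ s0 : ℝ, ∃ d > 0, ∃ k > 0, ∃ e : ℂ, ∀ t ∈ Icc (0 : ℝ) 1,
    |t - t0| < d → Mono (comb a b t) e k (ball s0 d)

theorem per_int {F : ℝ → ℂ} (h : Periodic F 1) (m : ℤ) (s : ℝ) : F (s + m) = F s := by
  have := h.int_mul m s
  rwa [mul_one] at this

theorem per_fract {F : ℝ → ℂ} (h : Periodic F 1) (s : ℝ) : F (Int.fract s) = F s := by
  rw [← per_int h ⌊s⌋ (Int.fract s), Int.fract_add_floor]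

theorem inj1_of_injOn {F : ℝ → ℂ} (h : Periodic F 1) (hi : InjOn F (Ico 0 1)) : Inj1 F := by
  intro s t h1 h2 e
  have := hi ⟨Int.fract_nonneg s, Int.fract_lt_one s⟩ ⟨Int.fract_nonneg t, Int.fract_lt_one t⟩
    (by rw [per_fract h, per_fract h, e])
  have h3 : t = s + ((⌊t⌋ - ⌊s⌋ : ℤ) : ℝ) := by
    simp only [Int.fract] at this; push_cast; linarith
  generalize ⌊t⌋ - ⌊s⌋ = n at h3
  have h4 : (0 : ℤ) < n := by exact_mod_cast (by linarith : (0 : ℝ) < n)
  have h5 : n < (1 : ℤ) := by exact_mod_cast (by linarith : (n : ℝ) < 1)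
  omega

theorem comb_self (a : ℝ → ℂ) (t : ℝ) : comb a a t = a := by
  funext s; unfold comb; ring

theorem comb_zero (a b : ℝ → ℂ) : comb a b 0 = a := by
  funext s; unfold comb; simp

theorem comb_one (a b : ℝ → ℂ) : comb a b 1 = b := by
  funext s; unfold comb; simp

theorem comb_per {a b : ℝ → ℂ} (ha : Periodic a 1) (hb : Periodic b 1) (t : ℝ) :
    Periodic (comb a b t) 1 := fun s => by
  unfold comb; rw [ha, hb]

theorem comb_cont {a b : ℝ → ℂ} (ha : Continuous a) (hb : Continuous b) :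
    Continuous fun x : ℝ × ℝ => comb a b x.1 x.2 := by
  unfold comb; fun_prop

theorem comb_close {a b A B : ℝ → ℂ} {ρ t s : ℝ} (ht : t ∈ Icc (0 : ℝ) 1)
    (ha : ‖A s - a s‖ ≤ ρ) (hb : ‖B s - b s‖ ≤ ρ) : ‖comb A B t s - comb a b t s‖ ≤ ρ := by
  have e : comb A B t s - comb a b t s = ((1 - t : ℝ) : ℂ) * (A s - a s) + t * (B s - b s) := by
    unfold comb; push_cast; ring
  rw [e]
  refine (norm_add_le _ _).trans ?_
  rw [norm_mul, norm_mul, Complex.norm_real, Complex.norm_real, Real.norm_of_nonneg ht.1,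
    Real.norm_of_nonneg (by linarith [ht.2])]
  nlinarith [ht.1, ht.2]

theorem Mono.mono {F : ℝ → ℂ} {e : ℂ} {k : ℝ} {S T : Set ℝ} (h : Mono F e k S) (hT : T ⊆ S) :
    Mono F e k T := fun s hs s' hs' => h s (hT hs) s' (hT hs')

theorem Mono.comb {a b : ℝ → ℂ} {e : ℂ} {k t : ℝ} {S : Set ℝ} (ha : Mono a e k S)
    (hb : Mono b e k S) (ht : t ∈ Icc (0 : ℝ) 1) : Mono (comb a b t) e k S := by
  intro s hs s' hs' h
  have h1 := ha s hs s' hs' h
  have h2 := hb s hs s' hs' h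
  have e1 : conj e * (TS.comb a b t s' - TS.comb a b t s) =
      ((1 - t : ℝ) : ℂ) * (conj e * (a s' - a s)) + (t : ℂ) * (conj e * (b s' - b s)) := by
    unfold TS.comb; push_cast; ring
  rw [e1, Complex.add_re, Complex.re_ofReal_mul, Complex.re_ofReal_mul]
  nlinarith [ht.1, ht.2]

theorem Mono.shift {F : ℝ → ℂ} {e : ℂ} {k s0 d : ℝ} (hp : Periodic F 1)
    (h : Mono F e k (ball (Int.fract s0) d)) : Mono F e k (ball s0 d) := by
  intro s hs s' hs' hle
  have key : ∀ x ∈ ball s0 d, x + ((-⌊s0⌋ : ℤ) : ℝ) ∈ ball (Int.fract s0) d := fun x hx => by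
    rw [mem_ball, Real.dist_eq] at hx ⊢
    rwa [show x + ((-⌊s0⌋ : ℤ) : ℝ) - Int.fract s0 = x - s0 by
      simp only [Int.fract]; push_cast; ring]
  have := h _ (key s hs) _ (key s' hs') (by linarith)
  rwa [per_int hp, per_int hp, show s' + ((-⌊s0⌋ : ℤ) : ℝ) - (s + ((-⌊s0⌋ : ℤ) : ℝ)) = s' - s by
    ring] at this

theorem Mono.le_deriv {F : ℝ → ℂ} {e D : ℂ} {k s0 d : ℝ} (h : Mono F e k (ball s0 d)) (hd : 0 < d)
    (hF : HasDerivAt F D s0) : k ≤ (conj e * D).re := by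
  have h1 : HasDerivAt (fun s => (conj e * F s).re - k * s) ((conj e * D).re - k) s0 := by
    have := (Complex.reCLM.hasFDerivAt.comp_hasDerivAt s0 (hF.const_mul (conj e))).sub
      ((hasDerivAt_id s0).const_mul k)
    rw [mul_one] at this
    exact this
  have h2 : MonotoneOn (fun s => (conj e * F s).re - k * s) (ball s0 d) := by
    intro s hs s' hs' hle
    have := h s hs s' hs' hle
    rw [mul_sub (conj e), Complex.sub_re] at this
    show (conj e * F s).re - k * s ≤ (conj e * F s').re - k * s'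
    linarith
  have h3 : AccPt s0 (𝓟 (ball s0 d)) := by
    rw [accPt_principal_iff_nhdsWithin]
    have : 𝓝[ball s0 d \ {s0}] s0 = 𝓝[≠] s0 := by
      rw [sdiff_eq, nhdsWithin_inter_of_mem]
      exact mem_nhdsWithin_of_mem_nhds (ball_mem_nhds s0 hd)
    rw [this]; infer_instance
  have := h1.hasDerivWithinAt.nonneg_of_monotoneOn h3 h2
  linarith

theorem mono_of_right {F : ℝ → ℂ} {e : ℂ} {k s0 d : ℝ} (hF : Continuous F)
    (h : ∀ x ∈ ball s0 d, ∃ B : ℂ, HasDerivWithinAt F B (Ici x) x ∧ k ≤ (conj e * B).re) :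
    Mono F e k (ball s0 d) := by
  intro s hs s' hs' hle
  have hsub : Ico s s' ⊆ ball s0 d := fun x hx =>
    (convex_ball s0 d).ordConnected.out hs hs' ⟨hx.1, hx.2.le⟩
  choose! B hB1 hB2 using h
  refine image_le_of_deriv_right_le_deriv_boundary (f := fun x => k * (x - s)) (f' := fun _ => k)
    (B := fun x => (conj e * (F x - F s)).re) (B' := fun x => (conj e * B x).re) (a := s) (b := s')
    (by fun_prop) (fun x _ => ?_) (by simp) (by fun_prop) (fun x hx => ?_)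
    (fun x hx => hB2 x (hsub hx)) ⟨hle, le_rfl⟩
  · simpa using (((hasDerivAt_id x).sub_const s).const_mul k).hasDerivWithinAt
  · exact Complex.reCLM.hasFDerivAt.comp_hasDerivWithinAt x
      (((hB1 x (hsub hx)).sub_const (F s)).const_mul (conj e))

theorem leb {X : Type} [PseudoMetricSpace X] {K : Set X} (hK : IsCompact K) (Q : Set X → Prop)
    (hQ : ∀ U V, U ⊆ V → Q V → Q U) (h : ∀ x ∈ K, ∃ r > 0, Q (ball x r)) :
    ∃ δ > 0, ∀ y ∈ K, Q (ball y δ) := by
  choose! r hr hq using h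
  obtain ⟨δ, hδ, H⟩ := lebesgue_number_lemma_of_metric (c := fun x : K => ball (x : X) (r x)) hK
    (fun _ => isOpen_ball) (fun x hx => mem_iUnion.2 ⟨⟨x, hx⟩, mem_ball_self (hr x hx)⟩)
  refine ⟨δ, hδ, fun y hy => ?_⟩
  obtain ⟨x, hx⟩ := H y hy
  exact hQ _ _ hx (hq x x.2)

theorem Lin.unif {a b : ℝ → ℂ} (h : Lin a b) : ∃ d > 0, ∀ t ∈ Icc (0 : ℝ) 1, ∀ s0 : ℝ,
    ∃ k > 0, ∃ e : ℂ, Mono (comb a b t) e k (ball s0 d) := by
  obtain ⟨δ, hδ, H⟩ := leb (K := Icc (0 : ℝ) 1 ×ˢ Icc (0 : ℝ) 1) (isCompact_Icc.prod isCompact_Icc)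
    (fun U => ∃ k > 0, ∃ e : ℂ, ∀ t ∈ Icc (0 : ℝ) 1, Mono (comb a b t) e k {s | (t, s) ∈ U})
    (fun U V hUV ⟨k, hk, e, he⟩ => ⟨k, hk, e, fun t ht => (he t ht).mono fun s hs => hUV hs⟩)
    (fun x hx => by
      obtain ⟨d, hd, k, hk, e, he⟩ := h.loc x.1 hx.1 x.2
      refine ⟨d, hd, k, hk, e, fun t ht s hs s' hs' hle => ?_⟩
      simp only [mem_ofPred_eq, mem_ball, Prod.dist_eq, max_lt_iff] at hs hs'
      exact he t ht (by simpa [Real.dist_eq] using hs.1) s hs.2 s' hs'.2 hle)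
  refine ⟨δ, hδ, fun t ht s0 => ?_⟩
  obtain ⟨k, hk, e, he⟩ := H (t, Int.fract s0)
    ⟨ht, Int.fract_nonneg s0, (Int.fract_lt_one s0).le⟩
  refine ⟨k, hk, e, Mono.shift (comb_per h.pa h.pb t) ((he t ht).mono fun s hs => ?_)⟩
  simp only [mem_ofPred_eq, mem_ball, Prod.dist_eq, max_lt_iff, dist_self]
  exact ⟨hδ, hs⟩

theorem Lin.sep {a b : ℝ → ℂ} (h : Lin a b) {η : ℝ} (hη : 0 < η) : ∃ ρ > 0,
    ∀ t ∈ Icc (0 : ℝ) 1, ∀ s u : ℝ, η ≤ u → u ≤ 1 - η →
      ρ ≤ ‖comb a b t (s + u) - comb a b t s‖ := by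
  have hc := comb_cont h.ca h.cb
  have hf : Continuous fun x : ℝ × ℝ × ℝ => ‖comb a b x.1 (x.2.1 + x.2.2) - comb a b x.1 x.2.1‖ :=
    ((hc.comp (f := fun x : ℝ × ℝ × ℝ => (x.1, x.2.1 + x.2.2)) (by fun_prop)).sub
      (hc.comp (f := fun x : ℝ × ℝ × ℝ => (x.1, x.2.1)) (by fun_prop))).norm
  obtain ⟨ρ, hρ, H⟩ := (isCompact_Icc.prod (isCompact_Icc.prod isCompact_Icc) :
      IsCompact (Icc (0 : ℝ) 1 ×ˢ Icc (0 : ℝ) 1 ×ˢ Icc η (1 - η))).exists_forall_le' (a := 0)
    hf.continuousOn (fun x hx => norm_pos_iff.2 (sub_ne_zero.2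
      (h.inj x.1 hx.1 _ _ (by linarith [hx.2.2.1]) (by linarith [hx.2.2.2])).symm))
  refine ⟨ρ, hρ, fun t ht s u h1 h2 => ?_⟩
  have := H (t, Int.fract s, u) ⟨ht, ⟨Int.fract_nonneg s, (Int.fract_lt_one s).le⟩, h1, h2⟩
  have hp := comb_per h.pa h.pb t
  have e1 : comb a b t (Int.fract s + u) = comb a b t (s + u) := by
    rw [← per_int hp ⌊s⌋ (Int.fract s + u)]
    congr 1; simp only [Int.fract]; ring
  simp only at this
  rwa [e1, per_fract hp] at this

theorem Mono.ne {F : ℝ → ℂ} {e : ℂ} {k s t d : ℝ} (h : Mono F e k (ball s d)) (hk : 0 < k)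
    (h1 : s < t) (h2 : t - s < d) : F s ≠ F t := fun he => by
  have := h s (mem_ball_self (by linarith)) t
    (by rw [mem_ball, Real.dist_eq, abs_of_pos (by linarith)]; exact h2) h1.le
  rw [he, sub_self, mul_zero, Complex.zero_re] at this
  nlinarith

/-- The core stability lemma. -/
theorem Lin.core {a b : ℝ → ℂ} (h : Lin a b) {d : ℝ} (hd : 0 < d) : ∃ ρ > 0,
    ∀ t ∈ Icc (0 : ℝ) 1, ∀ G : ℝ → ℂ, Periodic G 1 → (∀ s, ‖G s - comb a b t s‖ ≤ ρ) →
      (∀ s0 : ℝ, ∃ k > 0, ∃ e : ℂ, Mono G e k (ball s0 d)) → Inj1 G := by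
  obtain ⟨ρ, hρ, H⟩ := h.sep (half_pos hd)
  refine ⟨ρ / 3, by positivity, fun t ht G hG hc hm s s' h1 h2 he => ?_⟩
  rcases lt_or_ge (s' - s) d with h3 | h3
  · obtain ⟨k, hk, e, hm⟩ := hm s
    exact hm.ne hk h1 h3 he
  rcases lt_or_ge (s + 1 - s') d with h4 | h4
  · obtain ⟨k, hk, e, hm⟩ := hm s'
    exact hm.ne hk h2 h4 (by rw [hG, he])
  have h5 := H t ht s (s' - s) (by linarith) (by linarith)
  rw [add_sub_cancel] at h5
  have e1 : comb a b t s' - comb a b t s = (G s - comb a b t s) - (G s' - comb a b t s') := by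
    rw [he]; ring
  rw [e1] at h5
  linarith [norm_sub_le (G s - comb a b t s) (G s' - comb a b t s'), hc s, hc s']

theorem emb_of_mono {G : ℝ → ℂ} {d : ℝ} (hd : 0 < d) (hs : ContDiff ℝ ∞ G) (hp : Periodic G 1)
    (hi : Inj1 G) (hm : ∀ s0 : ℝ, ∃ k > 0, ∃ e : ℂ, Mono G e k (ball s0 d)) : Emb G := by
  refine ⟨hs, hp, injOn_of_ne hi, fun s h0 => ?_⟩
  obtain ⟨k, hk, e, hm⟩ := hm s
  have := hm.le_deriv hd ((hs.differentiable (by simp)) s).hasDerivAt
  rw [h0, mul_zero, Complex.zero_re] at this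
  linarith

/-- Smooth curves close to the ends of a good linear homotopy are isotopic. -/
theorem Lin.iso {a b : ℝ → ℂ} (h : Lin a b) : ∃ d > 0, ∃ ρ > 0, ∀ A B : ℝ → ℂ,
    ContDiff ℝ ∞ A → ContDiff ℝ ∞ B → Periodic A 1 → Periodic B 1 → (∀ s, ‖A s - a s‖ ≤ ρ) →
    (∀ s, ‖B s - b s‖ ≤ ρ) → (∀ t ∈ Icc (0 : ℝ) 1, ∀ (e : ℂ) (k s0 : ℝ),
      Mono (comb a b t) e k (ball s0 d) → Mono (comb A B t) e k (ball s0 (d / 2))) →
    Iso univ A B := by
  obtain ⟨d, hd, H⟩ := h.unif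
  obtain ⟨ρ, hρ, H'⟩ := h.core (half_pos hd)
  refine ⟨d, hd, ρ, hρ, fun A B hA hB pA pB cA cB hm => ?_⟩
  refine ⟨fun x => comb A B x.1 x.2, ?_, fun t ht => ⟨?_, fun _ => trivial⟩,
    fun s => by simp [comb], fun s => by simp [comb]⟩
  · unfold comb
    have h1 : ContDiff ℝ ∞ fun x : ℝ × ℝ => (x.1 : ℂ) :=
      Complex.ofRealCLM.contDiff.comp contDiff_fst
    exact ((contDiff_const.sub h1).mul (hA.comp contDiff_snd)).add (h1.mul (hB.comp contDiff_snd))
  · have hm' : ∀ s0 : ℝ, ∃ k > 0, ∃ e : ℂ, Mono (comb A B t) e k (ball s0 (d / 2)) := fun s0 => by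
      obtain ⟨k, hk, e, he⟩ := H t ht s0
      exact ⟨k, hk, e, hm t ht e k s0 he⟩
    refine emb_of_mono (half_pos hd) ?_ (comb_per pA pB t)
      (H' t ht _ (comb_per pA pB t) (fun s => comb_close ht (cA s) (cB s)) hm') hm'
    show ContDiff ℝ ∞ fun s => (1 - (t : ℂ)) * A s + t * B s
    exact (contDiff_const.mul hA).add (contDiff_const.mul hB)

theorem unif_per {a : ℝ → ℂ} (hc : Continuous a) (hp : Periodic a 1) {ρ : ℝ} (hρ : 0 < ρ) :
    ∃ δ > 0, ∀ s s' : ℝ, |s' - s| < δ → ‖a s' - a s‖ ≤ ρ := by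
  obtain ⟨δ, hδ, H⟩ := leb (K := Icc (0 : ℝ) 1) isCompact_Icc
    (fun U => ∀ s ∈ U, ∀ s' ∈ U, ‖a s' - a s‖ ≤ ρ)
    (fun U V hUV h s hs s' hs' => h s (hUV hs) s' (hUV hs'))
    (fun x _ => by
      obtain ⟨r, hr, h⟩ := Metric.continuousAt_iff.1 (hc.continuousAt (x := x)) (ρ / 2)
        (half_pos hρ)
      refine ⟨r, hr, fun s hs s' hs' => ?_⟩
      have h1 := h hs
      have h2 := h hs'
      rw [← dist_eq_norm]
      linarith [dist_triangle_right (a s') (a s) (a x)])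
  refine ⟨δ, hδ, fun s s' h => ?_⟩
  have := H (Int.fract s) ⟨Int.fract_nonneg s, (Int.fract_lt_one s).le⟩ _ (mem_ball_self hδ)
    (s' + ((-⌊s⌋ : ℤ) : ℝ)) (by
      rw [mem_ball, Real.dist_eq]
      rwa [show s' + ((-⌊s⌋ : ℤ) : ℝ) - Int.fract s = s' - s by
        simp only [Int.fract]; push_cast; ring])
  rwa [per_int hp, per_fract hp] at this

theorem lin_self {a : ℝ → ℂ} (h : Emb a) : Lin a a := by
  have hc := h.smooth.continuous
  refine ⟨hc, hc, h.per, h.per, fun t _ => ?_, fun t0 _ s0 => ?_⟩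
  · rw [comb_self]; exact fun s t => h.ne
  have hD : Continuous (deriv a) := h.smooth.continuous_deriv (by simp)
  have hf : Continuous fun s => (conj (deriv a s0) * deriv a s).re := by fun_prop
  have hpos : 0 < (conj (deriv a s0) * deriv a s0).re := by
    rw [Complex.conj_mul', ← Complex.ofReal_pow, Complex.ofReal_re]
    exact pow_pos (norm_pos_iff.2 (h.reg s0)) 2
  obtain ⟨d, hd, H⟩ := Metric.eventually_nhds_iff_ball.1
    (hf.continuousAt.eventually (lt_mem_nhds (half_lt_self hpos)))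
  refine ⟨d, hd, _, half_pos hpos, deriv a s0, fun t _ _ => ?_⟩
  rw [comb_self]
  exact mono_of_right hc fun x hx => ⟨deriv a x,
    ((h.smooth.differentiable (by simp)) x).hasDerivAt.hasDerivWithinAt, (H x hx).le⟩

/-! ### Mollification -/

/-- Convolution with a normalised bump function. -/
noncomputable def moll (φ : ContDiffBump (0 : ℝ)) (a : ℝ → ℂ) : ℝ → ℂ :=
  φ.normed volume ⋆[ContinuousLinearMap.lsmul ℝ ℝ, volume] a

/-- The filter of bump functions with small support. -/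
def sm : Filter (ContDiffBump (0 : ℝ)) := comap ContDiffBump.rOut (𝓝 0)

theorem ev_sm {δ : ℝ} (hδ : 0 < δ) : ∀ᶠ φ in sm, φ.rOut < δ :=
  (tendsto_comap (f := fun φ : ContDiffBump (0 : ℝ) => φ.rOut) (x := 𝓝 0)).eventually
    (gt_mem_nhds hδ)

theorem sm_neBot : sm.NeBot := by
  refine comap_neBot fun t ht => ?_
  obtain ⟨r, hr, h⟩ := Metric.mem_nhds_iff.1 ht
  refine ⟨⟨r / 4, r / 2, by positivity, by linarith⟩, h ?_⟩
  rw [mem_ball, Real.dist_eq, sub_zero, abs_of_pos (by positivity)]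
  show r / 2 < r
  linarith

variable {φ : ContDiffBump (0 : ℝ)} {a b : ℝ → ℂ}

theorem moll_apply (φ : ContDiffBump (0 : ℝ)) (a : ℝ → ℂ) (s : ℝ) :
    moll φ a s = ∫ u, φ.normed volume u • a (s - u) := rfl

theorem moll_smooth (ha : Continuous a) : ContDiff ℝ ∞ (moll φ a) :=
  φ.hasCompactSupport_normed.contDiff_convolution_left _ φ.contDiff_normed ha.locallyIntegrable

theorem moll_per (ha : Periodic a 1) : Periodic (moll φ a) 1 := fun s => by
  simp only [moll_apply]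
  congr 1; funext u
  rw [show s + 1 - u = s - u + 1 by ring, ha]

theorem moll_int (ha : Continuous a) (s : ℝ) :
    Integrable (fun u => φ.normed volume u • a (s - u)) volume :=
  (φ.continuous_normed.smul (ha.comp (by fun_prop))).integrable_of_hasCompactSupport
    φ.hasCompactSupport_normed.smul_right

theorem moll_comb (ha : Continuous a) (hb : Continuous b) (t : ℝ) :
    comb (moll φ a) (moll φ b) t = moll φ (comb a b t) := by
  funext s
  simp only [comb, moll_apply]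
  rw [← integral_const_mul, ← integral_const_mul, ← integral_add ((moll_int ha s).const_mul _)
    ((moll_int hb s).const_mul _)]
  congr 1; funext u
  simp only [Complex.real_smul]; ring

theorem moll_close (hc : Continuous a) (hp : Periodic a 1) {ρ : ℝ} (hρ : 0 < ρ) :
    ∀ᶠ φ in sm, ∀ s, ‖moll φ a s - a s‖ ≤ ρ := by
  obtain ⟨δ, hδ, H⟩ := unif_per hc hp hρ
  filter_upwards [ev_sm hδ] with φ hφ s
  rw [← dist_eq_norm]
  refine φ.dist_normed_convolution_le hc.aestronglyMeasurable fun x hx => ?_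
  rw [dist_eq_norm]
  exact H s x ((show |x - s| < φ.rOut from hx).trans hφ)

theorem Mono.moll {e : ℂ} {k s0 d : ℝ} (h : Mono a e k (ball s0 d)) (ha : Continuous a)
    (hφ : φ.rOut < d / 2) : Mono (moll φ a) e k (ball s0 (d / 2)) := by
  intro s hs s' hs' hle
  have hi := ((moll_int (φ := φ) ha s').sub (moll_int (φ := φ) ha s)).const_mul (conj e)
  simp only [moll_apply]
  rw [← integral_sub (moll_int ha s') (moll_int ha s), ← integral_const_mul]
  have e1 := Complex.reCLM.integral_comp_comm hi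
  simp only [Complex.reCLM_apply, Pi.sub_apply] at e1
  rw [← e1]
  have e2 : k * (s' - s) = ∫ u, φ.normed volume u * (k * (s' - s)) := by
    rw [integral_mul_const, φ.integral_normed, one_mul]
  rw [e2]
  refine integral_mono (φ.integrable_normed.mul_const _) (Complex.reCLM.integrable_comp hi)
    fun u => ?_
  have e3 : conj e * (φ.normed volume u • a (s' - u) - φ.normed volume u • a (s - u)) =
      (φ.normed volume u : ℂ) * (conj e * (a (s' - u) - a (s - u))) := by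
    simp only [Complex.real_smul]; ring
  simp only [e3, Complex.re_ofReal_mul]
  by_cases hu : φ.normed volume u = 0
  · simp [hu]
  have hu' : u ∈ ball (0 : ℝ) φ.rOut := by
    rw [← φ.support_normed_eq (μ := volume)]; exact hu
  have key : ∀ x ∈ ball s0 (d / 2), x - u ∈ ball s0 d := fun x hx => by
    rw [mem_ball, Real.dist_eq] at hx hu' ⊢
    rw [sub_zero] at hu'
    rw [abs_lt] at *
    constructor <;> linarith [hx.1, hx.2, hu'.1, hu'.2]
  have := h _ (key s hs) _ (key s' hs') (by linarith)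
  rw [show s' - u - (s - u) = s' - s by ring] at this
  exact mul_le_mul_of_nonneg_left this (φ.nonneg_normed u)

theorem Lin.iso_moll (h : Lin a b) : ∀ᶠ φ in sm, Iso univ (moll φ a) (moll φ b) := by
  obtain ⟨d, hd, ρ, hρ, H⟩ := h.iso
  filter_upwards [ev_sm (half_pos hd), moll_close h.ca h.pa hρ, moll_close h.cb h.pb hρ] with
    φ h1 h2 h3
  refine H _ _ (moll_smooth h.ca) (moll_smooth h.cb) (moll_per h.pa) (moll_per h.pb) h2 h3
    fun t _ e k s0 hm => ?_
  rw [moll_comb h.ca h.cb]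
  exact hm.moll ((comb_cont h.ca h.cb).comp (f := fun s : ℝ => (t, s)) (by fun_prop)) h1

theorem iso_moll_self (h : Emb a) : ∀ᶠ φ in sm, Iso univ a (moll φ a) := by
  obtain ⟨d, hd, ρ, hρ, H⟩ := (lin_self h).iso
  have hc := h.smooth.continuous
  filter_upwards [ev_sm (half_pos hd), moll_close hc h.per hρ] with φ h1 h2
  refine H _ _ h.smooth (moll_smooth hc) h.per (moll_per h.per) (fun s => by simp [hρ.le]) h2
    fun t ht e k s0 hm => ?_
  rw [comb_self] at hm
  exact (hm.mono (ball_subset_ball (by linarith))).comb (hm.moll hc h1) ht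

end Pool.Agent.Lib.MP_55a7f7_gt.TS
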