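import Pool.Agent.Lib.MP_55a7f7_gt.Basic
import Pool.Agent.Lib.MP_cdc9ab_al.Param

/-! Calculus in two variables, logarithms, and Hamiltonians of isotopies on the sphere. -/

set_option autoImplicit false

open scoped ContDiff Topology NNReal ComplexConjugate
open Set Real Filter MeasureTheory

namespace Pool.Agent.Lib.MP_55a7f7_gt

section Two

variable {F : Type} [NormedAddCommGroup F] [NormedSpace ℝ F] {f : ℝ × ℝ → F}

/-- Derivative in the second variable. -/
noncomputable def ds (f : ℝ × ℝ → F) (x : ℝ × ℝ) : F := fderiv ℝ f x (0, 1)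

/-- Derivative in the first variable. -/
noncomputable def dt (f : ℝ × ℝ → F) (x : ℝ × ℝ) : F := fderiv ℝ f x (1, 0)

theorem hasDerivAt_ds (hf : ContDiff ℝ ∞ f) (t s : ℝ) :
    HasDerivAt (fun s => f (t, s)) (ds f (t, s)) s :=
  (hf.differentiable (by simp) (t, s)).hasFDerivAt.comp_hasDerivAt s
    ((hasDerivAt_const s t).prodMk (hasDerivAt_id s))

theorem hasDerivAt_dt (hf : ContDiff ℝ ∞ f) (t s : ℝ) :
    HasDerivAt (fun t => f (t, s)) (dt f (t, s)) t :=
  (hf.differentiable (by simp) (t, s)).hasFDerivAt.comp_hasDerivAt t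
    ((hasDerivAt_id t).prodMk (hasDerivAt_const t s))

theorem contDiff_ds (hf : ContDiff ℝ ∞ f) : ContDiff ℝ ∞ (ds f) :=
  (hf.fderiv_right (m := ∞) (le_of_eq rfl)).clm_apply contDiff_const

theorem contDiff_dt (hf : ContDiff ℝ ∞ f) : ContDiff ℝ ∞ (dt f) :=
  (hf.fderiv_right (m := ∞) (le_of_eq rfl)).clm_apply contDiff_const

theorem dt_ds (hf : ContDiff ℝ ∞ f) (x : ℝ × ℝ) : dt (ds f) x = ds (dt f) x := by
  have h1 := ((hf.fderiv_right (m := ∞) (le_of_eq rfl)).differentiable (by simp) x).hasFDerivAt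
  have h2 : ∀ v w, fderiv ℝ (fun y => fderiv ℝ f y v) x w = fderiv ℝ (fderiv ℝ f) x w v :=
    fun v w => by rw [(h1.clm_apply (hasFDerivAt_const v x)).fderiv]; simp
  have h3 := (hf.contDiffAt (x := x)).isSymmSndFDerivAt (by simp; norm_cast)
  exact (h2 _ _).trans ((h3 _ _).trans (h2 _ _).symm)

theorem ds_per (hf : ContDiff ℝ ∞ f) {C : F} (h : ∀ t s, f (t, s + 1) = f (t, s) + C) (t s : ℝ) :
    ds f (t, s + 1) = ds f (t, s) := by
  have h1 := (hasDerivAt_ds hf t (s + 1)).comp_add_const s 1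
  simp only [h] at h1
  exact h1.unique ((hasDerivAt_ds hf t s).add_const C)

theorem dt_per (hf : ContDiff ℝ ∞ f) {C : F} (h : ∀ t s, f (t, s + 1) = f (t, s) + C) (t s : ℝ) :
    dt f (t, s + 1) = dt f (t, s) := by
  have h1 := hasDerivAt_dt hf t (s + 1)
  simp only [h] at h1
  exact h1.unique ((hasDerivAt_dt hf t s).add_const C)

end Two

theorem contDiff_int {X : Type} [NormedAddCommGroup X] [NormedSpace ℝ X] {Ψ : X × ℝ → ℝ}
    (h : ContDiff ℝ ∞ Ψ) : ContDiff ℝ ∞ fun x => ∫ u in (0 : ℝ)..1, Ψ (x, u) := by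
  simp only [intervalIntegral.integral_of_le zero_le_one, ← integral_Icc_eq_integral_Ioc]
  refine contDiff_iff_contDiffAt.2 fun x => ?_
  simpa using MP_cdc9ab_al.param_smooth (μ := volume) (c := fun _ => (1 : ℝ)) (ρ := id)
    (isCompact_Icc (a := (0 : ℝ)) (b := 1)) measurableSet_Icc continuousOn_id
    (continuous_const.integrableOn_Icc) isOpen_univ (fun _ _ => h.contDiffAt) (x₀ := x)
    fun _ _ => trivial

theorem hasDerivAt_int {f : ℝ × ℝ → ℝ} (h : ContDiff ℝ ∞ f) (t : ℝ) :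
    HasDerivAt (fun t => ∫ u in (0 : ℝ)..1, f (t, u)) (∫ u in (0 : ℝ)..1, dt f (t, u)) t := by
  have h1 := ((contDiff_int h).differentiable (by simp) t).hasDerivAt
  refine h1.congr_deriv (Eq.symm ?_)
  simp only [intervalIntegral.integral_of_le zero_le_one, ← integral_Icc_eq_integral_Ioc]
  have := MP_cdc9ab_al.param_fderiv (μ := volume) (c := fun _ => (1 : ℝ)) (ρ := id)
    (isCompact_Icc (a := (0 : ℝ)) (b := 1)) measurableSet_Icc continuousOn_id
    (continuous_const.integrableOn_Icc) isOpen_univ (fun _ _ => h.contDiffAt) (x₀ := t)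
    (fun _ _ => trivial) 1
  simp only [one_smul, id, fderiv_apply_one_eq_deriv, (hasDerivAt_dt h _ _).deriv] at this
  exact this.symm

theorem contDiff_prim {f : ℝ × ℝ → ℝ} (h : ContDiff ℝ ∞ f) :
    ContDiff ℝ ∞ fun x : ℝ × ℝ => ∫ u in (0 : ℝ)..x.2, f (x.1, u) := by
  have := contDiff_int (Ψ := fun y : (ℝ × ℝ) × ℝ => y.1.2 * f (y.1.1, y.1.2 * y.2))
    (ContDiff.mul (by fun_prop) (h.comp (by fun_prop)))
  convert this using 2 with x
  simpa using (intervalIntegral.mul_integral_comp_mul_left (f := fun u => f (x.1, u))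
    (a := 0) (b := 1) x.2).symm

section Emb

variable {F G : Type} [NormedAddCommGroup F] [NormedSpace ℝ F] [NormedAddCommGroup G]
  [NormedSpace ℝ G] {γ : ℝ → F} {δ : ℝ → G}

theorem Emb.of_comp (hγ : Emb γ) (g : G → F) (h1 : ContDiff ℝ ∞ δ) (h2 : Function.Periodic δ 1)
    (h3 : ∀ s, DifferentiableAt ℝ g (δ s)) (h4 : ∀ s, g (δ s) = γ s) : Emb δ := by
  refine ⟨h1, h2, fun s hs t ht e => hγ.inj hs ht (by rw [← h4, ← h4, e]), fun s e => hγ.reg s ?_⟩
  have := (h3 s).hasFDerivAt.comp_hasDerivAt s (h1.differentiable (by simp) s).hasDerivAt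
  rw [e, map_zero, show g ∘ δ = γ from funext h4] at this
  exact this.deriv

theorem Emb.neg (hγ : Emb γ) : Emb fun s => γ (-s) := by
  refine ⟨hγ.smooth.comp contDiff_neg, fun s => ?_,
    injOn_of_ne fun s t h1 h2 => (hγ.ne (by linarith) (by linarith)).symm, fun s e => ?_⟩
  · simpa [← sub_eq_neg_add] using hγ.per.sub_eq (-s)
  · rw [deriv_comp_neg, neg_eq_zero] at e
    exact hγ.reg _ e

end Emb

theorem const_of_exp {X : Type} [TopologicalSpace X] [PreconnectedSpace X] {f : X → ℂ}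
    (hf : Continuous f) {c : ℂ} (h : ∀ x, Complex.exp (f x) = c) (x y : X) : f x = f y :=
  Complex.isCoveringMap_exp.const_of_comp hf (fun a b => Subtype.ext ((h a).trans (h b).symm)) x y

theorem exists_log {ζ : ℝ × ℝ → ℂ} (h : ContDiff ℝ ∞ ζ) (h0 : ∀ x, ζ x ≠ 0) :
    ∃ Λ : ℝ × ℝ → ℂ, ContDiff ℝ ∞ Λ ∧ ∀ x, Complex.exp (Λ x) = ζ x := by
  obtain ⟨Λ, ⟨-, hΛ⟩, -⟩ := Complex.isCoveringMapOn_exp.existsUnique_continuousMap_lifts
    ⟨ζ, h.continuous⟩ (Complex.exp_log (h0 0)) h0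
  have h1 : ∀ x, Complex.exp (Λ x) = ζ x := congrFun hΛ
  refine ⟨Λ, contDiff_iff_contDiffAt.2 fun x => ?_, h1⟩
  have h2 : ContDiffAt ℝ ∞ (fun y => Complex.log (ζ y / ζ x) + Λ x) x :=
    (((Complex.contDiffAt_log (x := ζ x / ζ x) (by simp [h0 x])).restrict_scalars ℝ).comp x
      (h.contDiffAt.div_const _)).add contDiffAt_const
  refine h2.congr_of_eventuallyEq ?_
  have h3 : ContinuousAt (fun y => |(Λ y - Λ x).im|) x := by fun_prop
  filter_upwards [h3.eventually_lt continuousAt_const (by simpa using pi_pos)] with y hy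
  rw [← h1, ← h1, ← Complex.exp_sub, Complex.log_exp (abs_lt.1 hy).1 (abs_lt.1 hy).2.le]
  ring

theorem inner_grad {H : ℝ × E3 → ℝ} (hH : ContDiff ℝ ∞ H) (t : ℝ) (p b : E3) :
    inner ℝ (grad H t p) b = fderiv ℝ H (t, p) (0, b) := by
  have := (hH.differentiable (by simp) (t, p)).hasFDerivAt.comp p (hasFDerivAt_prodMk_right t p)
  rw [grad, gradient, InnerProductSpace.toDual_symm_apply,
    show (fun q => H (t, q)) = H ∘ Prod.mk t from rfl, this.fderiv]
  rfl

theorem lipschitz_field {H : ℝ × E3 → ℝ} (hH : ContDiff ℝ ∞ H) (hc : HasCompactSupport H) :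
    ∃ L : ℝ≥0, ∀ t, LipschitzWith L fun p => cr (grad H t p) p := by
  have e : ∀ (x : ℝ × E3) i, grad H x.1 x.2 i = fderiv ℝ H x (0, EuclideanSpace.single i 1) :=
    fun x i => by rw [← inner_grad hH, EuclideanSpace.inner_single_right]; simp
  have h1 : ContDiff ℝ 1 fun x : ℝ × E3 => grad H x.1 x.2 := contDiff_euclidean.2 fun i => by
    simp only [e]
    exact (hH.fderiv_right (by norm_cast)).clm_apply contDiff_const
  have h2 : HasCompactSupport fun x : ℝ × E3 => cr (grad H x.1 x.2) x.2 :=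
    (hc.fderiv (𝕜 := ℝ)).mono fun x hx h => hx (by
      have : grad H x.1 x.2 = 0 := by ext i; simp [e, h]
      simp only [this]; apply ext3 <;> simp)
  obtain ⟨L, hL⟩ := (ContDiff.cr h1 contDiff_snd).lipschitzWith_of_hasCompactSupport h2 one_ne_zero
  refine ⟨L, fun t => LipschitzWith.of_dist_le_mul fun p q => ?_⟩
  simpa using hL.dist_le_mul (t, p) (t, q)

theorem ham_of_area (hJ : JetStmt) {c : ℝ × ℝ → E3} (hc : ContDiff ℝ ∞ c)
    (he : ∀ t, Emb fun s => c (t, s)) (h1 : ∀ x, ‖c x‖ = 1)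
    (ha : ∀ t, ∫ s in (0 : ℝ)..1, inner ℝ (cr (c (t, s)) (dt c (t, s))) (ds c (t, s)) = 0) :
    ∃ H : ℝ × E3 → ℝ, ContDiff ℝ ∞ H ∧ HasCompactSupport H ∧ ∀ (p : ℝ → E3) (s : ℝ),
      p 0 = c (0, s) → (∀ t ∈ Icc (0 : ℝ) 1, HasDerivAt p (cr (grad H t (p t)) (p t)) t) →
        p 1 = c (1, s) := by
  have hp : ∀ t s, c (t, s + 1) = c (t, s) + 0 := fun t s => by simpa using (he t).per s
  have hw := ContDiff.cr hc (contDiff_dt hc)
  have hf := hw.inner ℝ (contDiff_ds hc)
  have hwp : ∀ t s, cr (c (t, s + 1)) (dt c (t, s + 1)) = cr (c (t, s)) (dt c (t, s)) :=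
    fun t s => by rw [hp, dt_per hc hp, add_zero]
  have hfc : ∀ t, Continuous fun s => inner ℝ (cr (c (t, s)) (dt c (t, s))) (ds c (t, s)) :=
    fun t => hf.continuous.comp (Continuous.prodMk_right t)
  obtain ⟨H, H1, H2, H3⟩ := hJ c _ _ hc hw (contDiff_prim hf) he hwp (fun t s => by
      have := Function.Periodic.intervalIntegral_add_eq (T := 1) (f := fun s =>
        inner ℝ (cr (c (t, s)) (dt c (t, s))) (ds c (t, s)))
        (fun s => by simp only [hwp, ds_per hc hp]) s 0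
      rw [zero_add, ha] at this
      simp only
      rw [← intervalIntegral.integral_add_adjacent_intervals (b := s)
        ((hfc t).intervalIntegrable _ _) ((hfc t).intervalIntegrable _ _), this, add_zero])
    fun t s => by rw [(hasDerivAt_ds hc t s).deriv, (hfc t).deriv_integral]
  obtain ⟨L, hL⟩ := lipschitz_field H1 H2
  refine ⟨H, H1, H2, fun p s p0 hp' => ODE_solution_unique (a := 0) (b := 1)
    (g := fun t => c (t, s)) hL (fun t ht => (hp' t ht).continuousAt.continuousWithinAt)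
    (fun t ht => (hp' t (Ico_subset_Icc_self ht)).hasDerivWithinAt)
    (hc.continuous.comp (Continuous.prodMk_left s)).continuousOn (fun t ht => ?_) p0
    (right_mem_Icc.2 zero_le_one)⟩
  convert (hasDerivAt_dt hc t s).hasDerivWithinAt using 1
  have h2 := ((hasDerivAt_dt hc t s).inner ℝ (hasDerivAt_dt hc t s)).deriv
  have h3 := norm_sq3 (c (t, s))
  simp only [real_inner_self_eq_norm_sq, h1, deriv_const', inner3] at h2 h3
  rw [H3 t (Ico_subset_Icc_self ht)]
  apply ext3 <;> simp only [cr_zero, cr_one, cr_two]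
  · linear_combination (-dt c (t, s) 0) * h3 + c (t, s) 0 / 2 * h2
  · linear_combination (-dt c (t, s) 1) * h3 + c (t, s) 1 / 2 * h2
  · linear_combination (-dt c (t, s) 2) * h3 + c (t, s) 2 / 2 * h2

end Pool.Agent.Lib.MP_55a7f7_gt
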